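import Mathlib
import Pool.Agent.Helper13.Om.NoiseB

set_option autoImplicit false

/-! Project QR (MP_e0aac0_nt): definitions.

Total variation independence of `Ω(n), ..., Ω(n+k-1)` at almost all scales is reduced to
independence on product sets. The library `Helper13.Om` is used: `Em`, `Ep` (means of a function
of `Ω` at `k` consecutive integers / at `k` independent integers), `EE` (expectation for product
weights), `Enu`, `kap`, `vec`, `tauL`, `wB`, `cntB`, `clip`, `Bv`. -/

namespace Helper11.QR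

open Finset Helper13.Om

/-- `F` is `δ`-small against all products of bounded functions of one variable, with respect to
the product law of `Ω` at scale `M`. -/
def CutLe (k M : ℕ) (δ : ℝ) (F : (Fin k → ℕ) → ℝ) : Prop :=
  ∀ f : Fin k → ℕ → ℝ, (∀ i t, |f i t| ≤ 1) →
    |Ep k M (fun ℓ => F ℓ * ∏ i, f i (ℓ i))| ≤ δ

/-- The primes of the model: `h < q < 2 ^ (E + 1)`. -/
def PP (h E : ℕ) : Finset ℕ := (Finset.range (2 ^ (E + 1))).filter (fun q => q.Prime ∧ h < q)

lemma mem_PP (h E q : ℕ) : q ∈ PP h E ↔ q < 2 ^ (E + 1) ∧ q.Prime ∧ h < q := by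
  unfold PP
  rw [Finset.mem_filter, Finset.mem_range]

/-- The numbers of primes of `P` dividing `m + v`, for `v = 1, ..., n` (and `0` at `v = 0`). -/
def svec (n : ℕ) (P : Finset ℕ) (m : ℕ) (v : Fin (n + 1)) : ℕ :=
  if v = 0 then 0 else (P.filter (fun q => q ∣ m + v)).card

/-- Expectation of a function of the number of successes of independent trials with success
probabilities `1 / q`, `q ∈ P`. -/
noncomputable def Es (P : Finset ℕ) (a : ℕ → ℝ) : ℝ :=
  EE (fun (q : P) (b : Bool) => wB (1 / ((q : ℕ) : ℝ)) b) (fun c => a (cntB c))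

/-- The law of the number of successes, on the finite type `Fin (L + 2)` (exact when
`P.card ≤ L + 1`). -/
noncomputable def sg (P : Finset ℕ) (L : ℕ) (t : Fin (L + 2)) : ℝ :=
  ∑ c ∈ (Finset.univ : Finset (P → Bool)).filter (fun c => clip L (cntB c) = t),
    ∏ q : P, wB (1 / ((q : ℕ) : ℝ)) (c q)

/-- The dilations used: `d ≤ H`, `d ≡ 1` modulo `k!`. -/
def DD (k H : ℕ) : Finset ℕ :=
  (Finset.Icc 1 H).filter (fun d => d % k.factorial = 1 % k.factorial)

/-- The total weight of the dilations. -/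
noncomputable def LL (k H : ℕ) : ℝ := ∑ d ∈ DD k H, (1 : ℝ) / d

/-- The edges `(j, d)` of the window `m + 1, m + 2, ...` in the class `c`:
`1 ≤ j ≤ H`, `d ∈ DD k H`, `d ∣ m + j` and `(m + j) / d ≡ c (mod k)`. The vertices of the edge
are `j, j + d, ..., j + (k - 1) d`. -/
def edges (k H c m : ℕ) : Finset (ℕ × ℕ) :=
  ((Finset.Icc 1 H) ×ˢ (DD k H)).filter (fun e => e.2 ∣ m + e.1 ∧ (m + e.1) / e.2 % k = c)

/-- The vertices of an edge, in `Fin (k * H + 1)`. -/
def vert (k H : ℕ) (e : ℕ × ℕ) (i : Fin k) : Fin (k * H + 1) :=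
  ⟨(e.1 + i * e.2) % (k * H + 1), Nat.mod_lt _ (Nat.succ_pos _)⟩

/-- The set of vertices of an edge. -/
def vset (k H : ℕ) (e : ℕ × ℕ) : Finset (Fin (k * H + 1)) := Finset.univ.image (vert k H e)

/-- The function attached to the dilation `d`: `s d * F (N / d)` at `ℓ - Ω(d)`. -/
noncomputable def rr (k N : ℕ) (F : ℕ → (Fin k → ℕ) → ℝ) (s : ℕ → ℝ) (d : ℕ)
    (ℓ : Fin k → ℕ) : ℝ :=
  if ∀ i, ArithmeticFunction.cardFactors d ≤ ℓ i then
    s d * F (N / d) (fun i => ℓ i - ArithmeticFunction.cardFactors d) else 0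

/-- The window sum. -/
noncomputable def ZZ (k N H c : ℕ) (F : ℕ → (Fin k → ℕ) → ℝ) (s : ℕ → ℝ) (m : ℕ) : ℝ :=
  ∑ e ∈ edges k H c m,
    rr k N F s e.2 (fun i => ArithmeticFunction.cardFactors (m + e.1 + i * e.2))

/-- The vectors `w` of nonnegative integers with sum at most `S`. -/
def WW (n S : ℕ) : Finset (Fin (n + 1) → ℕ) :=
  (Fintype.piFinset (fun _ : Fin (n + 1) => Finset.range (S + 1))).filter
    (fun w => ∑ v, w v ≤ S)

/-- The constant of the polynomial Kubilius model. -/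
def CpN (t : ℕ) : ℕ := 10 ^ 6 * (t + 1) ^ 2

/-- The bound for the mean number of the remaining prime factors. -/
def K0 (h u : ℕ) : ℕ := 8 * (Nat.log 2 (Nat.log 2 h + 1) + Nat.log 2 u + 8)

/-- `φ` depends only on the coordinates in `A`. -/
def DepOn {V Y : Type} (A : Finset V) (φ : (V → Y) → ℝ) : Prop :=
  ∀ y y' : V → Y, (∀ v ∈ A, y v = y' v) → φ y = φ y'

/-- Logarithmic mean of a function of `Ω` at `k` consecutive integers. -/
noncomputable def EmL (k N : ℕ) (F : (Fin k → ℕ) → ℝ) : ℝ :=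
  (∑ n ∈ Finset.Icc 1 N, (1 / (n : ℝ)) * F (fun i => ArithmeticFunction.cardFactors (n + i))) /
    ∑ n ∈ Finset.Icc 1 N, (1 / (n : ℝ))

/-- The logarithmic law of `Ω`. -/
noncomputable def pL (N t : ℕ) : ℝ :=
  (∑ n ∈ (Finset.Icc 1 N).filter (fun n => ArithmeticFunction.cardFactors n = t), 1 / (n : ℝ)) /
    ∑ n ∈ Finset.Icc 1 N, (1 / (n : ℝ))

/-- The law of `Ω` at scale `N`. -/
noncomputable def pO (N t : ℕ) : ℝ :=
  1 / (N : ℝ) *
    (((Finset.Icc 1 N).filter (fun n => ArithmeticFunction.cardFactors n = t)).card : ℝ)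

end Helper11.QR
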