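import Mathlib
import Pool.Agent.Helper11.QR.Defs

set_option autoImplicit false

/-! QR-11: Mertens type upper bounds from `block_sum` (Helper13/Om/Cheb.lean): primes `q` with
`2 ^ j * Nat.log 2 q ≤ E < 2 ^ (j + 1) * Nat.log 2 q` have `∑ 1/q ≤ 4`; `j` is
`Nat.log 2 (E / Nat.log 2 q)` (see the proof of `sieve_upper`, Helper13/Om/Sieve.lean).

`sum_small`: `E = Nat.log 2 h`; for a prime `p ≤ h`, `1 ≤ Nat.log 2 p ≤ E` so `j ≤ Nat.log 2 E`:
at most `Nat.log 2 E + 1` blocks.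
`sum_large`: `E' = Nat.log 2 X`; for a prime `2 ^ E ≤ p ≤ X`, `E ≤ Nat.log 2 p ≤ E'`, so
`j ≤ Nat.log 2 (E' / E)`: at most `Nat.log 2 (E' / E) + 1` blocks. -/

namespace Helper11.QR

open Finset Helper13.Om

private theorem blocks_le (P : Finset ℕ) (hP : ∀ q ∈ P, q.Prime) (E J : ℕ)
    (h : ∀ q ∈ P, Nat.log 2 q ≤ E ∧ Nat.log 2 (E / Nat.log 2 q) < J) :
    ∑ q ∈ P, (1 : ℝ) / q ≤ 4 * J := by
  classical
  have hmaps : ∀ q ∈ P, Nat.log 2 (E / Nat.log 2 q) ∈ Finset.range J := fun q hq =>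
    Finset.mem_range.2 (h q hq).2
  rw [← Finset.sum_fiberwise_of_maps_to hmaps]
  have h1 : ∀ j ∈ Finset.range J,
      ∑ q ∈ P.filter (fun q => Nat.log 2 (E / Nat.log 2 q) = j), (1 : ℝ) / q ≤ 4 := by
    intro j _
    refine block_sum _ (fun q hq => hP q (Finset.mem_filter.1 hq).1) E j fun q hq => ?_
    obtain ⟨hqP, hj⟩ := Finset.mem_filter.1 hq
    have hpos : 0 < Nat.log 2 q := log2_pos_of_prime (hP q hqP)
    have hle := (h q hqP).1
    have hne : E / Nat.log 2 q ≠ 0 := (Nat.div_pos hle hpos).ne'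
    constructor
    · have h2 := Nat.pow_log_le_self 2 hne
      rw [hj] at h2
      exact (Nat.le_div_iff_mul_le hpos).1 h2
    · have h2 := Nat.lt_pow_succ_log_self (b := 2) one_lt_two (E / Nat.log 2 q)
      rw [hj] at h2
      exact (Nat.div_lt_iff_lt_mul hpos).1 h2
  refine (Finset.sum_le_card_nsmul _ _ _ h1).trans ?_
  rw [nsmul_eq_mul, Finset.card_range, mul_comm]

theorem sum_small (h : ℕ) :
    ∑ p ∈ (Finset.range (h + 1)).filter Nat.Prime, (1 : ℝ) / p ≤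
      4 * ((Nat.log 2 (Nat.log 2 h + 1) : ℝ) + 2) := by
  have h1 := blocks_le ((Finset.range (h + 1)).filter Nat.Prime)
    (fun q hq => (Finset.mem_filter.1 hq).2) (Nat.log 2 h) (Nat.log 2 (Nat.log 2 h + 1) + 1)
    (by
      intro q hq
      obtain ⟨h2, _⟩ := Finset.mem_filter.1 hq
      have h3 : q ≤ h := Nat.lt_succ_iff.1 (Finset.mem_range.1 h2)
      refine ⟨Nat.log_mono_right h3, Nat.lt_succ_iff.2 (Nat.log_mono_right ?_)⟩
      exact (Nat.div_le_self _ _).trans (Nat.le_succ _))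
  refine h1.trans ?_
  push_cast
  linarith

theorem sum_large (E X : ℕ) (hE : 1 ≤ E) :
    ∑ p ∈ (Finset.Icc (2 ^ E) X).filter Nat.Prime, (1 : ℝ) / p ≤
      4 * ((Nat.log 2 (Nat.log 2 X / E + 1) : ℝ) + 2) := by
  have h1 := blocks_le ((Finset.Icc (2 ^ E) X).filter Nat.Prime)
    (fun q hq => (Finset.mem_filter.1 hq).2) (Nat.log 2 X) (Nat.log 2 (Nat.log 2 X / E + 1) + 1)
    (by
      intro q hq
      obtain ⟨h2, _⟩ := Finset.mem_filter.1 hq
      obtain ⟨h3, h4⟩ := Finset.mem_Icc.1 h2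
      refine ⟨Nat.log_mono_right h4, Nat.lt_succ_iff.2 (Nat.log_mono_right ?_)⟩
      have h5 : E ≤ Nat.log 2 q := by
        rw [← Nat.log_pow one_lt_two E]
        exact Nat.log_mono_right h3
      exact (Nat.div_le_div_left h5 hE).trans (Nat.le_succ _))
  refine h1.trans ?_
  push_cast
  linarith

end Helper11.QR
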