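import Mathlib
import Pool.Agent.Helper11.QR.Defs

set_option autoImplicit false

/-! QR-07: basic facts on the laws `sg`, `Es` and `tauL (n+1) 0`. All routine
(`wB_nonneg`, `wB_sum`, `sum_prod_eq_one`, `tauL_nonneg`, `tauL_sum`, `clip_val`, `cntB_le`,
`Finset.sum_fiberwise`). -/

namespace Helper11.QR

open Finset Helper13.Om

private lemma one_div_bd {P : Finset ℕ} (hP : ∀ q ∈ P, q.Prime) (q : P) :
    0 ≤ 1 / ((q : ℕ) : ℝ) ∧ 1 / ((q : ℕ) : ℝ) ≤ 1 := by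
  have h1 : (1 : ℝ) ≤ ((q : ℕ) : ℝ) := by
    exact_mod_cast (hP q q.2).one_le
  exact ⟨by positivity, (div_le_one (by linarith)).2 h1⟩

lemma sg_nonneg (P : Finset ℕ) (hP : ∀ q ∈ P, q.Prime) (L : ℕ) (t : Fin (L + 2)) :
    0 ≤ sg P L t :=
  Finset.sum_nonneg fun c _ => Finset.prod_nonneg fun q _ =>
    wB_nonneg _ (one_div_bd hP q).1 (one_div_bd hP q).2 _

lemma sg_sum (P : Finset ℕ) (L : ℕ) : ∑ t, sg P L t = 1 := by
  unfold sg
  rw [Finset.sum_fiberwise (Finset.univ : Finset (P → Bool)) (fun c => clip L (cntB c))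
    (fun c => ∏ q : P, wB (1 / ((q : ℕ) : ℝ)) (c q))]
  exact sum_prod_eq_one (fun q : P => wB (1 / ((q : ℕ) : ℝ))) (fun q => wB_sum _)

lemma tauL_eq_sg (n : ℕ) (P : Finset ℕ) (L : ℕ) (i : Fin (n + 1)) (hi : i ≠ 0) :
    tauL (n + 1) 0 P L i = sg P L := by
  funext t
  unfold tauL sg
  refine Finset.sum_congr rfl fun c _ => Finset.prod_congr rfl fun q _ => ?_
  unfold xi
  rw [if_neg hi]

lemma sg_apply (P : Finset ℕ) (L : ℕ) (hL : P.card ≤ L + 1) (a : ℕ → ℝ) :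
    ∑ t, sg P L t * a (t : ℕ) = Es P a := by
  unfold sg Es EE
  rw [← Finset.sum_fiberwise (Finset.univ : Finset (P → Bool)) (fun c => clip L (cntB c))
    (fun c => (∏ q : P, wB (1 / ((q : ℕ) : ℝ)) (c q)) * a (cntB c))]
  refine Finset.sum_congr rfl fun t _ => ?_
  rw [Finset.sum_mul]
  refine Finset.sum_congr rfl fun c hc => ?_
  rw [Finset.mem_filter] at hc
  rw [← hc.2, clip_val L _ ((cntB_le P c).trans hL)]

lemma Es_const (P : Finset ℕ) (c : ℝ) : Es P (fun _ => c) = c :=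
  EE_const _ (fun q => wB_sum _) c

lemma Es_abs_le (P : Finset ℕ) (hP : ∀ q ∈ P, q.Prime) (a : ℕ → ℝ) (B : ℝ)
    (ha : ∀ t, |a t| ≤ B) : |Es P a| ≤ B :=
  EE_abs_le_of _ (fun q b => wB_nonneg _ (one_div_bd hP q).1 (one_div_bd hP q).2 b)
    (fun q => wB_sum _) _ B (fun c => ha (cntB c))

lemma Es_sub (P : Finset ℕ) (a b : ℕ → ℝ) :
    Es P (fun t => a t - b t) = Es P a - Es P b :=
  EE_sub _ _ _

lemma Es_smul (P : Finset ℕ) (c : ℝ) (a : ℕ → ℝ) :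
    Es P (fun t => c * a t) = c * Es P a :=
  EE_smul _ _ _

lemma Es_sum {J : Type} (s : Finset J) (P : Finset ℕ) (a : J → ℕ → ℝ) :
    Es P (fun t => ∑ j ∈ s, a j t) = ∑ j ∈ s, Es P (a j) :=
  EE_sum s _ _

end Helper11.QR
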