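import Mathlib
import Pool.Agent.Helper11.QR.SgLaw

set_option autoImplicit false

/-! QR-10: smoothness of the law of the number of successes.

`Es_shift`: `EE_smooth` (Helper13/Om/EE.lean) with `ι = P`, `Y = Bool`, `y₀ = false`,
`y₁ = true`, `Φ c = a (cntB c)`, `Ψ c = a (cntB c + 1)` (updating a `true` to `false` decreases
`cntB` by one: `cnt_update`, `cntB c = cnt true c`); `ρ q true = 1 / q`,
`1 - ρ q false = 1 / q`.

`Es_smooth`: iterate `Es_shift` (`b ≤ B` steps); the bound tends to `0` since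
`∑_{q ∈ P} 1 / q ^ 2 ≤ ∑ 1 / n ^ 2 ≤ 2` and `∑_{q ∈ PP h (Nat.log 2 N / u)} 1 / q → ∞`
(`not_summable_one_div_on_primes`; compare `A_large`, Helper13/Om/Smooth.lean: for every finite set
of primes `> h`, all its elements are `< 2 ^ (Nat.log 2 N / u + 1)` for `N` large).

`Es_subset`: induct on `P \ P'` adding one prime at a time: adding `q` changes `Es P a` to
`(1 - 1/q) Es P a + (1/q) Es P (a (· + 1))`, a change of at most `s / q`; the hypothesis `hs`
passes to larger sets by the same formula. -/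

namespace Helper11.QR

open Finset Helper13.Om

private lemma qr10_cnt {ι : Type} [Fintype ι] [DecidableEq ι] (c : ι → Bool) :
    cntB c = cnt true c := by
  unfold cntB cnt
  congr

theorem Es_shift (P : Finset ℕ) (hP : ∀ q ∈ P, q.Prime) (hA : 0 < ∑ q ∈ P, (1 : ℝ) / q)
    (a : ℕ → ℝ) (ha : ∀ t, |a t| ≤ 1) :
    |Es P (fun t => a (t + 1)) - Es P a| ≤
      2 * (∑ q ∈ P, (1 : ℝ) / (q : ℝ) ^ 2) / (∑ q ∈ P, (1 : ℝ) / q) +
        1 / √(∑ q ∈ P, (1 : ℝ) / q) := by
  classical
  have hAe : ∑ q : P, wB (1 / ((q : ℕ) : ℝ)) true = ∑ q ∈ P, (1 : ℝ) / q := by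
    rw [← Finset.sum_coe_sort P (fun q => (1 : ℝ) / q)]
    refine Finset.sum_congr rfl fun q _ => ?_
    simp [wB]
  have hS : ∑ q : P, wB (1 / ((q : ℕ) : ℝ)) true * (1 - wB (1 / ((q : ℕ) : ℝ)) false) =
      ∑ q ∈ P, (1 : ℝ) / (q : ℝ) ^ 2 := by
    rw [← Finset.sum_coe_sort P (fun q => (1 : ℝ) / (q : ℝ) ^ 2)]
    refine Finset.sum_congr rfl fun q _ => ?_
    simp only [wB, if_true, Bool.false_eq_true, if_false]
    ring
  have h := EE_smooth (fun (q : P) (b : Bool) => wB (1 / ((q : ℕ) : ℝ)) b)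
    (fun q b => wB_nonneg _ (by positivity) (by
      have h1 : (1 : ℝ) ≤ ((q : ℕ) : ℝ) := by exact_mod_cast (hP q q.2).one_le
      exact div_le_one_of_le₀ h1 (by positivity)) b)
    (fun q => wB_sum _) false true
    (fun c => a (cntB c)) (fun c => a (cntB c + 1)) (fun c => ha _) (fun c => ha _)
    (by
      intro c j hj
      have h2 := cnt_update true false (by decide) c j hj
      simp only [qr10_cnt]
      rw [h2])
    (by rw [hAe]; exact hA)
  rw [hAe, hS] at h
  exact h

private lemma qr10_large (h u : ℕ) (hu : 1 ≤ u) (B : ℝ) :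
    ∃ N₀ : ℕ, ∀ N ≥ N₀, B ≤ ∑ q ∈ PP h (Nat.log 2 N / u), (1 : ℝ) / q := by
  classical
  by_contra hcon
  push Not at hcon
  apply not_summable_one_div_on_primes
  have hB : ∀ M : ℕ, ∑ q ∈ (Finset.range M).filter (fun q => q.Prime ∧ h < q), (1 : ℝ) / q ≤ B := by
    intro M
    obtain ⟨N, hN, hlt⟩ := hcon (2 ^ (u * M))
    refine le_trans ?_ hlt.le
    apply Finset.sum_le_sum_of_subset_of_nonneg
    · intro q hq
      rw [Finset.mem_filter, Finset.mem_range] at hq
      rw [mem_PP]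
      refine ⟨?_, hq.2.1, hq.2.2⟩
      have h0 : N ≠ 0 := by
        have : 0 < 2 ^ (u * M) := by positivity
        omega
      have h1 : u * M ≤ Nat.log 2 N := (Nat.le_log_iff_pow_le (by norm_num) h0).mpr hN
      have h2 : M ≤ Nat.log 2 N / u :=
        (Nat.le_div_iff_mul_le (by omega)).mpr (by rw [mul_comm]; exact h1)
      calc q < M := hq.1
        _ < 2 ^ M := Nat.lt_two_pow_self
        _ ≤ 2 ^ (Nat.log 2 N / u + 1) := Nat.pow_le_pow_right (by norm_num) (by omega)
    · intro q _ _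
      positivity
  apply summable_of_sum_range_le (c := B + (h + 1))
  · intro n
    apply Set.indicator_nonneg
    intro q _
    positivity
  · intro M
    have h1 : ∀ n ∈ Finset.range M, Set.indicator {p : ℕ | p.Prime} (fun n : ℕ => (1 : ℝ) / n) n ≤
        (if n.Prime ∧ h < n then (1 : ℝ) / n else 0) + if n < h + 1 then 1 else 0 := by
      intro n _
      by_cases hp : n.Prime
      · rw [Set.indicator_of_mem (show n ∈ {p : ℕ | p.Prime} from hp)]
        by_cases hun : h < n
        · rw [if_pos ⟨hp, hun⟩]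
          have : (0 : ℝ) ≤ if n < h + 1 then 1 else 0 := by split_ifs <;> norm_num
          linarith
        · rw [if_neg (fun h => hun h.2), if_pos (by omega), zero_add]
          apply div_le_one_of_le₀ _ (Nat.cast_nonneg _)
          exact_mod_cast hp.one_le
      · rw [Set.indicator_of_notMem (show n ∉ {p : ℕ | p.Prime} from hp)]
        positivity
    refine (Finset.sum_le_sum h1).trans ?_
    rw [Finset.sum_add_distrib]
    apply add_le_add
    · rw [← Finset.sum_filter]
      exact hB M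
    · rw [← Finset.sum_filter, Finset.sum_const, nsmul_eq_mul, mul_one]
      have h2 : (Finset.range M).filter (fun n => n < h + 1) ⊆ Finset.range (h + 1) := by
        intro n hn
        rw [Finset.mem_filter] at hn
        exact Finset.mem_range.mpr hn.2
      have := Finset.card_le_card h2
      rw [Finset.card_range] at this
      exact_mod_cast this

private lemma qr10_iter (P : Finset ℕ) (e : ℝ)
    (he : ∀ a : ℕ → ℝ, (∀ t, |a t| ≤ 1) → |Es P (fun t => a (t + 1)) - Es P a| ≤ e)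
    (a : ℕ → ℝ) (ha : ∀ t, |a t| ≤ 1) (b : ℕ) :
    |Es P (fun t => a (t + b)) - Es P a| ≤ b * e := by
  induction b with
  | zero => simp
  | succ b ih =>
    have h1 := he (fun t => a (t + b)) (fun t => ha _)
    have e1 : Es P (fun t => a (t + (b + 1))) - Es P a =
        (Es P (fun t => a (t + 1 + b)) - Es P (fun t => a (t + b))) +
          (Es P (fun t => a (t + b)) - Es P a) := by
      have : (fun t => a (t + (b + 1))) = (fun t => a (t + 1 + b)) := by
        funext t
        congr 1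
        ring
      rw [this]
      ring
    rw [e1]
    refine (abs_add_le _ _).trans ?_
    push_cast
    linarith

theorem Es_smooth (h u B : ℕ) (hu : 1 ≤ u) (τ : ℝ) (hτ : 0 < τ) :
    ∃ N₀ : ℕ, ∀ N ≥ N₀, ∀ b ≤ B, ∀ a : ℕ → ℝ, (∀ t, |a t| ≤ 1) →
      |Es (PP h (Nat.log 2 N / u)) (fun t => a (t + b)) - Es (PP h (Nat.log 2 N / u)) a| ≤ τ := by
  set ε : ℝ := τ / (B + 1) with hε
  have hε0 : 0 < ε := by positivity
  have hB0 : 0 < 4 / ε + 4 / ε ^ 2 := by positivity
  obtain ⟨N₀, hN₀⟩ := qr10_large h u hu (4 / ε + 4 / ε ^ 2)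
  refine ⟨N₀, fun N hN b hb a ha => ?_⟩
  have hAB := hN₀ N hN
  have hPr : ∀ q ∈ PP h (Nat.log 2 N / u), q.Prime := fun q hq => ((mem_PP _ _ _).mp hq).2.1
  have hA0 : 0 < ∑ q ∈ PP h (Nat.log 2 N / u), (1 : ℝ) / q := lt_of_lt_of_le hB0 hAB
  have hsq := sum_inv_sq_le (PP h (Nat.log 2 N / u)) 1 le_rfl (fun q hq => (hPr q hq).one_lt)
  have hshift := Es_shift (PP h (Nat.log 2 N / u)) hPr hA0
  set A := ∑ q ∈ PP h (Nat.log 2 N / u), (1 : ℝ) / q with hA
  set S := ∑ q ∈ PP h (Nat.log 2 N / u), (1 : ℝ) / (q : ℝ) ^ 2 with hS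
  have h3 : 2 * S / A ≤ ε / 2 := by
    rw [div_le_iff₀ hA0]
    have h4 : 2 * S ≤ 2 := by
      have : (1 : ℝ) / ((1 : ℕ) : ℝ) = 1 := by norm_num
      linarith
    have h5 : 4 / ε ≤ A := le_trans (by
      have : 0 < 4 / ε ^ 2 := by positivity
      linarith) hAB
    rw [div_le_iff₀ hε0] at h5
    linarith
  have h4 : 1 / √A ≤ ε / 2 := by
    have h5 : 4 / ε ^ 2 ≤ A := le_trans (by
      have : 0 < 4 / ε := by positivity
      linarith) hAB
    have h6 : 2 / ε ≤ √A := by
      apply Real.le_sqrt_of_sq_le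
      rw [div_pow]
      norm_num
      exact h5
    have h7 : 0 < √A := Real.sqrt_pos.mpr hA0
    rw [div_le_iff₀ hε0] at h6
    rw [div_le_iff₀ h7]
    linarith
  have h5 := qr10_iter (PP h (Nat.log 2 N / u)) ε
    (fun a ha => (hshift a ha).trans (by linarith)) a ha b
  refine h5.trans ?_
  have hb' : (b : ℝ) ≤ B := by exact_mod_cast hb
  rw [hε, ← mul_div_assoc, div_le_iff₀ (by positivity)]
  nlinarith

private lemma qr10_cntB_sum {ι : Type} [Fintype ι] (c : ι → Bool) :
    cntB c = ∑ i, if c i = true then 1 else 0 := by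
  unfold cntB
  rw [Finset.card_filter]

private lemma qr10_insert (P : Finset ℕ) (q : ℕ) (hq : q ∉ P) (a : ℕ → ℝ) :
    Es (insert q P) a =
      (1 - 1 / (q : ℝ)) * Es P a + (1 / (q : ℝ)) * Es P (fun t => a (t + 1)) := by
  classical
  unfold Es EE
  have h1 : ∑ c : (↥(insert q P) → Bool),
      (∏ i : ↥(insert q P), wB (1 / ((i : ℕ) : ℝ)) (c i)) * a (cntB c) =
      ∑ d : (Option ↥P → Bool), (∏ o : Option ↥P,
        wB (1 / ((((Finset.subtypeInsertEquivOption hq).symm o : ↥(insert q P)) : ℕ) : ℝ)) (d o)) *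
          a (cntB d) := by
    refine Fintype.sum_equiv
      (Equiv.arrowCongr (Finset.subtypeInsertEquivOption hq) (Equiv.refl Bool)) _ _ ?_
    intro c
    congr 1
    · refine Fintype.prod_equiv (Finset.subtypeInsertEquivOption hq) _ _ ?_
      intro i
      simp [Equiv.arrowCongr]
    · congr 1
      rw [qr10_cntB_sum, qr10_cntB_sum]
      refine Fintype.sum_equiv (Finset.subtypeInsertEquivOption hq) _ _ ?_
      intro i
      simp [Equiv.arrowCongr]
  rw [h1]
  have h2 : ∑ d : (Option ↥P → Bool), (∏ o : Option ↥P,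
        wB (1 / ((((Finset.subtypeInsertEquivOption hq).symm o : ↥(insert q P)) : ℕ) : ℝ)) (d o)) *
          a (cntB d) =
      ∑ z : Bool × (↥P → Bool), (wB (1 / (q : ℝ)) z.1 *
        ∏ p : ↥P, wB (1 / ((p : ℕ) : ℝ)) (z.2 p)) *
          a ((if z.1 = true then 1 else 0) + cntB z.2) := by
    refine Fintype.sum_equiv (Equiv.piOptionEquivProd (β := fun _ : Option ↥P => Bool)) _ _ ?_
    intro d
    rw [qr10_cntB_sum, qr10_cntB_sum, Fintype.prod_option, Fintype.sum_option]
    rfl
  rw [h2, Fintype.sum_prod_type, Fintype.sum_bool]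
  simp only [wB, if_true, Bool.false_eq_true, if_false, zero_add]
  rw [add_comm, Finset.mul_sum, Finset.mul_sum]
  congr 1
  · refine Finset.sum_congr rfl fun c _ => ?_
    ring
  · refine Finset.sum_congr rfl fun c _ => ?_
    rw [add_comm 1 (cntB c)]
    ring

theorem Es_subset (P P' : Finset ℕ) (hPP : P' ⊆ P) (hP : ∀ q ∈ P, q.Prime) (s : ℝ)
    (hs : ∀ a : ℕ → ℝ, (∀ t, |a t| ≤ 1) → |Es P' (fun t => a (t + 1)) - Es P' a| ≤ s)
    (a : ℕ → ℝ) (ha : ∀ t, |a t| ≤ 1) :
    |Es P a - Es P' a| ≤ s * ∑ q ∈ P \ P', (1 : ℝ) / q := by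
  classical
  have main : ∀ Q : Finset ℕ, (∀ q ∈ Q, q ∉ P' ∧ q.Prime) →
      (∀ a : ℕ → ℝ, (∀ t, |a t| ≤ 1) →
        |Es (Q ∪ P') (fun t => a (t + 1)) - Es (Q ∪ P') a| ≤ s) ∧
      (∀ a : ℕ → ℝ, (∀ t, |a t| ≤ 1) →
        |Es (Q ∪ P') a - Es P' a| ≤ s * ∑ q ∈ Q, (1 : ℝ) / q) := by
    intro Q
    induction Q using Finset.induction_on with
    | empty =>
      intro _
      refine ⟨fun a ha => by simpa using hs a ha, fun a ha => by simp⟩
    | insert q Q hqQ ih =>
      intro hQ
      obtain ⟨ih1, ih2⟩ := ih (fun q' hq' => hQ q' (Finset.mem_insert_of_mem hq'))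
      obtain ⟨hqP, hqp⟩ := hQ q (Finset.mem_insert_self _ _)
      have hnot : q ∉ Q ∪ P' := by
        rw [Finset.mem_union]
        tauto
      have hq1 : (1 : ℝ) ≤ (q : ℝ) := by exact_mod_cast hqp.one_le
      have hi0 : (0 : ℝ) ≤ 1 / (q : ℝ) := by positivity
      have hi1 : 1 / (q : ℝ) ≤ 1 := div_le_one_of_le₀ hq1 (by positivity)
      have hins : ∀ a : ℕ → ℝ, Es (insert q Q ∪ P') a =
          (1 - 1 / (q : ℝ)) * Es (Q ∪ P') a + (1 / (q : ℝ)) * Es (Q ∪ P') (fun t => a (t + 1)) := by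
        intro a
        rw [Finset.insert_union]
        exact qr10_insert _ q hnot a
      constructor
      · intro a ha
        rw [hins, hins]
        have g1 := ih1 a ha
        have g2 := ih1 (fun t => a (t + 1)) (fun t => ha _)
        have e1 : (1 - 1 / (q : ℝ)) * Es (Q ∪ P') (fun t => a (t + 1)) +
            1 / (q : ℝ) * Es (Q ∪ P') (fun t => a (t + 1 + 1)) -
            ((1 - 1 / (q : ℝ)) * Es (Q ∪ P') a +
              1 / (q : ℝ) * Es (Q ∪ P') (fun t => a (t + 1))) =
            (1 - 1 / (q : ℝ)) * (Es (Q ∪ P') (fun t => a (t + 1)) - Es (Q ∪ P') a) +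
            1 / (q : ℝ) * (Es (Q ∪ P') (fun t => a (t + 1 + 1)) -
              Es (Q ∪ P') (fun t => a (t + 1))) := by ring
        rw [e1]
        refine (abs_add_le _ _).trans ?_
        rw [abs_mul, abs_mul, abs_of_nonneg hi0, abs_of_nonneg (by linarith : 0 ≤ 1 - 1 / (q : ℝ))]
        have := mul_le_mul_of_nonneg_left g1 (by linarith : 0 ≤ 1 - 1 / (q : ℝ))
        have := mul_le_mul_of_nonneg_left g2 hi0
        linarith
      · intro a ha
        rw [hins, Finset.sum_insert hqQ]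
        have g1 := ih1 a ha
        have g2 := ih2 a ha
        have e1 : (1 - 1 / (q : ℝ)) * Es (Q ∪ P') a +
            1 / (q : ℝ) * Es (Q ∪ P') (fun t => a (t + 1)) - Es P' a =
            (Es (Q ∪ P') a - Es P' a) +
            1 / (q : ℝ) * (Es (Q ∪ P') (fun t => a (t + 1)) - Es (Q ∪ P') a) := by ring
        rw [e1]
        refine (abs_add_le _ _).trans ?_
        rw [abs_mul, abs_of_nonneg hi0]
        have := mul_le_mul_of_nonneg_left g1 hi0
        linarith
  have h1 := (main (P \ P') (fun q hq => by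
    rw [Finset.mem_sdiff] at hq
    exact ⟨hq.2, hP q hq.1⟩)).2 a ha
  rwa [Finset.sdiff_union_of_subset hPP] at h1

end Helper11.QR
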