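import Mathlib
import Pool.Agent.Helper11.QR.Defs

set_option autoImplicit false

/-! QR-01: the sieve of `Helper13.Om.sieve_upper` with the factor `exp (1 / b)` for
`b ≥ 100 t ^ 2`.

Proof: copy the proof of `Helper13.Om.sieve_upper` (file `Helper13/Om/Sieve.lean`); the only change
is the bound for the sum over the blocks (`tau_sum` there): for `b ≥ 100 t ^ 2`, `b ≥ 1` we need
`exp (4 t (t+1)) * ∑_{j < J} (4 t) ^ n_j / n_j ! ≤ 1 / b`, `n_j = 2 (b + j) + 1`.
For `t = 0` the sum is `0`. For `t ≥ 1`: `n_j ≥ 200 t ^ 2`, and for every `x > 0`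
`G ^ n / n ! = (G / x) ^ n * (x ^ n / n !) ≤ (G / x) ^ n * exp x`
(`Real.pow_div_factorial_le_exp`). With `G = 4 t`, `x = 40 t` (`≤ n / 5`):
`G ^ n / n ! ≤ 10 ^ (-n) * exp (n / 5)`, and `exp (4 t (t+1)) ≤ exp (8 t ^ 2) ≤ exp (n / 25)`.
So each term is at most `(exp (6/25) / 10) ^ n ≤ (1 / 4) ^ n`, and
`∑_j (1/4) ^ (2 (b + j) + 1) ≤ (1/4) ^ (2 b) ≤ 1 / b`. -/

namespace Helper11.QR

open Finset Helper13.Om

private lemma exp_small : Real.exp (6 / 25) ≤ 5 / 2 := by
  by_contra h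
  push Not at h
  have h1 : (5 / 2 : ℝ) ^ 4 < Real.exp (6 / 25) ^ 4 :=
    pow_lt_pow_left₀ h (by norm_num) (by norm_num)
  rw [← Real.exp_nat_mul] at h1
  have h2 : Real.exp ((4 : ℕ) * (6 / 25)) ≤ Real.exp 1 := by
    apply Real.exp_le_exp.mpr
    norm_num
  have h3 := Real.exp_one_lt_d9
  have h4 : (5 / 2 : ℝ) ^ 4 < 2.7182818286 := (h1.trans_le h2).trans h3
  norm_num at h4

private lemma geo_sum (b J : ℕ) :
    ∑ j ∈ Finset.range J, (1 / 4 : ℝ) ^ (2 * (b + j) + 1) ≤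
      (1 / 4 : ℝ) ^ (2 * b) - (1 / 4 : ℝ) ^ (2 * (b + J)) := by
  induction J with
  | zero => simp
  | succ J ih =>
    rw [Finset.sum_range_succ]
    have h1 : (1 / 4 : ℝ) ^ (2 * (b + (J + 1))) = (1 / 4 : ℝ) ^ (2 * (b + J)) * (1 / 16) := by
      rw [show 2 * (b + (J + 1)) = 2 * (b + J) + 2 by ring, pow_add]
      norm_num
    have h2 : (1 / 4 : ℝ) ^ (2 * (b + J) + 1) = (1 / 4 : ℝ) ^ (2 * (b + J)) * (1 / 4) := by
      rw [pow_succ]
    have h3 : (0 : ℝ) < (1 / 4 : ℝ) ^ (2 * (b + J)) := by positivity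
    rw [h1, h2]
    linarith

private lemma tau_sumP (t b : ℕ) (hb : 1 ≤ b) (hbt : 100 * t ^ 2 ≤ b) (J : ℕ) :
    Real.exp (4 * t * (t + 1)) * ∑ j ∈ Finset.range J,
      (4 * t : ℝ) ^ (2 * (b + j) + 1) / (2 * (b + j) + 1).factorial ≤ 1 / (b : ℝ) := by
  have hb0 : (0 : ℝ) < b := by exact_mod_cast hb
  rcases Nat.eq_zero_or_pos t with h0 | ht
  · subst h0
    simp
  · have htR : (1 : ℝ) ≤ t := by exact_mod_cast ht
    have hbtR : (100 : ℝ) * t ^ 2 ≤ b := by exact_mod_cast hbt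
    have hterm : ∀ j ∈ Finset.range J, Real.exp (4 * t * (t + 1)) *
        ((4 * t : ℝ) ^ (2 * (b + j) + 1) / (2 * (b + j) + 1).factorial) ≤
        (1 / 4 : ℝ) ^ (2 * (b + j) + 1) := by
      intro j _
      set n := 2 * (b + j) + 1 with hn
      have hnR : (200 : ℝ) * t ^ 2 ≤ n := by
        have h1 : (n : ℝ) = 2 * (b + j) + 1 := by
          rw [hn]
          push_cast
          ring
        have h2 : (0 : ℝ) ≤ j := Nat.cast_nonneg j
        rw [h1]
        linarith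
      have h1 := Real.pow_div_factorial_le_exp (40 * (t : ℝ)) (by positivity) n
      have h2 : (4 * t : ℝ) ^ n / (n.factorial : ℝ) =
          (1 / 10) ^ n * ((40 * (t : ℝ)) ^ n / n.factorial) := by
        rw [mul_div_assoc', ← mul_pow]
        congr 2
        ring
      have h3 : Real.exp (4 * t * (t + 1)) * ((4 * t : ℝ) ^ n / (n.factorial : ℝ)) ≤
          (1 / 10) ^ n * (Real.exp (4 * t * (t + 1)) * Real.exp (40 * (t : ℝ))) := by
        rw [h2]
        have h4 : (0 : ℝ) ≤ Real.exp (4 * t * (t + 1)) * (1 / 10) ^ n := by positivity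
        calc Real.exp (4 * t * (t + 1)) * ((1 / 10) ^ n * ((40 * (t : ℝ)) ^ n / n.factorial))
            = (Real.exp (4 * t * (t + 1)) * (1 / 10) ^ n) *
              ((40 * (t : ℝ)) ^ n / n.factorial) := by ring
          _ ≤ (Real.exp (4 * t * (t + 1)) * (1 / 10) ^ n) * Real.exp (40 * (t : ℝ)) :=
              mul_le_mul_of_nonneg_left h1 h4
          _ = _ := by ring
      refine h3.trans ?_
      have h5 : Real.exp (4 * t * (t + 1)) * Real.exp (40 * (t : ℝ)) ≤
          Real.exp (6 / 25) ^ n := by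
        rw [← Real.exp_add, ← Real.exp_nat_mul]
        apply Real.exp_le_exp.mpr
        have h6 : (t : ℝ) ≤ (t : ℝ) ^ 2 := by nlinarith
        nlinarith
      have h7 : Real.exp (6 / 25) ^ n ≤ (5 / 2 : ℝ) ^ n :=
        pow_le_pow_left₀ (Real.exp_pos _).le exp_small n
      calc (1 / 10 : ℝ) ^ n * (Real.exp (4 * t * (t + 1)) * Real.exp (40 * (t : ℝ)))
          ≤ (1 / 10 : ℝ) ^ n * (5 / 2 : ℝ) ^ n :=
            mul_le_mul_of_nonneg_left (h5.trans h7) (by positivity)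
        _ = (1 / 4 : ℝ) ^ n := by
            rw [← mul_pow]
            norm_num
    rw [Finset.mul_sum]
    refine (Finset.sum_le_sum hterm).trans ((geo_sum b J).trans ?_)
    have h1 : (0 : ℝ) < (1 / 4 : ℝ) ^ (2 * (b + J)) := by positivity
    have h2 : (1 / 4 : ℝ) ^ (2 * b) ≤ 1 / (b : ℝ) := by
      rw [one_div, inv_pow, ← one_div]
      apply one_div_le_one_div_of_le hb0
      have h3 : b < 4 ^ (2 * b) := by
        calc b < 4 ^ b := Nat.lt_pow_self (by norm_num)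
          _ ≤ 4 ^ (2 * b) := Nat.pow_le_pow_right (by norm_num) (by omega)
      exact_mod_cast h3.le
    linarith

theorem sieve_upperP (P D : Finset ℕ) (hdisj : Disjoint D P) (hP : ∀ q ∈ P, q.Prime)
    (hD : ∀ q ∈ D, q.Prime) (t : ℕ) (ht : ∀ q ∈ P, t < q) (E : ℕ)
    (hE : ∀ q ∈ P, Nat.log 2 q ≤ E) (Z : ℕ → Finset ℕ)
    (hZP : ∀ q ∈ P, Z q ⊆ Finset.range q ∧ (Z q).card ≤ t)
    (hZD : ∀ q ∈ D, Z q ⊆ Finset.range q) (b : ℕ) (hb : 1 ≤ b) (hbt : 100 * t ^ 2 ≤ b)
    (M : ℕ) :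
    (((Finset.Icc 1 M).filter
      (fun m => (∀ q ∈ D, m % q ∈ Z q) ∧ ∀ q ∈ P, m % q ∉ Z q)).card : ℝ) ≤
      M * ((∏ q ∈ D, ((Z q).card : ℝ) / q) * ∏ q ∈ P, (1 - ((Z q).card : ℝ) / q)) *
        Real.exp (1 / (b : ℝ)) + (∏ q ∈ D, ((Z q).card : ℝ)) * 2 ^ (20 * E * (b + 1)) := by
  classical
  set blk : ℕ → ℕ := fun q => Nat.log 2 (E / Nat.log 2 q) with hblk
  set S : ℕ → Finset ℕ := fun j => P.filter (fun q => blk q = j) with hS
  set J := E + 1 with hJ
  have hSP : ∀ j, S j ⊆ P := fun j => Finset.filter_subset _ _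
  have hSd : ∀ i j, i ≠ j → Disjoint (S i) (S j) := by
    intro i j hij
    rw [Finset.disjoint_left]
    intro q hq hq'
    rw [hS] at hq hq'
    simp only [Finset.mem_filter] at hq hq'
    exact hij (hq.2.symm.trans hq'.2)
  have hblkJ : ∀ q ∈ P, blk q ∈ Finset.range J := by
    intro q _
    rw [Finset.mem_range, hblk, hJ]
    have h1 : Nat.log 2 (E / Nat.log 2 q) ≤ E / Nat.log 2 q := Nat.log_le_self _ _
    have h2 : E / Nat.log 2 q ≤ E := Nat.div_le_self _ _
    simp only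
    omega
  have hbS : ∀ j, ∀ q ∈ S j, 2 ^ j * Nat.log 2 q ≤ E ∧ E < 2 ^ (j + 1) * Nat.log 2 q := by
    intro j q hq
    rw [hS] at hq
    simp only [Finset.mem_filter] at hq
    obtain ⟨hqP, hqj⟩ := hq
    have he := log2_pos_of_prime (hP q hqP)
    have heE := hE q hqP
    have hdiv : E / Nat.log 2 q ≠ 0 := by
      have := Nat.div_pos heE (by omega)
      omega
    constructor
    · have h1 := Nat.pow_log_le_self 2 hdiv
      rw [hblk] at hqj
      simp only at hqj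
      rw [hqj, Nat.le_div_iff_mul_le (by omega)] at h1
      exact h1
    · have h1 := Nat.lt_pow_succ_log_self one_lt_two (E / Nat.log 2 q)
      rw [hblk] at hqj
      simp only at hqj
      rw [hqj, Nat.div_lt_iff_lt_mul (by omega)] at h1
      exact h1
  -- the majorant
  have hniceS : ∀ j, j < J → Nice (S j) (Ntr (2 * (b + j)) (S j) (fun q => ((Z q).card : ℝ)))
      (Atr (2 * (b + j)) (S j) (fun q => ((Z q).card : ℝ) / q))
      (fun m => Atr (2 * (b + j)) (S j) (fun q => if m % q ∈ Z q then 1 else 0)) := by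
    intro j _
    exact nice_Atr _ _ (fun q hq => hP q (hSP j hq)) Z (fun q hq => (hZP q (hSP j hq)).1)
  have hnb := nice_prod_blocks J S hSd _ _ _ hniceS
  have hnD := nice_prod D _ _ _ (fun q hq => nice_mem q (hD q hq) (Z q) (hZD q hq))
  have hDb : Disjoint D ((Finset.range J).biUnion S) := by
    rw [Finset.disjoint_biUnion_right]
    intro j _
    exact Finset.disjoint_of_subset_right (hSP j) hdisj
  have hn := hnD.mul hDb hnb
  have hsum := hn.sum_le M
  -- pointwise majorisation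
  have hpt : ∀ m, (if (∀ q ∈ D, m % q ∈ Z q) ∧ ∀ q ∈ P, m % q ∉ Z q then (1 : ℝ) else 0) ≤
      (∏ q ∈ D, (if m % q ∈ Z q then (1 : ℝ) else 0)) *
        ∏ j ∈ Finset.range J, Atr (2 * (b + j)) (S j) (fun q => if m % q ∈ Z q then 1 else 0) := by
    intro m
    have hA : ∀ j ∈ Finset.range J, ∏ q ∈ S j, (1 - (if m % q ∈ Z q then (1 : ℝ) else 0)) ≤
        Atr (2 * (b + j)) (S j) (fun q => if m % q ∈ Z q then 1 else 0) := by
      intro j _
      apply Atr_even_ge
      · intro q _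
        split_ifs <;> norm_num
      · intro q _
        split_ifs <;> norm_num
    have hA0 : ∀ j ∈ Finset.range J, (0 : ℝ) ≤
        ∏ q ∈ S j, (1 - (if m % q ∈ Z q then (1 : ℝ) else 0)) := by
      intro j _
      apply Finset.prod_nonneg
      intro q _
      split_ifs <;> norm_num
    split_ifs with h
    · obtain ⟨h1, h2⟩ := h
      have e1 : ∏ q ∈ D, (if m % q ∈ Z q then (1 : ℝ) else 0) = 1 := by
        apply Finset.prod_eq_one
        intro q hq
        rw [if_pos (h1 q hq)]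
      rw [e1, one_mul]
      have e2 : ∏ j ∈ Finset.range J, ∏ q ∈ S j, (1 - (if m % q ∈ Z q then (1 : ℝ) else 0)) = 1 := by
        apply Finset.prod_eq_one
        intro j _
        apply Finset.prod_eq_one
        intro q hq
        rw [if_neg (h2 q (hSP j hq)), sub_zero]
      exact e2.symm.le.trans (Finset.prod_le_prod hA0 hA)
    · apply mul_nonneg
      · apply Finset.prod_nonneg
        intro q _
        split_ifs <;> norm_num
      · apply Finset.prod_nonneg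
        intro j hj
        exact (hA0 j hj).trans (hA j hj)
  have hcard : (((Finset.Icc 1 M).filter
      (fun m => (∀ q ∈ D, m % q ∈ Z q) ∧ ∀ q ∈ P, m % q ∉ Z q)).card : ℝ) ≤
      ∑ m ∈ Finset.Icc 1 M, (∏ q ∈ D, (if m % q ∈ Z q then (1 : ℝ) else 0)) *
        ∏ j ∈ Finset.range J, Atr (2 * (b + j)) (S j) (fun q => if m % q ∈ Z q then 1 else 0) := by
    rw [Finset.card_filter]
    push_cast
    exact Finset.sum_le_sum fun m _ => hpt m
  -- main term
  have hg0 : ∀ j, ∀ q ∈ S j, (0 : ℝ) ≤ ((Z q).card : ℝ) / q := fun j q _ => by positivity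
  have hg1 : ∀ q ∈ P, ((Z q).card : ℝ) / q ≤ 1 := by
    intro q hq
    have hq0 : (0 : ℝ) < q := by exact_mod_cast (hP q hq).pos
    rw [div_le_one hq0]
    have h1 := (hZP q hq).2
    have h2 := ht q hq
    exact_mod_cast h1.trans h2.le
  have hG : ∀ j, ∑ q ∈ S j, ((Z q).card : ℝ) / q ≤ 4 * t := by
    intro j
    have h1 : ∑ q ∈ S j, ((Z q).card : ℝ) / q ≤ ∑ q ∈ S j, (t : ℝ) * (1 / q) := by
      refine Finset.sum_le_sum fun q hq => ?_
      rw [div_eq_mul_one_div]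
      apply mul_le_mul_of_nonneg_right _ (by positivity)
      exact_mod_cast (hZP q (hSP j hq)).2
    rw [← Finset.mul_sum] at h1
    have h2 := block_sum (S j) (fun q hq => hP q (hSP j hq)) E j (hbS j)
    have h3 : (t : ℝ) * ∑ q ∈ S j, (1 : ℝ) / q ≤ t * 4 :=
      mul_le_mul_of_nonneg_left h2 (Nat.cast_nonneg t)
    linarith
  have hGnn : ∀ j, 0 ≤ ∑ q ∈ S j, ((Z q).card : ℝ) / q := fun j =>
    Finset.sum_nonneg (hg0 j)
  have hV : ∀ j, Real.exp (-(4 * t * (t + 1))) ≤ ∏ q ∈ S j, (1 - ((Z q).card : ℝ) / q) := by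
    intro j
    refine le_trans ?_ (one_sub_prod_ge (S j) t (fun q hq => ht q (hSP j hq))
      (fun q => (Z q).card) (fun q hq => (hZP q (hSP j hq)).2))
    rw [Real.exp_le_exp]
    have h1 := hG j
    have h2 : (0 : ℝ) ≤ t := Nat.cast_nonneg t
    nlinarith
  have hAtr : ∀ j ∈ Finset.range J, Atr (2 * (b + j)) (S j) (fun q => ((Z q).card : ℝ) / q) ≤
      (∏ q ∈ S j, (1 - ((Z q).card : ℝ) / q)) * Real.exp (Real.exp (4 * t * (t + 1)) *
        ((4 * t : ℝ) ^ (2 * (b + j) + 1) / (2 * (b + j) + 1).factorial)) := by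
    intro j _
    have h1 := Atr_even_le (S j) (fun q => ((Z q).card : ℝ) / q) (hg0 j)
      (fun q hq => hg1 q (hSP j hq)) (b + j)
    have h2 : (∑ q ∈ S j, ((Z q).card : ℝ) / q) ^ (2 * (b + j) + 1) /
        ((2 * (b + j) + 1).factorial : ℝ) ≤
        (4 * t : ℝ) ^ (2 * (b + j) + 1) / (2 * (b + j) + 1).factorial := by
      apply div_le_div_of_nonneg_right _ (by positivity)
      exact pow_le_pow_left₀ (hGnn j) (hG j) _
    set V := ∏ q ∈ S j, (1 - ((Z q).card : ℝ) / q) with hVdef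
    set τ := (4 * t : ℝ) ^ (2 * (b + j) + 1) / ((2 * (b + j) + 1).factorial : ℝ) with hτ
    have hτ0 : 0 ≤ τ := by positivity
    have hVj := hV j
    rw [← hVdef, Real.exp_neg] at hVj
    have h3 : 1 ≤ V * Real.exp (4 * t * (t + 1)) := by
      have := mul_le_mul_of_nonneg_right hVj (Real.exp_pos (4 * t * ((t : ℝ) + 1))).le
      rwa [inv_mul_cancel₀ (Real.exp_pos _).ne'] at this
    have hV0 : 0 < V := lt_of_lt_of_le (by positivity) hVj
    calc Atr (2 * (b + j)) (S j) (fun q => ((Z q).card : ℝ) / q) ≤ V + τ := by linarith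
      _ ≤ V + (V * Real.exp (4 * t * (t + 1))) * τ := by nlinarith
      _ = V * (Real.exp (4 * t * (t + 1)) * τ + 1) := by ring
      _ ≤ V * Real.exp (Real.exp (4 * t * (t + 1)) * τ) :=
          mul_le_mul_of_nonneg_left (Real.add_one_le_exp _) hV0.le
  have hAtr0 : ∀ j ∈ Finset.range J, 0 ≤ Atr (2 * (b + j)) (S j)
      (fun q => ((Z q).card : ℝ) / q) := by
    intro j _
    refine le_trans ?_ (Atr_even_ge (S j) _ (hg0 j) (fun q hq => hg1 q (hSP j hq)) (b + j))
    exact Finset.prod_nonneg fun q hq => by linarith [hg1 q (hSP j hq)]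
  have hmain : ∏ j ∈ Finset.range J, Atr (2 * (b + j)) (S j) (fun q => ((Z q).card : ℝ) / q) ≤
      (∏ q ∈ P, (1 - ((Z q).card : ℝ) / q)) * Real.exp (1 / (b : ℝ)) := by
    refine (Finset.prod_le_prod hAtr0 hAtr).trans ?_
    rw [Finset.prod_mul_distrib]
    have e1 : ∏ j ∈ Finset.range J, ∏ q ∈ S j, (1 - ((Z q).card : ℝ) / q) =
        ∏ q ∈ P, (1 - ((Z q).card : ℝ) / q) :=
      Finset.prod_fiberwise_of_maps_to hblkJ _
    rw [e1, ← Real.exp_sum, ← Finset.mul_sum]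
    have h0 : 0 ≤ ∏ q ∈ P, (1 - ((Z q).card : ℝ) / q) :=
      Finset.prod_nonneg fun q hq => by linarith [hg1 q hq]
    apply mul_le_mul_of_nonneg_left _ h0
    rw [Real.exp_le_exp]
    exact tau_sumP t b hb hbt J
  -- the number of classes
  have hNtr : ∀ j ∈ Finset.range J, Ntr (2 * (b + j)) (S j) (fun q => ((Z q).card : ℝ)) ≤
      2 ^ (10 * (E / 2 ^ j) * (b + j)) := by
    intro j _
    refine Ntr_block_le (S j) (fun q hq => hP q (hSP j hq)) t (fun q hq => ht q (hSP j hq))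
      (E / 2 ^ j) ?_ (fun q => (Z q).card) (fun q hq => (hZP q (hSP j hq)).2) (b + j)
    intro q hq
    rw [Nat.le_div_iff_mul_le (by positivity), mul_comm]
    exact (hbS j q hq).1
  have hNprod : ∏ j ∈ Finset.range J, Ntr (2 * (b + j)) (S j) (fun q => ((Z q).card : ℝ)) ≤
      2 ^ (20 * E * (b + 1)) := by
    refine (Finset.prod_le_prod (fun j _ => Ntr_nonneg _ _ _ fun q _ => Nat.cast_nonneg _)
      hNtr).trans ?_
    rw [Finset.prod_pow_eq_pow_sum]
    exact pow_le_pow_right₀ (by norm_num) (exponent_sum_nat E b J)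
  -- conclusion
  have hDnn : 0 ≤ ∏ q ∈ D, ((Z q).card : ℝ) / q := Finset.prod_nonneg fun q _ => by positivity
  have hDnn' : 0 ≤ ∏ q ∈ D, ((Z q).card : ℝ) := Finset.prod_nonneg fun q _ => by positivity
  have hM : (0 : ℝ) ≤ M := Nat.cast_nonneg M
  have h1 := (abs_le.mp hsum).2
  have h2 : (M : ℝ) * ((∏ q ∈ D, ((Z q).card : ℝ) / q) *
      ∏ j ∈ Finset.range J, Atr (2 * (b + j)) (S j) (fun q => ((Z q).card : ℝ) / q)) ≤
      M * ((∏ q ∈ D, ((Z q).card : ℝ) / q) * ∏ q ∈ P, (1 - ((Z q).card : ℝ) / q)) *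
        Real.exp (1 / (b : ℝ)) := by
    rw [mul_assoc (M : ℝ), mul_assoc (∏ q ∈ D, ((Z q).card : ℝ) / q)]
    exact mul_le_mul_of_nonneg_left (mul_le_mul_of_nonneg_left hmain hDnn) hM
  have h3 : (∏ q ∈ D, ((Z q).card : ℝ)) *
      ∏ j ∈ Finset.range J, Ntr (2 * (b + j)) (S j) (fun q => ((Z q).card : ℝ)) ≤
      (∏ q ∈ D, ((Z q).card : ℝ)) * 2 ^ (20 * E * (b + 1)) :=
    mul_le_mul_of_nonneg_left hNprod hDnn'
  linarith

end Helper11.QR
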