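import Mathlib
import Pool.Agent.Helper11.QR.SieveP

set_option autoImplicit false

/-! QR-02: the Kubilius model with a polynomial constant.

Proof: copy `count_pattern` (Helper13/Om/Kub.lean) and `kub_upper`, `kub`
(Helper13/Om/KubThm.lean) with `sieve_upperP` in place of `sieve_upper`: the factor
`exp (Kt t / b)` becomes `exp (1 / b)` for `b ≥ 100 t ^ 2`. The lemmas `pattern_rankin`,
`large_modulus`, `rho_prod_sum`, `sum_comp_count` are used unchanged.
Cases (`A = Nat.log 2 M`): if `A < 10 ^ 4 * (t + 1) ^ 2 * E` the bound is trivial (left side at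
most `2`, right side at least `100`). Otherwise `b := A / (80 E) - 1` satisfies
`b + 1 ≥ 125 (t + 1) ^ 2`, so `b ≥ 100 t ^ 2` and `b ≥ 1`; `x := A / 8` as there. One-sided error:
`exp (1/b) - 1 ≤ 2 / b ≤ 320 E / A`, the pattern term `32 E / A`, the large modulus term
`256 t E / A`; the two-sided version doubles it: `(704 + 512 t) E / A ≤ CpN t * E / A`. -/

namespace Helper11.QR

open Finset Helper13.Om

/-- the one-sided constant -/
noncomputable def C1 (t : ℕ) : ℝ := 500000 * ((t : ℝ) + 1) ^ 2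

lemma count_patternP {Y : Type} [Fintype Y] [DecidableEq Y] (P : Finset ℕ) (hP : ∀ q ∈ P, q.Prime) (φ : ℕ → ℕ → Y) (y₀ : Y) (t : ℕ)
    (ht : ∀ q ∈ P, t < q) (hper : ∀ q ∈ P, ∀ m, φ q m = φ q (m % q))
    (hcard : ∀ q ∈ P, ((Finset.range q).filter (fun r => φ q r ≠ y₀)).card ≤ t)
    (E : ℕ) (hE : ∀ q ∈ P, Nat.log 2 q ≤ E) (b : ℕ) (hb : 1 ≤ b) (hbt : 100 * t ^ 2 ≤ b)
    (M : ℕ) (y : P → Y) :
    (((Finset.Icc 1 M).filter (fun m => (fun q : P => φ q m) = y)).card : ℝ) ≤
      M * (∏ q : P, rho φ q (y q)) * Real.exp (1 / (b : ℝ)) +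
        (∏ q : P, if y q ≠ y₀ then (t : ℝ) else 1) * 2 ^ (20 * E * (b + 1)) := by
  classical
  set y' : ℕ → Y := fun q => if h : q ∈ P then y ⟨q, h⟩ else y₀ with hy'
  have hy'P : ∀ q : P, y' q = y q := by
    intro q
    simp [hy', q.2]
  set D := P.filter (fun q => y' q ≠ y₀) with hD
  set P' := P.filter (fun q => ¬ (y' q ≠ y₀)) with hP'
  set Z : ℕ → Finset ℕ := fun q => if y' q ≠ y₀ then
    (Finset.range q).filter (fun r => φ q r = y' q) else
    (Finset.range q).filter (fun r => φ q r ≠ y₀) with hZ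
  have hdisj : Disjoint D P' := Finset.disjoint_filter_filter_not P P _
  have h := sieve_upperP P' D hdisj (fun q hq => hP q (Finset.mem_filter.mp hq).1)
    (fun q hq => hP q (Finset.mem_filter.mp hq).1) t (fun q hq => ht q (Finset.mem_filter.mp hq).1)
    E (fun q hq => hE q (Finset.mem_filter.mp hq).1) Z (by
      intro q hq
      rw [Finset.mem_filter] at hq
      simp only [hZ]
      rw [if_neg hq.2]
      exact ⟨Finset.filter_subset _ _, hcard q hq.1⟩) (by
      intro q hq
      rw [Finset.mem_filter] at hq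
      simp only [hZ]
      rw [if_pos hq.2]
      exact Finset.filter_subset _ _) b hb hbt M
  have hcount : ((Finset.Icc 1 M).filter (fun m => (fun q : P => φ q m) = y)).card ≤
      ((Finset.Icc 1 M).filter
        (fun m => (∀ q ∈ D, m % q ∈ Z q) ∧ ∀ q ∈ P', m % q ∉ Z q)).card := by
    apply Finset.card_le_card
    intro m hm
    rw [Finset.mem_filter] at hm ⊢
    obtain ⟨hm1, hm2⟩ := hm
    refine ⟨hm1, ?_, ?_⟩
    · intro q hq
      rw [Finset.mem_filter] at hq
      simp only [hZ]
      rw [if_pos hq.2, Finset.mem_filter, Finset.mem_range]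
      refine ⟨Nat.mod_lt _ (hP q hq.1).pos, ?_⟩
      rw [← hper q hq.1 m]
      have := congrFun hm2 ⟨q, hq.1⟩
      rw [← hy'P ⟨q, hq.1⟩] at this
      exact this
    · intro q hq
      rw [Finset.mem_filter] at hq
      simp only [hZ]
      rw [if_neg hq.2, Finset.mem_filter, not_and]
      intro _
      rw [← hper q hq.1 m]
      have := congrFun hm2 ⟨q, hq.1⟩
      rw [← hy'P ⟨q, hq.1⟩] at this
      have h2 := hq.2
      push Not at h2 ⊢
      rw [← h2]
      exact this
  have hcountR : (((Finset.Icc 1 M).filter (fun m => (fun q : P => φ q m) = y)).card : ℝ) ≤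
      (((Finset.Icc 1 M).filter
        (fun m => (∀ q ∈ D, m % q ∈ Z q) ∧ ∀ q ∈ P', m % q ∉ Z q)).card : ℝ) := by
    exact_mod_cast hcount
  refine hcountR.trans (h.trans ?_)
  have e1 : (∏ q ∈ D, ((Z q).card : ℝ) / q) * ∏ q ∈ P', (1 - ((Z q).card : ℝ) / q) =
      ∏ q : P, rho φ q (y q) := by
    have e2 : ∏ q : P, rho φ q (y q) = ∏ q ∈ P, rho φ q (y' q) := by
      rw [← Finset.prod_coe_sort P]
      refine Finset.prod_congr rfl fun q _ => ?_
      rw [hy'P]
    rw [e2, ← Finset.prod_filter_mul_prod_filter_not P (fun q => y' q ≠ y₀)]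
    congr 1
    · refine Finset.prod_congr rfl fun q hq => ?_
      have hq' := (Finset.mem_filter.mp hq).2
      simp only [hZ]
      rw [if_pos hq']
      rfl
    · refine Finset.prod_congr rfl fun q hq => ?_
      have hq' := (Finset.mem_filter.mp hq).2
      have hqP := (Finset.mem_filter.mp hq).1
      have hq0 : (q : ℝ) ≠ 0 := by exact_mod_cast (hP q hqP).pos.ne'
      simp only [hZ]
      rw [if_neg hq']
      push Not at hq'
      unfold rho
      rw [hq']
      have h3 := Finset.card_filter_add_card_filter_not (s := Finset.range q)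
        (fun r => φ q r = y₀)
      rw [Finset.card_range] at h3
      have h3R : (((Finset.range q).filter (fun r => φ q r = y₀)).card : ℝ) +
          (((Finset.range q).filter (fun r => ¬ φ q r = y₀)).card : ℝ) = q := by
        exact_mod_cast h3
      field_simp
      linarith
  rw [e1]
  have e3 : ∏ q ∈ D, ((Z q).card : ℝ) ≤ ∏ q : P, if y q ≠ y₀ then (t : ℝ) else 1 := by
    have e4 : ∏ q : P, (if y q ≠ y₀ then (t : ℝ) else 1) =
        ∏ q ∈ P, if y' q ≠ y₀ then (t : ℝ) else 1 := by
      rw [← Finset.prod_coe_sort P]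
      refine Finset.prod_congr rfl fun q _ => ?_
      rw [hy'P]
    rw [e4, ← Finset.prod_filter]
    refine Finset.prod_le_prod (fun q _ => Nat.cast_nonneg _) fun q hq => ?_
    have hq' := (Finset.mem_filter.mp hq).2
    have hqP := (Finset.mem_filter.mp hq).1
    simp only [hZ]
    rw [if_pos hq']
    have h4 : ((Finset.range q).filter (fun r => φ q r = y' q)).card ≤ t := by
      refine le_trans (Finset.card_le_card ?_) (hcard q hqP)
      intro r hr
      rw [Finset.mem_filter] at hr ⊢
      refine ⟨hr.1, ?_⟩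
      rw [hr.2]
      exact hq'
    exact_mod_cast h4
  have h5 : (∏ q ∈ D, ((Z q).card : ℝ)) * 2 ^ (20 * E * (b + 1)) ≤
      (∏ q : P, if y q ≠ y₀ then (t : ℝ) else 1) * 2 ^ (20 * E * (b + 1)) :=
    mul_le_mul_of_nonneg_right e3 (pow_nonneg (by norm_num) _)
  linarith

theorem kub_upperP (t : ℕ) (Y : Type) [Fintype Y] [DecidableEq Y] (P : Finset ℕ)
    (hP : ∀ q ∈ P, q.Prime) (φ : ℕ → ℕ → Y) (y₀ : Y) (ht : ∀ q ∈ P, t < q)
    (hY : ∀ q ∈ P, Fintype.card Y ≤ q) (hper : ∀ q ∈ P, ∀ m, φ q m = φ q (m % q))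
    (hcard : ∀ q ∈ P, ((Finset.range q).filter (fun r => φ q r ≠ y₀)).card ≤ t)
    (E : ℕ) (hE1 : 1 ≤ E) (hE : ∀ q ∈ P, Nat.log 2 q ≤ E) (M : ℕ) (hM : 2 ≤ M)
    (H : (P → Y) → ℝ) (hH0 : ∀ y, 0 ≤ H y) (hH1 : ∀ y, H y ≤ 1) :
    (∑ m ∈ Finset.Icc 1 M, H (fun q : P => φ q m)) / M ≤
      Enu P φ H + C1 t * E / Nat.log 2 M := by
  classical
  have hM0 : (0 : ℝ) < M := by
    have : (2 : ℝ) ≤ M := by exact_mod_cast hM
    linarith
  set A := Nat.log 2 M with hA
  have hA1 : 1 ≤ A := Nat.log_pos one_lt_two hM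
  have hAR : (1 : ℝ) ≤ A := by exact_mod_cast hA1
  have hER : (1 : ℝ) ≤ E := by exact_mod_cast hE1
  have htR : (0 : ℝ) ≤ t := Nat.cast_nonneg t
  have hEnu0 : 0 ≤ Enu P φ H := by
    unfold Enu
    exact Finset.sum_nonneg fun y _ =>
      mul_nonneg (Finset.prod_nonneg fun q _ => rho_nonneg φ q _) (hH0 y)
  have hEnu1 : Enu P φ H ≤ 1 := by
    unfold Enu
    rw [← rho_prod_sum P hP φ]
    refine Finset.sum_le_sum fun y _ => ?_
    have h1 : 0 ≤ ∏ q : P, rho φ q (y q) := Finset.prod_nonneg fun q _ => rho_nonneg φ q _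
    calc (∏ q : P, rho φ q (y q)) * H y ≤ (∏ q : P, rho φ q (y q)) * 1 :=
          mul_le_mul_of_nonneg_left (hH1 y) h1
      _ = _ := mul_one _
  rcases lt_or_ge (A : ℝ) (10000 * ((t : ℝ) + 1) ^ 2 * E) with hcase | hcase
  · -- trivial range
    have h1 : (∑ m ∈ Finset.Icc 1 M, H (fun q : P => φ q m)) / M ≤ 1 := by
      rw [div_le_one hM0]
      refine (Finset.sum_le_sum fun m _ => hH1 _).trans ?_
      simp
    have h2 : 1 ≤ C1 t * E / A := by
      rw [le_div_iff₀ (by linarith), one_mul]
      refine hcase.le.trans ?_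
      apply mul_le_mul_of_nonneg_right _ (by linarith)
      unfold C1
      nlinarith [sq_nonneg ((t : ℝ) + 1)]
    linarith
  · have hcN : 10000 * (t + 1) ^ 2 * E ≤ A := by exact_mod_cast hcase
    have hA320 : 320 * E ≤ A := by
      refine le_trans ?_ hcN
      apply Nat.mul_le_mul_right
      have h1 : 1 ≤ (t + 1) ^ 2 := Nat.one_le_pow _ _ (Nat.succ_pos _)
      generalize (t + 1) ^ 2 = s at h1
      omega
    have hAκ : 160 * (E : ℝ) ≤ A := by
      have : (320 : ℝ) * E ≤ A := by exact_mod_cast hA320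
      linarith
    obtain ⟨b, hb⟩ : ∃ b, A / (80 * E) = b + 1 := by
      refine ⟨A / (80 * E) - 1, ?_⟩
      have h1 : 4 ≤ A / (80 * E) := by
        rw [Nat.le_div_iff_mul_le (by positivity)]
        linarith
      omega
    have hb3 : 3 ≤ b := by
      have h1 : 4 ≤ A / (80 * E) := by
        rw [Nat.le_div_iff_mul_le (by positivity)]
        linarith
      omega
    have hbt : 100 * t ^ 2 ≤ b := by
      have h1 : 125 * (t + 1) ^ 2 ≤ A / (80 * E) := by
        rw [Nat.le_div_iff_mul_le (by positivity)]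
        calc 125 * (t + 1) ^ 2 * (80 * E) = 10000 * (t + 1) ^ 2 * E := by ring
          _ ≤ A := hcN
      rw [hb] at h1
      have h2 : (t + 1) ^ 2 = t ^ 2 + 2 * t + 1 := by ring
      rw [h2] at h1
      generalize t ^ 2 = s at h1
      omega
    have hb1 : (b + 1) * (80 * E) ≤ A := by
      rw [← hb]
      exact Nat.div_mul_le_self _ _
    have hb2 : A < (b + 2) * (80 * E) := by
      have h1 := Nat.lt_div_mul_add (a := A) (b := 80 * E) (by positivity)
      rw [hb] at h1
      linarith
    set x := A / 8 with hx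
    have hx1 : 8 * x ≤ A := by omega
    have hx2 : A ≤ 16 * x := by omega
    have hx0 : 1 ≤ x := by omega
    have hPM : ∀ q ∈ P, q ≤ M := by
      intro q hq
      have h1 : q < 2 ^ (E + 1) := (lt_pow_log2 q).trans_le
        (Nat.pow_le_pow_right (by norm_num) (by have := hE q hq; omega))
      have h2 : 2 ^ (E + 1) ≤ 2 ^ A := Nat.pow_le_pow_right (by norm_num) (by omega)
      have h3 : 2 ^ A ≤ M := Nat.pow_log_le_self 2 (by omega)
      omega
    have hbR : (0 : ℝ) < b := by
      have : 0 < b := by omega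
      exact_mod_cast this
    have hxR : (0 : ℝ) < x := by exact_mod_cast hx0
    -- the sum
    set G : (P → Y) → ℝ := fun y => if dmod P y₀ y ≤ 2 ^ x then H y else 0 with hG
    have h1 : ∑ m ∈ Finset.Icc 1 M, H (fun q : P => φ q m) ≤
        ∑ m ∈ Finset.Icc 1 M, G (fun q : P => φ q m) +
        (((Finset.Icc 1 M).filter
          (fun m => ¬ dmod P y₀ (fun q : P => φ q m) ≤ 2 ^ x)).card : ℝ) := by
      rw [Finset.card_filter]
      push_cast
      rw [← Finset.sum_add_distrib]
      refine Finset.sum_le_sum fun m _ => ?_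
      simp only [hG]
      split_ifs
      · simp
      · have := hH1 (fun q : P => φ q m)
        linarith
    have h2 : ∑ m ∈ Finset.Icc 1 M, G (fun q : P => φ q m) ≤
        M * Real.exp (1 / (b : ℝ)) * Enu P φ H +
          2 ^ (4 * x) * Real.exp 2 * 2 ^ (20 * E * (b + 1)) := by
      rw [sum_comp_count]
      have h3 : ∀ y : P → Y, G y *
          (((Finset.Icc 1 M).filter (fun m => (fun q : P => φ q m) = y)).card : ℝ) ≤
          M * Real.exp (1 / (b : ℝ)) * ((∏ q : P, rho φ q (y q)) * H y) +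
          (if dmod P y₀ y ≤ 2 ^ x then (∏ q : P, if y q ≠ y₀ then (t : ℝ) else 1) else 0) *
            2 ^ (20 * E * (b + 1)) := by
        intro y
        have h4 := count_patternP P hP φ y₀ t ht hper hcard E hE b (by omega) hbt M y
        have hρ : 0 ≤ ∏ q : P, rho φ q (y q) := Finset.prod_nonneg fun q _ => rho_nonneg φ q _
        have hT : 0 ≤ ∏ q : P, (if y q ≠ y₀ then (t : ℝ) else 1) := by
          apply Finset.prod_nonneg
          intro q _
          split_ifs <;> positivity
        have hpow : (0 : ℝ) ≤ 2 ^ (20 * E * (b + 1)) := pow_nonneg (by norm_num) _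
        have hexp := (Real.exp_pos (1 / (b : ℝ))).le
        simp only [hG]
        split_ifs with hd
        · have hHy0 := hH0 y
          have hHy1 := hH1 y
          calc H y * (((Finset.Icc 1 M).filter (fun m => (fun q : P => φ q m) = y)).card : ℝ)
              ≤ H y * (M * (∏ q : P, rho φ q (y q)) * Real.exp (1 / (b : ℝ)) +
                (∏ q : P, if y q ≠ y₀ then (t : ℝ) else 1) * 2 ^ (20 * E * (b + 1))) :=
                mul_le_mul_of_nonneg_left h4 hHy0
            _ = M * Real.exp (1 / (b : ℝ)) * ((∏ q : P, rho φ q (y q)) * H y) +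
                H y * ((∏ q : P, if y q ≠ y₀ then (t : ℝ) else 1) *
                  2 ^ (20 * E * (b + 1))) := by ring
            _ ≤ M * Real.exp (1 / (b : ℝ)) * ((∏ q : P, rho φ q (y q)) * H y) +
                1 * ((∏ q : P, if y q ≠ y₀ then (t : ℝ) else 1) *
                  2 ^ (20 * E * (b + 1))) := by
                have := mul_le_mul_of_nonneg_right hHy1 (mul_nonneg hT hpow)
                linarith
            _ = _ := by rw [one_mul]
        · rw [zero_mul, zero_mul, add_zero]
          exact mul_nonneg (mul_nonneg hM0.le hexp) (mul_nonneg hρ (hH0 y))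
      refine (Finset.sum_le_sum fun y _ => h3 y).trans ?_
      rw [Finset.sum_add_distrib, ← Finset.mul_sum, ← Finset.sum_mul]
      have h5 := pattern_rankin P hP y₀ t ht hY x
      have h6 := mul_le_mul_of_nonneg_right h5
        (pow_nonneg (by norm_num : (0 : ℝ) ≤ 2) (20 * E * (b + 1)))
      have h7 : (M : ℝ) * Real.exp (1 / (b : ℝ)) * ∑ y : P → Y,
          ((∏ q : P, rho φ q (y q)) * H y) = M * Real.exp (1 / (b : ℝ)) * Enu P φ H := rfl
      linarith
    have h3 := large_modulus P hP φ y₀ t hper hcard E hE M hPM x hx0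
    -- numerical estimates
    have hexp1 : Real.exp (1 / (b : ℝ)) ≤ 1 + 320 * (E : ℝ) / A := by
      have hAb : (A : ℝ) ≤ 160 * E * b := by
        have : A ≤ 160 * E * b := by
          have h4 : (b + 2) * (80 * E) ≤ 160 * E * b := by
            have : b + 2 ≤ 2 * b := by omega
            calc (b + 2) * (80 * E) ≤ (2 * b) * (80 * E) := Nat.mul_le_mul_right _ this
              _ = 160 * E * b := by ring
          omega
        exact_mod_cast this
      have h5 : 1 / (b : ℝ) ≤ 160 * (E : ℝ) / A := by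
        rw [div_le_div_iff₀ hbR (by linarith)]
        linarith
      have h6 : 160 * (E : ℝ) / A ≤ 1 := by
        rw [div_le_one (by linarith)]
        exact hAκ
      have h7 : 0 ≤ 1 / (b : ℝ) := by positivity
      have h8 := Real.abs_exp_sub_one_le (x := 1 / (b : ℝ)) (by rw [abs_of_nonneg h7]; linarith)
      rw [abs_of_nonneg h7] at h8
      have h9 := (abs_le.mp h8).2
      have h10 : 2 * (160 * (E : ℝ) / A) = 320 * (E : ℝ) / A := by ring
      linarith
    have hpow : 2 ^ (4 * x) * Real.exp 2 * 2 ^ (20 * E * (b + 1)) ≤ 32 * E / A * M := by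
      set s := 4 * x + 20 * E * (b + 1) with hs
      have hs1 : 4 * s ≤ 3 * A := by
        have h4 : 4 * (20 * E * (b + 1)) = (b + 1) * (80 * E) := by ring
        rw [hs, mul_add, h4]
        omega
      have e1 : (2 : ℝ) ^ (4 * x) * Real.exp 2 * 2 ^ (20 * E * (b + 1)) = Real.exp 2 * 2 ^ s := by
        rw [hs, pow_add]
        ring
      rw [e1]
      have he2 : Real.exp 2 ≤ 8 := by
        have h5 := Real.exp_one_lt_d9
        have h6 : Real.exp 2 = Real.exp 1 * Real.exp 1 := by
          rw [← Real.exp_add]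
          norm_num
        rw [h6]
        have h7 := Real.exp_pos 1
        nlinarith
      have hMA : (2 : ℝ) ^ A ≤ M := by
        exact_mod_cast Nat.pow_log_le_self 2 (show M ≠ 0 by omega)
      obtain ⟨r, hr⟩ : ∃ r, A = s + r := ⟨A - s, by omega⟩
      have hr4 : A ≤ 4 * r := by omega
      have hr2 : (r : ℝ) ≤ 2 ^ r := by
        exact_mod_cast (Nat.lt_two_pow_self (n := r)).le
      have hAr : (A : ℝ) ≤ 4 * r := by exact_mod_cast hr4
      have h8 : (2 : ℝ) ^ A = 2 ^ s * 2 ^ r := by rw [hr, pow_add]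
      have h9 : (2 : ℝ) ^ s * A ≤ 4 * M := by
        have h10 : (0 : ℝ) < 2 ^ s := by positivity
        calc (2 : ℝ) ^ s * A ≤ 2 ^ s * (4 * 2 ^ r) := by
              apply mul_le_mul_of_nonneg_left _ h10.le
              linarith
          _ = 4 * (2 ^ s * 2 ^ r) := by ring
          _ = 4 * 2 ^ A := by rw [h8]
          _ ≤ 4 * M := by linarith
      rw [div_mul_eq_mul_div, le_div_iff₀ (by linarith)]
      have h11 : (0 : ℝ) ≤ 2 ^ s * A := by positivity
      calc Real.exp 2 * 2 ^ s * A = Real.exp 2 * (2 ^ s * A) := by ring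
        _ ≤ 8 * (2 ^ s * A) := mul_le_mul_of_nonneg_right he2 h11
        _ ≤ 8 * (4 * M) := by linarith
        _ = 32 * 1 * M := by ring
        _ ≤ 32 * E * M := by
            apply mul_le_mul_of_nonneg_right _ hM0.le
            linarith
    have hlarge : 16 * (t : ℝ) * M * E / x ≤ 256 * t * E / A * M := by
      have hAx : (A : ℝ) ≤ 16 * x := by exact_mod_cast hx2
      rw [div_mul_eq_mul_div, div_le_div_iff₀ hxR (by linarith)]
      have h4 : (0 : ℝ) ≤ 16 * t * M * E := by positivity
      have := mul_le_mul_of_nonneg_left hAx h4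
      linarith
    rw [div_le_iff₀ hM0]
    have h4 : (M : ℝ) * Real.exp (1 / (b : ℝ)) * Enu P φ H ≤
        M * Enu P φ H + 320 * (E : ℝ) / A * M := by
      have h5 : (0 : ℝ) ≤ 320 * (E : ℝ) / A := by positivity
      have h6 : Real.exp (1 / (b : ℝ)) * Enu P φ H ≤ Enu P φ H + 320 * (E : ℝ) / A := by
        calc Real.exp (1 / (b : ℝ)) * Enu P φ H ≤ (1 + 320 * (E : ℝ) / A) * Enu P φ H :=
              mul_le_mul_of_nonneg_right hexp1 hEnu0
          _ = Enu P φ H + 320 * (E : ℝ) / A * Enu P φ H := by ring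
          _ ≤ Enu P φ H + 320 * (E : ℝ) / A * 1 := by
              have := mul_le_mul_of_nonneg_left hEnu1 h5
              linarith
          _ = _ := by rw [mul_one]
      have := mul_le_mul_of_nonneg_left h6 hM0.le
      calc (M : ℝ) * Real.exp (1 / (b : ℝ)) * Enu P φ H =
            M * (Real.exp (1 / (b : ℝ)) * Enu P φ H) := by ring
        _ ≤ _ := this
        _ = _ := by ring
    have h5 : 320 * (E : ℝ) / A * M + 32 * E / A * M + 256 * t * E / A * M ≤
        C1 t * E / A * M := by
      have h6 : 320 * (E : ℝ) / A * M + 32 * E / A * M + 256 * t * E / A * M =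
          (352 + 256 * t) * (E / A * M) := by ring
      have h7 : C1 t * E / A * M = C1 t * (E / A * M) := by ring
      rw [h6, h7]
      apply mul_le_mul_of_nonneg_right _ (by positivity)
      unfold C1
      nlinarith
    rw [add_mul]
    linarith

theorem kubP (t : ℕ) (Y : Type) [Fintype Y] [DecidableEq Y] (P : Finset ℕ)
    (hP : ∀ q ∈ P, q.Prime) (φ : ℕ → ℕ → Y) (y₀ : Y) (ht : ∀ q ∈ P, t < q)
    (hY : ∀ q ∈ P, Fintype.card Y ≤ q) (hper : ∀ q ∈ P, ∀ m, φ q m = φ q (m % q))
    (hcard : ∀ q ∈ P, ((Finset.range q).filter (fun r => φ q r ≠ y₀)).card ≤ t)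
    (E : ℕ) (hE1 : 1 ≤ E) (hE : ∀ q ∈ P, Nat.log 2 q ≤ E) (M : ℕ) (hM : 2 ≤ M)
    (H : (P → Y) → ℝ) (hH : ∀ y, |H y| ≤ 1) :
    |(∑ m ∈ Finset.Icc 1 M, H (fun q : P => φ q m)) / M - Enu P φ H| ≤
      (CpN t : ℝ) * E / Nat.log 2 M := by
  classical
  have hCp : (CpN t : ℝ) * E / Nat.log 2 M = 2 * C1 t * E / Nat.log 2 M := by
    unfold CpN C1
    push_cast
    ring
  rw [hCp]
  have hM0 : (0 : ℝ) < M := by
    have : (2 : ℝ) ≤ M := by exact_mod_cast hM
    linarith
  have key : ∀ s : ℝ, |s| = 1 →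
      s * ((∑ m ∈ Finset.Icc 1 M, H (fun q : P => φ q m)) / M - Enu P φ H) ≤
        2 * C1 t * E / Nat.log 2 M := by
    intro s hs
    have h := kub_upperP t Y P hP φ y₀ ht hY hper hcard E hE1 hE M hM
      (fun y => (1 + s * H y) / 2) (by
        intro y
        have h1 : |s * H y| ≤ 1 := by
          rw [abs_mul, hs, one_mul]
          exact hH y
        have := (abs_le.mp h1).1
        linarith) (by
        intro y
        have h1 : |s * H y| ≤ 1 := by
          rw [abs_mul, hs, one_mul]
          exact hH y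
        have := (abs_le.mp h1).2
        linarith)
    have e1 : (∑ m ∈ Finset.Icc 1 M, (1 + s * H (fun q : P => φ q m)) / 2) / M =
        1 / 2 + s * ((∑ m ∈ Finset.Icc 1 M, H (fun q : P => φ q m)) / M) / 2 := by
      rw [← Finset.sum_div, Finset.sum_add_distrib, ← Finset.mul_sum]
      simp only [Finset.sum_const, Nat.card_Icc, Nat.add_sub_cancel, nsmul_eq_mul, mul_one]
      field_simp
    have e2 : Enu P φ (fun y => (1 + s * H y) / 2) = 1 / 2 + s * Enu P φ H / 2 := by
      unfold Enu
      have h2 := rho_prod_sum P hP φ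
      have h3 : ∀ y : P → Y, (∏ q : P, rho φ q (y q)) * ((1 + s * H y) / 2) =
          (∏ q : P, rho φ q (y q)) * (1 / 2) + (s / 2) * ((∏ q : P, rho φ q (y q)) * H y) := by
        intro y
        ring
      rw [Finset.sum_congr rfl fun y _ => h3 y, Finset.sum_add_distrib, ← Finset.sum_mul, h2,
        ← Finset.mul_sum]
      ring
    rw [e1, e2] at h
    have e3 : 2 * C1 t * E / Nat.log 2 M = 2 * (C1 t * E / Nat.log 2 M) := by ring
    rw [e3]
    linarith
  rw [abs_le]
  constructor
  · have := key (-1) (by norm_num)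
    linarith
  · have := key 1 (by norm_num)
    linarith

end Helper11.QR
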