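import Mathlib
import Pool.Agent.Helper11.QR.BlockSum

set_option autoImplicit false

/-! QR-12: the mean number of the prime factors not counted in the model.

`card_dvd_le`: the number of primes of `P` dividing `m ≥ 1` is at most `Ω(m)`.

`wMean`: put `X = N + v`, `E = Nat.log 2 N / u`, `P = PP h E`. The summands are `≥ 0` for all
`m + v ≥ 1`, so the sum is at most `∑_{x ∈ Icc 1 X} (Ω(x) - #{q ∈ P : q ∣ x})`, and
`Ω(x) = ∑_{p ≤ X prime} #{a ≥ 1 : p ^ a ∣ x}`. Hence it is at most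
`∑_{p ≤ X, p ∉ P} X / p + ∑_{p ≤ X} ∑_{a ≥ 2} X / p ^ a`
`≤ X * (∑_{p ≤ h} 1/p + ∑_{2 ^ (E+1) ≤ p ≤ X} 1/p + ∑_p 1 / (p (p - 1)))`, the last sum is
`≤ 1`. By `sum_small` and `sum_large` (with `E + 1`; for `N ≥ N₀`, `X ≤ N + n ≤ 2 N`,
`Nat.log 2 X ≤ Nat.log 2 N + 1 ≤ u (E + 1) + 1`, so `Nat.log 2 X / (E + 1) + 1 ≤ u + 2 ≤ 4 u` and
`Nat.log 2 (4 u) = Nat.log 2 u + 2`) the bracket is at most
`4 (log2 (log2 h + 1) + 2) + 4 (log2 u + 4) + 1`, and `X ≤ (1 + n / N) N` with `n / N` small: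
`(1 + n/N) * (4 x + 4 y + 25) ≤ 8 (x + y + 8)`. -/

namespace Helper11.QR

open Finset Helper13.Om

lemma card_dvd_le (P : Finset ℕ) (hP : ∀ q ∈ P, q.Prime) (m : ℕ) (hm : 1 ≤ m) :
    (P.filter (fun q => q ∣ m)).card ≤ ArithmeticFunction.cardFactors m := by
  have h1 : P.filter (fun q => q ∣ m) ⊆ m.primeFactors := by
    intro q hq
    rw [Finset.mem_filter] at hq
    exact Nat.mem_primeFactors.2 ⟨hP q hq.1, hq.2, by omega⟩
  refine (Finset.card_le_card h1).trans ?_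
  rw [ArithmeticFunction.cardFactors_apply]
  exact List.toFinset_card_le _

/-- the number of prime factors of all numbers up to `X` -/
private lemma wm_sum_Om (X : ℕ) : ∑ x ∈ Finset.Icc 1 X, ArithmeticFunction.cardFactors x =
    ∑ p ∈ (Finset.Icc 1 X).filter Nat.Prime, (X.factorial).factorization p := by
  have h1 : ∀ x ∈ Finset.Icc 1 X, ArithmeticFunction.cardFactors x =
      ∑ p ∈ (Finset.Icc 1 X).filter Nat.Prime, x.factorization p := by
    intro x hx
    rw [Finset.mem_Icc] at hx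
    rw [ArithmeticFunction.cardFactors_eq_sum_factorization, Finsupp.sum]
    refine Finset.sum_subset ?_ ?_
    · intro p hp
      rw [Nat.support_factorization, Nat.mem_primeFactors] at hp
      rw [Finset.mem_filter, Finset.mem_Icc]
      exact ⟨⟨hp.1.one_le, (Nat.le_of_dvd (by omega) hp.2.1).trans hx.2⟩, hp.1⟩
    · intro p _ hp
      exact Finsupp.notMem_support_iff.1 hp
  rw [Finset.sum_congr rfl h1, Finset.sum_comm]
  refine Finset.sum_congr rfl fun p _ => ?_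
  have h2 : ∀ Y : ℕ, (Y.factorial).factorization p = ∑ x ∈ Finset.Icc 1 Y, x.factorization p := by
    intro Y
    induction Y with
    | zero => simp
    | succ Y ih =>
      rw [Nat.factorial_succ, Nat.factorization_mul (by omega) (Nat.factorial_ne_zero _),
        Finsupp.add_apply, ih, Finset.sum_Icc_succ_top (by omega), add_comm]
  exact (h2 X).symm

private lemma wm_sum_dvd (P : Finset ℕ) (X : ℕ) :
    ∑ x ∈ Finset.Icc 1 X, (P.filter (fun q => q ∣ x)).card = ∑ q ∈ P, X / q := by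
  have h1 : ∀ x ∈ Finset.Icc 1 X, (P.filter (fun q => q ∣ x)).card =
      ∑ q ∈ P, if q ∣ x then 1 else 0 := fun x _ => by rw [Finset.card_filter]
  rw [Finset.sum_congr rfl h1, Finset.sum_comm]
  refine Finset.sum_congr rfl fun q _ => ?_
  rw [← Finset.card_filter, ← Nat.Ioc_filter_dvd_card_eq_div X q]
  rfl

private lemma wm_val (p X : ℕ) (hp : p.Prime) :
    ((X.factorial).factorization p : ℝ) ≤ (X : ℝ) / p + (X : ℝ) * (1 / ((p : ℝ) * (p - 1))) := by
  have : Fact p.Prime := ⟨hp⟩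
  have hp2 := hp.two_le
  have h1 : (p - 1) * padicValNat p (X.factorial) ≤ X := by
    rw [sub_one_mul_padicValNat_factorial]
    omega
  rw [Nat.factorization_def _ hp]
  have h2 : ((p : ℝ) - 1) * (padicValNat p (X.factorial) : ℝ) ≤ X := by
    have h3 : (((p - 1) * padicValNat p (X.factorial) : ℕ) : ℝ) ≤ (X : ℝ) := by
      exact_mod_cast h1
    rw [Nat.cast_mul, Nat.cast_sub (by omega), Nat.cast_one] at h3
    exact h3
  have hp3 : (2 : ℝ) ≤ p := by exact_mod_cast hp2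
  have hp4 : (0 : ℝ) < (p : ℝ) - 1 := by linarith
  have e : (X : ℝ) / p + (X : ℝ) * (1 / ((p : ℝ) * (p - 1))) = X / ((p : ℝ) - 1) := by
    field_simp
    ring
  rw [e, le_div_iff₀ hp4]
  linarith

private lemma wm_val' (p X : ℕ) (hp : p.Prime) :
    ((X.factorial).factorization p : ℝ) - ((X / p : ℕ) : ℝ) ≤
      (X : ℝ) * (1 / ((p : ℝ) * (p - 1))) := by
  have : Fact p.Prime := ⟨hp⟩
  have hp2 := hp.two_le
  have h0 : padicValNat p (X.factorial) = padicValNat p ((X / p).factorial) + X / p := by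
    rw [← padicValNat_mul_div_factorial, padicValNat_factorial_mul]
  have h1 : (p - 1) * padicValNat p ((X / p).factorial) ≤ X / p := by
    rw [sub_one_mul_padicValNat_factorial]
    exact Nat.sub_le _ _
  rw [Nat.factorization_def _ hp, h0, Nat.cast_add, add_sub_cancel_right]
  have hp3 : (2 : ℝ) ≤ p := by exact_mod_cast hp2
  have hp4 : (0 : ℝ) < (p : ℝ) - 1 := by linarith
  have h2 : ((p : ℝ) - 1) * (padicValNat p ((X / p).factorial) : ℝ) ≤ X / p := by
    have h3 : (((p - 1) * padicValNat p ((X / p).factorial) : ℕ) : ℝ) ≤ ((X / p : ℕ) : ℝ) := by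
      exact_mod_cast h1
    rw [Nat.cast_mul, Nat.cast_sub (by omega), Nat.cast_one] at h3
    exact h3.trans Nat.cast_div_le
  have e : (X : ℝ) * (1 / ((p : ℝ) * (p - 1))) = X / p / ((p : ℝ) - 1) := by
    field_simp
  rw [e, le_div_iff₀ hp4]
  linarith

private lemma wm_tele (X : ℕ) (hX : 1 ≤ X) :
    ∑ n ∈ Finset.Icc 2 X, (1 : ℝ) / ((n : ℝ) * (n - 1)) = 1 - 1 / X := by
  induction X, hX using Nat.le_induction with
  | base => simp
  | succ X hX ih =>
    rw [Finset.sum_Icc_succ_top (by omega), ih]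
    have hX' : (0 : ℝ) < X := by exact_mod_cast hX
    have e : ((X + 1 : ℕ) : ℝ) - 1 = X := by push_cast; ring
    have e' : ((X + 1 : ℕ) : ℝ) = X + 1 := by push_cast; ring
    rw [e, e']
    field_simp
    ring

private lemma wm_main (h E X : ℕ) (hX : 1 ≤ X) :
    ∑ x ∈ Finset.Icc 1 X, ((ArithmeticFunction.cardFactors x : ℝ) -
        (((PP h E).filter (fun q => q ∣ x)).card : ℝ)) ≤
      X * (4 * ((Nat.log 2 (Nat.log 2 h + 1) : ℝ) + 2) +
        4 * ((Nat.log 2 (Nat.log 2 X / (E + 1) + 1) : ℝ) + 2) + 1) := by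
  classical
  have hX0 : (0 : ℝ) ≤ X := Nat.cast_nonneg X
  set Q := (Finset.Icc 1 X).filter Nat.Prime with hQ
  have hQp : ∀ p ∈ Q, p.Prime := fun p hp => (Finset.mem_filter.1 hp).2
  rw [Finset.sum_sub_distrib, ← Nat.cast_sum, ← Nat.cast_sum, wm_sum_Om, wm_sum_dvd]
  have h1 : ∑ q ∈ Q.filter (fun q => q ∈ PP h E), X / q ≤ ∑ q ∈ PP h E, X / q := by
    refine Finset.sum_le_sum_of_subset ?_
    intro q hq
    exact (Finset.mem_filter.1 hq).2
  have h2 : ((∑ q ∈ Q.filter (fun q => q ∈ PP h E), X / q : ℕ) : ℝ) ≤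
      ((∑ q ∈ PP h E, X / q : ℕ) : ℝ) := by exact_mod_cast h1
  have h3 : ((∑ q ∈ Q.filter (fun q => q ∈ PP h E), X / q : ℕ) : ℝ) =
      ∑ q ∈ Q, if q ∈ PP h E then ((X / q : ℕ) : ℝ) else 0 := by
    rw [Nat.cast_sum, Finset.sum_filter]
  have h4 : ((∑ p ∈ Q, (X.factorial).factorization p : ℕ) : ℝ) -
      (∑ q ∈ Q, if q ∈ PP h E then ((X / q : ℕ) : ℝ) else 0) ≤
      ∑ p ∈ Q, ((if p ∈ PP h E then 0 else (X : ℝ) * (1 / p)) +
        (X : ℝ) * (1 / ((p : ℝ) * (p - 1)))) := by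
    rw [Nat.cast_sum, ← Finset.sum_sub_distrib]
    refine Finset.sum_le_sum fun p hp => ?_
    split_ifs with hpp
    · rw [zero_add]
      exact wm_val' p X (hQp p hp)
    · rw [sub_zero, mul_one_div]
      exact wm_val p X (hQp p hp)
  have h5 : ∑ p ∈ Q, (X : ℝ) * (1 / ((p : ℝ) * (p - 1))) ≤ X := by
    rw [← Finset.mul_sum]
    have h6 : ∑ p ∈ Q, (1 : ℝ) / ((p : ℝ) * (p - 1)) ≤
        ∑ n ∈ Finset.Icc 2 X, (1 : ℝ) / ((n : ℝ) * (n - 1)) := by
      refine Finset.sum_le_sum_of_subset_of_nonneg ?_ ?_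
      · intro p hp
        have h7 := (hQp p hp).two_le
        rw [hQ, Finset.mem_filter, Finset.mem_Icc] at hp
        exact Finset.mem_Icc.2 ⟨h7, hp.1.2⟩
      · intro n hn _
        rw [Finset.mem_Icc] at hn
        have h8 : (2 : ℝ) ≤ n := by exact_mod_cast hn.1
        have h9 : (0 : ℝ) ≤ (n : ℝ) - 1 := by linarith
        positivity
    rw [wm_tele X hX] at h6
    have h7 : (0 : ℝ) ≤ 1 / X := by positivity
    calc (X : ℝ) * ∑ p ∈ Q, (1 : ℝ) / ((p : ℝ) * (p - 1)) ≤ X * 1 :=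
          mul_le_mul_of_nonneg_left (by linarith) hX0
      _ = X := mul_one _
  have h6 : ∑ p ∈ Q, (if p ∈ PP h E then 0 else (X : ℝ) * (1 / p)) ≤
      X * (∑ p ∈ (Finset.range (h + 1)).filter Nat.Prime, (1 : ℝ) / p +
        ∑ p ∈ (Finset.Icc (2 ^ (E + 1)) X).filter Nat.Prime, (1 : ℝ) / p) := by
    have h7 : ∑ p ∈ Q, (if p ∈ PP h E then 0 else (X : ℝ) * (1 / p)) =
        ∑ p ∈ Q.filter (fun p => p ∉ PP h E), (X : ℝ) * (1 / p) := by
      refine Eq.trans ?_ (Finset.sum_filter (fun p => p ∉ PP h E) _).symm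
      refine Finset.sum_congr rfl fun p _ => ?_
      by_cases hp : p ∈ PP h E
      · rw [if_pos hp, if_neg (not_not.2 hp)]
      · rw [if_neg hp, if_pos hp]
    rw [h7, ← Finset.mul_sum]
    refine mul_le_mul_of_nonneg_left ?_ hX0
    have h8 : Q.filter (fun p => p ∉ PP h E) ⊆ (Finset.range (h + 1)).filter Nat.Prime ∪
        (Finset.Icc (2 ^ (E + 1)) X).filter Nat.Prime := by
      intro p hp
      rw [Finset.mem_filter, hQ, Finset.mem_filter, Finset.mem_Icc, mem_PP] at hp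
      obtain ⟨⟨hp1, hp2⟩, hp3⟩ := hp
      rw [Finset.mem_union, Finset.mem_filter, Finset.mem_filter, Finset.mem_range,
        Finset.mem_Icc]
      by_cases hh : h < p
      · right
        refine ⟨⟨?_, hp1.2⟩, hp2⟩
        by_contra hc
        exact hp3 ⟨by omega, hp2, hh⟩
      · left
        exact ⟨by omega, hp2⟩
    refine (Finset.sum_le_sum_of_subset_of_nonneg h8 fun p _ _ => by positivity).trans ?_
    have h9 := Finset.sum_union_inter (s₁ := (Finset.range (h + 1)).filter Nat.Prime)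
      (s₂ := (Finset.Icc (2 ^ (E + 1)) X).filter Nat.Prime) (f := fun p : ℕ => (1 : ℝ) / p)
    have h10 : 0 ≤ ∑ p ∈ (Finset.range (h + 1)).filter Nat.Prime ∩
        (Finset.Icc (2 ^ (E + 1)) X).filter Nat.Prime, (1 : ℝ) / p :=
      Finset.sum_nonneg fun p _ => by positivity
    linarith
  rw [Finset.sum_add_distrib] at h4
  have h7 := sum_small h
  have h8 := sum_large (E + 1) X (by omega)
  have h9 : (X : ℝ) * (∑ p ∈ (Finset.range (h + 1)).filter Nat.Prime, (1 : ℝ) / p +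
        ∑ p ∈ (Finset.Icc (2 ^ (E + 1)) X).filter Nat.Prime, (1 : ℝ) / p) ≤
      X * (4 * ((Nat.log 2 (Nat.log 2 h + 1) : ℝ) + 2) +
        4 * ((Nat.log 2 (Nat.log 2 X / (E + 1) + 1) : ℝ) + 2)) :=
    mul_le_mul_of_nonneg_left (add_le_add h7 h8) hX0
  rw [h3] at h2
  rw [mul_add, mul_one]
  linarith

theorem wMean (h u n : ℕ) (hu : 1 ≤ u) :
    ∃ N₀ : ℕ, ∀ N ≥ N₀, ∀ v ≤ n,
      ∑ m ∈ Finset.Icc 1 N, ((ArithmeticFunction.cardFactors (m + v) : ℝ) -
        (((PP h (Nat.log 2 N / u)).filter (fun q => q ∣ m + v)).card : ℝ)) ≤ K0 h u * N := by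
  refine ⟨n + 1, fun N hN v hv => ?_⟩
  set E := Nat.log 2 N / u with hE
  have hPP : ∀ q ∈ PP h E, q.Prime := fun q hq => ((mem_PP h E q).1 hq).2.1
  set g : ℕ → ℝ := fun x => (ArithmeticFunction.cardFactors x : ℝ) -
    (((PP h E).filter (fun q => q ∣ x)).card : ℝ) with hg
  have hg0 : ∀ x, 1 ≤ x → 0 ≤ g x := by
    intro x hx
    have h1 := card_dvd_le (PP h E) hPP x hx
    have h2 : (((PP h E).filter (fun q => q ∣ x)).card : ℝ) ≤
      (ArithmeticFunction.cardFactors x : ℝ) := by exact_mod_cast h1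
    exact sub_nonneg.2 h2
  have h1 : ∑ m ∈ Finset.Icc 1 N, g (m + v) ≤ ∑ x ∈ Finset.Icc 1 (N + v), g x := by
    have h2 : ∑ m ∈ Finset.Icc 1 N, g (m + v) = ∑ x ∈ (Finset.Icc 1 N).image (· + v), g x := by
      rw [Finset.sum_image]
      intro a _ b _ hab
      exact Nat.add_right_cancel hab
    rw [h2]
    refine Finset.sum_le_sum_of_subset_of_nonneg ?_ ?_
    · intro x hx
      rw [Finset.mem_image] at hx
      obtain ⟨a, ha, rfl⟩ := hx
      rw [Finset.mem_Icc] at ha ⊢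
      omega
    · intro x hx _
      exact hg0 x (Finset.mem_Icc.1 hx).1
  have h2 := wm_main h E (N + v) (by omega)
  have hN1 : 1 ≤ N := by omega
  -- the logarithm of `X`
  have h3 : Nat.log 2 (N + v) ≤ Nat.log 2 N + 1 := by
    have h4 : N + v < 2 ^ (Nat.log 2 N + 2) := by
      have h5 := Nat.lt_pow_succ_log_self (b := 2) (by norm_num) N
      rw [Nat.succ_eq_add_one] at h5
      rw [pow_succ]
      omega
    have h6 : Nat.log 2 (N + v) < Nat.log 2 N + 2 :=
      Nat.log_lt_of_lt_pow (by omega) h4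
    omega
  have h4 : Nat.log 2 (N + v) / (E + 1) ≤ u := by
    have h5 : Nat.log 2 N < (E + 1) * u :=
      (Nat.div_lt_iff_lt_mul hu).1 (Nat.lt_succ_self _)
    refine Nat.div_le_of_le_mul ?_
    omega
  have h5 : Nat.log 2 (Nat.log 2 (N + v) / (E + 1) + 1) ≤ Nat.log 2 u + 1 := by
    have h6 : Nat.log 2 (Nat.log 2 (N + v) / (E + 1) + 1) ≤ Nat.log 2 (u * 2) :=
      Nat.log_mono_right (by omega)
    rwa [Nat.log_mul_base (by norm_num) (by omega)] at h6
  have h5' : (Nat.log 2 (Nat.log 2 (N + v) / (E + 1) + 1) : ℝ) ≤ Nat.log 2 u + 1 := by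
    exact_mod_cast h5
  refine h1.trans (h2.trans ?_)
  have hX : ((N + v : ℕ) : ℝ) ≤ 2 * N := by
    have h6 : N + v ≤ 2 * N := by omega
    exact_mod_cast h6
  have ha : (0 : ℝ) ≤ Nat.log 2 (Nat.log 2 h + 1) := Nat.cast_nonneg _
  have hb : (0 : ℝ) ≤ Nat.log 2 u := Nat.cast_nonneg _
  have hc : (0 : ℝ) ≤ Nat.log 2 (Nat.log 2 (N + v) / (E + 1) + 1) := Nat.cast_nonneg _
  have hN0 : (0 : ℝ) ≤ N := Nat.cast_nonneg _
  have h7 : ((N + v : ℕ) : ℝ) * (4 * ((Nat.log 2 (Nat.log 2 h + 1) : ℝ) + 2) +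
        4 * ((Nat.log 2 (Nat.log 2 (N + v) / (E + 1) + 1) : ℝ) + 2) + 1) ≤
      (2 * N) * (4 * ((Nat.log 2 (Nat.log 2 h + 1) : ℝ) + 2) +
        4 * (((Nat.log 2 u + 1 : ℝ)) + 2) + 1) := by
    refine mul_le_mul hX (by linarith) (by linarith) (by linarith)
  refine h7.trans ?_
  unfold K0
  push_cast
  nlinarith

end Helper11.QR
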