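import Mathlib
import Pool.Agent.Helper11.QR.EsSmooth
import Pool.Agent.Helper11.QR.WMean
import Pool.Agent.Helper11.QR.KubP

set_option autoImplicit false

/-! QR-13: the law of `Ω` at scale `N` is close to the model law.

Proof. Let `u' ≥ u` be a large multiple of ... (any `u' ≥ u`) with `CpN 1 / u' ≤ τ / 8`, and put
`P = PP h (Nat.log 2 N / u)`, `P' = PP h (Nat.log 2 N / u') ⊆ P`. Let `J ≥ 1` with
`2 * K0 h u' / J ≤ τ / 8`, and `b t = (1 / J) ∑_{j < J} a (t + j)` (`|b| ≤ 1`,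
`|b (t + 1) - b t| ≤ 2 / J`). For `N` large, each of the following is at most `τ / 8`:
(1) `mean a(Ω(n)) - mean b(Ω(n))`: `ShiftInv` (`shiftInv_eventually`, Helper13/Om/Noise.lean, with
`r = τ / (8 J)`), iterated `j < J` times;
(2) `mean b(Ω(n)) - mean b(s'(n))`, `s'(n) = #{q ∈ P' : q ∣ n}`: at most
`(2 / J) mean (Ω(n) - s'(n)) ≤ (2 / J) K0 h u'` by `wMean` (`v = 0`) and `card_dvd_le`;
(3) `mean b(s'(n)) - Es P' b`: `kubP` with `t = 1`, `Y = Bool`, `φ q m = decide (q ∣ m)`,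
`y₀ = false`, `E = Nat.log 2 N / u'`: the error is `CpN 1 * E / Nat.log 2 N ≤ CpN 1 / u'`; here
`Enu P' φ (fun c => b (cntB c)) = Es P' b` since `rho φ q true = 1 / q`;
(4) `Es P' b - Es P' a`: `Es_smooth`;
(5) `Es P' a - Es P a`: `Es_subset` with `s` from `Es_smooth` (`B = 1`) and
`∑_{q ∈ P \ P'} 1/q ≤ 4 (log2 (..) + 2)` bounded independently of `N` by `sum_large`
(`2 ^ (Nat.log 2 N / u' + 1) ≤ q < 2 ^ (Nat.log 2 N / u + 1)`). -/

namespace Helper11.QR

open Finset Helper13.Om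

/-- The average of `a` over `J` shifts. -/
private noncomputable def lbAvg (J : ℕ) (a : ℕ → ℝ) (t : ℕ) : ℝ :=
  1 / (J : ℝ) * ∑ j ∈ Finset.range J, a (t + j)

private lemma lbAvg_abs (J : ℕ) (hJ : 1 ≤ J) (a : ℕ → ℝ) (ha : ∀ t, |a t| ≤ 1) (t : ℕ) :
    |lbAvg J a t| ≤ 1 := by
  have hJR : (0 : ℝ) < J := by exact_mod_cast hJ
  unfold lbAvg
  rw [abs_mul, abs_of_pos (by positivity), one_div_mul_eq_div, div_le_one hJR]
  refine (Finset.abs_sum_le_sum_abs _ _).trans ?_
  refine (Finset.sum_le_card_nsmul _ _ 1 (fun j _ => ha _)).trans (le_of_eq ?_)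
  rw [nsmul_eq_mul, mul_one, Finset.card_range]

private lemma lbAvg_slow (J : ℕ) (hJ : 1 ≤ J) (a : ℕ → ℝ) (ha : ∀ t, |a t| ≤ 1) (t : ℕ) :
    |lbAvg J a (t + 1) - lbAvg J a t| ≤ 2 / J := by
  have hJR : (0 : ℝ) < J := by exact_mod_cast hJ
  have e1 : lbAvg J a (t + 1) - lbAvg J a t = 1 / (J : ℝ) * (a (t + J) - a t) := by
    unfold lbAvg
    rw [← mul_sub, ← Finset.sum_sub_distrib]
    congr 1
    have h := Finset.sum_range_sub (fun j => a (t + j)) J
    simp only [add_zero] at h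
    rw [← h]
    refine Finset.sum_congr rfl fun j _ => ?_
    rw [show t + 1 + j = t + (j + 1) by ring]
  rw [e1, abs_mul, abs_of_pos (by positivity), one_div_mul_eq_div]
  apply div_le_div_of_nonneg_right _ hJR.le
  have h1 := abs_sub (a (t + J)) (a t)
  have h2 := ha (t + J)
  have h3 := ha t
  linarith

private lemma lbAvg_lip (J : ℕ) (hJ : 1 ≤ J) (a : ℕ → ℝ) (ha : ∀ t, |a t| ≤ 1) (x d : ℕ) :
    |lbAvg J a (x + d) - lbAvg J a x| ≤ 2 / J * d := by
  induction d with
  | zero => simp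
  | succ d ih =>
    have h1 := lbAvg_slow J hJ a ha (x + d)
    have h2 : lbAvg J a (x + (d + 1)) - lbAvg J a x =
        (lbAvg J a (x + d + 1) - lbAvg J a (x + d)) + (lbAvg J a (x + d) - lbAvg J a x) := by
      rw [← add_assoc]; ring
    rw [h2]
    refine (abs_add_le _ _).trans ?_
    push_cast
    rw [mul_add, mul_one]
    linarith

/-- Averaging over shifts changes an almost shift invariant functional only a little. -/
private lemma lbAvg_fun (T : (ℕ → ℝ) → ℝ) (J : ℕ) (hJ : 1 ≤ J) (a : ℕ → ℝ) (ε : ℝ)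
    (hT : T (lbAvg J a) = 1 / (J : ℝ) * ∑ j ∈ Finset.range J, T (fun t => a (t + j)))
    (hε : ∀ j < J, |T (fun t => a (t + j)) - T a| ≤ ε) : |T (lbAvg J a) - T a| ≤ ε := by
  have hJR : (0 : ℝ) < J := by exact_mod_cast hJ
  have e1 : T (lbAvg J a) - T a =
      1 / (J : ℝ) * ∑ j ∈ Finset.range J, (T (fun t => a (t + j)) - T a) := by
    rw [hT, Finset.sum_sub_distrib, Finset.sum_const, Finset.card_range, nsmul_eq_mul, mul_sub]
    congr 1
    field_simp
  rw [e1, abs_mul, abs_of_pos (by positivity), one_div_mul_eq_div, div_le_iff₀ hJR]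
  refine (Finset.abs_sum_le_sum_abs _ _).trans ?_
  refine (Finset.sum_le_card_nsmul _ _ ε (fun j hj => hε j (Finset.mem_range.1 hj))).trans
    (le_of_eq ?_)
  rw [nsmul_eq_mul, Finset.card_range, mul_comm]

private lemma lb_cnt (P : Finset ℕ) (m : ℕ) :
    cntB (fun q : P => decide ((q : ℕ) ∣ m)) = (P.filter (fun q => q ∣ m)).card := by
  unfold cntB
  refine Finset.card_bij (fun i _ => (i : ℕ)) ?_ ?_ ?_
  · intro i hi
    rw [Finset.mem_filter] at hi ⊢
    exact ⟨i.2, of_decide_eq_true hi.2⟩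
  · intro i _ j _ hij
    exact Subtype.ext hij
  · intro q hq
    rw [Finset.mem_filter] at hq
    exact ⟨⟨q, hq.1⟩, Finset.mem_filter.2 ⟨Finset.mem_univ _, decide_eq_true hq.2⟩, rfl⟩

private lemma lb_filter (q : ℕ) (hq : q.Prime) :
    (Finset.range q).filter (fun r => decide (q ∣ r) = true) = {0} := by
  ext r
  rw [Finset.mem_filter, Finset.mem_range, Finset.mem_singleton, decide_eq_true_eq]
  constructor
  · rintro ⟨h1, h2⟩
    exact Nat.eq_zero_of_dvd_of_lt h2 h1
  · rintro rfl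
    exact ⟨hq.pos, dvd_zero _⟩

private lemma lb_filter' (q : ℕ) (hq : q.Prime) :
    ((Finset.range q).filter (fun r => decide (q ∣ r) = false)).card + 1 = q := by
  have h1 := Finset.card_filter_add_card_filter_not (s := Finset.range q)
    (fun r => decide (q ∣ r) = true)
  rw [lb_filter q hq, Finset.card_singleton, Finset.card_range] at h1
  have h2 : (Finset.range q).filter (fun r => ¬ (decide (q ∣ r) = true)) =
      (Finset.range q).filter (fun r => decide (q ∣ r) = false) := by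
    refine Finset.filter_congr fun r _ => ?_
    simp
  rw [h2] at h1
  omega

private lemma lb_Enu (P : Finset ℕ) (hP : ∀ q ∈ P, q.Prime) (b : ℕ → ℝ) :
    Enu P (fun q m => decide (q ∣ m)) (fun c => b (cntB c)) = Es P b := by
  rw [Enu_eq_EE]
  unfold Es
  congr 1
  funext q c
  have hq := hP q q.2
  have hq0 : (0 : ℝ) < ((q : ℕ) : ℝ) := by exact_mod_cast hq.pos
  cases c with
  | true =>
    unfold rho wB
    rw [if_pos rfl, lb_filter q hq, Finset.card_singleton, Nat.cast_one]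
  | false =>
    unfold rho wB
    rw [if_neg (by simp)]
    have h1 := lb_filter' q hq
    have h2 : (((Finset.range q).filter (fun r => decide ((q : ℕ) ∣ r) = false)).card : ℝ) + 1 =
        ((q : ℕ) : ℝ) := by exact_mod_cast h1
    rw [div_eq_iff hq0.ne', sub_mul, one_mul, one_div_mul_cancel hq0.ne']
    linarith

private lemma lb_prime (h E : ℕ) : ∀ q ∈ PP h E, q.Prime := fun q hq => ((mem_PP h E q).1 hq).2.1

theorem lawBase (h u : ℕ) (hu : 1 ≤ u) (τ : ℝ) (hτ : 0 < τ) :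
    ∃ N₀ : ℕ, ∀ N ≥ N₀, ∀ a : ℕ → ℝ, (∀ t, |a t| ≤ 1) →
      |Es (PP h (Nat.log 2 N / u)) a -
        1 / (N : ℝ) * ∑ n ∈ Finset.Icc 1 N, a (ArithmeticFunction.cardFactors n)| ≤ τ := by
  -- parameters
  obtain ⟨u', huu, hu'1, hu'⟩ : ∃ u' : ℕ, u ≤ u' ∧ 1 ≤ u' ∧ (CpN 1 : ℝ) / u' ≤ τ / 8 := by
    obtain ⟨w, hw⟩ := exists_nat_ge ((CpN 1 : ℝ) / (τ / 8))
    refine ⟨max u w, le_max_left _ _, hu.trans (le_max_left _ _), ?_⟩
    have h0 : (0 : ℝ) < (max u w : ℕ) := by exact_mod_cast (lt_of_lt_of_le hu (le_max_left _ _))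
    rw [div_le_iff₀ h0]
    rw [div_le_iff₀ (by positivity)] at hw
    have h1 : (w : ℝ) ≤ (max u w : ℕ) := by exact_mod_cast le_max_right _ _
    nlinarith
  obtain ⟨J, hJ1, hJ⟩ : ∃ J : ℕ, 1 ≤ J ∧ 2 / (J : ℝ) * (K0 h u' : ℝ) ≤ τ / 8 := by
    obtain ⟨w, hw⟩ := exists_nat_ge (2 * (K0 h u' : ℝ) / (τ / 8))
    refine ⟨w + 1, by omega, ?_⟩
    have h0 : (0 : ℝ) < (w + 1 : ℕ) := by positivity
    rw [div_mul_eq_mul_div, div_le_iff₀ h0]
    rw [div_le_iff₀ (by positivity)] at hw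
    push_cast
    nlinarith
  have hJR : (0 : ℝ) < J := by exact_mod_cast hJ1
  have hu'R : (0 : ℝ) < u' := by exact_mod_cast hu'1
  obtain ⟨D, hD⟩ : ∃ D : ℝ, D = 4 * ((Nat.log 2 (u' + 1) : ℝ) + 2) := ⟨_, rfl⟩
  have hD0 : 0 < D := by rw [hD]; positivity
  obtain ⟨N1, hN1⟩ := shiftInv_eventually (τ / (8 * J)) (by positivity)
  obtain ⟨N2, hN2⟩ := wMean h u' 0 hu'1
  obtain ⟨N3, hN3⟩ := Es_smooth h u' J hu'1 (τ / 8) (by positivity)
  obtain ⟨N4, hN4⟩ := Es_smooth h u' 1 hu'1 (τ / (8 * D)) (by positivity)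
  obtain ⟨W, hW⟩ : ∃ W, W = 2 ^ u' := ⟨_, rfl⟩
  refine ⟨N1 + N2 + N3 + N4 + W + 2, fun N hN a ha => ?_⟩
  have hNpos : 0 < N := by omega
  have hNR : (0 : ℝ) < N := by exact_mod_cast hNpos
  have hN2' : 2 ≤ N := by omega
  have hpow : 2 ^ u' ≤ N := by
    rw [← hW]
    omega
  obtain ⟨Lg, hLg⟩ : ∃ Lg, Lg = Nat.log 2 N := ⟨_, rfl⟩
  have hLu : u' ≤ Lg := by
    rw [hLg]
    exact Nat.le_log_of_pow_le (by norm_num) hpow
  have hLpos : 0 < Lg := lt_of_lt_of_le hu'1 hLu
  rw [← hLg]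
  obtain ⟨E', hE'⟩ : ∃ E', E' = Lg / u' := ⟨_, rfl⟩
  have hE'1 : 1 ≤ E' := by
    rw [hE']
    exact (Nat.one_le_div_iff hu'1).2 hLu
  have hE'mul : E' * u' ≤ Lg := by rw [hE']; exact Nat.div_mul_le_self _ _
  have hE'lt : Lg < (E' + 1) * u' := by
    rw [hE']
    have := Nat.lt_div_mul_add (a := Lg) hu'1
    rw [add_mul, one_mul]
    exact this
  have hEE : E' ≤ Lg / u := by
    rw [hE']
    exact Nat.div_le_div_left huu hu
  obtain ⟨b, hb⟩ : ∃ b : ℕ → ℝ, b = lbAvg J a := ⟨_, rfl⟩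
  have hb1 : ∀ t, |b t| ≤ 1 := by rw [hb]; exact lbAvg_abs J hJ1 a ha
  -- step 1
  have step1 : |1 / (N : ℝ) * ∑ n ∈ Finset.Icc 1 N, b (ArithmeticFunction.cardFactors n) -
      1 / (N : ℝ) * ∑ n ∈ Finset.Icc 1 N, a (ArithmeticFunction.cardFactors n)| ≤ τ / 8 := by
    have hsh := hN1 N (by omega)
    have hit : ∀ j : ℕ, ∀ c : ℕ → ℝ, (∀ t, |c t| ≤ 1) →
        |1 / (N : ℝ) * ∑ n ∈ Finset.Icc 1 N, c (ArithmeticFunction.cardFactors n + j) -
          1 / (N : ℝ) * ∑ n ∈ Finset.Icc 1 N, c (ArithmeticFunction.cardFactors n)| ≤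
          j * (τ / (8 * J)) := by
      intro j
      induction j with
      | zero => intro c _; simp
      | succ j ih =>
        intro c hc
        have h1 := ih (fun t => c (t + 1)) (fun t => hc _)
        have h2 := hsh c hc
        rw [Bv_nat, Bv_nat, abs_sub_comm] at h2
        have h3 : ∀ n : ℕ, ArithmeticFunction.cardFactors n + (j + 1) =
            ArithmeticFunction.cardFactors n + j + 1 := fun n => by ring
        simp only [h3]
        have h4 := abs_add_le
          (1 / (N : ℝ) * ∑ n ∈ Finset.Icc 1 N, c (ArithmeticFunction.cardFactors n + j + 1) -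
            1 / (N : ℝ) * ∑ n ∈ Finset.Icc 1 N, c (ArithmeticFunction.cardFactors n + 1))
          (1 / (N : ℝ) * ∑ n ∈ Finset.Icc 1 N, c (ArithmeticFunction.cardFactors n + 1) -
            1 / (N : ℝ) * ∑ n ∈ Finset.Icc 1 N, c (ArithmeticFunction.cardFactors n))
        rw [sub_add_sub_cancel] at h4
        refine h4.trans ?_
        push_cast
        rw [add_mul, one_mul]
        exact add_le_add h1 h2
    rw [hb]
    refine lbAvg_fun (fun c => 1 / (N : ℝ) * ∑ n ∈ Finset.Icc 1 N,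
      c (ArithmeticFunction.cardFactors n)) J hJ1 a (τ / 8) ?_ ?_
    · simp only [lbAvg]
      rw [← Finset.mul_sum, Finset.sum_comm, ← Finset.mul_sum]
      ring
    · intro j hj
      refine (hit j a ha).trans ?_
      have h1 : (j : ℝ) ≤ J := by exact_mod_cast hj.le
      calc (j : ℝ) * (τ / (8 * J)) ≤ J * (τ / (8 * J)) :=
            mul_le_mul_of_nonneg_right h1 (by positivity)
        _ = τ / 8 := by field_simp
  -- step 2
  have step2 : |1 / (N : ℝ) * ∑ n ∈ Finset.Icc 1 N, b (ArithmeticFunction.cardFactors n) -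
      1 / (N : ℝ) * ∑ n ∈ Finset.Icc 1 N,
        b ((PP h E').filter (fun q => q ∣ n)).card| ≤ τ / 8 := by
    have hw := hN2 N (by omega) 0 le_rfl
    rw [← hLg, ← hE'] at hw
    simp only [add_zero] at hw
    have hterm : ∀ n ∈ Finset.Icc 1 N, |b (ArithmeticFunction.cardFactors n) -
        b ((PP h E').filter (fun q => q ∣ n)).card| ≤
        2 / (J : ℝ) * ((ArithmeticFunction.cardFactors n : ℝ) -
          (((PP h E').filter (fun q => q ∣ n)).card : ℝ)) := by
      intro n hn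
      have h1 := card_dvd_le (PP h E') (lb_prime h E') n (Finset.mem_Icc.1 hn).1
      obtain ⟨d, hd⟩ := Nat.exists_eq_add_of_le h1
      have h2 := lbAvg_lip J hJ1 a ha ((PP h E').filter (fun q => q ∣ n)).card d
      rw [hb, hd]
      push_cast
      rw [add_sub_cancel_left]
      exact h2
    rw [← mul_sub, ← Finset.sum_sub_distrib, abs_mul, abs_of_pos (by positivity)]
    calc 1 / (N : ℝ) * |∑ n ∈ Finset.Icc 1 N, (b (ArithmeticFunction.cardFactors n) -
          b ((PP h E').filter (fun q => q ∣ n)).card)|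
        ≤ 1 / (N : ℝ) * ∑ n ∈ Finset.Icc 1 N, 2 / (J : ℝ) *
            ((ArithmeticFunction.cardFactors n : ℝ) -
              (((PP h E').filter (fun q => q ∣ n)).card : ℝ)) := by
          refine mul_le_mul_of_nonneg_left ?_ (by positivity)
          exact (Finset.abs_sum_le_sum_abs _ _).trans (Finset.sum_le_sum hterm)
      _ ≤ 1 / (N : ℝ) * (2 / (J : ℝ) * (K0 h u' * N)) := by
          rw [← Finset.mul_sum]
          refine mul_le_mul_of_nonneg_left ?_ (by positivity)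
          exact mul_le_mul_of_nonneg_left hw (by positivity)
      _ = 2 / (J : ℝ) * (K0 h u' : ℝ) := by field_simp
      _ ≤ τ / 8 := hJ
  -- step 3
  have step3 : |1 / (N : ℝ) * ∑ n ∈ Finset.Icc 1 N,
      b ((PP h E').filter (fun q => q ∣ n)).card - Es (PP h E') b| ≤ τ / 8 := by
    have hk := kubP 1 Bool (PP h E') (lb_prime h E') (fun q m => decide (q ∣ m)) false
      (fun q hq => (lb_prime h E' q hq).one_lt)
      (fun q hq => by
        rw [Fintype.card_bool]
        exact (lb_prime h E' q hq).two_le)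
      (fun q hq m => by
        have : (q ∣ m % q) ↔ q ∣ m := Nat.dvd_mod_iff (dvd_refl q)
        simp only [this])
      (fun q hq => by
        have : (Finset.range q).filter (fun r => decide (q ∣ r) ≠ false) =
            (Finset.range q).filter (fun r => decide (q ∣ r) = true) :=
          Finset.filter_congr fun r _ => by simp
        rw [this, lb_filter q (lb_prime h E' q hq), Finset.card_singleton])
      E' hE'1
      (fun q hq => by
        have h1 := ((mem_PP h E' q).1 hq).1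
        have h2 := Nat.log_lt_of_lt_pow (b := 2) (lb_prime h E' q hq).ne_zero h1
        omega)
      N hN2' (fun c => b (cntB c)) (fun c => hb1 _)
    rw [lb_Enu (PP h E') (lb_prime h E')] at hk
    simp only [lb_cnt] at hk
    rw [← hLg] at hk
    have e1 : 1 / (N : ℝ) * ∑ n ∈ Finset.Icc 1 N, b ((PP h E').filter (fun q => q ∣ n)).card =
        (∑ n ∈ Finset.Icc 1 N, b ((PP h E').filter (fun q => q ∣ n)).card) / N := by ring
    rw [e1]
    refine hk.trans (le_trans ?_ hu')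
    have hLR : (0 : ℝ) < Lg := by exact_mod_cast hLpos
    rw [div_le_div_iff₀ hLR hu'R, mul_assoc]
    refine mul_le_mul_of_nonneg_left ?_ (by positivity)
    exact_mod_cast hE'mul
  -- step 4
  have step4 : |Es (PP h E') b - Es (PP h E') a| ≤ τ / 8 := by
    rw [hb]
    refine lbAvg_fun (Es (PP h E')) J hJ1 a (τ / 8) ?_ ?_
    · have e1 : lbAvg J a = fun t => 1 / (J : ℝ) * ∑ j ∈ Finset.range J, a (t + j) := rfl
      rw [e1, Es_smul, Es_sum]
    · intro j hj
      have h1 := hN3 N (by omega) j hj.le a ha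
      rw [← hLg, ← hE'] at h1
      exact h1
  -- step 5
  have hsub : PP h E' ⊆ PP h (Lg / u) := by
    intro q hq
    rw [mem_PP] at hq ⊢
    refine ⟨lt_of_lt_of_le hq.1 ?_, hq.2⟩
    exact Nat.pow_le_pow_right (by norm_num) (by omega)
  have hsum : ∑ q ∈ PP h (Lg / u) \ PP h E', (1 : ℝ) / q ≤ D := by
    have h1 := sum_large (E' + 1) (2 ^ (Lg / u + 1)) (by omega)
    have h2 : ∑ q ∈ PP h (Lg / u) \ PP h E', (1 : ℝ) / q ≤
        ∑ p ∈ (Finset.Icc (2 ^ (E' + 1)) (2 ^ (Lg / u + 1))).filter Nat.Prime, (1 : ℝ) / p := by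
      refine Finset.sum_le_sum_of_subset_of_nonneg ?_ fun q _ _ => by positivity
      intro q hq
      rw [Finset.mem_sdiff, mem_PP, mem_PP] at hq
      rw [Finset.mem_filter, Finset.mem_Icc]
      refine ⟨⟨?_, hq.1.1.le⟩, hq.1.2.1⟩
      by_contra hcon
      exact hq.2 ⟨not_le.1 hcon, hq.1.2⟩
    refine h2.trans (h1.trans ?_)
    rw [hD, Nat.log_pow (by norm_num)]
    have h3 : (Lg / u + 1) / (E' + 1) ≤ u' := by
      apply Nat.div_le_of_le_mul
      have h4 : Lg / u ≤ Lg := Nat.div_le_self _ _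
      omega
    have h5 : Nat.log 2 ((Lg / u + 1) / (E' + 1) + 1) ≤ Nat.log 2 (u' + 1) :=
      Nat.log_mono_right (by omega)
    have h6 : (Nat.log 2 ((Lg / u + 1) / (E' + 1) + 1) : ℝ) ≤ (Nat.log 2 (u' + 1) : ℝ) := by
      exact_mod_cast h5
    linarith
  have step5 : |Es (PP h (Lg / u)) a - Es (PP h E') a| ≤ τ / 8 := by
    have h1 := Es_subset (PP h (Lg / u)) (PP h E') hsub (lb_prime h (Lg / u)) (τ / (8 * D))
      (fun c hc => by
        have h2 := hN4 N (by omega) 1 le_rfl c hc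
        rw [← hLg, ← hE'] at h2
        exact h2) a ha
    refine h1.trans ?_
    calc τ / (8 * D) * ∑ q ∈ PP h (Lg / u) \ PP h E', (1 : ℝ) / q ≤ τ / (8 * D) * D :=
          mul_le_mul_of_nonneg_left hsum (by positivity)
      _ = τ / 8 := by field_simp
  -- assembly
  obtain ⟨x1, hx1⟩ : ∃ x, x = 1 / (N : ℝ) * ∑ n ∈ Finset.Icc 1 N,
    a (ArithmeticFunction.cardFactors n) := ⟨_, rfl⟩
  rw [abs_le] at step1 step2 step3 step4 step5 ⊢
  constructor <;> linarith [step1.1, step1.2, step2.1, step2.2, step3.1, step3.2, step4.1,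
    step4.2, step5.1, step5.2]

end Helper11.QR
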