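import Mathlib
import Pool.Agent.Helper11.QR.LawBase
import Pool.Agent.Helper13.Om.RichD

set_option autoImplicit false

/-! QR-14: the law of `Ω` at scale `N / d` (plus a bounded shift) is close to the model law at
scale `N` (plus a bounded shift).

Proof: for `N` large, `Es P (a (· + b))` is close to `Es P a` (`Es_smooth`), to
`1 / N ∑_{n ≤ N} a (Ω n) = Bv a N` (`lawBase`), to `Bv a (N / d)` (real quotient; `dilation_full`
with `M₀ = H`, Helper13/Om/RichD.lean), to `1 / ⌊N/d⌋ ∑_{n ≤ ⌊N/d⌋} a (Ω n)` (the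
normalisations `N / d` and `⌊N/d⌋` differ by a factor `1 + O(H / N)`), and this to the same mean of
`a (Ω n + b')` (`ShiftInv` at the scale `N / d`, `b' ≤ B` times). -/

namespace Helper11.QR

open Finset Helper13.Om

private lemma bv_shifts (M : ℕ) (r : ℝ) (hr : ShiftInv M r) (a : ℕ → ℝ) (ha : ∀ t, |a t| ≤ 1)
    (b : ℕ) : |Bv a (M : ℝ) - Bv (fun t => a (t + b)) (M : ℝ)| ≤ b * r := by
  induction b with
  | zero => simp
  | succ b ih =>
    have h1 := hr (fun t => a (t + b)) (fun t => ha _)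
    have h2 : (fun ℓ => (fun t => a (t + b)) (ℓ + 1)) = fun t => a (t + (b + 1)) := by
      funext t
      show a (t + 1 + b) = a (t + (b + 1))
      congr 1
      ring
    rw [h2] at h1
    have h3 := abs_sub_le (Bv a (M : ℝ)) (Bv (fun t => a (t + b)) (M : ℝ))
      (Bv (fun t => a (t + (b + 1))) (M : ℝ))
    push_cast
    linarith

theorem lawClose (h u H B : ℕ) (hu : 1 ≤ u) (hH : 1 ≤ H) (τ : ℝ) (hτ : 0 < τ) :
    ∃ N₀ : ℕ, ∀ N ≥ N₀, ∀ d, 1 ≤ d → d ≤ H → ∀ b ≤ B, ∀ b' ≤ B, ∀ a : ℕ → ℝ,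
      (∀ t, |a t| ≤ 1) →
      |Es (PP h (Nat.log 2 N / u)) (fun t => a (t + b)) -
        1 / ((N / d : ℕ) : ℝ) * ∑ n ∈ Finset.Icc 1 (N / d),
          a (ArithmeticFunction.cardFactors n + b')| ≤ τ := by
  obtain ⟨N₁, hN₁⟩ := Es_smooth h u B hu (τ / 4) (by positivity)
  obtain ⟨N₂, hN₂⟩ := lawBase h u hu (τ / 4) (by positivity)
  have hHR : (1 : ℝ) ≤ H := by exact_mod_cast hH
  obtain ⟨x₁, hx₁, hdil⟩ := dilation_full (2 * H) (τ / 4) (by linarith) (by positivity)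
  obtain ⟨N₃, hN₃⟩ := shiftInv_eventually (τ / (4 * (B + 1))) (by positivity)
  obtain ⟨N₄, hN₄⟩ := exists_nat_ge x₁
  refine ⟨N₁ + N₂ + H * (N₃ + 1) + N₄, ?_⟩
  intro N hN d hd hdH b hb b' hb' a ha
  have hN1 : N₁ ≤ N := by
    have : 0 ≤ H * (N₃ + 1) := Nat.zero_le _
    omega
  have hN2 : N₂ ≤ N := by
    have : 0 ≤ H * (N₃ + 1) := Nat.zero_le _
    omega
  have hN3 : H * (N₃ + 1) ≤ N := by omega
  have hN4 : N₄ ≤ N := by
    have : 0 ≤ H * (N₃ + 1) := Nat.zero_le _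
    omega
  set M := N / d with hM
  have hM3 : N₃ + 1 ≤ M := by
    rw [hM, Nat.le_div_iff_mul_le (by omega)]
    calc (N₃ + 1) * d ≤ (N₃ + 1) * H := Nat.mul_le_mul_left _ hdH
      _ = H * (N₃ + 1) := Nat.mul_comm _ _
      _ ≤ N := hN3
  have hMN : (M : ℝ) ≤ N := by exact_mod_cast Nat.div_le_self N d
  have hNM : (N : ℝ) / (2 * H) ≤ M := by
    rw [div_le_iff₀ (by linarith)]
    have h1 : N < (M + 1) * d := by
      rw [hM]
      have := Nat.lt_div_mul_add (a := N) (b := d) (by omega)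
      calc N < N / d * d + d := this
        _ = (N / d + 1) * d := by ring
    have h2 : (M + 1) * d ≤ M * (2 * H) := by
      calc (M + 1) * d ≤ (M + 1) * H := Nat.mul_le_mul_left _ hdH
        _ ≤ (M + M) * H := Nat.mul_le_mul_right _ (by omega)
        _ = M * (2 * H) := by ring
    have h3 : N ≤ M * (2 * H) := by omega
    exact_mod_cast h3
  have hNx : x₁ ≤ (N : ℝ) := hN₄.trans (by exact_mod_cast hN4)
  have e1 := hN₁ N hN1 b hb a ha
  have e2 := hN₂ N hN2 a ha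
  rw [← Bv_nat] at e2
  have e3 := hdil (N : ℝ) hNx (M : ℝ) hNM hMN a ha
  have e4 := bv_shifts M _ (hN₃ M (by omega)) a ha b'
  rw [Bv_nat (fun t => a (t + b')) M] at e4
  have e5 : (b' : ℝ) * (τ / (4 * (B + 1))) ≤ τ / 4 := by
    have hb1 : (b' : ℝ) ≤ B := by exact_mod_cast hb'
    have hB0 : (0 : ℝ) ≤ B := Nat.cast_nonneg B
    have h1 : (b' : ℝ) * (τ / (4 * (B + 1))) ≤ (B + 1) * (τ / (4 * (B + 1))) := by
      apply mul_le_mul_of_nonneg_right _ (by positivity)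
      linarith
    have h2 : ((B : ℝ) + 1) * (τ / (4 * (B + 1))) = τ / 4 := by
      field_simp
    linarith
  rw [abs_le] at e1 e2 e3 e4 ⊢
  constructor
  · linarith [e1.1, e2.1, e3.1, e4.1]
  · linarith [e1.2, e2.2, e3.2, e4.2]

end Helper11.QR
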