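import Mathlib
import Pool.Agent.Helper11.QR.SgLaw

set_option autoImplicit false

/-! QR-08: `k` independent coordinates: model law against the law of `Ω`.

Proof: replace the coordinates one at a time. For `S ⊆ Fin k` let `I(S)` be the mixed mean of
`Ψ` in which the coordinates in `S` are `Ω(m i) + D` with `m i` uniform in `Icc 1 M` and the
others are `y i + w i` with `y i` of law `sg P L`:
`I(S) = 1 / M ^ k * ∑_{m ∈ piFinset (Icc 1 M)} EE (fun _ => sg P L) (fun y => Ψ (fun i => if i ∈ S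
then Ω (m i) + D else y i + w i))`. `I(∅)` is the first expression, `I(univ)` the second, and
`|I(S ∪ {j}) - I(S)| ≤ τ` by `hτ` applied (for fixed other coordinates) to
`a t = Ψ (update ... j t)`, with `sg_apply` to write `∑_t sg P L t * a (t + w j) = Es P ...`
(and `EE_resample` / `resample_sum` of Helper13/Om/Noise.lean to isolate the coordinate `j`). -/

namespace Helper11.QR

open Finset Helper13.Om

/-- The mixed mean: coordinates in `S` from `Ω`, the others from the model. -/
noncomputable def mixI (k M L : ℕ) (P : Finset ℕ) (w : Fin k → ℕ) (D : ℕ)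
    (Ψ : (Fin k → ℕ) → ℝ) (S : Finset (Fin k)) : ℝ :=
  1 / (M : ℝ) ^ k * ∑ m ∈ Fintype.piFinset (fun _ : Fin k => Finset.Icc 1 M),
    EE (fun _ : Fin k => sg P L) (fun y => Ψ (fun i =>
      if i ∈ S then ArithmeticFunction.cardFactors (m i) + D else (y i : ℕ) + w i))

/-- The mixed function with the coordinate `j` replaced by `s`. -/
def mixG (k L : ℕ) (w : Fin k → ℕ) (D : ℕ) (Ψ : (Fin k → ℕ) → ℝ) (S : Finset (Fin k))
    (j : Fin k) (m : Fin k → ℕ) (y : Fin k → Fin (L + 2)) (s : ℕ) : ℝ :=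
  Ψ (fun i => if i = j then s else
    if i ∈ S then ArithmeticFunction.cardFactors (m i) + D else (y i : ℕ) + w i)

lemma mixG_update_y (k L : ℕ) (w : Fin k → ℕ) (D : ℕ) (Ψ : (Fin k → ℕ) → ℝ)
    (S : Finset (Fin k)) (j : Fin k) (m : Fin k → ℕ) (y : Fin k → Fin (L + 2)) (s : ℕ)
    (t : Fin (L + 2)) :
    mixG k L w D Ψ S j m (Function.update y j t) s = mixG k L w D Ψ S j m y s := by
  unfold mixG
  congr 1
  funext i
  by_cases h : i = j
  · rw [if_pos h, if_pos h]
  · rw [if_neg h, if_neg h, Function.update_of_ne h]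

lemma mixG_update_m (k L : ℕ) (w : Fin k → ℕ) (D : ℕ) (Ψ : (Fin k → ℕ) → ℝ)
    (S : Finset (Fin k)) (j : Fin k) (m : Fin k → ℕ) (y : Fin k → Fin (L + 2)) (s : ℕ)
    (t : ℕ) :
    mixG k L w D Ψ S j (Function.update m j t) y s = mixG k L w D Ψ S j m y s := by
  unfold mixG
  congr 1
  funext i
  by_cases h : i = j
  · rw [if_pos h, if_pos h]
  · rw [if_neg h, if_neg h, Function.update_of_ne h]

lemma mixI_step (k M L : ℕ) (hM : 1 ≤ M) (P : Finset ℕ) (hP : ∀ q ∈ P, q.Prime)
    (hL : P.card ≤ L + 1) (B : ℕ) (τ : ℝ)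
    (hτ : ∀ b ≤ B, ∀ b' ≤ B, ∀ a : ℕ → ℝ, (∀ t, |a t| ≤ 1) →
      |Es P (fun t => a (t + b)) -
        1 / (M : ℝ) * ∑ n ∈ Finset.Icc 1 M, a (ArithmeticFunction.cardFactors n + b')| ≤ τ)
    (w : Fin k → ℕ) (hw : ∀ i, w i ≤ B) (D : ℕ) (hD : D ≤ B) (Ψ : (Fin k → ℕ) → ℝ)
    (hΨ : ∀ ℓ, |Ψ ℓ| ≤ 1) (S : Finset (Fin k)) (j : Fin k) (hj : j ∉ S) :
    |mixI k M L P w D Ψ S - mixI k M L P w D Ψ (insert j S)| ≤ τ := by
  classical
  have hMR : (0 : ℝ) < M := by exact_mod_cast hM
  have hMk : (0 : ℝ) < (M : ℝ) ^ k := pow_pos hMR k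
  set G := mixG k L w D Ψ S j with hG
  set X := Fintype.piFinset (fun _ : Fin k => Finset.Icc 1 M) with hX
  have hcard : (X.card : ℝ) = (M : ℝ) ^ k := by
    rw [hX, Fintype.card_piFinset]
    simp
  -- the term for `S`
  have e1 : ∀ m : Fin k → ℕ, EE (fun _ : Fin k => sg P L) (fun y => Ψ (fun i =>
      if i ∈ S then ArithmeticFunction.cardFactors (m i) + D else (y i : ℕ) + w i)) =
      EE (fun _ : Fin k => sg P L) (fun y => Es P (fun t => G m y (t + w j))) := by
    intro m
    have h1 := EE_resample (fun _ : Fin k => sg P L) j (sg_sum P L) (sg P L) (fun y => Ψ (fun i =>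
      if i ∈ S then ArithmeticFunction.cardFactors (m i) + D else (y i : ℕ) + w i))
    rw [Function.update_eq_self] at h1
    rw [h1]
    congr 1
    funext y
    rw [← sg_apply P L hL (fun t => G m y (t + w j))]
    refine Finset.sum_congr rfl fun s _ => ?_
    congr 1
    rw [hG]
    unfold mixG
    congr 1
    funext i
    by_cases h : i = j
    · rw [if_pos h, h, if_neg hj, Function.update_self]
    · rw [if_neg h, Function.update_of_ne h]
  -- the term for `insert j S`
  have e2 : ∀ m : Fin k → ℕ, EE (fun _ : Fin k => sg P L) (fun y => Ψ (fun i =>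
      if i ∈ insert j S then ArithmeticFunction.cardFactors (m i) + D else (y i : ℕ) + w i)) =
      EE (fun _ : Fin k => sg P L)
        (fun y => G m y (ArithmeticFunction.cardFactors (m j) + D)) := by
    intro m
    congr 1
    funext y
    rw [hG]
    unfold mixG
    congr 1
    funext i
    by_cases h : i = j
    · rw [if_pos h, h, if_pos (Finset.mem_insert_self _ _)]
    · rw [if_neg h]
      have : (i ∈ insert j S) = (i ∈ S) := by
        rw [Finset.mem_insert]
        simp [h]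
      simp only [this]
  have e3 : ∑ m ∈ X, EE (fun _ : Fin k => sg P L)
        (fun y => G m y (ArithmeticFunction.cardFactors (m j) + D)) =
      ∑ m ∈ X, EE (fun _ : Fin k => sg P L)
        (fun y => 1 / (M : ℝ) * ∑ n ∈ Finset.Icc 1 M, G m y (ArithmeticFunction.cardFactors n + D)) := by
    have h1 := resample_sum k M j (fun m => EE (fun _ : Fin k => sg P L)
        (fun y => G m y (ArithmeticFunction.cardFactors (m j) + D)))
    have h2 : ∑ m ∈ X, EE (fun _ : Fin k => sg P L)
        (fun y => G m y (ArithmeticFunction.cardFactors (m j) + D)) =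
        1 / (M : ℝ) * ((M : ℝ) * ∑ m ∈ X, EE (fun _ : Fin k => sg P L)
        (fun y => G m y (ArithmeticFunction.cardFactors (m j) + D))) := by
      field_simp
    rw [h2, ← h1, Finset.mul_sum]
    refine Finset.sum_congr rfl fun m _ => ?_
    rw [EE_smul, EE_sum]
    congr 1
    refine Finset.sum_congr rfl fun n _ => ?_
    congr 1
    funext y
    rw [Function.update_self, hG, mixG_update_m]
  have e4 : mixI k M L P w D Ψ S - mixI k M L P w D Ψ (insert j S) =
      1 / (M : ℝ) ^ k * ∑ m ∈ X, EE (fun _ : Fin k => sg P L)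
        (fun y => Es P (fun t => G m y (t + w j)) -
          1 / (M : ℝ) * ∑ n ∈ Finset.Icc 1 M, G m y (ArithmeticFunction.cardFactors n + D)) := by
    unfold mixI
    rw [← mul_sub, Finset.sum_congr rfl fun m _ => e1 m, Finset.sum_congr rfl fun m _ => e2 m,
      e3, ← Finset.sum_sub_distrib]
    congr 1
    refine Finset.sum_congr rfl fun m _ => ?_
    rw [EE_sub]
  rw [e4, abs_mul, abs_of_pos (by positivity : (0 : ℝ) < 1 / (M : ℝ) ^ k), one_div_mul_eq_div,
    div_le_iff₀ hMk, ← hcard]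
  refine (Finset.abs_sum_le_sum_abs _ _).trans ?_
  rw [mul_comm, ← nsmul_eq_mul]
  refine Finset.sum_le_card_nsmul _ _ _ fun m _ => ?_
  refine EE_abs_le_of _ (fun _ t => sg_nonneg P hP L t) (fun _ => sg_sum P L) _ _ fun y => ?_
  exact hτ (w j) (hw j) D hD (fun s => G m y s) (fun s => hΨ _)

theorem hybrid (k M L : ℕ) (hM : 1 ≤ M) (P : Finset ℕ) (hP : ∀ q ∈ P, q.Prime)
    (hL : P.card ≤ L + 1) (B : ℕ) (τ : ℝ)
    (hτ : ∀ b ≤ B, ∀ b' ≤ B, ∀ a : ℕ → ℝ, (∀ t, |a t| ≤ 1) →
      |Es P (fun t => a (t + b)) -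
        1 / (M : ℝ) * ∑ n ∈ Finset.Icc 1 M, a (ArithmeticFunction.cardFactors n + b')| ≤ τ)
    (w : Fin k → ℕ) (hw : ∀ i, w i ≤ B) (D : ℕ) (hD : D ≤ B) (Ψ : (Fin k → ℕ) → ℝ)
    (hΨ : ∀ ℓ, |Ψ ℓ| ≤ 1) :
    |EE (fun _ : Fin k => sg P L) (fun y => Ψ (fun i => (y i : ℕ) + w i)) -
      Ep k M (fun ℓ => Ψ (fun i => ℓ i + D))| ≤ k * τ := by
  classical
  have hMR : (0 : ℝ) < M := by exact_mod_cast hM
  have hMk : (0 : ℝ) < (M : ℝ) ^ k := pow_pos hMR k
  have hcard : ((Fintype.piFinset (fun _ : Fin k => Finset.Icc 1 M)).card : ℝ) =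
      (M : ℝ) ^ k := by
    rw [Fintype.card_piFinset]
    simp
  have h0 : mixI k M L P w D Ψ ∅ =
      EE (fun _ : Fin k => sg P L) (fun y => Ψ (fun i => (y i : ℕ) + w i)) := by
    unfold mixI
    simp only [Finset.notMem_empty, if_false]
    rw [Finset.sum_const, nsmul_eq_mul, hcard]
    field_simp
  have h1 : mixI k M L P w D Ψ Finset.univ = Ep k M (fun ℓ => Ψ (fun i => ℓ i + D)) := by
    unfold mixI Ep
    simp only [Finset.mem_univ, if_true]
    congr 1
    refine Finset.sum_congr rfl fun m _ => ?_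
    exact EE_const _ (fun _ => sg_sum P L) _
  have h2 : ∀ S : Finset (Fin k),
      |mixI k M L P w D Ψ ∅ - mixI k M L P w D Ψ S| ≤ S.card * τ := by
    intro S
    induction S using Finset.induction_on with
    | empty => simp
    | insert j S hj ih =>
      have h3 := mixI_step k M L hM P hP hL B τ hτ w hw D hD Ψ hΨ S j hj
      rw [Finset.card_insert_of_notMem hj]
      have h4 := abs_sub_le (mixI k M L P w D Ψ ∅) (mixI k M L P w D Ψ S)
        (mixI k M L P w D Ψ (insert j S))
      push_cast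
      linarith
  have h3 := h2 Finset.univ
  rw [h0, h1, Finset.card_univ, Fintype.card_fin] at h3
  exact h3

end Helper11.QR
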