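import Mathlib
import Pool.Agent.Helper11.QR.Hybrid

set_option autoImplicit false

/-! QR-09: an edge function is small against products of bounded functions, in the model.

`marginal`: for injective `ι : Fin k → Fin (n + 1)` avoiding `0`, the expectation under
`tauL (n+1) 0 P L` of a function of the coordinates `ι i` equals the expectation under
`fun _ : Fin k => sg P L` (`tauL_eq_sg`; the other coordinates sum to `1`, `tauL_sum`).

`edgeCut`: by `marginal` (note `∏ v ∈ univ.image ι, f v (y v) = ∏ i, f (ι i) (y (ι i))`) the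
quantity is `EE (fun _ => sg P L) (fun y => Ψ (fun i => y i + w (ι i)))` with
`Ψ ℓ = (if ∀ i, D ≤ ℓ i then c * F (ℓ - D) else 0) * ∏ i, g i (ℓ i)` and
`g i t = if h : w (ι i) ≤ t ∧ t - w (ι i) < L + 2 then f (ι i) ⟨t - w (ι i), _⟩ else 0`.
By `hybrid` it is within `k τ` of `Ep k M (fun ℓ => Ψ (ℓ + D)) =
c * Ep k M (fun ℓ => F ℓ * ∏ i, g i (ℓ i + D))`, which is at most `δ` in absolute value by
`hcut`. -/

namespace Helper11.QR

open Finset Helper13.Om

/-- the marginal on an injective family of coordinates -/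
private lemma ec_marginal {V K Y : Type} [Fintype V] [DecidableEq V] [Fintype K] [DecidableEq K]
    [Fintype Y] [DecidableEq Y] (ρ : V → Y → ℝ) (h1 : ∀ v, ∑ y, ρ v y = 1) (ι : K → V)
    (hι : Function.Injective ι) (G : (K → Y) → ℝ) :
    EE ρ (fun y => G (fun i => y (ι i))) = EE (fun i => ρ (ι i)) G := by
  classical
  unfold EE
  rw [← Finset.sum_fiberwise (Finset.univ : Finset (V → Y)) (fun y => fun i => y (ι i))]
  refine Finset.sum_congr rfl fun z _ => ?_
  have e1 : ∑ y ∈ (Finset.univ : Finset (V → Y)).filter (fun y => (fun i => y (ι i)) = z),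
      (∏ v, ρ v (y v)) * G (fun i => y (ι i)) =
      (∑ y ∈ (Finset.univ : Finset (V → Y)).filter (fun y => (fun i => y (ι i)) = z),
        ∏ v, ρ v (y v)) * G z := by
    rw [Finset.sum_mul]
    refine Finset.sum_congr rfl fun y hy => ?_
    rw [(Finset.mem_filter.1 hy).2]
  rw [e1]
  congr 1
  set t : V → Finset Y := fun v => if h : ∃ i, ι i = v then {z (Classical.choose h)} else
    Finset.univ with ht
  have ht1 : ∀ i, t (ι i) = {z i} := by
    intro i
    have h : ∃ j, ι j = ι i := ⟨i, rfl⟩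
    simp only [ht]
    rw [dif_pos h, hι (Classical.choose_spec h)]
  have e2 : (Finset.univ : Finset (V → Y)).filter (fun y => (fun i => y (ι i)) = z) =
      Fintype.piFinset t := by
    ext y
    simp only [Finset.mem_filter, Finset.mem_univ, true_and, Fintype.mem_piFinset]
    constructor
    · intro h v
      by_cases hv : ∃ i, ι i = v
      · obtain ⟨i, rfl⟩ := hv
        rw [ht1, Finset.mem_singleton]
        exact congrFun h i
      · simp only [ht]
        rw [dif_neg hv]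
        exact Finset.mem_univ _
    · intro h
      funext i
      have := h (ι i)
      rwa [ht1, Finset.mem_singleton] at this
  rw [e2, ← Finset.prod_univ_sum]
  have e3 : ∀ v, ∑ s ∈ t v, ρ v s = if h : ∃ i, ι i = v then ρ v (z (Classical.choose h)) else 1 := by
    intro v
    by_cases hv : ∃ i, ι i = v
    · simp only [ht]
      rw [dif_pos hv, dif_pos hv, Finset.sum_singleton]
    · simp only [ht]
      rw [dif_neg hv, dif_neg hv, h1]
  rw [Finset.prod_congr rfl fun v _ => e3 v]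
  rw [← Finset.prod_subset (Finset.subset_univ (Finset.univ.image ι))]
  · rw [Finset.prod_image fun i _ j _ h => hι h]
    refine Finset.prod_congr rfl fun i _ => ?_
    have h : ∃ j, ι j = ι i := ⟨i, rfl⟩
    rw [dif_pos h, hι (Classical.choose_spec h)]
  · intro v _ hv
    rw [dif_neg]
    rintro ⟨i, rfl⟩
    exact hv (Finset.mem_image_of_mem _ (Finset.mem_univ i))

theorem marginal (k n L : ℕ) (P : Finset ℕ) (hP : ∀ q ∈ P, q.Prime)
    (ι : Fin k → Fin (n + 1)) (hι : Function.Injective ι) (hι0 : ∀ i, ι i ≠ 0)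
    (G : (Fin k → Fin (L + 2)) → ℝ) :
    EE (tauL (n + 1) 0 P L) (fun y => G (fun i => y (ι i))) =
      EE (fun _ : Fin k => sg P L) G := by
  rw [ec_marginal (tauL (n + 1) 0 P L) (fun v => tauL_sum (n + 1) 0 P L v) ι hι G]
  congr 1
  funext i
  exact tauL_eq_sg n P L (ι i) (hι0 i)

theorem edgeCut (k M n L : ℕ) (hM : 1 ≤ M) (P : Finset ℕ) (hP : ∀ q ∈ P, q.Prime)
    (hL : P.card ≤ L + 1) (B : ℕ) (τ : ℝ)
    (hτ : ∀ b ≤ B, ∀ b' ≤ B, ∀ a : ℕ → ℝ, (∀ t, |a t| ≤ 1) →
      |Es P (fun t => a (t + b)) -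
        1 / (M : ℝ) * ∑ n ∈ Finset.Icc 1 M, a (ArithmeticFunction.cardFactors n + b')| ≤ τ)
    (δ : ℝ) (F : (Fin k → ℕ) → ℝ) (hF : ∀ ℓ, |F ℓ| ≤ 1) (hcut : CutLe k M δ F)
    (ι : Fin k → Fin (n + 1)) (hι : Function.Injective ι) (hι0 : ∀ i, ι i ≠ 0)
    (w : Fin (n + 1) → ℕ) (hw : ∀ v, w v ≤ B) (D : ℕ) (hD : D ≤ B) (c : ℝ) (hc : |c| ≤ 1)
    (f : Fin (n + 1) → Fin (L + 2) → ℝ) (hf : ∀ v t, |f v t| ≤ 1) :
    |EE (tauL (n + 1) 0 P L) (fun y =>
      (if ∀ i, D ≤ (y (ι i) : ℕ) + w (ι i) then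
        c * F (fun i => (y (ι i) : ℕ) + w (ι i) - D) else 0) *
        ∏ v ∈ Finset.univ.image ι, f v (y v))| ≤ δ + k * τ := by
  classical
  set g : Fin k → ℕ → ℝ := fun i t =>
    if h : w (ι i) ≤ t ∧ t - w (ι i) < L + 2 then f (ι i) ⟨t - w (ι i), h.2⟩ else 0 with hg
  have hg1 : ∀ i t, |g i t| ≤ 1 := by
    intro i t
    simp only [hg]
    split_ifs
    · exact hf _ _
    · simp
  set Ψ : (Fin k → ℕ) → ℝ := fun ℓ =>
    (if ∀ i, D ≤ ℓ i then c * F (fun i => ℓ i - D) else 0) * ∏ i, g i (ℓ i) with hΨ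
  have hprod : ∀ ℓ : Fin k → ℕ, |∏ i, g i (ℓ i)| ≤ 1 := by
    intro ℓ
    rw [Finset.abs_prod]
    exact Finset.prod_le_one (fun i _ => abs_nonneg _) fun i _ => hg1 i _
  have hΨ1 : ∀ ℓ, |Ψ ℓ| ≤ 1 := by
    intro ℓ
    simp only [hΨ]
    rw [abs_mul]
    refine mul_le_one₀ ?_ (abs_nonneg _) (hprod ℓ)
    split_ifs
    · rw [abs_mul]
      exact mul_le_one₀ hc (abs_nonneg _) (hF _)
    · simp
  have e1 : EE (tauL (n + 1) 0 P L) (fun y =>
      (if ∀ i, D ≤ (y (ι i) : ℕ) + w (ι i) then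
        c * F (fun i => (y (ι i) : ℕ) + w (ι i) - D) else 0) *
        ∏ v ∈ Finset.univ.image ι, f v (y v)) =
      EE (fun _ : Fin k => sg P L) (fun y => Ψ (fun i => (y i : ℕ) + w (ι i))) := by
    rw [← marginal k n L P hP ι hι hι0 (fun y => Ψ (fun i => (y i : ℕ) + w (ι i)))]
    congr 1
    funext y
    simp only [hΨ]
    congr 1
    rw [Finset.prod_image fun i _ j _ h => hι h]
    refine Finset.prod_congr rfl fun i _ => ?_
    simp only [hg]
    have h : w (ι i) ≤ (y (ι i) : ℕ) + w (ι i) ∧ (y (ι i) : ℕ) + w (ι i) - w (ι i) < L + 2 :=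
      ⟨Nat.le_add_left _ _, by rw [Nat.add_sub_cancel]; exact (y (ι i)).2⟩
    rw [dif_pos h]
    congr 1
    exact Fin.ext (Nat.add_sub_cancel _ _).symm
  have e2 := hybrid k M L hM P hP hL B τ hτ (fun i => w (ι i)) (fun i => hw _) D hD Ψ hΨ1
  have e3 : Ep k M (fun ℓ => Ψ (fun i => ℓ i + D)) =
      c * Ep k M (fun ℓ => F ℓ * ∏ i, g i (ℓ i + D)) := by
    have h : ∀ ℓ : Fin k → ℕ, Ψ (fun i => ℓ i + D) = c * (F ℓ * ∏ i, g i (ℓ i + D)) := by
      intro ℓ
      simp only [hΨ]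
      rw [if_pos fun i => Nat.le_add_left _ _]
      simp only [Nat.add_sub_cancel]
      ring
    unfold Ep
    rw [Finset.sum_congr rfl fun (m : Fin k → ℕ) _ =>
      h (fun i => ArithmeticFunction.cardFactors (m i)), ← Finset.mul_sum]
    ring
  have e4 := hcut (fun i t => g i (t + D)) fun i t => hg1 i _
  have e5 : |Ep k M (fun ℓ => Ψ (fun i => ℓ i + D))| ≤ δ := by
    rw [e3, abs_mul]
    calc |c| * |Ep k M (fun ℓ => F ℓ * ∏ i, g i (ℓ i + D))| ≤ 1 * δ :=
          mul_le_mul hc e4 (abs_nonneg _) (by norm_num)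
      _ = δ := one_mul δ
  rw [e1]
  have e6 := abs_sub_abs_le_abs_sub (EE (fun _ : Fin k => sg P L)
    (fun y => Ψ (fun i => (y i : ℕ) + w (ι i)))) (Ep k M (fun ℓ => Ψ (fun i => ℓ i + D)))
  linarith

end Helper11.QR
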