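import Mathlib
import Pool.Agent.Helper11.QR.Defs

set_option autoImplicit false

/-! QR-17: combinatorics of the edges.

`vert_val`: `1 ≤ e.1 + i e.2 ≤ H + (k - 1) H = k H`.
`vset_inter`: suppose two different edges `(j, d)`, `(j', d')` of `edges k H c m` share two
vertices: `j + a d = j' + a' d'`, `j + b d = j' + b' d'` with `a < b < k` (so `a' < b' < k`). Then
`(b - a) d = (b' - a') d'`. Since `d ≡ 1 (mod k!)` and `b' - a' < k` divides `k!`, `d` is coprime
to `b' - a'`; hence `d ∣ d'` and by symmetry `d' ∣ d`, so `d = d'`, `b - a = b' - a'` and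
`j - j' = (a' - a) d` (integers). With `m + j = d n`, `m + j' = d n'` one gets
`n - n' = a' - a`, so `|n - n'| < k` and `n ≡ n' ≡ c (mod k)`, hence `n = n'`, `j = j'`:
contradiction.
`card_edges_le`: for each `d` there are at most `H / d + 1` values of `j ∈ Icc 1 H` with
`d ∣ m + j`, and `(DD k H).card ≤ H`.
`edges_periodic`: for `e.2 = d ≤ H`, `d k ∣ k H!`, and the condition
the condition `d ∣ x` and `x / d ≡ c (mod k)` depends only on `x` modulo `d k`. -/

namespace Helper11.QR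

open Finset

lemma mem_DD (k H d : ℕ) : d ∈ DD k H ↔ (1 ≤ d ∧ d ≤ H) ∧ d % k.factorial = 1 % k.factorial := by
  unfold DD
  rw [Finset.mem_filter, Finset.mem_Icc]

lemma mem_edges (k H c m : ℕ) (e : ℕ × ℕ) : e ∈ edges k H c m ↔
    ((1 ≤ e.1 ∧ e.1 ≤ H) ∧ e.2 ∈ DD k H) ∧ e.2 ∣ m + e.1 ∧ (m + e.1) / e.2 % k = c := by
  unfold edges
  rw [Finset.mem_filter, Finset.mem_product, Finset.mem_Icc]

lemma DD_card_le (k H : ℕ) : (DD k H).card ≤ H := by
  unfold DD
  refine (Finset.card_filter_le _ _).trans ?_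
  rw [Nat.card_Icc, Nat.add_sub_cancel]

lemma vert_val (k H : ℕ) (e : ℕ × ℕ) (he : (1 ≤ e.1 ∧ e.1 ≤ H) ∧ e.2 ∈ DD k H) (i : Fin k) :
    ((vert k H e i : Fin (k * H + 1)) : ℕ) = e.1 + i * e.2 := by
  obtain ⟨⟨_, h2⟩, h3⟩ := he
  have h4 := ((mem_DD k H e.2).1 h3).1.2
  have h5 : (i : ℕ) + 1 ≤ k := i.2
  have h6 : (i : ℕ) * e.2 ≤ i * H := Nat.mul_le_mul_left _ h4
  have h7 : ((i : ℕ) + 1) * H ≤ k * H := Nat.mul_le_mul_right _ h5
  unfold vert
  refine Nat.mod_eq_of_lt ?_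
  nlinarith

lemma vert_ne_zero (k H : ℕ) (e : ℕ × ℕ) (he : (1 ≤ e.1 ∧ e.1 ≤ H) ∧ e.2 ∈ DD k H)
    (i : Fin k) : vert k H e i ≠ 0 := by
  intro h
  have h1 := vert_val k H e he i
  rw [h] at h1
  have h2 : ((0 : Fin (k * H + 1)) : ℕ) = 0 := rfl
  rw [h2] at h1
  have h3 := he.1.1
  omega

lemma vert_inj (k H : ℕ) (e : ℕ × ℕ) (he : (1 ≤ e.1 ∧ e.1 ≤ H) ∧ e.2 ∈ DD k H) :
    Function.Injective (vert k H e) := by
  intro i j hij
  have h1 := vert_val k H e he i
  have h2 := vert_val k H e he j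
  rw [hij, h2] at h1
  have h3 := ((mem_DD k H e.2).1 he.2).1.1
  have h4 : (j : ℕ) * e.2 = i * e.2 := by omega
  exact Fin.ext (Nat.eq_of_mul_eq_mul_right (by omega) h4).symm

/-- the dilations are coprime to all nonzero integers of absolute value less than `k` -/
lemma DD_coprime (k H d : ℕ) (hd : d ∈ DD k H) (z : ℤ) (hz : z ≠ 0) (hzk : z.natAbs ≤ k) :
    IsCoprime (d : ℤ) z := by
  rw [Int.isCoprime_iff_gcd_eq_one]
  have h1 : d ≡ 1 [MOD k.factorial] := ((mem_DD k H d).1 hd).2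
  have h2 : Nat.gcd d k.factorial = 1 := by
    rw [h1.gcd_eq]
    exact Nat.gcd_one_left _
  have h3 : z.natAbs ∣ k.factorial := Nat.dvd_factorial (Int.natAbs_pos.2 hz) hzk
  exact Nat.Coprime.coprime_dvd_right h3 h2

theorem vset_inter (k H c m : ℕ) (hk : 1 ≤ k) (e e' : ℕ × ℕ) (he : e ∈ edges k H c m)
    (he' : e' ∈ edges k H c m) (hne : e ≠ e') : (vset k H e ∩ vset k H e').card ≤ 1 := by
  by_contra hcon
  push Not at hcon
  obtain ⟨v, hv, w, hw, hvw⟩ := Finset.one_lt_card.1 hcon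
  obtain ⟨h1, hd, hc⟩ := (mem_edges k H c m e).1 he
  obtain ⟨h1', hd', hc'⟩ := (mem_edges k H c m e').1 he'
  rw [Finset.mem_inter] at hv hw
  unfold vset at hv hw
  obtain ⟨a, _, ha⟩ := Finset.mem_image.1 hv.1
  obtain ⟨a', _, ha'⟩ := Finset.mem_image.1 hv.2
  obtain ⟨b, _, hb⟩ := Finset.mem_image.1 hw.1
  obtain ⟨b', _, hb'⟩ := Finset.mem_image.1 hw.2
  have hab : (a : ℕ) ≠ b := by
    intro h
    have : a = b := Fin.ext h
    rw [this] at ha
    exact hvw (ha.symm.trans hb)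
  have e1 : e.1 + a * e.2 = e'.1 + a' * e'.2 := by
    rw [← vert_val k H e h1 a, ← vert_val k H e' h1' a', ha, ha']
  have e2 : e.1 + b * e.2 = e'.1 + b' * e'.2 := by
    rw [← vert_val k H e h1 b, ← vert_val k H e' h1' b', hb, hb']
  have hpos : 1 ≤ e.2 := ((mem_DD k H e.2).1 h1.2).1.1
  have hpos' : 1 ≤ e'.2 := ((mem_DD k H e'.2).1 h1'.2).1.1
  have e1z : (e.1 : ℤ) + a * e.2 = e'.1 + a' * e'.2 := by exact_mod_cast e1
  have e2z : (e.1 : ℤ) + b * e.2 = e'.1 + b' * e'.2 := by exact_mod_cast e2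
  have e3 : ((b : ℤ) - a) * e.2 = ((b' : ℤ) - a') * e'.2 := by linarith
  have hz : ((b : ℤ) - a) ≠ 0 := by
    intro h
    apply hab
    omega
  have hz' : ((b' : ℤ) - a') ≠ 0 := by
    intro h
    rw [h, zero_mul] at e3
    rcases mul_eq_zero.1 e3 with h2 | h2
    · exact hz h2
    · have : e.2 = 0 := by exact_mod_cast h2
      omega
  have hak := a.2
  have hbk := b.2
  have hak' := a'.2
  have hbk' := b'.2
  have d1 : (e.2 : ℤ) ∣ e'.2 := by
    refine (DD_coprime k H e.2 h1.2 _ hz' (by omega)).dvd_of_dvd_mul_left ?_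
    exact ⟨(b : ℤ) - a, by rw [← e3]; ring⟩
  have d2 : (e'.2 : ℤ) ∣ e.2 := by
    refine (DD_coprime k H e'.2 h1'.2 _ hz (by omega)).dvd_of_dvd_mul_left ?_
    exact ⟨(b' : ℤ) - a', by rw [e3]; ring⟩
  have hdd : e.2 = e'.2 := Nat.dvd_antisymm (Int.natCast_dvd_natCast.1 d1)
    (Int.natCast_dvd_natCast.1 d2)
  obtain ⟨n, hn⟩ := hd
  obtain ⟨n', hn'⟩ := hd'
  rw [hn, Nat.mul_div_cancel_left _ hpos] at hc
  rw [hn', Nat.mul_div_cancel_left _ hpos'] at hc'
  have hnz : (m : ℤ) + e.1 = e.2 * n := by exact_mod_cast hn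
  have hnz' : (m : ℤ) + e'.1 = e'.2 * n' := by exact_mod_cast hn'
  rw [← hdd] at hnz' e1z
  have h5 : (e.2 : ℤ) * (n - n') = e.2 * (a' - a) := by linarith
  have hez : (e.2 : ℤ) ≠ 0 := by
    intro h
    have : e.2 = 0 := by exact_mod_cast h
    omega
  have h6 : (n : ℤ) - n' = a' - a := mul_left_cancel₀ hez h5
  have h7 : (k : ℤ) ∣ (n : ℤ) - n' := by
    have : n ≡ n' [MOD k] := by
      unfold Nat.ModEq
      rw [hc, hc']
    exact (Nat.modEq_iff_dvd.1 this.symm)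
  rw [h6] at h7
  have h8 : (a' : ℤ) - a = 0 := by
    by_contra h
    have h9 : (k : ℤ).natAbs ≤ ((a' : ℤ) - a).natAbs := Int.natAbs_le_of_dvd_ne_zero h7 h
    omega
  apply hne
  refine Prod.ext ?_ hdd
  have h9 : (a' : ℤ) = a := by linarith
  rw [h9] at e1z
  have : (e.1 : ℤ) = e'.1 := by linarith
  exact_mod_cast this

lemma card_mult_le (H m d : ℕ) (hd : 1 ≤ d) :
    (((Finset.Icc 1 H).filter (fun j => d ∣ m + j)).card : ℝ) ≤ H * (1 / (d : ℝ)) + 1 := by
  have h1 : ((Finset.Icc 1 H).filter (fun j => d ∣ m + j)).card ≤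
      (Finset.Ioc (m / d) ((m + H) / d)).card := by
    refine Finset.card_le_card_of_injOn (fun j => (m + j) / d) ?_ ?_
    · intro j hj
      obtain ⟨hj1, hj2⟩ := Finset.mem_filter.1 (Finset.mem_coe.1 hj)
      rw [Finset.mem_Icc] at hj1
      obtain ⟨q, hq⟩ := hj2
      rw [Finset.mem_coe, Finset.mem_Ioc]
      constructor
      · show m / d < (m + j) / d
        rw [hq, Nat.mul_div_cancel_left _ hd]
        exact Nat.div_lt_of_lt_mul (by omega)
      · exact Nat.div_le_div_right (by omega)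
    · intro i hi j hj hij
      obtain ⟨_, hi2⟩ := Finset.mem_filter.1 (Finset.mem_coe.1 hi)
      obtain ⟨_, hj2⟩ := Finset.mem_filter.1 (Finset.mem_coe.1 hj)
      have h2 := Nat.div_mul_cancel hi2
      have h3 := Nat.div_mul_cancel hj2
      simp only at hij
      rw [hij, h3] at h2
      omega
  have h2 : (Finset.Ioc (m / d) ((m + H) / d)).card ≤ H / d + 1 := by
    rw [Nat.card_Ioc, Nat.add_div hd]
    generalize m / d = x
    generalize H / d = y
    split_ifs <;> omega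
  have h3 : ((H / d : ℕ) : ℝ) ≤ H / d := Nat.cast_div_le
  have h4 : (((Finset.Icc 1 H).filter (fun j => d ∣ m + j)).card : ℝ) ≤ ((H / d : ℕ) : ℝ) + 1 := by
    exact_mod_cast h1.trans h2
  rw [mul_one_div]
  linarith

theorem card_edges_le (k H c m : ℕ) (hH : 1 ≤ H) :
    ((edges k H c m).card : ℝ) ≤ H * (LL k H + 1) := by
  have h1 : (edges k H c m).card ≤
      ∑ d ∈ DD k H, ((Finset.Icc 1 H).filter (fun j => d ∣ m + j)).card := by
    unfold edges
    rw [Finset.card_filter, Finset.sum_product_right]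
    refine Finset.sum_le_sum fun d _ => ?_
    rw [Finset.card_filter]
    refine Finset.sum_le_sum fun j _ => ?_
    simp only
    split_ifs with h2 h3 h3
    · exact le_rfl
    · exact absurd h2.1 h3
    · exact Nat.zero_le _
    · exact le_rfl
  have h2 : ((edges k H c m).card : ℝ) ≤
      ∑ d ∈ DD k H, (((Finset.Icc 1 H).filter (fun j => d ∣ m + j)).card : ℝ) := by
    exact_mod_cast h1
  have h3 : ∑ d ∈ DD k H, (((Finset.Icc 1 H).filter (fun j => d ∣ m + j)).card : ℝ) ≤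
      ∑ d ∈ DD k H, ((H : ℝ) * (1 / (d : ℝ)) + 1) :=
    Finset.sum_le_sum fun d hd => card_mult_le H m d ((mem_DD k H d).1 hd).1.1
  rw [Finset.sum_add_distrib, ← Finset.mul_sum, Finset.sum_const, nsmul_eq_mul, mul_one] at h3
  have h4 : ((DD k H).card : ℝ) ≤ H := by exact_mod_cast DD_card_le k H
  unfold LL
  linarith

theorem edges_periodic (k H c m m' : ℕ) (hk : 1 ≤ k)
    (h : m % (k * H.factorial) = m' % (k * H.factorial)) :
    edges k H c m = edges k H c m' := by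
  unfold edges
  refine Finset.filter_congr fun e he => ?_
  rw [Finset.mem_product] at he
  obtain ⟨⟨h1, h2⟩, _⟩ := (mem_DD k H e.2).1 he.2
  have h3 : e.2 ∣ H.factorial := Nat.dvd_factorial (by omega) h2
  have h4 : e.2 * k ∣ k * H.factorial := by
    rw [mul_comm]
    exact Nat.mul_dvd_mul_left k h3
  have h5 : m ≡ m' [MOD k * H.factorial] := h
  have h6 : m + e.1 ≡ m' + e.1 [MOD e.2 * k] := (h5.add_right e.1).of_dvd h4
  have h7 : e.2 ∣ m + e.1 ↔ e.2 ∣ m' + e.1 := h6.dvd_iff (Dvd.intro k rfl)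
  have h8 : (m + e.1) / e.2 % k = (m' + e.1) / e.2 % k := by
    rw [← Nat.mod_mul_right_div_self, ← Nat.mod_mul_right_div_self]
    unfold Nat.ModEq at h6
    rw [h6]
  rw [h7, h8]

end Helper11.QR
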