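import Mathlib
import Pool.Agent.Helper11.QR.Defs

set_option autoImplicit false
set_option linter.unusedSectionVars false

/-! QR-05: exponential moment for a linear hypergraph.

Proof. Put `C = cosh x`, `S = sinh x` (`x ≥ 0`, `0 ≤ S ≤ C`, `C + S = exp x`). For `|v| ≤ 1`,
`exp (x v) ≤ C + S v` (convexity). So `EE exp (x ∑ φ_e) ≤ EE ∏ (C + S φ_e)` (all factors are
`≥ 0`). Show by induction on the finset `s` (adding an edge `e₀ ∉ s`):
`Φ(s) := EE ∏_{e ∈ s} (C + S φ_e) ≤ C ^ |s| + |s| δ exp (x |s|)`. Induction step: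
`Φ(s ∪ {e₀}) = C Φ(s) + S * EE (φ_{e₀} ∏_{e ∈ s} (C + S φ_e))` and
`|EE (φ_{e₀} ∏_{e ∈ s} (C + S φ_e))| ≤ δ exp (x |s|)` (`key`). Then
`Φ ≤ C ^ (|s|+1) + C |s| δ exp (x|s|) + S δ exp (x |s|) ≤ C ^ (|s|+1) + (|s|+1) δ exp (x (|s|+1))`.
`key`: resample the coordinates outside `A e₀`: for a function `Ψ y = φ y * ψ y` with `φ`
depending only on the coordinates in `A`,
`EE Ψ = EE_{y'} EE_y (φ y * ψ (y on A, y' off A))` (product measure; e.g. iterate `EE_resample`,
or write the sum over `V → Y` as a double sum using the equivalence with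
`(A → Y) × (complement → Y)`). For fixed `y'`, every factor `C + S φ_e (y on A e₀, y' off)`,
`e ∈ s`, depends on at most one coordinate `v ∈ A e₀` (the unique element of `A e ∩ A e₀`, if
any), so the product is `c * ∏_{v ∈ A e₀} g_v (y v)` with `|c| ∏ sup |g_v| ≤ exp (x |s|)`
(each factor has absolute value at most `C + S = exp x`). Normalise the `g_v` and use `hcut`. -/

namespace Helper11.QR

open Finset Helper13.Om

section ExpMomAux

variable {V Y I : Type} [Fintype V] [DecidableEq V] [Fintype Y] [DecidableEq Y]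

/-- `y` on `A`, `z` off `A`. -/
def mixOn (A : Finset V) (y z : V → Y) : V → Y := fun v => if v ∈ A then y v else z v

lemma EE_mixOn (ρ : V → Y → ℝ) (h1 : ∀ v, ∑ y, ρ v y = 1) (A : Finset V)
    (F : (V → Y) → ℝ) :
    EE ρ F = EE ρ (fun z => EE ρ (fun y => F (mixOn A y z))) := by
  classical
  have hinv : Function.Involutive
      (fun p : (V → Y) × (V → Y) => ((mixOn A p.1 p.2, mixOn A p.2 p.1) : (V → Y) × (V → Y))) := by
    intro p
    ext v
    · simp only [mixOn]
      split_ifs <;> rfl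
    · simp only [mixOn]
      split_ifs <;> rfl
  have hw : ∀ y z : V → Y, (∏ i, ρ i (mixOn A y z i)) * (∏ i, ρ i (mixOn A z y i)) =
      (∏ i, ρ i (y i)) * (∏ i, ρ i (z i)) := by
    intro y z
    rw [← Finset.prod_mul_distrib, ← Finset.prod_mul_distrib]
    refine Finset.prod_congr rfl fun i _ => ?_
    unfold mixOn
    split_ifs
    · rfl
    · ring
  have e1 : EE ρ (fun z => EE ρ (fun y => F (mixOn A y z))) =
      ∑ p : (V → Y) × (V → Y), ((∏ i, ρ i (p.1 i)) * (∏ i, ρ i (p.2 i))) *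
        F (mixOn A p.1 p.2) := by
    unfold EE
    rw [Fintype.sum_prod_type, Finset.sum_comm]
    refine Finset.sum_congr rfl fun z _ => ?_
    rw [Finset.mul_sum]
    refine Finset.sum_congr rfl fun y _ => ?_
    ring
  have e2 : ∑ p : (V → Y) × (V → Y), ((∏ i, ρ i (p.1 i)) * (∏ i, ρ i (p.2 i))) *
        F (mixOn A p.1 p.2) =
      ∑ p : (V → Y) × (V → Y), ((∏ i, ρ i (p.1 i)) * (∏ i, ρ i (p.2 i))) * F p.1 := by
    have := Equiv.sum_comp (Function.Involutive.toPerm _ hinv)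
      (fun p : (V → Y) × (V → Y) => ((∏ i, ρ i (p.1 i)) * (∏ i, ρ i (p.2 i))) * F p.1)
    rw [← this]
    refine Finset.sum_congr rfl fun p _ => ?_
    simp only [Function.Involutive.coe_toPerm]
    rw [hw]
  rw [e1, e2, Fintype.sum_prod_type]
  unfold EE
  refine Finset.sum_congr rfl fun y _ => ?_
  have e3 : ∑ z : V → Y, ((∏ i, ρ i (y i)) * (∏ i, ρ i (z i))) * F y =
      (∑ z : V → Y, ∏ i, ρ i (z i)) * ((∏ i, ρ i (y i)) * F y) := by
    rw [Finset.sum_mul]
    refine Finset.sum_congr rfl fun z _ => ?_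
    ring
  have e4 : ∑ z : V → Y, ∏ i, ρ i (z i) = 1 := sum_prod_eq_one ρ h1
  simp only
  rw [e3, e4, one_mul]

/-- The function of `y` factors through the coordinates in `A₀`. -/
def Facts (A₀ : Finset V) (B : ℝ) (ψ : (V → Y) → ℝ) : Prop :=
  ∃ (c : ℝ) (a : V → Y → ℝ), |c| ≤ 1 ∧ (∀ v t, |a v t| ≤ 1) ∧
    ∀ y, ψ y = B * (c * ∏ v ∈ A₀, a v (y v))

lemma facts_one (A₀ : Finset V) : Facts (Y := Y) A₀ 1 (fun _ => 1) :=
  ⟨1, fun _ _ => 1, by simp, by simp, by simp⟩

lemma facts_mul (A₀ : Finset V) (B B' : ℝ) (ψ ψ' : (V → Y) → ℝ) (h : Facts A₀ B ψ)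
    (h' : Facts A₀ B' ψ') : Facts A₀ (B * B') (fun y => ψ y * ψ' y) := by
  obtain ⟨c, a, hc, ha, hy⟩ := h
  obtain ⟨c', a', hc', ha', hy'⟩ := h'
  refine ⟨c * c', fun v t => a v t * a' v t, ?_, ?_, ?_⟩
  · rw [abs_mul]
    exact mul_le_one₀ hc (abs_nonneg _) hc'
  · intro v t
    rw [abs_mul]
    exact mul_le_one₀ (ha v t) (abs_nonneg _) (ha' v t)
  · intro y
    simp only
    rw [hy, hy', Finset.prod_mul_distrib]
    ring

lemma facts_single (A A₀ : Finset V) (hA : (A ∩ A₀).card ≤ 1) (B : ℝ) (hB : 0 < B)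
    (g : (V → Y) → ℝ) (hg : ∀ y, |g y| ≤ B) (hdep : DepOn A g) (z : V → Y) :
    Facts A₀ B (fun y => g (mixOn A₀ y z)) := by
  classical
  have hgB : ∀ y, |g y / B| ≤ 1 := by
    intro y
    rw [abs_div, abs_of_pos hB, div_le_one hB]
    exact hg y
  rcases Finset.eq_empty_or_nonempty (A ∩ A₀) with h | ⟨v₀, hv₀⟩
  · refine ⟨g z / B, fun _ _ => 1, hgB z, by simp, ?_⟩
    intro y
    simp only [Finset.prod_const_one, mul_one]
    rw [mul_div_cancel₀ _ hB.ne']
    apply hdep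
    intro v hv
    unfold mixOn
    rw [if_neg]
    intro hv'
    have : v ∈ A ∩ A₀ := Finset.mem_inter.mpr ⟨hv, hv'⟩
    rw [h] at this
    exact absurd this (Finset.notMem_empty v)
  · have huniq : ∀ v, v ∈ A → v ∈ A₀ → v = v₀ := fun v h1 h2 =>
      Finset.card_le_one.mp hA v (Finset.mem_inter.mpr ⟨h1, h2⟩) v₀ hv₀
    have hv₀A₀ : v₀ ∈ A₀ := (Finset.mem_inter.mp hv₀).2
    refine ⟨1, fun v t => if v = v₀ then g (mixOn A₀ (fun _ => t) z) / B else 1, by simp, ?_, ?_⟩
    · intro v t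
      simp only
      split_ifs
      · exact hgB _
      · simp
    · intro y
      simp only [one_mul]
      rw [Finset.prod_ite_eq_of_mem' A₀ v₀ (fun v => g (mixOn A₀ (fun _ => y v) z) / B) hv₀A₀,
        mul_div_cancel₀ _ hB.ne']
      apply hdep
      intro v hv
      unfold mixOn
      split_ifs with hv'
      · rw [huniq v hv hv']
      · rfl

lemma facts_prod (A₀ : Finset V) (B : ℝ) (hB : 0 < B) (s : Finset I) (A : I → Finset V)
    (hA : ∀ e ∈ s, (A e ∩ A₀).card ≤ 1) (g : I → (V → Y) → ℝ)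
    (hg : ∀ e ∈ s, ∀ y, |g e y| ≤ B) (hdep : ∀ e ∈ s, DepOn (A e) (g e)) (z : V → Y) :
    Facts A₀ (B ^ s.card) (fun y => ∏ e ∈ s, g e (mixOn A₀ y z)) := by
  classical
  induction s using Finset.induction_on with
  | empty => simpa using facts_one (Y := Y) A₀
  | insert e s he ih =>
    have h1 := ih (fun e' h' => hA e' (Finset.mem_insert_of_mem h'))
      (fun e' h' => hg e' (Finset.mem_insert_of_mem h'))
      (fun e' h' => hdep e' (Finset.mem_insert_of_mem h'))
    have h2 := facts_single (A e) A₀ (hA e (Finset.mem_insert_self _ _)) B hB (g e)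
      (hg e (Finset.mem_insert_self _ _)) (hdep e (Finset.mem_insert_self _ _)) z
    have h3 := facts_mul A₀ _ _ _ _ h2 h1
    rw [Finset.card_insert_of_notMem he, pow_succ']
    simp only [Finset.prod_insert he]
    exact h3

lemma expMom_key (ρ : V → Y → ℝ) (h0 : ∀ v y, 0 ≤ ρ v y) (h1 : ∀ v, ∑ y, ρ v y = 1)
    (A₀ : Finset V) (φ : (V → Y) → ℝ) (hdep₀ : DepOn A₀ φ) (δ : ℝ)
    (hcut : ∀ f : V → Y → ℝ, (∀ v y, |f v y| ≤ 1) →
      |EE ρ (fun y => φ y * ∏ v ∈ A₀, f v (y v))| ≤ δ)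
    (B : ℝ) (hB : 0 < B) (s : Finset I) (A : I → Finset V)
    (hA : ∀ e ∈ s, (A e ∩ A₀).card ≤ 1) (g : I → (V → Y) → ℝ)
    (hg : ∀ e ∈ s, ∀ y, |g e y| ≤ B) (hdep : ∀ e ∈ s, DepOn (A e) (g e)) :
    |EE ρ (fun y => φ y * ∏ e ∈ s, g e y)| ≤ δ * B ^ s.card := by
  rw [EE_mixOn ρ h1 A₀]
  refine EE_abs_le_of ρ h0 h1 _ _ fun z => ?_
  obtain ⟨c, a, hc, ha, hy⟩ := facts_prod A₀ B hB s A hA g hg hdep z
  have e1 : (fun y => φ (mixOn A₀ y z) * ∏ e ∈ s, g e (mixOn A₀ y z)) =
      fun y => (B ^ s.card * c) * (φ y * ∏ v ∈ A₀, a v (y v)) := by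
    funext y
    have e2 : φ (mixOn A₀ y z) = φ y := by
      apply hdep₀
      intro v hv
      unfold mixOn
      rw [if_pos hv]
    have e3 := hy y
    simp only at e3
    rw [e2, e3]
    ring
  rw [e1, EE_smul, abs_mul, abs_mul, abs_of_pos (pow_pos hB _)]
  have h2 := hcut a ha
  have h3 : 0 ≤ |EE ρ (fun y => φ y * ∏ v ∈ A₀, a v (y v))| := abs_nonneg _
  have h4 : 0 < B ^ s.card := pow_pos hB _
  calc B ^ s.card * |c| * |EE ρ (fun y => φ y * ∏ v ∈ A₀, a v (y v))|
      ≤ B ^ s.card * 1 * |EE ρ (fun y => φ y * ∏ v ∈ A₀, a v (y v))| := by gcongr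
    _ ≤ B ^ s.card * 1 * δ := by gcongr
    _ = δ * B ^ s.card := by ring

lemma DepOn.affine (A : Finset V) (φ : (V → Y) → ℝ) (h : DepOn A φ) (C S : ℝ) :
    DepOn A (fun y => C + S * φ y) := by
  intro y y' hy
  simp only
  rw [h y y' hy]

end ExpMomAux

theorem expMom {V Y I : Type} [Fintype V] [DecidableEq V] [Fintype Y] [DecidableEq Y]
    [DecidableEq I] (ρ : V → Y → ℝ) (h0 : ∀ v y, 0 ≤ ρ v y) (h1 : ∀ v, ∑ y, ρ v y = 1)
    (s : Finset I) (A : I → Finset V) (φ : I → (V → Y) → ℝ)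
    (hφ : ∀ e ∈ s, ∀ y, |φ e y| ≤ 1) (hdep : ∀ e ∈ s, DepOn (A e) (φ e))
    (hlin : ∀ e ∈ s, ∀ e' ∈ s, e ≠ e' → (A e ∩ A e').card ≤ 1) (δ : ℝ) (hδ : 0 ≤ δ)
    (hcut : ∀ e ∈ s, ∀ f : V → Y → ℝ, (∀ v y, |f v y| ≤ 1) →
      |EE ρ (fun y => φ e y * ∏ v ∈ A e, f v (y v))| ≤ δ) (x : ℝ) (hx : 0 ≤ x) :
    EE ρ (fun y => Real.exp (x * ∑ e ∈ s, φ e y)) ≤
      Real.cosh x ^ s.card + s.card * δ * Real.exp (x * s.card) := by
  classical
  set C := Real.cosh x with hC
  set S := Real.sinh x with hS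
  have hS0 : 0 ≤ S := Real.sinh_nonneg_iff.mpr hx
  have hC0 : 0 < C := Real.cosh_pos x
  have hCS : C + S = Real.exp x := Real.cosh_add_sinh x
  have hCB : C ≤ Real.exp x := by linarith
  have hprod : ∀ t : Finset I, t ⊆ s → EE ρ (fun y => ∏ e ∈ t, (C + S * φ e y)) ≤
      C ^ t.card + t.card * δ * Real.exp x ^ t.card := by
    intro t
    induction t using Finset.induction_on with
    | empty =>
      intro _
      simp only [Finset.prod_empty, Finset.card_empty, pow_zero, Nat.cast_zero, zero_mul, add_zero]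
      rw [EE_const ρ h1]
    | insert e t he ih =>
      intro hsub
      have hes : e ∈ s := hsub (Finset.mem_insert_self _ _)
      have hts : t ⊆ s := (Finset.subset_insert e t).trans hsub
      have ih' := ih hts
      have hkey := expMom_key ρ h0 h1 (A e) (φ e) (hdep e hes) δ (hcut e hes)
        (Real.exp x) (Real.exp_pos x) t A
        (fun e' h' => hlin e' (hts h') e hes (fun h => he (h ▸ h')))
        (fun e' y => C + S * φ e' y)
        (fun e' h' y => by
          have := hφ e' (hts h') y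
          rw [← hCS]
          refine (abs_add_le _ _).trans ?_
          rw [abs_of_pos hC0, abs_mul, abs_of_nonneg hS0]
          nlinarith)
        (fun e' h' => DepOn.affine _ _ (hdep e' (hts h')) C S)
      have e1 : (fun y => ∏ e' ∈ insert e t, (C + S * φ e' y)) =
          fun y => C * (∏ e' ∈ t, (C + S * φ e' y)) +
            S * (φ e y * ∏ e' ∈ t, (C + S * φ e' y)) := by
        funext y
        rw [Finset.prod_insert he]
        ring
      rw [e1, EE_add, EE_smul, EE_smul, Finset.card_insert_of_notMem he]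
      have h2 := (abs_le.mp hkey).2
      have hE : 0 < Real.exp x ^ t.card := pow_pos (Real.exp_pos x) _
      have h3 : C * EE ρ (fun y => ∏ e' ∈ t, (C + S * φ e' y)) ≤
          C * (C ^ t.card + t.card * δ * Real.exp x ^ t.card) :=
        mul_le_mul_of_nonneg_left ih' hC0.le
      have h4 : S * EE ρ (fun y => φ e y * ∏ e' ∈ t, (C + S * φ e' y)) ≤
          S * (δ * Real.exp x ^ t.card) := mul_le_mul_of_nonneg_left h2 hS0
      have h5 : C * (t.card * δ * Real.exp x ^ t.card) ≤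
          Real.exp x * (t.card * δ * Real.exp x ^ t.card) :=
        mul_le_mul_of_nonneg_right hCB (by positivity)
      have h6 : S * (δ * Real.exp x ^ t.card) ≤ Real.exp x * (δ * Real.exp x ^ t.card) :=
        mul_le_mul_of_nonneg_right (by linarith) (by positivity)
      have e2 : C ^ (t.card + 1) + ((t.card + 1 : ℕ) : ℝ) * δ * Real.exp x ^ (t.card + 1) =
          C * C ^ t.card + Real.exp x * (t.card * δ * Real.exp x ^ t.card) +
            Real.exp x * (δ * Real.exp x ^ t.card) := by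
        push_cast
        ring
      rw [e2]
      nlinarith
  have hfin := hprod s (Finset.Subset.refl s)
  have hexp : Real.exp (x * s.card) = Real.exp x ^ s.card := by
    rw [mul_comm, Real.exp_nat_mul]
  rw [hexp]
  refine le_trans ?_ hfin
  unfold EE
  refine Finset.sum_le_sum fun y _ => mul_le_mul_of_nonneg_left ?_
    (Finset.prod_nonneg fun i _ => h0 i (y i))
  simp only
  rw [Finset.mul_sum, Real.exp_sum]
  refine Finset.prod_le_prod (fun e _ => (Real.exp_pos _).le) fun e he => ?_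
  have := Real.exp_mul_le_cosh_add_mul_sinh (hφ e he y) x
  rw [mul_comm x, mul_comm S]
  exact this

end Helper11.QR
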