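import Mathlib
import Pool.Agent.Helper11.QR.ExpMom

set_option autoImplicit false

/-! QR-06: tail bound. Markov: `1[T ≤ |Σ|] ≤ exp (-x T) (exp (x Σ) + exp (-x Σ))`, apply
`expMom` to `φ` and to `-φ`, and `Real.cosh_le_exp_half_sq`. -/

namespace Helper11.QR

open Finset Helper13.Om

theorem tail {V Y I : Type} [Fintype V] [DecidableEq V] [Fintype Y] [DecidableEq Y]
    [DecidableEq I] (ρ : V → Y → ℝ) (h0 : ∀ v y, 0 ≤ ρ v y) (h1 : ∀ v, ∑ y, ρ v y = 1)
    (s : Finset I) (A : I → Finset V) (φ : I → (V → Y) → ℝ)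
    (hφ : ∀ e ∈ s, ∀ y, |φ e y| ≤ 1) (hdep : ∀ e ∈ s, DepOn (A e) (φ e))
    (hlin : ∀ e ∈ s, ∀ e' ∈ s, e ≠ e' → (A e ∩ A e').card ≤ 1) (δ : ℝ) (hδ : 0 ≤ δ)
    (hcut : ∀ e ∈ s, ∀ f : V → Y → ℝ, (∀ v y, |f v y| ≤ 1) →
      |EE ρ (fun y => φ e y * ∏ v ∈ A e, f v (y v))| ≤ δ) (x : ℝ) (hx : 0 ≤ x) (T : ℝ) :
    EE ρ (fun y => if T ≤ |∑ e ∈ s, φ e y| then (1 : ℝ) else 0) ≤
      2 * Real.exp (-(x * T)) * (Real.exp (x ^ 2 / 2 * s.card) +
        s.card * δ * Real.exp (x * s.card)) := by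
  have hm1 := expMom ρ h0 h1 s A φ hφ hdep hlin δ hδ hcut x hx
  have hm2 := expMom ρ h0 h1 s A (fun e y => - φ e y)
    (fun e he y => by rw [abs_neg]; exact hφ e he y)
    (fun e he y y' hyy => by
      show - φ e y = - φ e y'
      rw [hdep e he y y' hyy])
    hlin δ hδ
    (fun e he f hf => by
      have h := hcut e he f hf
      have h2 : EE ρ (fun y => - φ e y * ∏ v ∈ A e, f v (y v)) =
          - EE ρ (fun y => φ e y * ∏ v ∈ A e, f v (y v)) := by
        have h3 := EE_smul ρ (-1) (fun y => φ e y * ∏ v ∈ A e, f v (y v))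
        rw [neg_one_mul] at h3
        rw [← h3]
        congr 1
        funext y
        ring
      rw [h2, abs_neg]
      exact h) x hx
  have hc : Real.cosh x ^ s.card ≤ Real.exp (x ^ 2 / 2 * s.card) := by
    rw [mul_comm (x ^ 2 / 2), Real.exp_nat_mul]
    exact pow_le_pow_left₀ (Real.cosh_pos x).le (Real.cosh_le_exp_half_sq x) _
  have hpt : ∀ y : V → Y, (if T ≤ |∑ e ∈ s, φ e y| then (1 : ℝ) else 0) ≤
      Real.exp (-(x * T)) * (Real.exp (x * ∑ e ∈ s, φ e y) +
        Real.exp (x * ∑ e ∈ s, - φ e y)) := by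
    intro y
    have hp1 := Real.exp_pos (x * ∑ e ∈ s, φ e y)
    have hp2 := Real.exp_pos (x * ∑ e ∈ s, - φ e y)
    have hp3 := Real.exp_pos (-(x * T))
    split_ifs with hT
    · rw [mul_add, ← Real.exp_add, ← Real.exp_add]
      have hq1 := Real.exp_pos (-(x * T) + x * ∑ e ∈ s, φ e y)
      have hq2 := Real.exp_pos (-(x * T) + x * ∑ e ∈ s, - φ e y)
      rw [le_abs] at hT
      rcases hT with hT | hT
      · have : 1 ≤ Real.exp (-(x * T) + x * ∑ e ∈ s, φ e y) := by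
          apply Real.one_le_exp
          nlinarith
        linarith
      · have : 1 ≤ Real.exp (-(x * T) + x * ∑ e ∈ s, - φ e y) := by
          apply Real.one_le_exp
          rw [Finset.sum_neg_distrib]
          nlinarith
        linarith
    · positivity
  refine (EE_mono ρ h0 _ _ hpt).trans ?_
  rw [EE_smul, EE_add]
  have hp3 := Real.exp_pos (-(x * T))
  calc Real.exp (-(x * T)) * (EE ρ (fun y => Real.exp (x * ∑ e ∈ s, φ e y)) +
        EE ρ (fun y => Real.exp (x * ∑ e ∈ s, - φ e y)))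
      ≤ Real.exp (-(x * T)) * ((Real.exp (x ^ 2 / 2 * s.card) +
        s.card * δ * Real.exp (x * s.card)) + (Real.exp (x ^ 2 / 2 * s.card) +
        s.card * δ * Real.exp (x * s.card))) := by
        apply mul_le_mul_of_nonneg_left _ hp3.le
        linarith
    _ = _ := by ring

end Helper11.QR
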