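import Mathlib
import Pool.Agent.Helper11.QR.Defs

set_option autoImplicit false

/-! QR-16: the number of vectors `w` with sum at most `K n`.

Proof of `wCount`: if `K = 0` there is one vector. Otherwise, with `x = K / (K + 1)`, every
`w ∈ WW n (K n)` has `1 ≤ x ^ (∑ w) * x ^ (-(K n))`, so the number is at most
`x ^ (-(K n)) * ∏_v ∑_{t ≤ K n} x ^ t ≤ (1 + 1 / K) ^ (K n) * (1 / (1 - x)) ^ (n + 1)
≤ exp n * (K + 1) ^ (n + 1)`. -/

namespace Helper11.QR

open Finset

lemma mem_WW (n S : ℕ) (w : Fin (n + 1) → ℕ) : w ∈ WW n S ↔ ∑ v, w v ≤ S := by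
  unfold WW
  rw [Finset.mem_filter, Fintype.mem_piFinset]
  constructor
  · exact fun h => h.2
  · intro h
    refine ⟨fun v => ?_, h⟩
    have h1 : w v ≤ ∑ v, w v := Finset.single_le_sum (fun _ _ => Nat.zero_le _) (Finset.mem_univ v)
    rw [Finset.mem_range]
    omega

private lemma geom_le (x : ℝ) (hx : 0 ≤ x) (hx1 : x < 1) (m : ℕ) :
    ∑ t ∈ Finset.range m, x ^ t ≤ (1 - x)⁻¹ := by
  have h1 := mul_neg_geom_sum x m
  have h2 : 0 < 1 - x := by linarith
  have h3 : 0 ≤ x ^ m := pow_nonneg hx m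
  rw [← one_div, le_div_iff₀ h2, mul_comm, h1]
  linarith

private lemma card_mul_pow (n S : ℕ) (x : ℝ) (hx : 0 ≤ x) (hx1 : x < 1) :
    ((WW n S).card : ℝ) * x ^ S ≤ ((1 - x)⁻¹) ^ (n + 1) := by
  have h1 : ((WW n S).card : ℝ) * x ^ S ≤ ∑ w ∈ WW n S, ∏ v, x ^ w v := by
    rw [← nsmul_eq_mul]
    refine Finset.card_nsmul_le_sum _ _ _ fun w hw => ?_
    rw [Finset.prod_pow_eq_pow_sum]
    exact pow_le_pow_of_le_one hx hx1.le ((mem_WW n S w).1 hw)
  have h2 : ∑ w ∈ WW n S, ∏ v, x ^ w v ≤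
      ∑ w ∈ Fintype.piFinset (fun _ : Fin (n + 1) => Finset.range (S + 1)), ∏ v, x ^ w v := by
    refine Finset.sum_le_sum_of_subset_of_nonneg (Finset.filter_subset _ _) fun w _ _ => ?_
    exact Finset.prod_nonneg fun v _ => pow_nonneg hx _
  have h3 : ∑ w ∈ Fintype.piFinset (fun _ : Fin (n + 1) => Finset.range (S + 1)), ∏ v, x ^ w v =
      ∏ _v : Fin (n + 1), ∑ t ∈ Finset.range (S + 1), x ^ t :=
    (Finset.prod_univ_sum (fun _ : Fin (n + 1) => Finset.range (S + 1)) fun _ t => x ^ t).symm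
  rw [Finset.prod_const, Finset.card_univ, Fintype.card_fin] at h3
  refine (h1.trans (h2.trans_eq h3)).trans ?_
  exact pow_le_pow_left₀ (Finset.sum_nonneg fun t _ => pow_nonneg hx t) (geom_le x hx hx1 _) _

theorem wCount (n K : ℕ) :
    ((WW n (K * n)).card : ℝ) ≤ Real.exp (((n : ℝ) + 1) * (1 + Real.log (K + 1))) := by
  rcases Nat.eq_zero_or_pos K with rfl | hK
  · rw [Nat.zero_mul]
    have h1 : (WW n 0).card ≤ 1 := by
      rw [Finset.card_le_one]
      intro a ha b hb
      rw [mem_WW] at ha hb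
      have ha' := Nat.le_zero.1 ha
      have hb' := Nat.le_zero.1 hb
      rw [Finset.sum_eq_zero_iff] at ha' hb'
      funext v
      rw [ha' v (Finset.mem_univ v), hb' v (Finset.mem_univ v)]
    have h2 : ((WW n 0).card : ℝ) ≤ 1 := by exact_mod_cast h1
    refine h2.trans (Real.one_le_exp ?_)
    have h3 : Real.log (((0 : ℕ) : ℝ) + 1) = 0 := by simp
    rw [h3]
    positivity
  · have hK0 : (0 : ℝ) < K := by exact_mod_cast hK
    have hK1 : (0 : ℝ) < (K : ℝ) + 1 := by linarith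
    set x : ℝ := K / (K + 1) with hx
    have hx0 : 0 ≤ x := by positivity
    have hx1 : x < 1 := by
      rw [hx, div_lt_one hK1]
      linarith
    have h1 := card_mul_pow n (K * n) x hx0 hx1
    have h2 : (1 - x)⁻¹ = K + 1 := by
      have h3 : 1 - x = (K + 1 : ℝ)⁻¹ := by
        rw [hx]
        field_simp
        ring
      rw [h3, inv_inv]
    rw [h2] at h1
    have h4 : x ^ (K * n) * (1 + 1 / (K : ℝ)) ^ (K * n) = 1 := by
      rw [← mul_pow]
      have h5 : x * (1 + 1 / (K : ℝ)) = 1 := by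
        rw [hx]
        field_simp
      rw [h5, one_pow]
    have h6 : (1 + 1 / (K : ℝ)) ^ (K * n) ≤ Real.exp n := by
      have h7 : 1 + 1 / (K : ℝ) ≤ Real.exp (1 / K) := by
        have := Real.add_one_le_exp (1 / (K : ℝ))
        linarith
      refine (pow_le_pow_left₀ (by positivity) h7 _).trans_eq ?_
      rw [← Real.exp_nat_mul]
      congr 1
      push_cast
      field_simp
    have h8 : ((WW n (K * n)).card : ℝ) ≤ ((K : ℝ) + 1) ^ (n + 1) * Real.exp n := by
      calc ((WW n (K * n)).card : ℝ)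
          = ((WW n (K * n)).card : ℝ) * x ^ (K * n) * (1 + 1 / (K : ℝ)) ^ (K * n) := by
            rw [mul_assoc, h4, mul_one]
        _ ≤ ((K : ℝ) + 1) ^ (n + 1) * Real.exp n :=
            mul_le_mul h1 h6 (by positivity) (by positivity)
    refine h8.trans ?_
    have h9 : Real.exp (((n : ℝ) + 1) * (1 + Real.log (K + 1))) =
        ((K : ℝ) + 1) ^ (n + 1) * Real.exp ((n : ℝ) + 1) := by
      rw [mul_add, mul_one, Real.exp_add, mul_comm]
      congr 1
      have h10 : ((n : ℝ) + 1) = ((n + 1 : ℕ) : ℝ) := by push_cast; ring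
      rw [h10, Real.exp_nat_mul, Real.exp_log hK1]
    rw [h9]
    exact mul_le_mul_of_nonneg_left (Real.exp_le_exp.2 (by linarith)) (by positivity)

end Helper11.QR
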