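import Mathlib
import Pool.Agent.Helper11.QR.Tail
import Pool.Agent.Helper11.QR.EdgeCut
import Pool.Agent.Helper11.QR.EdgesLin
import Pool.Agent.Helper11.QR.WCount

set_option autoImplicit false

/-! QR-20: in the model, the window sum is small for all choices of the remaining counts `w`.

Proof: union bound over `w ∈ WW (k H) S` (`EE_mono`, `EE_sum`): the indicator of
`∃ w ∈ WW, ...` is at most the sum of the indicators. For fixed `w` apply `tail` with
`V = Fin (k H + 1)`, `Y = Fin (L + 2)`, `ρ = tauL (k H + 1) 0 P L` (`tauL_nonneg`, `tauL_sum`),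
`s = edges k H c m₀`, `A = vset k H`, `φ e y = rr k N F s' e.2 (i ↦ y (vert e i) + w (vert e i))`,
`δ := δ + k τ`. `|rr| ≤ 1`; `DepOn`: clear; linearity: `vset_inter`; the cut condition: `edgeCut`
with `n = k H`, `M = N / e.2` (`≥ 1` since `e.2 ≤ H ≤ N`), `ι = vert k H e` (`vert_inj`,
`vert_ne_zero`), `D = Ω(e.2) ≤ e.2 ≤ H ≤ B`, `c = s' e.2`, `F = F (N / e.2)`, and
`w v ≤ ∑ w ≤ S ≤ B` (`mem_WW`). Note `rr` unfolds exactly to the function in `edgeCut`. -/

namespace Helper11.QR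

open Finset Helper13.Om

private lemma rr_abs_le' (k N : ℕ) (F : ℕ → (Fin k → ℕ) → ℝ) (hF : ∀ M ℓ, |F M ℓ| ≤ 1)
    (s : ℕ → ℝ) (hs : ∀ d, |s d| ≤ 1) (d : ℕ) (ℓ : Fin k → ℕ) : |rr k N F s d ℓ| ≤ 1 := by
  unfold rr
  split_ifs
  · rw [abs_mul]
    exact mul_le_one₀ (hs d) (abs_nonneg _) (hF _ _)
  · simp

theorem modelTail (k N H c m₀ S L B : ℕ) (hk : 1 ≤ k) (hH : 1 ≤ H) (hHN : H ≤ N)
    (P : Finset ℕ) (hP : ∀ q ∈ P, q.Prime) (hL : P.card ≤ L + 1)
    (F : ℕ → (Fin k → ℕ) → ℝ) (hF : ∀ M ℓ, |F M ℓ| ≤ 1) (s : ℕ → ℝ) (hs : ∀ d, |s d| ≤ 1)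
    (δ τ : ℝ) (hδ : 0 ≤ δ) (hτ0 : 0 ≤ τ)
    (hcut : ∀ d ∈ DD k H, CutLe k (N / d) δ (F (N / d)))
    (hτ : ∀ d ∈ DD k H, ∀ b ≤ B, ∀ b' ≤ B, ∀ a : ℕ → ℝ, (∀ t, |a t| ≤ 1) →
      |Es P (fun t => a (t + b)) - 1 / ((N / d : ℕ) : ℝ) * ∑ n ∈ Finset.Icc 1 (N / d),
        a (ArithmeticFunction.cardFactors n + b')| ≤ τ)
    (hB1 : H ≤ B) (hB2 : S ≤ B) (T x : ℝ) (hx : 0 ≤ x) :
    EE (tauL (k * H + 1) 0 P L) (fun y =>
      if ∃ w ∈ WW (k * H) S, T ≤ |∑ e ∈ edges k H c m₀, rr k N F s e.2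
        (fun i => (y (vert k H e i) : ℕ) + w (vert k H e i))| then (1 : ℝ) else 0) ≤
      (WW (k * H) S).card * (2 * Real.exp (-(x * T)) *
        (Real.exp (x ^ 2 / 2 * (edges k H c m₀).card) +
          (edges k H c m₀).card * (δ + k * τ) * Real.exp (x * (edges k H c m₀).card))) := by
  classical
  set Ed := edges k H c m₀ with hEd
  have h0 : ∀ v t, 0 ≤ tauL (k * H + 1) 0 P L v t := fun v t => tauL_nonneg _ _ P hP L v t
  have h1 : ∀ v, ∑ t, tauL (k * H + 1) 0 P L v t = 1 := fun v => tauL_sum _ _ P L v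
  have hpt : ∀ y : Fin (k * H + 1) → Fin (L + 2),
      (if ∃ w ∈ WW (k * H) S, T ≤ |∑ e ∈ Ed, rr k N F s e.2
        (fun i => (y (vert k H e i) : ℕ) + w (vert k H e i))| then (1 : ℝ) else 0) ≤
      ∑ w ∈ WW (k * H) S, (if T ≤ |∑ e ∈ Ed, rr k N F s e.2
        (fun i => (y (vert k H e i) : ℕ) + w (vert k H e i))| then (1 : ℝ) else 0) := by
    intro y
    have hnn : ∀ w ∈ WW (k * H) S, (0 : ℝ) ≤ (if T ≤ |∑ e ∈ Ed, rr k N F s e.2
        (fun i => (y (vert k H e i) : ℕ) + w (vert k H e i))| then (1 : ℝ) else 0) := by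
      intro w _
      split_ifs <;> norm_num
    by_cases h : ∃ w ∈ WW (k * H) S, T ≤ |∑ e ∈ Ed, rr k N F s e.2
        (fun i => (y (vert k H e i) : ℕ) + w (vert k H e i))|
    · rw [if_pos h]
      obtain ⟨w, hw, hT⟩ := h
      have := Finset.single_le_sum hnn hw
      rw [if_pos hT] at this
      exact this
    · rw [if_neg h]
      exact Finset.sum_nonneg hnn
  refine (EE_mono _ h0 _ _ hpt).trans ?_
  rw [EE_sum]
  refine (Finset.sum_le_card_nsmul _ _ _ ?_).trans (le_of_eq (nsmul_eq_mul _ _))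
  intro w hw
  rw [mem_WW] at hw
  have hwB : ∀ v, w v ≤ B := by
    intro v
    have : w v ≤ ∑ v, w v := Finset.single_le_sum (fun _ _ => Nat.zero_le _) (Finset.mem_univ v)
    omega
  refine tail (tauL (k * H + 1) 0 P L) h0 h1 Ed (vset k H)
    (fun e y => rr k N F s e.2 (fun i => (y (vert k H e i) : ℕ) + w (vert k H e i)))
    (fun e _ y => rr_abs_le' k N F hF s hs _ _) ?_ ?_ (δ + k * τ) (by positivity) ?_ x hx T
  · intro e _ y y' hyy
    have : (fun i => (y (vert k H e i) : ℕ) + w (vert k H e i)) =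
        (fun i => (y' (vert k H e i) : ℕ) + w (vert k H e i)) := by
      funext i
      rw [hyy (vert k H e i) (Finset.mem_image_of_mem _ (Finset.mem_univ i))]
    simp only [this]
  · intro e he e' he' hne
    exact vset_inter k H c m₀ hk e e' he he' hne
  · intro e he f hf
    have he1 := ((mem_edges k H c m₀ e).mp he).1
    have hd := (mem_DD k H e.2).mp he1.2
    have hM : 1 ≤ N / e.2 := Nat.div_pos (hd.1.2.trans hHN) hd.1.1
    have hD : ArithmeticFunction.cardFactors e.2 ≤ B := by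
      have := Omega_le e.2
      have := hd.1.2
      omega
    exact edgeCut k (N / e.2) (k * H) L hM P hP hL B τ (hτ e.2 he1.2) δ (F (N / e.2)) (hF _)
      (hcut e.2 he1.2) (vert k H e) (vert_inj k H e he1) (vert_ne_zero k H e he1) w hwB
      (ArithmeticFunction.cardFactors e.2) hD (s e.2) (hs _) f hf

end Helper11.QR
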