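import Mathlib
import Pool.Agent.Helper11.QR.Defs

set_option autoImplicit false

/-! QR-19: choice of the window length `H` (real analysis only).

Proof: `LL k H ≥ ∑_{t=1}^{T} 1 / (t k!)` for `T = (H - 1) / k!` roughly, so
`LL k H ≥ c log H - C` with `c = 1 / k! > 0` (only `d = t k! + 1 ≤ H` are used), in particular
`LL k H → ∞`. On the other side, `K0 h u = 8 (log2 (log2 h + 1) + log2 u + 8)` with `h`, `u`
polynomial in `H` (for fixed `k`, `a`), so `4 a K0 h u + 1 ≤ C' (1 + log H)` and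
`(k H + 1) (1 + log (4 a K0 + 1)) ≤ C'' H (1 + log (1 + log H))`, which is `o(H LL k H)`.
So the left side tends to `0` as `H → ∞`. We take `H = 2 ^ s`. -/

namespace Helper11.QR

open Finset

/-- Lower bound for `LL`. -/
theorem LL_lower (k H : ℕ) (hH : 1 ≤ H) :
    (Real.log H - Real.log (k.factorial : ℝ)) / (2 * (k.factorial : ℝ)) ≤ LL k H := by
  have hq1 : 1 ≤ k.factorial := Nat.factorial_pos k
  have hqR : (0 : ℝ) < (k.factorial : ℝ) := by exact_mod_cast hq1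
  obtain ⟨T, hT⟩ : ∃ T, T = (H - 1) / k.factorial := ⟨_, rfl⟩
  have h1 : ∑ i ∈ range T, (1 : ℝ) / (((i + 1) * k.factorial + 1 : ℕ) : ℝ) ≤ LL k H := by
    unfold LL
    have hinj : Set.InjOn (fun i => (i + 1) * k.factorial + 1) (range T : Set ℕ) := by
      intro i _ j _ hij
      have h : (i + 1) * k.factorial = (j + 1) * k.factorial := by
        have h' : (i + 1) * k.factorial + 1 = (j + 1) * k.factorial + 1 := hij
        omega
      have h2 := Nat.eq_of_mul_eq_mul_right hq1 h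
      omega
    rw [← Finset.sum_image (s := range T) (g := fun i => (i + 1) * k.factorial + 1)
      (f := fun d : ℕ => (1 : ℝ) / (d : ℝ)) hinj]
    refine Finset.sum_le_sum_of_subset_of_nonneg ?_ (fun _ _ _ => by positivity)
    intro d hd
    rw [Finset.mem_image] at hd
    obtain ⟨i, hi, rfl⟩ := hd
    rw [Finset.mem_range] at hi
    unfold DD
    rw [Finset.mem_filter, Finset.mem_Icc]
    have h2 : (i + 1) * k.factorial ≤ T * k.factorial := Nat.mul_le_mul_right _ hi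
    have h3 : T * k.factorial ≤ H - 1 := by
      rw [hT]
      exact Nat.div_mul_le_self _ _
    refine ⟨⟨by omega, by omega⟩, ?_⟩
    rw [Nat.mul_comm]
    exact Nat.mul_add_mod _ _ _
  have h2 : 1 / (2 * (k.factorial : ℝ)) * ∑ i ∈ range T, (1 : ℝ) / ((i : ℝ) + 1) ≤
      ∑ i ∈ range T, (1 : ℝ) / (((i + 1) * k.factorial + 1 : ℕ) : ℝ) := by
    rw [Finset.mul_sum]
    refine Finset.sum_le_sum fun i _ => ?_
    have hi : (0 : ℝ) < (i : ℝ) + 1 := by positivity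
    have h3 : (1 : ℝ) ≤ ((i : ℝ) + 1) * (k.factorial : ℝ) := by
      have : 1 ≤ (i + 1) * k.factorial := Nat.mul_pos (Nat.succ_pos i) hq1
      exact_mod_cast this
    push_cast
    rw [one_div_mul_one_div]
    refine one_div_le_one_div_of_le (by positivity) ?_
    linarith
  have h3 : Real.log ((T : ℝ) + 1) ≤ ∑ i ∈ range T, (1 : ℝ) / ((i : ℝ) + 1) := by
    have h := log_add_one_le_harmonic T
    unfold harmonic at h
    push_cast at h
    simpa [one_div] using h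
  have h4 : Real.log H - Real.log (k.factorial : ℝ) ≤ Real.log ((T : ℝ) + 1) := by
    have h5 : H ≤ k.factorial * (T + 1) := by
      have h6 := Nat.lt_mul_div_succ (H - 1) (b := k.factorial) hq1
      rw [← hT] at h6
      omega
    have h6 : (H : ℝ) ≤ (k.factorial : ℝ) * ((T : ℝ) + 1) := by exact_mod_cast h5
    have h7 : (0 : ℝ) < (H : ℝ) := by exact_mod_cast hH
    have h8 := Real.log_le_log h7 h6
    rw [Real.log_mul hqR.ne' (by positivity)] at h8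
    linarith
  calc (Real.log H - Real.log (k.factorial : ℝ)) / (2 * (k.factorial : ℝ))
      = 1 / (2 * (k.factorial : ℝ)) * (Real.log H - Real.log (k.factorial : ℝ)) := by ring
    _ ≤ 1 / (2 * (k.factorial : ℝ)) * ∑ i ∈ range T, (1 : ℝ) / ((i : ℝ) + 1) := by
        refine mul_le_mul_of_nonneg_left (h4.trans h3) (by positivity)
    _ ≤ _ := h2.trans h1

/-- `K0` is linear in `s` for `H = 2 ^ s`. -/
theorem K0_upper (k a : ℕ) (ha : 1 ≤ a) : ∃ C : ℕ, ∀ s : ℕ,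
    K0 (16 * a * (k * 2 ^ s + 1) ^ 2) (16 * a * CpN (k * 2 ^ s + 1)) ≤ C * (s + 1) := by
  obtain ⟨A, hA⟩ : ∃ A : ℕ, 16 * a * (10 ^ 6 * (k + 2) ^ 2) < 2 ^ A :=
    ⟨_, Nat.lt_two_pow_self⟩
  refine ⟨16 * (A + 2) + 80, fun s => ?_⟩
  have hs : 1 ≤ 2 ^ s := Nat.one_le_two_pow
  have e0 : (2 : ℕ) ^ (A + 2 * s) = 2 ^ A * (2 ^ s) ^ 2 := by
    rw [pow_add, pow_mul']
  have e1 : 16 * a * CpN (k * 2 ^ s + 1) < 2 ^ (A + 2 * s) := by
    have h1 : k * 2 ^ s + 1 + 1 ≤ (k + 2) * 2 ^ s := by nlinarith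
    have h2 : (k * 2 ^ s + 1 + 1) ^ 2 ≤ ((k + 2) * 2 ^ s) ^ 2 := Nat.pow_le_pow_left h1 2
    unfold CpN
    calc 16 * a * (10 ^ 6 * (k * 2 ^ s + 1 + 1) ^ 2)
        ≤ 16 * a * (10 ^ 6 * ((k + 2) * 2 ^ s) ^ 2) :=
          Nat.mul_le_mul_left _ (Nat.mul_le_mul_left _ h2)
      _ = 16 * a * (10 ^ 6 * (k + 2) ^ 2) * (2 ^ s) ^ 2 := by ring
      _ < 2 ^ A * (2 ^ s) ^ 2 := Nat.mul_lt_mul_of_pos_right hA (by positivity)
      _ = _ := e0.symm
  have e2 : 16 * a * (k * 2 ^ s + 1) ^ 2 < 2 ^ (A + 2 * s) := by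
    refine lt_of_le_of_lt ?_ e1
    unfold CpN
    refine Nat.mul_le_mul_left _ ?_
    nlinarith [Nat.pow_le_pow_left (Nat.le_succ (k * 2 ^ s + 1)) 2,
      sq_nonneg (k * 2 ^ s + 1)]
  have hA0 : A + 2 * s ≠ 0 := by
    intro h
    have h0 : A = 0 := by omega
    rw [h0, pow_zero] at hA
    have h1 : 0 < 16 * a * (10 ^ 6 * (k + 2) ^ 2) := by positivity
    omega
  have l1 : Nat.log 2 (16 * a * CpN (k * 2 ^ s + 1)) < A + 2 * s :=
    Nat.log_lt_of_lt_pow' hA0 e1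
  have l2 : Nat.log 2 (16 * a * (k * 2 ^ s + 1) ^ 2) < A + 2 * s :=
    Nat.log_lt_of_lt_pow' hA0 e2
  have l3 : Nat.log 2 (Nat.log 2 (16 * a * (k * 2 ^ s + 1) ^ 2) + 1) ≤ A + 2 * s :=
    (Nat.log_le_self _ _).trans (by omega)
  unfold K0
  nlinarith

theorem params (k : ℕ) (hk : 1 ≤ k) (ε₁ : ℝ) (hε : 0 < ε₁) (a : ℕ) (ha : 1 ≤ a) :
    ∃ H : ℕ, 1 ≤ H ∧ 1 ≤ LL k H ∧
      4 * Real.exp (((k * H : ℕ) + 1 : ℝ) *
        (1 + Real.log (((4 * a * K0 (16 * a * (k * H + 1) ^ 2) (16 * a * CpN (k * H + 1)) : ℕ) : ℝ)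
          + 1))) * Real.exp (-(ε₁ ^ 2 * H * LL k H / 4)) ≤ 1 / (4 * a) := by
  obtain ⟨C, hC⟩ := K0_upper k a ha
  have hq1 : 1 ≤ k.factorial := Nat.factorial_pos k
  have hqR : (0 : ℝ) < (k.factorial : ℝ) := by exact_mod_cast hq1
  have haR : (1 : ℝ) ≤ (a : ℝ) := by exact_mod_cast ha
  have hkR : (1 : ℝ) ≤ (k : ℝ) := by exact_mod_cast hk
  have hCR : (0 : ℝ) ≤ (C : ℝ) := Nat.cast_nonneg _
  obtain ⟨α, hα⟩ : ∃ α, α = ε₁ ^ 2 * Real.log 2 / (8 * (k.factorial : ℝ)) := ⟨_, rfl⟩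
  have hα0 : 0 < α := by
    rw [hα]
    have := Real.log_pos (one_lt_two : (1 : ℝ) < 2)
    positivity
  obtain ⟨B, hB⟩ : ∃ B : ℝ, B = ((k : ℝ) + 1) * (1 + Real.log (4 * a * C + 1)) +
      Real.log (16 * a) + ε₁ ^ 2 * Real.log (k.factorial : ℝ) / (8 * (k.factorial : ℝ)) := ⟨_, rfl⟩
  -- choice of `s`
  have ev1 : ∀ᶠ x : ℝ in Filter.atTop, Real.log x ≤ α / (2 * ((k : ℝ) + 1)) * x := by
    have h := Real.isLittleO_log_id_atTop.def (c := α / (2 * ((k : ℝ) + 1))) (by positivity)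
    filter_upwards [h, Filter.eventually_ge_atTop (0 : ℝ)] with x hx hx0
    rw [id, Real.norm_of_nonneg hx0] at hx
    exact (le_abs_self _).trans hx
  have ev2 : ∀ᶠ s : ℕ in Filter.atTop,
      Real.log ((s : ℝ) + 1) ≤ α / (2 * ((k : ℝ) + 1)) * ((s : ℝ) + 1) := by
    have h : Filter.Tendsto (fun s : ℕ => (s : ℝ) + 1) Filter.atTop Filter.atTop :=
      Filter.tendsto_atTop_add_const_right _ _ tendsto_natCast_atTop_atTop
    exact h.eventually ev1
  have ev3 : ∀ᶠ s : ℕ in Filter.atTop, (α / 2 + B) / (α / 2) ≤ (s : ℝ) :=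
    tendsto_natCast_atTop_atTop.eventually_ge_atTop _
  have ev4 : ∀ᶠ s : ℕ in Filter.atTop,
      (2 * (k.factorial : ℝ) + Real.log (k.factorial : ℝ)) / Real.log 2 ≤ (s : ℝ) :=
    tendsto_natCast_atTop_atTop.eventually_ge_atTop _
  obtain ⟨s, h2, h3, h4⟩ := (ev2.and (ev3.and ev4)).exists
  have hl2 : 0 < Real.log 2 := Real.log_pos one_lt_two
  rw [div_le_iff₀ (by positivity)] at h3 h4
  have hH1 : 1 ≤ 2 ^ s := Nat.one_le_two_pow
  have hHR : (1 : ℝ) ≤ ((2 ^ s : ℕ) : ℝ) := by exact_mod_cast hH1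
  have hLL := LL_lower k (2 ^ s) hH1
  have hlog : Real.log ((2 ^ s : ℕ) : ℝ) = s * Real.log 2 := by
    push_cast
    rw [Real.log_pow]
  rw [hlog] at hLL
  refine ⟨2 ^ s, hH1, ?_, ?_⟩
  · refine le_trans ?_ hLL
    rw [le_div_iff₀ (by positivity)]
    linarith
  · -- the logarithm of the left side
    have hK := hC s
    obtain ⟨K, hKdef⟩ : ∃ K, K = K0 (16 * a * (k * 2 ^ s + 1) ^ 2)
        (16 * a * CpN (k * 2 ^ s + 1)) := ⟨_, rfl⟩
    rw [← hKdef] at hK ⊢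
    have hKR : (K : ℝ) ≤ (C : ℝ) * ((s : ℝ) + 1) := by exact_mod_cast hK
    have hs0 : (0 : ℝ) ≤ (s : ℝ) := Nat.cast_nonneg _
    have g1 : Real.log (((4 * a * K : ℕ) : ℝ) + 1) ≤
        Real.log (4 * a * C + 1) + Real.log ((s : ℝ) + 1) := by
      rw [← Real.log_mul (by positivity) (by positivity)]
      refine Real.log_le_log (by positivity) ?_
      push_cast
      have : 4 * (a : ℝ) * K ≤ 4 * a * (C * ((s : ℝ) + 1)) :=
        mul_le_mul_of_nonneg_left hKR (by positivity)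
      nlinarith
    have g0 : 0 ≤ Real.log (((4 * a * K : ℕ) : ℝ) + 1) :=
      Real.log_nonneg (by
        have : (0 : ℝ) ≤ ((4 * a * K : ℕ) : ℝ) := Nat.cast_nonneg _
        linarith)
    have g2 : ((k : ℝ) + 1) * (1 + Real.log (((4 * a * K : ℕ) : ℝ) + 1)) + Real.log (16 * a) ≤
        ε₁ ^ 2 * LL k (2 ^ s) / 4 := by
      have g3 : ((k : ℝ) + 1) * (1 + Real.log (((4 * a * K : ℕ) : ℝ) + 1)) ≤
          ((k : ℝ) + 1) * (1 + Real.log (4 * a * C + 1)) +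
            ((k : ℝ) + 1) * Real.log ((s : ℝ) + 1) := by
        have := mul_le_mul_of_nonneg_left g1 (by positivity : (0 : ℝ) ≤ (k : ℝ) + 1)
        linarith
      have g4 : ((k : ℝ) + 1) * Real.log ((s : ℝ) + 1) ≤ α / 2 * ((s : ℝ) + 1) := by
        have := mul_le_mul_of_nonneg_left h2 (by positivity : (0 : ℝ) ≤ (k : ℝ) + 1)
        calc _ ≤ _ := this
          _ = _ := by field_simp
      have g5 : ε₁ ^ 2 * ((s * Real.log 2 - Real.log (k.factorial : ℝ)) /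
          (2 * (k.factorial : ℝ))) / 4 ≤ ε₁ ^ 2 * LL k (2 ^ s) / 4 := by
        have := mul_le_mul_of_nonneg_left hLL (sq_nonneg ε₁)
        linarith
      have g6 : ε₁ ^ 2 * ((s * Real.log 2 - Real.log (k.factorial : ℝ)) /
          (2 * (k.factorial : ℝ))) / 4 =
          α * s - ε₁ ^ 2 * Real.log (k.factorial : ℝ) / (8 * (k.factorial : ℝ)) := by
        rw [hα]
        field_simp
        ring
      rw [hB] at h3
      linarith
    have g7 : ((k * 2 ^ s : ℕ) + 1 : ℝ) * (1 + Real.log (((4 * a * K : ℕ) : ℝ) + 1)) +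
        Real.log (16 * a) ≤ ε₁ ^ 2 * ((2 ^ s : ℕ) : ℝ) * LL k (2 ^ s) / 4 := by
      have g8 : ((k * 2 ^ s : ℕ) + 1 : ℝ) ≤ ((2 ^ s : ℕ) : ℝ) * ((k : ℝ) + 1) := by
        push_cast at hHR ⊢
        nlinarith
      have g9 : 0 ≤ Real.log (16 * (a : ℝ)) := Real.log_nonneg (by linarith)
      have g10 := mul_le_mul_of_nonneg_right g8
        (by linarith : (0 : ℝ) ≤ 1 + Real.log (((4 * a * K : ℕ) : ℝ) + 1))
      have g11 := mul_le_mul_of_nonneg_left g2 (by linarith : (0 : ℝ) ≤ ((2 ^ s : ℕ) : ℝ))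
      have g12 : Real.log (16 * (a : ℝ)) ≤ ((2 ^ s : ℕ) : ℝ) * Real.log (16 * (a : ℝ)) := by
        nlinarith
      calc _ ≤ ((2 ^ s : ℕ) : ℝ) * ((k : ℝ) + 1) *
              (1 + Real.log (((4 * a * K : ℕ) : ℝ) + 1)) +
              ((2 ^ s : ℕ) : ℝ) * Real.log (16 * (a : ℝ)) := add_le_add g10 g12
        _ = ((2 ^ s : ℕ) : ℝ) * (((k : ℝ) + 1) *
              (1 + Real.log (((4 * a * K : ℕ) : ℝ) + 1)) + Real.log (16 * a)) := by ring
        _ ≤ _ := g11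
        _ = _ := by ring
    rw [mul_assoc, ← Real.exp_add]
    have g13 : ((k * 2 ^ s : ℕ) + 1 : ℝ) * (1 + Real.log (((4 * a * K : ℕ) : ℝ) + 1)) +
        -(ε₁ ^ 2 * ((2 ^ s : ℕ) : ℝ) * LL k (2 ^ s) / 4) ≤ -Real.log (16 * a) := by linarith
    have g14 := Real.exp_le_exp.2 g13
    rw [Real.exp_neg, Real.exp_log (by positivity)] at g14
    calc _ ≤ 4 * (16 * (a : ℝ))⁻¹ := mul_le_mul_of_nonneg_left g14 (by norm_num)
      _ = 1 / (4 * a) := by
        field_simp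
        norm_num

end Helper11.QR
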