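import Mathlib
import Pool.Agent.Helper11.QR.KubP

set_option autoImplicit false

/-! QR-03: the vector of counts in a residue class, compared with independent counts.

`kubRes`: apply `kubP` with `Y = Option (Fin (n + 1))` (`card = n + 2`), `t = n + 1`,
`φ q m = kap (n + 1) 0 q (Q * m + a)`, `y₀ = none`. `hper`: `kap_congr` (or `kap_per`) since
`Q * m + a ≡ Q * (m % q) + a (mod q)`. The densities: `rho_affine` (with `u = Q`, `v = a`,
`¬ q ∣ Q`) gives `rho φ q y = rho (kap (n+1) 0) q y`, so the two `Enu` agree; the number of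
residues with `φ ≠ none` is the same as for `kap` (`card_affine`) and `≤ n + 1` (`kap_card_bad`).

`model`: by `vec_kap` (case `i ≠ 0`; for `i = 0` both sides are `0`, since `kap` never takes the
value `some 0`) one has `svec n P m = vec (n + 1) P (fun q => kap (n + 1) 0 q m)`; then `kubRes`
with `H y = G (vec (n + 1) P y)` and `decouple` (Helper13/Om/Indep.lean, `k = n + 1`, `i₀ = 0`). -/

namespace Helper11.QR

open Finset Helper13.Om

theorem kubRes (n : ℕ) (P : Finset ℕ) (hP : ∀ q ∈ P, q.Prime ∧ n + 2 ≤ q) (Q a : ℕ)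
    (hQ : ∀ q ∈ P, ¬ q ∣ Q) (E : ℕ) (hE1 : 1 ≤ E) (hE : ∀ q ∈ P, Nat.log 2 q ≤ E) (M : ℕ)
    (hM : 2 ≤ M) (H : (P → Option (Fin (n + 1))) → ℝ) (hH : ∀ y, |H y| ≤ 1) :
    |(∑ m ∈ Finset.Icc 1 M, H (fun q : P => kap (n + 1) 0 q (Q * m + a))) / M -
      Enu P (kap (n + 1) 0) H| ≤ (CpN (n + 1) : ℝ) * E / Nat.log 2 M := by
  classical
  have h := kubP (n + 1) (Option (Fin (n + 1))) P (fun q hq => (hP q hq).1)
    (fun q m => kap (n + 1) 0 q (Q * m + a)) none (fun q hq => by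
      have := (hP q hq).2
      omega) (fun q hq => by
      rw [Fintype.card_option, Fintype.card_fin]
      exact (hP q hq).2) (fun q _ m => by
      refine kap_congr _ _ _ _ _ ?_
      rw [Nat.add_mod, Nat.mul_mod, Nat.add_mod (Q * (m % q)), Nat.mul_mod Q (m % q),
        Nat.mod_mod]) (fun q hq => by
      have h1 : (Finset.range q).filter (fun r => kap (n + 1) 0 q (Q * r + a) ≠ none) =
          (Finset.range q).filter
            (fun r => (fun x => kap (n + 1) 0 q x ≠ none) ((Q * r + a) % q)) := by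
        refine Finset.filter_congr fun r _ => ?_
        beta_reduce
        rw [← kap_per]
      rw [h1, card_affine q Q a (hP q hq).1 (hQ q hq) (fun x => kap (n + 1) 0 q x ≠ none)]
      exact kap_card_bad (n + 1) 0 q (hP q hq).1 (by
        have := (hP q hq).2
        omega)) E hE1 hE M hM H hH
  have e : Enu P (fun q m => kap (n + 1) 0 q (Q * m + a)) H = Enu P (kap (n + 1) 0) H := by
    unfold Enu
    refine Finset.sum_congr rfl fun y _ => ?_
    congr 1
    refine Finset.prod_congr rfl fun q _ => ?_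
    exact rho_affine (kap (n + 1) 0) q Q a (hP q q.2).1 (hQ q q.2) (kap_per (n + 1) 0 q) (y q)
  rw [e] at h
  exact h

private lemma svec_eq (n : ℕ) (P : Finset ℕ) (hP : ∀ q ∈ P, n + 1 ≤ q) (m : ℕ) :
    svec n P m = vec (n + 1) P (fun q => kap (n + 1) 0 q m) := by
  classical
  funext v
  by_cases hv : v = 0
  · have h1 : svec n P m v = 0 := by
      unfold svec
      rw [if_pos hv]
    rw [h1, hv]
    unfold vec cnt
    symm
    rw [Finset.card_eq_zero, Finset.filter_eq_empty_iff]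
    intro q _ hq
    exact ((kap_some (n + 1) 0 q m (hP q q.2) 0).mp hq).1 rfl
  · have h1 : svec n P m v = (P.filter (fun q => q ∣ m + v)).card := by
      unfold svec
      rw [if_neg hv]
    rw [h1]
    have h2 := vec_kap (n + 1) 0 P hP m v hv
    exact h2.symm

theorem model (n : ℕ) (P : Finset ℕ) (hP : ∀ q ∈ P, q.Prime ∧ n + 2 ≤ q) (Q a : ℕ)
    (hQ : ∀ q ∈ P, ¬ q ∣ Q) (E : ℕ) (hE1 : 1 ≤ E) (hE : ∀ q ∈ P, Nat.log 2 q ≤ E) (M L : ℕ)
    (hM : 2 ≤ M) (hL : P.card ≤ L + 1) (G : (Fin (n + 1) → ℕ) → ℝ) (hG : ∀ s, |G s| ≤ 1) :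
    |(∑ m ∈ Finset.Icc 1 M, G (svec n P (Q * m + a))) / M -
      EE (tauL (n + 1) 0 P L) (fun ℓ => G (fun i => (ℓ i : ℕ)))| ≤
      (CpN (n + 1) : ℝ) * E / Nat.log 2 M +
        2 * ((n + 1 : ℕ) : ℝ) ^ 2 * ∑ q ∈ P, (1 : ℝ) / (q : ℝ) ^ 2 := by
  classical
  have hP1 : ∀ q ∈ P, n + 1 ≤ q := fun q hq => by
    have := (hP q hq).2
    omega
  have h1 := kubRes n P hP Q a hQ E hE1 hE M hM (fun y => G (vec (n + 1) P y)) (fun y => hG _)
  have h2 := decouple (n + 1) 0 P (fun q hq => ⟨(hP q hq).1, hP1 q hq⟩) L hL G hG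
  have h3 : ∑ m ∈ Finset.Icc 1 M, G (svec n P (Q * m + a)) =
      ∑ m ∈ Finset.Icc 1 M, G (vec (n + 1) P (fun q : P => kap (n + 1) 0 q (Q * m + a))) :=
    Finset.sum_congr rfl fun m _ => by rw [svec_eq n P hP1]
  rw [h3]
  have h4 := abs_sub_le ((∑ m ∈ Finset.Icc 1 M,
    G (vec (n + 1) P (fun q : P => kap (n + 1) 0 q (Q * m + a)))) / (M : ℝ))
    (Enu P (kap (n + 1) 0) (fun y => G (vec (n + 1) P y)))
    (EE (tauL (n + 1) 0 P L) (fun ℓ => G (fun i => (ℓ i : ℕ))))
  exact h4.trans (add_le_add h1 h2)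

end Helper11.QR
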