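import Mathlib
import Pool.Agent.Helper11.QR.Model

set_option autoImplicit false

/-! QR-04: sum over all residue classes modulo `Q`.

Proof: split `∑_{m ∈ Icc 1 N}` according to `a = m % Q`. The `m < Q` contribute at most `Q`. For
`m ≥ Q` write `m = Q m' + a`, `1 ≤ m' ≤ M_a := (N - a) / Q`; by `model` (with `0 ≤ G ≤ 1`) the
class contributes at most `M_a * (θ + CpN (n+1) * E / Nat.log 2 M_a + 2 (n+1)^2 ∑ 1/q^2)`.
`∑_a M_a ≤ N`. Since `8 Q^2 ≤ N`, `M_a ≥ N / (2 Q)`, so `M_a ^ 2 ≥ N ^ 2 / (4 Q ^ 2) ≥ 2 N`, hence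
`Nat.log 2 N ≤ 2 * Nat.log 2 M_a` and the middle term is at most `2 CpN (n+1) E / Nat.log 2 N`. -/

namespace Helper11.QR

open Finset Helper13.Om

private lemma rs_log {N M : ℕ} (h : 2 * N ≤ M ^ 2) : Nat.log 2 N ≤ 2 * Nat.log 2 M := by
  have h1 : M < 2 ^ (Nat.log 2 M + 1) := Nat.lt_pow_succ_log_self (by norm_num) M
  have h2 : M ^ 2 < (2 ^ (Nat.log 2 M + 1)) ^ 2 := Nat.pow_lt_pow_left h1 (by norm_num)
  have h3 : (2 ^ (Nat.log 2 M + 1)) ^ 2 = 2 * 2 ^ (2 * Nat.log 2 M + 1) := by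
    rw [← pow_mul, ← pow_succ']
    congr 1
    ring
  have h4 : N < 2 ^ (2 * Nat.log 2 M + 1) := by
    rw [h3] at h2
    omega
  have h5 := Nat.log_lt_of_lt_pow' (b := 2) (x := 2 * Nat.log 2 M + 1) (y := N) (by omega) h4
  omega

private lemma rs_M {N Q a : ℕ} (hQ : 1 ≤ Q) (hN : 8 * Q ^ 2 ≤ N) (ha : a < Q) :
    2 ≤ (N - a) / Q ∧ 2 * N ≤ ((N - a) / Q) ^ 2 := by
  obtain ⟨M, hM⟩ : ∃ M, M = (N - a) / Q := ⟨_, rfl⟩
  rw [← hM]
  have h1 : N - a < Q * (M + 1) := by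
    rw [hM]
    have := Nat.lt_mul_div_succ (N - a) (b := Q) (by omega)
    exact this
  have h2 : Q ≤ Q ^ 2 := Nat.le_self_pow (by norm_num) Q
  have h3 : N ≤ 2 * (Q * M) := by
    rw [mul_add, mul_one] at h1
    omega
  have h4 : 2 * N ≤ M ^ 2 := by
    have h5 : N * N ≤ (2 * (Q * M)) * (2 * (Q * M)) := Nat.mul_le_mul h3 h3
    have h6 : (8 * Q ^ 2) * N ≤ N * N := Nat.mul_le_mul_right _ hN
    have h7 : (4 * Q ^ 2) * (2 * N) ≤ (4 * Q ^ 2) * M ^ 2 := by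
      calc (4 * Q ^ 2) * (2 * N) = (8 * Q ^ 2) * N := by ring
        _ ≤ N * N := h6
        _ ≤ (2 * (Q * M)) * (2 * (Q * M)) := h5
        _ = (4 * Q ^ 2) * M ^ 2 := by ring
    exact Nat.le_of_mul_le_mul_left h7 (by positivity)
  refine ⟨?_, h4⟩
  by_contra hcon
  have h5 : M ≤ 1 := by omega
  have h6 : M ^ 2 ≤ 1 := by
    calc M ^ 2 ≤ 1 ^ 2 := Nat.pow_le_pow_left h5 2
      _ = 1 := one_pow 2
  have h7 : 1 ≤ Q ^ 2 := Nat.one_le_pow _ _ (by omega)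
  omega

private lemma rs_union {S T U : Finset ℕ} {f : ℕ → ℝ} (hf : ∀ m, 0 ≤ f m) (h : S ⊆ T ∪ U) :
    ∑ m ∈ S, f m ≤ ∑ m ∈ T, f m + ∑ m ∈ U, f m := by
  have h1 : ∑ m ∈ S, f m ≤ ∑ m ∈ T ∪ U, f m :=
    Finset.sum_le_sum_of_subset_of_nonneg h fun m _ _ => hf m
  have h2 : 0 ≤ ∑ m ∈ T ∩ U, f m := Finset.sum_nonneg fun m _ => hf m
  have h3 := Finset.sum_union_inter (s₁ := T) (s₂ := U) (f := f)
  linarith

theorem residueSum (n Q : ℕ) (hQ : 1 ≤ Q) (P : Finset ℕ) (hP : ∀ q ∈ P, q.Prime ∧ n + 2 ≤ q)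
    (hPQ : ∀ q ∈ P, ¬ q ∣ Q) (E : ℕ) (hE1 : 1 ≤ E) (hE : ∀ q ∈ P, Nat.log 2 q ≤ E) (L : ℕ)
    (hL : P.card ≤ L + 1) (N : ℕ) (hN : 8 * Q ^ 2 ≤ N)
    (G : ℕ → (Fin (n + 1) → ℕ) → ℝ) (hG0 : ∀ a s, 0 ≤ G a s) (hG1 : ∀ a s, G a s ≤ 1) (θ : ℝ)
    (hθ : ∀ a < Q, EE (tauL (n + 1) 0 P L) (fun ℓ => G a (fun i => (ℓ i : ℕ))) ≤ θ) :
    ∑ m ∈ Finset.Icc 1 N, G (m % Q) (svec n P m) ≤
      N * (θ + 2 * (CpN (n + 1) : ℝ) * E / Nat.log 2 N +
        2 * ((n + 1 : ℕ) : ℝ) ^ 2 * ∑ q ∈ P, (1 : ℝ) / (q : ℝ) ^ 2) + Q := by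
  obtain ⟨X, hX⟩ : ∃ X : ℝ, X = 2 * (CpN (n + 1) : ℝ) * E / Nat.log 2 N +
        2 * ((n + 1 : ℕ) : ℝ) ^ 2 * ∑ q ∈ P, (1 : ℝ) / (q : ℝ) ^ 2 := ⟨_, rfl⟩
  rw [add_assoc, ← hX]
  -- the bound in every class
  have key : ∀ a < Q, |(∑ m ∈ Finset.Icc 1 ((N - a) / Q), G a (svec n P (Q * m + a))) /
      (((N - a) / Q : ℕ) : ℝ) - EE (tauL (n + 1) 0 P L) (fun ℓ => G a (fun i => (ℓ i : ℕ)))| ≤
      X := by
    intro a ha
    obtain ⟨h1, h2⟩ := rs_M hQ hN ha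
    have h3 := model n P hP Q a hPQ E hE1 hE ((N - a) / Q) L h1 hL (G a) fun s => by
      rw [abs_of_nonneg (hG0 a s)]
      exact hG1 a s
    refine h3.trans ?_
    rw [hX]
    have h4 := rs_log h2
    have hN2 : 2 ≤ N := by
      have : 1 ≤ Q ^ 2 := Nat.one_le_pow _ _ (by omega)
      omega
    have h5 : 0 < Nat.log 2 N := Nat.log_pos (by norm_num) hN2
    have h6 : (0 : ℝ) < (Nat.log 2 N : ℝ) := by exact_mod_cast h5
    have h7 : (Nat.log 2 N : ℝ) ≤ 2 * (Nat.log 2 ((N - a) / Q) : ℝ) := by exact_mod_cast h4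
    have h8 : (0 : ℝ) < (Nat.log 2 ((N - a) / Q) : ℝ) := by linarith
    have h9 : (CpN (n + 1) : ℝ) * E / (Nat.log 2 ((N - a) / Q) : ℝ) ≤
        2 * (CpN (n + 1) : ℝ) * E / (Nat.log 2 N : ℝ) := by
      rw [div_le_div_iff₀ h8 h6]
      have h10 : (0 : ℝ) ≤ (CpN (n + 1) : ℝ) * E := by positivity
      nlinarith
    linarith
  have hX0 : 0 ≤ θ + X := by
    have h1 := key 0 (by omega)
    have h2 := (abs_le.1 h1).2
    have h3 : 0 ≤ (∑ m ∈ Finset.Icc 1 ((N - 0) / Q), G 0 (svec n P (Q * m + 0))) /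
      (((N - 0) / Q : ℕ) : ℝ) := div_nonneg (Finset.sum_nonneg fun m _ => hG0 _ _) (by positivity)
    have h4 := hθ 0 (by omega)
    linarith
  have hcl : ∀ a < Q, ∑ m ∈ (Finset.Icc 1 N).filter (fun m => m % Q = a),
      G (m % Q) (svec n P m) ≤ 1 + (((N - a) / Q : ℕ) : ℝ) * (θ + X) := by
    intro a ha
    have h1 : (Finset.Icc 1 N).filter (fun m => m % Q = a) ⊆
        {a} ∪ (Finset.Icc 1 ((N - a) / Q)).image (fun m => Q * m + a) := by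
      intro m hm
      rw [Finset.mem_filter, Finset.mem_Icc] at hm
      obtain ⟨⟨hm1, hm2⟩, hm3⟩ := hm
      rw [Finset.mem_union, Finset.mem_singleton, Finset.mem_image]
      have h2 := Nat.div_add_mod m Q
      rw [hm3] at h2
      rcases Nat.eq_zero_or_pos (m / Q) with h3 | h3
      · left
        rw [h3] at h2
        omega
      · right
        refine ⟨m / Q, ?_, h2⟩
        rw [Finset.mem_Icc]
        refine ⟨h3, ?_⟩
        rw [Nat.le_div_iff_mul_le (by omega)]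
        rw [mul_comm]
        omega
    refine (rs_union (fun m => hG0 _ _) h1).trans ?_
    rw [Finset.sum_singleton, Finset.sum_image]
    · have h2 : ∀ m ∈ Finset.Icc 1 ((N - a) / Q), G ((Q * m + a) % Q) (svec n P (Q * m + a)) =
          G a (svec n P (Q * m + a)) := by
        intro m _
        rw [Nat.mul_add_mod, Nat.mod_eq_of_lt ha]
      rw [Finset.sum_congr rfl h2]
      have h3 := (abs_le.1 (key a ha)).2
      have h4 := hθ a ha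
      have hM := (rs_M hQ hN ha).1
      have hM0 : (0 : ℝ) < (((N - a) / Q : ℕ) : ℝ) := by exact_mod_cast (by omega)
      have h5 : (∑ m ∈ Finset.Icc 1 ((N - a) / Q), G a (svec n P (Q * m + a))) /
          (((N - a) / Q : ℕ) : ℝ) ≤ θ + X := by linarith
      rw [div_le_iff₀ hM0] at h5
      have h6 := hG1 (a % Q) (svec n P a)
      linarith
    · intro x _ y _ hxy
      have hxy' : Q * x + a = Q * y + a := hxy
      have h2 : Q * x = Q * y := by omega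
      exact Nat.eq_of_mul_eq_mul_left (by omega) h2
  have hsum : ∑ m ∈ Finset.Icc 1 N, G (m % Q) (svec n P m) =
      ∑ a ∈ Finset.range Q, ∑ m ∈ (Finset.Icc 1 N).filter (fun m => m % Q = a),
        G (m % Q) (svec n P m) := by
    rw [Finset.sum_fiberwise_of_maps_to]
    intro m _
    exact Finset.mem_range.2 (Nat.mod_lt _ (by omega))
  rw [hsum]
  have h1 : ∑ a ∈ Finset.range Q, ∑ m ∈ (Finset.Icc 1 N).filter (fun m => m % Q = a),
        G (m % Q) (svec n P m) ≤ ∑ _a ∈ Finset.range Q, (1 + ((N / Q : ℕ) : ℝ) * (θ + X)) := by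
    refine Finset.sum_le_sum fun a ha => ?_
    refine (hcl a (Finset.mem_range.1 ha)).trans ?_
    have h2 : (((N - a) / Q : ℕ) : ℝ) ≤ ((N / Q : ℕ) : ℝ) := by
      exact_mod_cast Nat.div_le_div_right (Nat.sub_le N a)
    have h3 := mul_le_mul_of_nonneg_right h2 hX0
    linarith
  refine h1.trans ?_
  rw [Finset.sum_const, Finset.card_range, nsmul_eq_mul]
  have h2 : (Q : ℝ) * ((N / Q : ℕ) : ℝ) ≤ N := by exact_mod_cast Nat.mul_div_le N Q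
  have h3 := mul_le_mul_of_nonneg_right h2 hX0
  linarith

end Helper11.QR
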