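import Mathlib
import Pool.Agent.Helper11.QR.ModelTail
import Pool.Agent.Helper11.QR.ResidueSum
import Pool.Agent.Helper11.QR.LawClose
import Pool.Agent.Helper11.QR.Params
import Pool.Agent.Helper11.QR.WMean

set_option autoImplicit false

/-! QR-21: the main probability estimate.

`windowBad` (for a fixed `N`): put `n = k H`, `P = PP h E`, `E = Nat.log 2 N / u`, `S = K n`. For
`m ∈ Icc 1 N` let `W(m) = ∑_{v=1}^{n} (Ω(m + v) - #{q ∈ P : q ∣ m + v})`. If `W(m) ≤ S` then the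
vector `w v = Ω(m + v) - svec n P m v` (`v ≠ 0`), `w 0 = 0` lies in `WW n S`, and
`Ω(m + e.1 + i e.2) = svec n P m (vert k H e i) + w (vert k H e i)` for every edge (`vert_val`,
`vert_ne_zero`, `card_dvd_le`), so `ZZ k N H c F s m` is the sum in `modelTail` (with
`edges k H c m = edges k H c (m % Q)`, `Q = k H!`, `edges_periodic`) at `y = svec n P m`.
Hence `#{m : T ≤ |ZZ m|} ≤ #{m : S < W(m)} + ∑_m G (m % Q) (svec n P m)` with
`G a s = if ∃ w ∈ WW n S, T ≤ |∑_{e ∈ edges k H c a} rr k N F s' e.2 (s (vert e i) + w (vert e i))|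
then 1 else 0`. The first term is at most `n K₀ N / (S)` (Markov and `wMean` summed over `v`);
the second is estimated by `residueSum`.

`mp`: parameters `n = k H`, `h = 16 a (n + 1) ^ 2`, `u = 16 a CpN (n + 1)`, `K = 4 a K0 h u`,
`S = K n`, `B = max H S` (or `H + S`), `T = ε₁ H LL`, `x = ε₁ / 2` (if `ε₁ > 1` the claim for `1`
implies it, or treat `ε₁ ≤ 1` first: for `ε₁ > 1` take the `H` of ... simply: WLOG `ε₁ ≤ 1`).
Terms: Markov `n K0 N / (4 a K0 n) = N / (4 a)`; `residueSum`: `2 CpN (n+1) E / log2 N ≤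
2 CpN (n+1) / u = 1 / (8 a)`; `2 (n+1)^2 ∑ 1/q^2 ≤ 2 (n+1)^2 / h = 1 / (8 a)` (`sum_inv_sq_le`);
`Q / N` small for `N` large; `θ` from `modelTail`: with `M₁ = |edges| ≤ H (LL + 1) ≤ 2 H LL`,
`(WW n S).card ≤ exp ((n + 1) (1 + log (K + 1)))` (`wCount`),
`2 exp (-x T) (exp (x² M₁ / 2) + M₁ (δ + k τ) exp (x M₁)) ≤ 4 exp (-ε₁² H LL / 4)` provided
`x² M₁ / 2 ≤ ε₁² H LL / 4`, `x T = ε₁² H LL / 2` and `M₁ (δ + k τ) exp (x M₁) ≤ 1`: choose `δ` with
`2 M₁' δ exp (x M₁') ≤ 1`, `M₁' = 2 H LL`, and `τ = δ / k`. Then `params` gives `θ ≤ 1 / (4 a)`.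
`lawClose` (with `B`, `τ`, `H`, `h`, `u`) provides the hypothesis `hτ` for `N` large. For
`q ∈ PP h E`: `q > h ≥ n + 2`, `q` does not divide `Q = k H!` since `q > k`, `q > H`. Sum:
`1/(4a) + 1/(4a) + 1/(8a) + 1/(8a) + Q/N ≤ 1/a`. -/

namespace Helper11.QR

open Finset Helper13.Om

theorem windowBad (k N H c h u K : ℕ) (hk : 1 ≤ k) (hH : 1 ≤ H) (hK : 1 ≤ K)
    (F : ℕ → (Fin k → ℕ) → ℝ) (s : ℕ → ℝ) (T : ℝ) (κ : ℝ)
    (hW : ∀ v ≤ k * H, ∑ m ∈ Finset.Icc 1 N, ((ArithmeticFunction.cardFactors (m + v) : ℝ) -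
        (((PP h (Nat.log 2 N / u)).filter (fun q => q ∣ m + v)).card : ℝ)) ≤ κ * N) :
    (((Finset.Icc 1 N).filter (fun m => T ≤ |ZZ k N H c F s m|)).card : ℝ) ≤
      κ / K * N + ∑ m ∈ Finset.Icc 1 N,
        (if ∃ w ∈ WW (k * H) (K * (k * H)),
          T ≤ |∑ e ∈ edges k H c (m % (k * H.factorial)), rr k N F s e.2
            (fun i => svec (k * H) (PP h (Nat.log 2 N / u)) m (vert k H e i) +
              w (vert k H e i))| then (1 : ℝ) else 0) := by
  classical
  have hn1 : 1 ≤ k * H := Nat.mul_pos (by omega) (by omega)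
  have hn1R : (1 : ℝ) ≤ ((k * H : ℕ) : ℝ) := by exact_mod_cast hn1
  have hKR : (1 : ℝ) ≤ (K : ℝ) := by exact_mod_cast hK
  set P := PP h (Nat.log 2 N / u) with hPdef
  have hP : ∀ q ∈ P, q.Prime := fun q hq => ((mem_PP _ _ _).mp hq).2.1
  set W : ℕ → ℝ := fun m => ∑ v ∈ Finset.Icc 1 (k * H),
    ((ArithmeticFunction.cardFactors (m + v) : ℝ) -
      ((P.filter (fun q => q ∣ m + v)).card : ℝ)) with hWdef
  have hW0 : ∀ m, 0 ≤ W m := by
    intro m
    apply Finset.sum_nonneg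
    intro v hv
    rw [Finset.mem_Icc] at hv
    have := card_dvd_le P hP (m + v) (by omega)
    have h2 : (((P.filter (fun q => q ∣ m + v)).card : ℕ) : ℝ) ≤
        (ArithmeticFunction.cardFactors (m + v) : ℝ) := by exact_mod_cast this
    linarith
  have hWsum : ∑ m ∈ Finset.Icc 1 N, W m ≤ (k * H : ℕ) * (κ * N) := by
    simp only [hWdef]
    rw [Finset.sum_comm]
    have h1 : ∀ v ∈ Finset.Icc 1 (k * H), ∑ m ∈ Finset.Icc 1 N,
        ((ArithmeticFunction.cardFactors (m + v) : ℝ) -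
          ((P.filter (fun q => q ∣ m + v)).card : ℝ)) ≤ κ * N := by
      intro v hv
      rw [Finset.mem_Icc] at hv
      exact hW v hv.2
    refine (Finset.sum_le_card_nsmul _ _ _ h1).trans (le_of_eq ?_)
    rw [Nat.card_Icc, Nat.add_sub_cancel, nsmul_eq_mul]
  have hmarkov : (((Finset.Icc 1 N).filter
      (fun m => ((K * (k * H) : ℕ) : ℝ) < W m)).card : ℝ) ≤ κ / K * N := by
    have h1 : (((Finset.Icc 1 N).filter
        (fun m => ((K * (k * H) : ℕ) : ℝ) < W m)).card : ℝ) * ((K * (k * H) : ℕ) : ℝ) ≤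
        ∑ m ∈ Finset.Icc 1 N, W m := by
      rw [← nsmul_eq_mul]
      refine (Finset.card_nsmul_le_sum _ _ _ (fun m hm =>
        (Finset.mem_filter.mp hm).2.le)).trans ?_
      exact Finset.sum_le_sum_of_subset_of_nonneg (Finset.filter_subset _ _)
        (fun m _ _ => hW0 m)
    have h2 := h1.trans hWsum
    have h3 : (0 : ℝ) < ((K * (k * H) : ℕ) : ℝ) := by
      have : 0 < K * (k * H) := Nat.mul_pos (by omega) (by omega)
      exact_mod_cast this
    rw [← le_div_iff₀ h3] at h2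
    refine h2.trans (le_of_eq ?_)
    push_cast
    have hk0 : (k : ℝ) ≠ 0 := by
      have : 0 < k := by omega
      positivity
    have hH0 : (H : ℝ) ≠ 0 := by
      have : 0 < H := by omega
      positivity
    field_simp
  have hpt : ∀ m ∈ Finset.Icc 1 N, (if T ≤ |ZZ k N H c F s m| then (1 : ℝ) else 0) ≤
      (if ((K * (k * H) : ℕ) : ℝ) < W m then (1 : ℝ) else 0) +
        (if ∃ w ∈ WW (k * H) (K * (k * H)),
          T ≤ |∑ e ∈ edges k H c (m % (k * H.factorial)), rr k N F s e.2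
            (fun i => svec (k * H) P m (vert k H e i) +
              w (vert k H e i))| then (1 : ℝ) else 0) := by
    intro m hm
    by_cases hT : T ≤ |ZZ k N H c F s m|
    · rw [if_pos hT]
      by_cases hWm : ((K * (k * H) : ℕ) : ℝ) < W m
      · rw [if_pos hWm]
        have : (0 : ℝ) ≤ (if ∃ w ∈ WW (k * H) (K * (k * H)),
          T ≤ |∑ e ∈ edges k H c (m % (k * H.factorial)), rr k N F s e.2
            (fun i => svec (k * H) P m (vert k H e i) +
              w (vert k H e i))| then (1 : ℝ) else 0) := by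
          split_ifs <;> norm_num
        linarith
      · rw [if_neg hWm, if_pos, zero_add]
        set w : Fin (k * H + 1) → ℕ := fun v =>
          if v = 0 then 0 else ArithmeticFunction.cardFactors (m + v) -
            (P.filter (fun q => q ∣ m + v)).card with hw
        refine ⟨w, ?_, ?_⟩
        · rw [mem_WW]
          have h1 : ((∑ v, w v : ℕ) : ℝ) = W m := by
            rw [Fin.sum_univ_succ]
            have h0 : w 0 = 0 := by simp [hw]
            rw [h0, zero_add]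
            have h2 : ∀ i : Fin (k * H), ((w i.succ : ℕ) : ℝ) =
                (fun j : ℕ => (ArithmeticFunction.cardFactors (m + (j + 1)) : ℝ) -
                  ((P.filter (fun q => q ∣ m + (j + 1))).card : ℝ)) (i : ℕ) := by
              intro i
              have h3 : w i.succ = ArithmeticFunction.cardFactors (m + ((i : ℕ) + 1)) -
                  (P.filter (fun q => q ∣ m + ((i : ℕ) + 1))).card := by
                simp only [hw]
                rw [if_neg (Fin.succ_ne_zero i)]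
                rfl
              rw [h3, Nat.cast_sub (card_dvd_le P hP _ (by omega))]
            push_cast
            rw [Finset.sum_congr rfl fun i _ => h2 i,
              Fin.sum_univ_eq_sum_range (fun j : ℕ =>
                (ArithmeticFunction.cardFactors (m + (j + 1)) : ℝ) -
                  ((P.filter (fun q => q ∣ m + (j + 1))).card : ℝ)) (k * H)]
            simp only [hWdef]
            rw [Finset.range_eq_Ico, Finset.sum_Ico_add' (fun j : ℕ =>
              (ArithmeticFunction.cardFactors (m + j) : ℝ) -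
                  ((P.filter (fun q => q ∣ m + j)).card : ℝ)) 0 (k * H) 1]
            rfl
          have h2 : ((∑ v, w v : ℕ) : ℝ) ≤ ((K * (k * H) : ℕ) : ℝ) := by
            rw [h1]
            exact not_lt.mp hWm
          exact_mod_cast h2
        · have hedge : edges k H c (m % (k * H.factorial)) = edges k H c m :=
            edges_periodic k H c _ _ hk (Nat.mod_mod _ _)
          rw [hedge]
          have e1 : ∑ e ∈ edges k H c m, rr k N F s e.2
              (fun i => svec (k * H) P m (vert k H e i) + w (vert k H e i)) =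
              ZZ k N H c F s m := by
            unfold ZZ
            refine Finset.sum_congr rfl fun e he => ?_
            have he' := ((mem_edges k H c m e).mp he).1
            congr 1
            funext i
            have hv := vert_val k H e he' i
            have hv0 := vert_ne_zero k H e he' i
            have h3 : svec (k * H) P m (vert k H e i) =
                (P.filter (fun q => q ∣ m + ((vert k H e i : Fin (k * H + 1)) : ℕ))).card := by
              unfold svec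
              rw [if_neg hv0]
            have h4 : w (vert k H e i) = ArithmeticFunction.cardFactors
                (m + ((vert k H e i : Fin (k * H + 1)) : ℕ)) -
                (P.filter (fun q => q ∣ m + ((vert k H e i : Fin (k * H + 1)) : ℕ))).card := by
              simp only [hw]
              rw [if_neg hv0]
            rw [h3, h4, hv]
            have h5 := card_dvd_le P hP (m + (e.1 + (i : ℕ) * e.2)) (by omega)
            rw [Nat.add_sub_cancel' h5, add_assoc]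
          rw [e1]
          exact hT
    · rw [if_neg hT]
      have h1 : (0 : ℝ) ≤ (if ((K * (k * H) : ℕ) : ℝ) < W m then (1 : ℝ) else 0) := by
        split_ifs <;> norm_num
      have h2 : (0 : ℝ) ≤ (if ∃ w ∈ WW (k * H) (K * (k * H)),
          T ≤ |∑ e ∈ edges k H c (m % (k * H.factorial)), rr k N F s e.2
            (fun i => svec (k * H) P m (vert k H e i) +
              w (vert k H e i))| then (1 : ℝ) else 0) := by
          split_ifs <;> norm_num
      linarith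
  rw [Finset.card_filter]
  push_cast
  refine (Finset.sum_le_sum hpt).trans ?_
  rw [Finset.sum_add_distrib]
  have h1 : ∑ m ∈ Finset.Icc 1 N, (if ((K * (k * H) : ℕ) : ℝ) < W m then (1 : ℝ) else 0) =
      (((Finset.Icc 1 N).filter
      (fun m => ((K * (k * H) : ℕ) : ℝ) < W m)).card : ℝ) := by
    rw [Finset.card_filter]
    push_cast
    rfl
  rw [h1]
  linarith


/-- The union bound term. -/
private lemma theta_bound (k N H c m₀ S L B K : ℕ) (hk : 1 ≤ k) (hH : 1 ≤ H) (hHN : H ≤ N)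
    (P : Finset ℕ) (hP : ∀ q ∈ P, q.Prime) (hL : P.card ≤ L + 1)
    (F : ℕ → (Fin k → ℕ) → ℝ) (hF : ∀ M ℓ, |F M ℓ| ≤ 1) (s : ℕ → ℝ) (hs : ∀ d, |s d| ≤ 1)
    (δ τ ε : ℝ) (hε : 0 < ε) (hε1 : ε ≤ 1) (hδ : 0 ≤ δ) (hτ0 : 0 ≤ τ)
    (hcut : ∀ d ∈ DD k H, CutLe k (N / d) δ (F (N / d)))
    (hτ : ∀ d ∈ DD k H, ∀ b ≤ B, ∀ b' ≤ B, ∀ a : ℕ → ℝ, (∀ t, |a t| ≤ 1) →
      |Es P (fun t => a (t + b)) - 1 / ((N / d : ℕ) : ℝ) * ∑ n ∈ Finset.Icc 1 (N / d),
        a (ArithmeticFunction.cardFactors n + b')| ≤ τ)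
    (hB1 : H ≤ B) (hB2 : S ≤ B) (hS : S = K * (k * H)) (hLL : 1 ≤ LL k H)
    (hsmall : 2 * H * LL k H * (δ + k * τ) * Real.exp (2 * H * LL k H) ≤ 1) :
    EE (tauL (k * H + 1) 0 P L) (fun y =>
      if ∃ w ∈ WW (k * H) S, ε * H * LL k H ≤ |∑ e ∈ edges k H c m₀, rr k N F s e.2
        (fun i => (y (vert k H e i) : ℕ) + w (vert k H e i))| then (1 : ℝ) else 0) ≤
      4 * Real.exp (((k * H : ℕ) + 1 : ℝ) * (1 + Real.log ((K : ℝ) + 1))) *
        Real.exp (-(ε ^ 2 * H * LL k H / 4)) := by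
  have h := modelTail k N H c m₀ S L B hk hH hHN P hP hL F hF s hs δ τ hδ hτ0 hcut hτ hB1 hB2
    (ε * H * LL k H) (ε / 2) (by positivity)
  refine h.trans ?_
  set M := (edges k H c m₀).card with hM
  have hHR : (1 : ℝ) ≤ H := by exact_mod_cast hH
  have hM1 : (M : ℝ) ≤ 2 * H * LL k H := by
    have h1 := card_edges_le k H c m₀ hH
    have h2 : (H : ℝ) * (LL k H + 1) ≤ 2 * H * LL k H := by nlinarith
    exact h1.trans h2
  have hM0 : (0 : ℝ) ≤ M := Nat.cast_nonneg M
  have hkτ : 0 ≤ δ + k * τ := by positivity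
  have hW : ((WW (k * H) S).card : ℝ) ≤
      Real.exp (((k * H : ℕ) + 1 : ℝ) * (1 + Real.log ((K : ℝ) + 1))) := by
    have := wCount (k * H) K
    rw [← hS] at this
    exact this
  have h2 : (ε / 2) ^ 2 / 2 * (M : ℝ) ≤ ε ^ 2 * H * LL k H / 4 := by
    have h3 : (ε / 2) ^ 2 / 2 * (M : ℝ) ≤ (ε / 2) ^ 2 / 2 * (2 * H * LL k H) :=
      mul_le_mul_of_nonneg_left hM1 (by positivity)
    refine h3.trans (le_of_eq ?_)
    ring
  have h4 : (M : ℝ) * (δ + k * τ) * Real.exp (ε / 2 * M) ≤ 1 := by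
    refine le_trans ?_ hsmall
    have h5 : Real.exp (ε / 2 * M) ≤ Real.exp (2 * H * LL k H) := by
      rw [Real.exp_le_exp]
      have : ε / 2 * (M : ℝ) ≤ 1 * M := by
        apply mul_le_mul_of_nonneg_right _ hM0
        linarith
      linarith
    have h6 : (M : ℝ) * (δ + k * τ) ≤ 2 * H * LL k H * (δ + k * τ) :=
      mul_le_mul_of_nonneg_right hM1 hkτ
    exact mul_le_mul h6 h5 (Real.exp_pos _).le (by positivity)
  have hA : 0 ≤ ε ^ 2 * H * LL k H / 4 := by positivity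
  have h5 : Real.exp ((ε / 2) ^ 2 / 2 * (M : ℝ)) + (M : ℝ) * (δ + k * τ) *
      Real.exp (ε / 2 * M) ≤ 2 * Real.exp (ε ^ 2 * H * LL k H / 4) := by
    have h6 : Real.exp ((ε / 2) ^ 2 / 2 * (M : ℝ)) ≤ Real.exp (ε ^ 2 * H * LL k H / 4) :=
      Real.exp_le_exp.mpr h2
    have h7 : (1 : ℝ) ≤ Real.exp (ε ^ 2 * H * LL k H / 4) := Real.one_le_exp hA
    linarith
  have h6 : 2 * Real.exp (-(ε / 2 * (ε * H * LL k H))) *
      (Real.exp ((ε / 2) ^ 2 / 2 * (M : ℝ)) + (M : ℝ) * (δ + k * τ) * Real.exp (ε / 2 * M)) ≤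
      4 * Real.exp (-(ε ^ 2 * H * LL k H / 4)) := by
    have h7 : 2 * Real.exp (-(ε / 2 * (ε * H * LL k H))) *
        (2 * Real.exp (ε ^ 2 * H * LL k H / 4)) =
        4 * Real.exp (-(ε ^ 2 * H * LL k H / 4)) := by
      have h8 : -(ε ^ 2 * H * LL k H / 4) =
          -(ε / 2 * (ε * H * LL k H)) + ε ^ 2 * H * LL k H / 4 := by ring
      rw [h8, Real.exp_add]
      ring
    rw [← h7]
    exact mul_le_mul_of_nonneg_left h5 (by positivity)
  calc ((WW (k * H) S).card : ℝ) * (2 * Real.exp (-(ε / 2 * (ε * H * LL k H))) *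
        (Real.exp ((ε / 2) ^ 2 / 2 * (M : ℝ)) + (M : ℝ) * (δ + k * τ) *
          Real.exp (ε / 2 * M)))
      ≤ Real.exp (((k * H : ℕ) + 1 : ℝ) * (1 + Real.log ((K : ℝ) + 1))) *
        (4 * Real.exp (-(ε ^ 2 * H * LL k H / 4))) :=
        mul_le_mul hW h6 (by positivity) (Real.exp_pos _).le
    _ = _ := by ring

private lemma mp_small (k : ℕ) (hk : 1 ≤ k) (ε : ℝ) (hε : 0 < ε) (hε1 : ε ≤ 1) (a : ℕ)
    (ha : 1 ≤ a) :
    ∃ H : ℕ, 1 ≤ H ∧ 1 ≤ LL k H ∧ ∃ δ : ℝ, 0 < δ ∧ ∃ N₀ : ℕ, ∀ N ≥ N₀,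
      ∀ F : ℕ → (Fin k → ℕ) → ℝ, (∀ M ℓ, |F M ℓ| ≤ 1) →
      (∀ d ∈ DD k H, CutLe k (N / d) δ (F (N / d))) →
      ∀ s : ℕ → ℝ, (∀ d, |s d| ≤ 1) → ∀ c < k,
        (((Finset.Icc 1 N).filter
          (fun m => ε * H * LL k H ≤ |ZZ k N H c F s m|)).card : ℝ) ≤ (1 / (a : ℝ)) * N := by
  classical
  obtain ⟨H, hH, hLL, hpar⟩ := params k hk ε hε a ha
  set n := k * H with hn
  set h := 16 * a * (n + 1) ^ 2 with hh
  set u := 16 * a * CpN (n + 1) with hu
  set K := 4 * a * K0 h u with hK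
  set S := K * n with hS
  set B := H + S with hB
  have hHR : (1 : ℝ) ≤ H := by exact_mod_cast hH
  have haR : (1 : ℝ) ≤ a := by exact_mod_cast ha
  have hkR : (1 : ℝ) ≤ k := by exact_mod_cast hk
  have hCpN : 1 ≤ CpN (n + 1) := by
    unfold CpN
    exact Nat.mul_pos (by norm_num) (by positivity)
  have hu1 : 1 ≤ u := by
    rw [hu]
    exact Nat.mul_pos (Nat.mul_pos (by norm_num) (by omega)) (by omega)
  have hK0 : 1 ≤ K0 h u := by
    unfold K0
    omega
  have hK1 : 1 ≤ K := by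
    rw [hK]
    exact Nat.mul_pos (Nat.mul_pos (by norm_num) (by omega)) (by omega)
  have hnk : k ≤ n := by
    rw [hn]
    exact Nat.le_mul_of_pos_right k (by omega)
  have hnH : H ≤ n := by
    rw [hn]
    exact Nat.le_mul_of_pos_left H (by omega)
  have hhn : n + 1 ≤ h := by
    rw [hh]
    have h1 : n + 1 ≤ (n + 1) ^ 2 := by
      rw [pow_two]
      exact Nat.le_mul_of_pos_left _ (by omega)
    have h2 : (n + 1) ^ 2 ≤ 16 * a * (n + 1) ^ 2 := Nat.le_mul_of_pos_left _ (by omega)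
    exact h1.trans h2
  set R := 2 * (H : ℝ) * LL k H with hR
  have hR0 : 0 < R := by
    rw [hR]
    have : 0 < LL k H := by linarith
    positivity
  set δ := 1 / (2 * R * Real.exp R) with hδdef
  have hδ : 0 < δ := by positivity
  set τ := δ / k with hτdef
  have hk0 : (0 : ℝ) < k := by linarith
  have hτ0 : 0 < τ := by positivity
  have hsum : δ + k * τ = 2 * δ := by
    rw [hτdef]
    field_simp
    ring
  have hsmall : 2 * H * LL k H * (δ + k * τ) * Real.exp (2 * H * LL k H) ≤ 1 := by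
    rw [hsum, ← hR, hδdef]
    have he := Real.exp_pos R
    have : R * (2 * (1 / (2 * R * Real.exp R))) * Real.exp R = 1 := by
      field_simp
    rw [this]
  obtain ⟨N₁, hN₁⟩ := lawClose h u H B hu1 hH τ hτ0
  obtain ⟨N₂, hN₂⟩ := wMean h u n hu1
  set Q := k * H.factorial with hQ
  have hQ1 : 1 ≤ Q := by
    rw [hQ]
    exact Nat.mul_pos (by omega) (Nat.factorial_pos H)
  refine ⟨H, hH, hLL, δ, hδ, N₁ + N₂ + H + 8 * Q ^ 2 + 4 * a * Q + 2 ^ u, ?_⟩
  intro N hN F hF hcut s hs c hc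
  have h2u : 0 < 2 ^ u := by positivity
  have hNN1 : N₁ ≤ N := by omega
  have hNN2 : N₂ ≤ N := by omega
  have hNH : H ≤ N := by omega
  have hNQ : 8 * Q ^ 2 ≤ N := by omega
  have hNaQ : 4 * a * Q ≤ N := by omega
  have hNu : 2 ^ u ≤ N := by omega
  have hN0 : 0 < N := by omega
  have hNR : (0 : ℝ) < N := by exact_mod_cast hN0
  set E := Nat.log 2 N / u with hE
  have hlog : u ≤ Nat.log 2 N := Nat.le_log_of_pow_le one_lt_two hNu
  have hE1 : 1 ≤ E := by
    rw [hE, Nat.le_div_iff_mul_le (by omega), one_mul]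
    exact hlog
  have hlog0 : (0 : ℝ) < Nat.log 2 N := by
    have : 0 < Nat.log 2 N := by omega
    exact_mod_cast this
  set P := PP h E with hPdef
  have hPm : ∀ q ∈ P, q < 2 ^ (E + 1) ∧ q.Prime ∧ h < q := fun q hq => (mem_PP h E q).mp hq
  have hPp : ∀ q ∈ P, q.Prime := fun q hq => (hPm q hq).2.1
  have hP2 : ∀ q ∈ P, q.Prime ∧ n + 2 ≤ q := by
    intro q hq
    refine ⟨hPp q hq, ?_⟩
    have := (hPm q hq).2.2
    omega
  have hPQ : ∀ q ∈ P, ¬ q ∣ Q := by
    intro q hq hdvd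
    have hqh := (hPm q hq).2.2
    have hqp := hPp q hq
    rw [hQ] at hdvd
    rcases (Nat.Prime.dvd_mul hqp).mp hdvd with h1 | h1
    · have := Nat.le_of_dvd (by omega) h1
      omega
    · have := (Nat.Prime.dvd_factorial hqp).mp h1
      omega
  have hPE : ∀ q ∈ P, Nat.log 2 q ≤ E := by
    intro q hq
    have h1 := (hPm q hq).1
    have h2 := Nat.log_lt_of_lt_pow (b := 2) (x := E + 1) (hPp q hq).ne_zero h1
    omega
  -- the bad windows
  have hbad := windowBad k N H c h u K hk hH hK1 F s (ε * H * LL k H) (K0 h u)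
    (fun v hv => hN₂ N hNN2 v hv)
  refine hbad.trans ?_
  -- the model
  set G : ℕ → (Fin (n + 1) → ℕ) → ℝ := fun a' t =>
    if ∃ w ∈ WW n S, ε * H * LL k H ≤ |∑ e ∈ edges k H c a', rr k N F s e.2
        (fun i => t (vert k H e i) + w (vert k H e i))| then (1 : ℝ) else 0 with hG
  have hG0 : ∀ a' t, 0 ≤ G a' t := by
    intro a' t
    simp only [hG]
    split_ifs <;> norm_num
  have hG1 : ∀ a' t, G a' t ≤ 1 := by
    intro a' t
    simp only [hG]
    split_ifs <;> norm_num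
  have hθ : ∀ a' < Q, EE (tauL (n + 1) 0 P P.card) (fun ℓ => G a' (fun i => (ℓ i : ℕ))) ≤
      1 / (4 * (a : ℝ)) := by
    intro a' _
    refine le_trans ?_ hpar
    exact theta_bound k N H c a' S P.card B K hk hH hNH P hPp (by omega) F hF s hs δ τ ε hε hε1
      hδ.le hτ0.le hcut (fun d hd b hb b' hb' α hα => by
        rw [mem_DD] at hd
        exact hN₁ N hNN1 d hd.1.1 hd.1.2 b hb b' hb' α hα) (by omega) (by omega) hS hLL hsmall
  have hres := residueSum n Q hQ1 P hP2 hPQ E hE1 hPE P.card (by omega) N hNQ G hG0 hG1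
    (1 / (4 * (a : ℝ))) hθ
  have e1 : ∑ m ∈ Finset.Icc 1 N, (if ∃ w ∈ WW (k * H) (K * (k * H)),
      ε * H * LL k H ≤ |∑ e ∈ edges k H c (m % (k * H.factorial)), rr k N F s e.2
        (fun i => svec (k * H) (PP h (Nat.log 2 N / u)) m (vert k H e i) +
          w (vert k H e i))| then (1 : ℝ) else 0) =
      ∑ m ∈ Finset.Icc 1 N, G (m % Q) (svec n P m) := by
    refine Finset.sum_congr rfl fun m _ => ?_
    rfl
  rw [e1]
  -- numerical estimates
  have t1 : (K0 h u : ℝ) / K * N = 1 / (4 * a) * N := by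
    rw [hK]
    push_cast
    have hK0R : (K0 h u : ℝ) ≠ 0 := by
      have : 0 < K0 h u := by omega
      positivity
    have ha0 : (a : ℝ) ≠ 0 := by positivity
    field_simp
  have t2 : 2 * (CpN (n + 1) : ℝ) * E / Nat.log 2 N ≤ 1 / (8 * a) := by
    have h1 : (E : ℝ) * u ≤ Nat.log 2 N := by
      have : E * u ≤ Nat.log 2 N := Nat.div_mul_le_self _ _
      exact_mod_cast this
    have hCR : (1 : ℝ) ≤ CpN (n + 1) := by exact_mod_cast hCpN
    have huR : (u : ℝ) = 16 * a * CpN (n + 1) := by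
      rw [hu]
      push_cast
      ring
    rw [div_le_div_iff₀ hlog0 (by positivity), one_mul]
    rw [huR] at h1
    linarith
  have t3 : 2 * ((n + 1 : ℕ) : ℝ) ^ 2 * ∑ q ∈ P, (1 : ℝ) / (q : ℝ) ^ 2 ≤ 1 / (8 * a) := by
    have h1 := sum_inv_sq_le P h (by omega) (fun q hq => (hPm q hq).2.2)
    have hhR : (h : ℝ) = 16 * a * ((n + 1 : ℕ) : ℝ) ^ 2 := by
      rw [hh]
      push_cast
      ring
    have hn1 : (0 : ℝ) < ((n + 1 : ℕ) : ℝ) := by positivity
    calc 2 * ((n + 1 : ℕ) : ℝ) ^ 2 * ∑ q ∈ P, (1 : ℝ) / (q : ℝ) ^ 2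
        ≤ 2 * ((n + 1 : ℕ) : ℝ) ^ 2 * (1 / (h : ℝ)) :=
          mul_le_mul_of_nonneg_left h1 (by positivity)
      _ = 1 / (8 * a) := by
          rw [hhR]
          field_simp
          norm_num
  have t4 : (Q : ℝ) ≤ 1 / (4 * a) * N := by
    have h1 : (4 * a * Q : ℝ) ≤ N := by exact_mod_cast hNaQ
    rw [one_div_mul_eq_div, le_div_iff₀ (by positivity)]
    linarith
  rw [t1]
  have h5 : (N : ℝ) * (1 / (4 * (a : ℝ)) + 2 * (CpN (n + 1) : ℝ) * E / Nat.log 2 N +
      2 * ((n + 1 : ℕ) : ℝ) ^ 2 * ∑ q ∈ P, (1 : ℝ) / (q : ℝ) ^ 2) ≤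
      N * (1 / (4 * a) + 1 / (8 * a) + 1 / (8 * a)) :=
    mul_le_mul_of_nonneg_left (by linarith) hNR.le
  have h6 : 1 / (4 * (a : ℝ)) * N + (N * (1 / (4 * a) + 1 / (8 * a) + 1 / (8 * a)) +
      1 / (4 * a) * N) = 1 / a * N := by
    have ha0 : (a : ℝ) ≠ 0 := by positivity
    field_simp
    ring
  linarith

theorem mp (k : ℕ) (hk : 1 ≤ k) (ε₁ : ℝ) (hε : 0 < ε₁) (a : ℕ) (ha : 1 ≤ a) :
    ∃ H : ℕ, 1 ≤ H ∧ 1 ≤ LL k H ∧ ∃ δ : ℝ, 0 < δ ∧ ∃ N₀ : ℕ, ∀ N ≥ N₀,
      ∀ F : ℕ → (Fin k → ℕ) → ℝ, (∀ M ℓ, |F M ℓ| ≤ 1) →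
      (∀ d ∈ DD k H, CutLe k (N / d) δ (F (N / d))) →
      ∀ s : ℕ → ℝ, (∀ d, |s d| ≤ 1) → ∀ c < k,
        (((Finset.Icc 1 N).filter
          (fun m => ε₁ * H * LL k H ≤ |ZZ k N H c F s m|)).card : ℝ) ≤ (1 / (a : ℝ)) * N := by
  obtain ⟨H, hH, hLL, δ, hδ, N₀, hN₀⟩ := mp_small k hk (min ε₁ 1) (lt_min hε one_pos)
    (min_le_right _ _) a ha
  refine ⟨H, hH, hLL, δ, hδ, N₀, fun N hN F hF hcut s hs c hc => ?_⟩
  refine le_trans ?_ (hN₀ N hN F hF hcut s hs c hc)
  have : ((Finset.Icc 1 N).filter (fun m => ε₁ * H * LL k H ≤ |ZZ k N H c F s m|)) ⊆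
      ((Finset.Icc 1 N).filter (fun m => min ε₁ 1 * H * LL k H ≤ |ZZ k N H c F s m|)) := by
    intro m hm
    rw [Finset.mem_filter] at hm ⊢
    refine ⟨hm.1, le_trans ?_ hm.2⟩
    have h1 : min ε₁ 1 ≤ ε₁ := min_le_left _ _
    have h2 : (0 : ℝ) ≤ H * LL k H := mul_nonneg (Nat.cast_nonneg H) (by linarith)
    calc min ε₁ 1 * H * LL k H = min ε₁ 1 * (H * LL k H) := by ring
      _ ≤ ε₁ * (H * LL k H) := mul_le_mul_of_nonneg_right h1 h2
      _ = ε₁ * H * LL k H := by ring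
  exact_mod_cast Finset.card_le_card this

end Helper11.QR
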