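import Mathlib
import Pool.Agent.Helper11.QR.EdgesLin

set_option autoImplicit false

/-! QR-18: the window identity.

Proof. For `m ≥ 1` let `g m = ∑_{d ∈ DD, d ∣ m, (m / d) % k = c} rr k N F s d (i ↦ Ω(m + i d))`;
`|g m| ≤ (DD k H).card ≤ H`. For `m = d n` one has `Ω(d (n + i)) = Ω(d) + Ω(n + i)`, so
`rr ... = s d * F (N / d) (i ↦ Ω(n + i))`, and
`∑_{m ∈ Icc 1 N} g m = ∑_{d ∈ DD} s d ∑_{n ∈ Icc 1 (N / d), n % k = c} F (N / d) (Ω(n + i))_i`.
Further `ZZ k N H c F s m = ∑_{j ∈ Icc 1 H} g (m + j)` and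
`|∑_{m ∈ Icc 1 N} g (m + j) - ∑_{m ∈ Icc 1 N} g m| ≤ 2 j H` (`sum_shift_le`,
Helper13/Om/TruncModel.lean, applied to `g / H`). Average over `j`. -/

namespace Helper11.QR

open Finset Helper13.Om

private noncomputable def qg (k N H c : ℕ) (F : ℕ → (Fin k → ℕ) → ℝ) (s : ℕ → ℝ) (m : ℕ) : ℝ :=
  ∑ d ∈ DD k H, if d ∣ m ∧ m / d % k = c then
    rr k N F s d (fun i => ArithmeticFunction.cardFactors (m + i * d)) else 0

private lemma qrr_abs (k N : ℕ) (F : ℕ → (Fin k → ℕ) → ℝ) (hF : ∀ M ℓ, |F M ℓ| ≤ 1) (s : ℕ → ℝ)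
    (hs : ∀ d, |s d| ≤ 1) (d : ℕ) (ℓ : Fin k → ℕ) : |rr k N F s d ℓ| ≤ 1 := by
  unfold rr
  split_ifs
  · rw [abs_mul]
    exact mul_le_one₀ (hs d) (abs_nonneg _) (hF _ _)
  · rw [abs_zero]
    exact zero_le_one

private lemma qg_abs (k N H c : ℕ) (F : ℕ → (Fin k → ℕ) → ℝ) (hF : ∀ M ℓ, |F M ℓ| ≤ 1)
    (s : ℕ → ℝ) (hs : ∀ d, |s d| ≤ 1) (m : ℕ) : |qg k N H c F s m| ≤ H := by
  unfold qg
  refine (Finset.abs_sum_le_sum_abs _ _).trans ?_
  have h1 : ∀ d ∈ DD k H, |if d ∣ m ∧ m / d % k = c then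
      rr k N F s d (fun i => ArithmeticFunction.cardFactors (m + i * d)) else 0| ≤ 1 := by
    intro d _
    split_ifs
    · exact qrr_abs k N F hF s hs d _
    · rw [abs_zero]
      exact zero_le_one
  refine (Finset.sum_le_sum h1).trans ?_
  rw [Finset.sum_const, nsmul_eq_mul, mul_one]
  exact_mod_cast DD_card_le k H

private lemma qg_sum_d (k N c d : ℕ) (hd : 1 ≤ d) (F : ℕ → (Fin k → ℕ) → ℝ) (s : ℕ → ℝ) :
    ∑ m ∈ Finset.Icc 1 N, (if d ∣ m ∧ m / d % k = c then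
      rr k N F s d (fun i => ArithmeticFunction.cardFactors (m + i * d)) else 0) =
    s d * ∑ n ∈ (Finset.Icc 1 (N / d)).filter (fun n => n % k = c),
      F (N / d) (fun i => ArithmeticFunction.cardFactors (n + i)) := by
  rw [← Finset.sum_filter, Finset.mul_sum]
  refine Finset.sum_nbij' (fun m => m / d) (fun n => d * n) ?_ ?_ ?_ ?_ ?_
  · intro m hm
    rw [Finset.mem_filter, Finset.mem_Icc] at hm
    obtain ⟨⟨h1, h2⟩, ⟨q, rfl⟩, h4⟩ := hm
    rw [Finset.mem_filter, Finset.mem_Icc]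
    rw [Nat.mul_div_cancel_left q hd] at h4 ⊢
    refine ⟨⟨?_, ?_⟩, h4⟩
    · rcases Nat.eq_zero_or_pos q with h | h
      · rw [h, mul_zero] at h1
        omega
      · exact h
    · rw [Nat.le_div_iff_mul_le hd, mul_comm]
      exact h2
  · intro n hn
    rw [Finset.mem_filter, Finset.mem_Icc] at hn
    obtain ⟨⟨h1, h2⟩, h3⟩ := hn
    rw [Finset.mem_filter, Finset.mem_Icc]
    refine ⟨⟨Nat.mul_pos hd h1, ?_⟩, dvd_mul_right d n, ?_⟩
    · rw [Nat.le_div_iff_mul_le hd, mul_comm] at h2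
      exact h2
    · rw [Nat.mul_div_cancel_left n hd]
      exact h3
  · intro m hm
    rw [Finset.mem_filter] at hm
    exact Nat.mul_div_cancel' hm.2.1
  · intro n _
    exact Nat.mul_div_cancel_left n hd
  · intro m hm
    rw [Finset.mem_filter, Finset.mem_Icc] at hm
    obtain ⟨⟨h1, h2⟩, ⟨q, rfl⟩, h4⟩ := hm
    rw [Nat.mul_div_cancel_left q hd]
    have hq : q ≠ 0 := by
      rintro rfl
      rw [mul_zero] at h1
      omega
    have e : ∀ i : Fin k, ArithmeticFunction.cardFactors (d * q + i * d) =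
        ArithmeticFunction.cardFactors d + ArithmeticFunction.cardFactors (q + i) := by
      intro i
      rw [show d * q + i * d = d * (q + i) by ring]
      exact ArithmeticFunction.cardFactors_mul (by omega) (by omega)
    unfold rr
    rw [if_pos (fun i => by
      show ArithmeticFunction.cardFactors d ≤ ArithmeticFunction.cardFactors (d * q + i * d)
      rw [e i]
      exact Nat.le_add_right _ _)]
    congr 2
    funext i
    show ArithmeticFunction.cardFactors (d * q + i * d) - ArithmeticFunction.cardFactors d = _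
    rw [e i, Nat.add_sub_cancel_left]

private lemma qg_sum (k N H c : ℕ) (F : ℕ → (Fin k → ℕ) → ℝ) (s : ℕ → ℝ) :
    ∑ m ∈ Finset.Icc 1 N, qg k N H c F s m = ∑ d ∈ DD k H, s d *
      ∑ n ∈ (Finset.Icc 1 (N / d)).filter (fun n => n % k = c),
        F (N / d) (fun i => ArithmeticFunction.cardFactors (n + i)) := by
  unfold qg
  rw [Finset.sum_comm]
  refine Finset.sum_congr rfl fun d hd => ?_
  exact qg_sum_d k N c d ((mem_DD k H d).1 hd).1.1 F s

private lemma qZZ (k N H c : ℕ) (F : ℕ → (Fin k → ℕ) → ℝ) (s : ℕ → ℝ) (m : ℕ) :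
    ZZ k N H c F s m = ∑ j ∈ Finset.Icc 1 H, qg k N H c F s (m + j) := by
  unfold ZZ edges qg
  rw [Finset.sum_filter, Finset.sum_product]

theorem window (k N H c : ℕ) (hk : 1 ≤ k) (hH : 1 ≤ H) (hN : 1 ≤ N)
    (F : ℕ → (Fin k → ℕ) → ℝ) (hF : ∀ M ℓ, |F M ℓ| ≤ 1) (s : ℕ → ℝ) (hs : ∀ d, |s d| ≤ 1) :
    |∑ d ∈ DD k H, s d * (1 / (N : ℝ)) *
        ∑ n ∈ (Finset.Icc 1 (N / d)).filter (fun n => n % k = c),
          F (N / d) (fun i => ArithmeticFunction.cardFactors (n + i)) -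
      (1 / ((N : ℝ) * H)) * ∑ m ∈ Finset.Icc 1 N, ZZ k N H c F s m| ≤
      2 * (H : ℝ) ^ 2 / N := by
  have hN0 : (0 : ℝ) < N := by exact_mod_cast hN
  have hH0 : (0 : ℝ) < H := by exact_mod_cast hH
  have e1 : ∑ d ∈ DD k H, s d * (1 / (N : ℝ)) *
        ∑ n ∈ (Finset.Icc 1 (N / d)).filter (fun n => n % k = c),
          F (N / d) (fun i => ArithmeticFunction.cardFactors (n + i)) =
      (1 / (N : ℝ)) * ∑ m ∈ Finset.Icc 1 N, qg k N H c F s m := by
    rw [qg_sum, Finset.mul_sum]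
    refine Finset.sum_congr rfl fun d _ => ?_
    ring
  have e2 : ∑ m ∈ Finset.Icc 1 N, ZZ k N H c F s m =
      ∑ j ∈ Finset.Icc 1 H, ∑ m ∈ Finset.Icc 1 N, qg k N H c F s (m + j) := by
    rw [Finset.sum_comm]
    exact Finset.sum_congr rfl fun m _ => qZZ k N H c F s m
  have e3 : (1 / (N : ℝ)) * ∑ m ∈ Finset.Icc 1 N, qg k N H c F s m =
      (1 / ((N : ℝ) * H)) * ∑ _j ∈ Finset.Icc 1 H, ∑ m ∈ Finset.Icc 1 N, qg k N H c F s m := by
    rw [Finset.sum_const, Nat.card_Icc, nsmul_eq_mul, Nat.add_sub_cancel]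
    field_simp
  rw [e1, e2, e3, ← mul_sub, ← Finset.sum_sub_distrib, abs_mul]
  have hsh : ∀ j ∈ Finset.Icc 1 H, |∑ m ∈ Finset.Icc 1 N, qg k N H c F s m -
      ∑ m ∈ Finset.Icc 1 N, qg k N H c F s (m + j)| ≤ 2 * (H : ℝ) * H := by
    intro j hj
    rw [Finset.mem_Icc] at hj
    have h1 := sum_shift_le (fun n => qg k N H c F s n / H) (fun n => by
      rw [abs_div, abs_of_pos hH0, div_le_one hH0]
      exact qg_abs k N H c F hF s hs n) N j
    rw [← Finset.sum_div, ← Finset.sum_div, ← sub_div, abs_div, abs_of_pos hH0,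
      div_le_iff₀ hH0] at h1
    rw [abs_sub_comm]
    refine h1.trans ?_
    have h2 : (j : ℝ) ≤ H := by exact_mod_cast hj.2
    nlinarith
  have h2 : |∑ j ∈ Finset.Icc 1 H, (∑ m ∈ Finset.Icc 1 N, qg k N H c F s m -
      ∑ m ∈ Finset.Icc 1 N, qg k N H c F s (m + j))| ≤ H * (2 * (H : ℝ) * H) := by
    refine (Finset.abs_sum_le_sum_abs _ _).trans ((Finset.sum_le_sum hsh).trans ?_)
    rw [Finset.sum_const, Nat.card_Icc, nsmul_eq_mul, Nat.add_sub_cancel]
  have h3 : |1 / ((N : ℝ) * H)| = 1 / ((N : ℝ) * H) := abs_of_pos (by positivity)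
  rw [h3]
  refine (mul_le_mul_of_nonneg_left h2 (by positivity)).trans (le_of_eq ?_)
  field_simp

end Helper11.QR
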