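import Mathlib
import Pool.Agent.Helper11.QR.MP
import Pool.Agent.Helper11.QR.Window

set_option autoImplicit false

/-! QR-22: the window inequality.

Proof: apply `mp` with `ε₁ = ε / (4 k)` and `a ≥ 8 k / ε`. For given `N`, `F` choose signs
`s d = ±1` with `s d * Em k (N/d) (F (N/d)) = |Em ...|`. For each `c < k`, from `mp` and
`|ZZ| ≤ |edges| ≤ H (LL + 1) ≤ 2 H LL` (`card_edges_le`):
`1 / (N H) ∑_m |ZZ_c m| ≤ ε₁ LL + 2 LL / a ≤ ε LL / (2 k)`. Sum `window` over `c < k` (the classes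
`n % k = c` partition `Icc 1 (N / d)`):
`∑_d s d (1 / N) ∑_{n ≤ N/d} F (N/d) (...) ≤ ε LL / 2 + 2 k H² / N`, and
`(1 / N) ∑_{n ≤ N/d} ... = (⌊N/d⌋ / N) Em k (N/d) ...` with `|1 / d - ⌊N/d⌋ / N| ≤ 1 / N`. So the
sum of `1/d * |Em|` is at most `ε LL / 2 + 2 k H² / N + H / N ≤ ε LL` for `N` large. -/

namespace Helper11.QR

open Finset Helper13.Om

private lemma rr_abs_le (k N : ℕ) (F : ℕ → (Fin k → ℕ) → ℝ) (hF : ∀ M ℓ, |F M ℓ| ≤ 1)
    (s : ℕ → ℝ) (hs : ∀ d, |s d| ≤ 1) (d : ℕ) (ℓ : Fin k → ℕ) : |rr k N F s d ℓ| ≤ 1 := by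
  unfold rr
  split_ifs
  · rw [abs_mul]
    exact mul_le_one₀ (hs d) (abs_nonneg _) (hF _ _)
  · simp

private lemma ZZ_abs_le (k N H c : ℕ) (hH : 1 ≤ H) (hLL : 1 ≤ LL k H)
    (F : ℕ → (Fin k → ℕ) → ℝ) (hF : ∀ M ℓ, |F M ℓ| ≤ 1)
    (s : ℕ → ℝ) (hs : ∀ d, |s d| ≤ 1) (m : ℕ) : |ZZ k N H c F s m| ≤ 2 * H * LL k H := by
  unfold ZZ
  refine (Finset.abs_sum_le_sum_abs _ _).trans ?_
  refine (Finset.sum_le_card_nsmul _ _ 1 (fun e _ => rr_abs_le k N F hF s hs _ _)).trans ?_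
  rw [nsmul_eq_mul, mul_one]
  refine (card_edges_le k H c m hH).trans ?_
  have hHR : (1 : ℝ) ≤ H := by exact_mod_cast hH
  nlinarith

private lemma Em_abs_le (k M : ℕ) (F : (Fin k → ℕ) → ℝ) (hF : ∀ ℓ, |F ℓ| ≤ 1) :
    |Em k M F| ≤ 1 := by
  unfold Em
  rcases Nat.eq_zero_or_pos M with h | h
  · subst h
    simp
  · have hM : (0 : ℝ) < M := by exact_mod_cast h
    rw [abs_mul, abs_of_pos (by positivity), one_div_mul_eq_div, div_le_one hM]
    refine (Finset.abs_sum_le_sum_abs _ _).trans ?_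
    refine (Finset.sum_le_card_nsmul _ _ 1 (fun n _ => hF _)).trans (le_of_eq ?_)
    rw [Nat.card_Icc, Nat.add_sub_cancel, nsmul_eq_mul, mul_one]

theorem windowIneq (k : ℕ) (hk : 1 ≤ k) (ε : ℝ) (hε : 0 < ε) :
    ∃ H : ℕ, 1 ≤ H ∧ 0 < LL k H ∧ ∃ δ : ℝ, 0 < δ ∧ ∃ N₀ : ℕ, ∀ N ≥ N₀,
      ∀ F : ℕ → (Fin k → ℕ) → ℝ, (∀ M ℓ, |F M ℓ| ≤ 1) →
      (∀ d ∈ DD k H, CutLe k (N / d) δ (F (N / d))) →
        ∑ d ∈ DD k H, (1 / (d : ℝ)) * |Em k (N / d) (F (N / d))| ≤ ε * LL k H := by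
  classical
  have hkR : (1 : ℝ) ≤ k := by exact_mod_cast hk
  have hk0 : (0 : ℝ) < k := by linarith
  set a : ℕ := ⌈8 * (k : ℝ) / ε⌉₊ + 1 with ha
  have ha1 : 1 ≤ a := by omega
  have haR : 8 * (k : ℝ) / ε ≤ a := by
    rw [ha]
    push_cast
    have := Nat.le_ceil (8 * (k : ℝ) / ε)
    linarith
  have ha0 : (0 : ℝ) < a := by exact_mod_cast ha1
  obtain ⟨H, hH, hLL, δ, hδ, N₁, hN₁⟩ := mp k hk (ε / (4 * k)) (by positivity) a ha1
  have hHR : (1 : ℝ) ≤ H := by exact_mod_cast hH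
  have hLL0 : 0 < LL k H := by linarith
  set N₂ : ℕ := ⌈2 * (2 * (k : ℝ) * H ^ 2 + H) / ε⌉₊ with hN₂
  refine ⟨H, hH, hLL0, δ, hδ, N₁ + N₂ + 1, ?_⟩
  intro N hN F hF hcut
  have hNR : (0 : ℝ) < N := by
    have : 0 < N := by omega
    exact_mod_cast this
  have hNbig : 2 * (2 * (k : ℝ) * H ^ 2 + H) / ε ≤ N := by
    have h1 := Nat.le_ceil (2 * (2 * (k : ℝ) * H ^ 2 + H) / ε)
    have h2 : ((N₂ : ℕ) : ℝ) ≤ N := by
      have : N₂ ≤ N := by omega
      exact_mod_cast this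
    rw [hN₂] at h2
    linarith
  set s : ℕ → ℝ := fun d => if 0 ≤ Em k (N / d) (F (N / d)) then 1 else -1 with hs
  have hs1 : ∀ d, |s d| ≤ 1 := by
    intro d
    simp only [hs]
    split_ifs <;> simp
  have hsE : ∀ d, s d * Em k (N / d) (F (N / d)) = |Em k (N / d) (F (N / d))| := by
    intro d
    simp only [hs]
    split_ifs with h
    · rw [one_mul, abs_of_nonneg h]
    · rw [neg_one_mul, abs_of_neg (not_le.mp h)]
  -- the windows
  have hZ : ∀ c < k, (1 / ((N : ℝ) * H)) * |∑ m ∈ Finset.Icc 1 N, ZZ k N H c F s m| ≤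
      ε * LL k H / (2 * k) := by
    intro c hc
    have hb := hN₁ N (by omega) F hF hcut s hs1 c hc
    have hpt : ∀ m ∈ Finset.Icc 1 N, |ZZ k N H c F s m| ≤
        ε / (4 * k) * H * LL k H + 2 * H * LL k H *
          (if ε / (4 * k) * H * LL k H ≤ |ZZ k N H c F s m| then (1 : ℝ) else 0) := by
      intro m _
      split_ifs with h
      · have := ZZ_abs_le k N H c hH hLL F hF s hs1 m
        have h2 : 0 ≤ ε / (4 * k) * H * LL k H := by positivity
        linarith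
      · have := not_le.mp h
        linarith
    have h1 : |∑ m ∈ Finset.Icc 1 N, ZZ k N H c F s m| ≤
        N * (ε / (4 * k) * H * LL k H) + 2 * H * LL k H * (1 / (a : ℝ) * N) := by
      refine (Finset.abs_sum_le_sum_abs _ _).trans ((Finset.sum_le_sum hpt).trans ?_)
      rw [Finset.sum_add_distrib, Finset.sum_const, Nat.card_Icc, Nat.add_sub_cancel,
        nsmul_eq_mul, ← Finset.mul_sum]
      have h2 : ∑ m ∈ Finset.Icc 1 N,
          (if ε / (4 * k) * H * LL k H ≤ |ZZ k N H c F s m| then (1 : ℝ) else 0) =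
          (((Finset.Icc 1 N).filter
            (fun m => ε / (4 * k) * H * LL k H ≤ |ZZ k N H c F s m|)).card : ℝ) := by
        rw [Finset.card_filter]
        push_cast
        rfl
      rw [h2]
      have h3 : (0 : ℝ) ≤ 2 * H * LL k H := by positivity
      have := mul_le_mul_of_nonneg_left hb h3
      linarith
    have h4 : 1 / (a : ℝ) ≤ ε / (8 * k) := by
      rw [div_le_div_iff₀ ha0 (by positivity), one_mul]
      rw [div_le_iff₀ hε] at haR
      linarith
    calc (1 / ((N : ℝ) * H)) * |∑ m ∈ Finset.Icc 1 N, ZZ k N H c F s m|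
        ≤ (1 / ((N : ℝ) * H)) * (N * (ε / (4 * k) * H * LL k H) +
          2 * H * LL k H * (1 / (a : ℝ) * N)) :=
          mul_le_mul_of_nonneg_left h1 (by positivity)
      _ = ε / (4 * k) * LL k H + 2 * LL k H * (1 / (a : ℝ)) := by
          field_simp
      _ ≤ ε / (4 * k) * LL k H + 2 * LL k H * (ε / (8 * k)) := by
          have := mul_le_mul_of_nonneg_left h4 (by positivity : (0 : ℝ) ≤ 2 * LL k H)
          linarith
      _ = ε * LL k H / (2 * k) := by
          field_simp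
          ring
  set X : ℝ := ∑ d ∈ DD k H, s d * (1 / (N : ℝ)) * ∑ n ∈ Finset.Icc 1 (N / d),
    F (N / d) (fun i => ArithmeticFunction.cardFactors (n + i)) with hX
  have hXsum : X = ∑ c ∈ Finset.range k, ∑ d ∈ DD k H, s d * (1 / (N : ℝ)) *
        ∑ n ∈ (Finset.Icc 1 (N / d)).filter (fun n => n % k = c),
          F (N / d) (fun i => ArithmeticFunction.cardFactors (n + i)) := by
    rw [hX, Finset.sum_comm]
    refine Finset.sum_congr rfl fun d _ => ?_
    rw [← Finset.mul_sum]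
    congr 1
    exact (Finset.sum_fiberwise_of_maps_to (fun n _ => Finset.mem_range.mpr
      (Nat.mod_lt n (by omega))) _).symm
  have hXle : X ≤ ε * LL k H / 2 + k * (2 * (H : ℝ) ^ 2 / N) := by
    rw [hXsum]
    have h1 : ∀ c ∈ Finset.range k, ∑ d ∈ DD k H, s d * (1 / (N : ℝ)) *
        ∑ n ∈ (Finset.Icc 1 (N / d)).filter (fun n => n % k = c),
          F (N / d) (fun i => ArithmeticFunction.cardFactors (n + i)) ≤
        ε * LL k H / (2 * k) + 2 * (H : ℝ) ^ 2 / N := by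
      intro c hc
      rw [Finset.mem_range] at hc
      have hw := window k N H c hk hH (by omega) F hF s hs1
      have h2 := (abs_le.mp hw).2
      have h3 := hZ c hc
      have h4 : (1 / ((N : ℝ) * H)) * ∑ m ∈ Finset.Icc 1 N, ZZ k N H c F s m ≤
          (1 / ((N : ℝ) * H)) * |∑ m ∈ Finset.Icc 1 N, ZZ k N H c F s m| :=
        mul_le_mul_of_nonneg_left (le_abs_self _) (by positivity)
      linarith
    refine (Finset.sum_le_card_nsmul _ _ _ h1).trans (le_of_eq ?_)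
    rw [Finset.card_range, nsmul_eq_mul]
    field_simp
  have hterm : ∀ d ∈ DD k H, (1 / (d : ℝ)) * |Em k (N / d) (F (N / d))| ≤
      s d * (1 / (N : ℝ)) * ∑ n ∈ Finset.Icc 1 (N / d),
        F (N / d) (fun i => ArithmeticFunction.cardFactors (n + i)) + 1 / N := by
    intro d hd
    rw [mem_DD] at hd
    have hd1 := hd.1.1
    have hdR : (1 : ℝ) ≤ d := by exact_mod_cast hd1
    have hsumEm : ∑ n ∈ Finset.Icc 1 (N / d),
        F (N / d) (fun i => ArithmeticFunction.cardFactors (n + i)) =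
        ((N / d : ℕ) : ℝ) * Em k (N / d) (F (N / d)) := by
      unfold Em
      rcases Nat.eq_zero_or_pos (N / d) with h | h
      · rw [h]
        simp
      · have hM : ((N / d : ℕ) : ℝ) ≠ 0 := by
          have : (0 : ℝ) < ((N / d : ℕ) : ℝ) := by exact_mod_cast h
          exact this.ne'
        rw [← mul_assoc, mul_one_div_cancel hM, one_mul]
    rw [hsumEm]
    have h1 : s d * (1 / (N : ℝ)) * (((N / d : ℕ) : ℝ) * Em k (N / d) (F (N / d))) =
        ((N / d : ℕ) : ℝ) / N * |Em k (N / d) (F (N / d))| := by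
      rw [← hsE]
      ring
    rw [h1]
    have h2 := Em_abs_le k (N / d) (F (N / d)) (hF _)
    have h3 : 1 / (d : ℝ) ≤ ((N / d : ℕ) : ℝ) / N + 1 / N := by
      rw [← add_div, div_le_div_iff₀ (by linarith) hNR, one_mul]
      have h4 : N < d * (N / d + 1) := by
        have := Nat.lt_mul_div_succ N (show 0 < d by omega)
        exact this
      have h5 : (N : ℝ) ≤ d * (((N / d : ℕ) : ℝ) + 1) := by
        have : (N : ℝ) < ((d * (N / d + 1) : ℕ) : ℝ) := by exact_mod_cast h4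
        push_cast at this
        linarith
      linarith
    have h6 : 0 ≤ |Em k (N / d) (F (N / d))| := abs_nonneg _
    calc (1 / (d : ℝ)) * |Em k (N / d) (F (N / d))|
        ≤ (((N / d : ℕ) : ℝ) / N + 1 / N) * |Em k (N / d) (F (N / d))| :=
          mul_le_mul_of_nonneg_right h3 h6
      _ = ((N / d : ℕ) : ℝ) / N * |Em k (N / d) (F (N / d))| +
          1 / N * |Em k (N / d) (F (N / d))| := by ring
      _ ≤ ((N / d : ℕ) : ℝ) / N * |Em k (N / d) (F (N / d))| + 1 / N * 1 := by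
          have := mul_le_mul_of_nonneg_left h2 (by positivity : (0 : ℝ) ≤ 1 / N)
          linarith
      _ = _ := by ring
  refine (Finset.sum_le_sum hterm).trans ?_
  rw [Finset.sum_add_distrib, ← hX, Finset.sum_const, nsmul_eq_mul]
  have hDD : ((DD k H).card : ℝ) ≤ H := by exact_mod_cast DD_card_le k H
  have h7 : ((DD k H).card : ℝ) * (1 / N) ≤ H * (1 / N) :=
    mul_le_mul_of_nonneg_right hDD (by positivity)
  have h8 : k * (2 * (H : ℝ) ^ 2 / N) + H * (1 / N) ≤ ε / 2 := by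
    have h9 : k * (2 * (H : ℝ) ^ 2 / N) + H * (1 / N) = (2 * (k : ℝ) * H ^ 2 + H) / N := by
      field_simp
    rw [h9, div_le_iff₀ hNR]
    rw [div_le_iff₀ hε] at hNbig
    linarith
  have h10 : ε / 2 ≤ ε * LL k H / 2 := by
    have : ε * 1 ≤ ε * LL k H := mul_le_mul_of_nonneg_left hLL hε.le
    linarith
  linarith

end Helper11.QR
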