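import Mathlib
import Pool.Agent.Helper11.QR.WI

set_option autoImplicit false

/-! QR-23: logarithmic average over the scales.

Proof: `windowIneq` with `ε / 4` gives `H, δ, N₁`. Let `g M = |Em k M (F M)| ∈ [0, 1]`. Multiply
the window inequality at `N'` by `1 / N'` and sum over `N₁ ≤ N' ≤ N`. For fixed `d` and `M` the
`N'` with `N' / d = M` are `d M, ..., d M + d - 1`, so
`∑_{N₁ ≤ N' ≤ N} (1 / N') (1/d) g (N' / d) ≥ ∑_{M : N₁ ≤ d M, d (M + 1) ≤ N} (1 / d) (d / (d (M + 1))) g M`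
`≥ (1/d) ∑_{N₁ ≤ M ≤ N / H - 1} g M / (M + 1)`. So
`LL * ∑_{N₁ ≤ M ≤ N/H - 1} g M / (M + 1) ≤ (ε / 4) LL (1 + log N)`. The remaining `M` contribute
at most `∑_{M ≤ N₁} 1 / M + ∑_{N / H - 1 < M ≤ N} 1 / M ≤ C (N₁, H)`, and
`1 / M ≤ 2 / (M + 1)`. Total `≤ (ε / 2) (1 + log N) + C ≤ ε log N` for `N` large. (`CutLe` is only
needed for `1 ≤ M ≤ N`; note `N' / d ≥ 1` for `N' ≥ H`.) -/

namespace Helper11.QR

open Finset Helper13.Om

lemma core_abs_Em_le (k N : ℕ) (F : (Fin k → ℕ) → ℝ) (hF : ∀ ℓ, |F ℓ| ≤ 1) :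
    |Em k N F| ≤ 1 := by
  unfold Em
  rcases Nat.eq_zero_or_pos N with h | h
  · subst h; simp
  have hN : (0 : ℝ) < N := by exact_mod_cast h
  rw [abs_mul, abs_of_nonneg (by positivity : (0 : ℝ) ≤ 1 / N)]
  have h1 : |∑ n ∈ Finset.Icc 1 N, F (fun i => ArithmeticFunction.cardFactors (n + i))| ≤ N := by
    refine (Finset.abs_sum_le_sum_abs _ _).trans ?_
    refine (Finset.sum_le_card_nsmul _ _ 1 fun n _ => hF _).trans ?_
    simp
  calc 1 / (N : ℝ) * |∑ n ∈ Finset.Icc 1 N, F (fun i => ArithmeticFunction.cardFactors (n + i))|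
      ≤ 1 / (N : ℝ) * N := by gcongr
    _ = 1 := by field_simp

/-- the inner sum for one dilation -/
lemma core_inner (g : ℕ → ℝ) (hg : ∀ M, 0 ≤ g M) (H N K N₁ d : ℕ) (hd : 1 ≤ d) (hdH : d ≤ H)
    (hN₁ : 1 ≤ N₁) (hK : H * (K + 1) ≤ N) :
    ∑ M ∈ Finset.Icc N₁ K, g M / ((M : ℝ) + 1) ≤
      ∑ N' ∈ Finset.Icc N₁ N, (1 / (N' : ℝ)) * g (N' / d) := by
  classical
  have hinj : Set.InjOn (fun p : ℕ × ℕ => d * p.1 + p.2)
      ((Finset.Icc N₁ K ×ˢ Finset.range d : Finset (ℕ × ℕ)) : Set (ℕ × ℕ)) := by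
    rintro ⟨a, b⟩ h1 ⟨a', b'⟩ h2 h
    simp only [Finset.coe_product, Set.mem_prod, Finset.mem_coe, Finset.mem_Icc,
      Finset.mem_range] at h1 h2
    simp only at h
    have e1 : (d * a + b) / d = a := by
      rw [Nat.mul_add_div (by omega), Nat.div_eq_of_lt h1.2, add_zero]
    have e2 : (d * a' + b') / d = a' := by
      rw [Nat.mul_add_div (by omega), Nat.div_eq_of_lt h2.2, add_zero]
    have e3 : a = a' := by rw [← e1, ← e2, h]
    subst e3
    have : b = b' := by omega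
    rw [this]
  have hsub : (Finset.Icc N₁ K ×ˢ Finset.range d).image (fun p : ℕ × ℕ => d * p.1 + p.2) ⊆
      Finset.Icc N₁ N := by
    intro n hn
    rw [Finset.mem_image] at hn
    obtain ⟨⟨a, b⟩, h1, rfl⟩ := hn
    rw [Finset.mem_product, Finset.mem_Icc, Finset.mem_range] at h1
    simp only at h1 ⊢
    rw [Finset.mem_Icc]
    constructor
    · calc N₁ ≤ a := h1.1.1
        _ ≤ d * a := Nat.le_mul_of_pos_left _ (by omega)
        _ ≤ d * a + b := Nat.le_add_right _ _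
    · calc d * a + b ≤ d * a + d := by omega
        _ = d * (a + 1) := by ring
        _ ≤ H * (K + 1) := Nat.mul_le_mul hdH (by omega)
        _ ≤ N := hK
  calc ∑ M ∈ Finset.Icc N₁ K, g M / ((M : ℝ) + 1)
      = ∑ M ∈ Finset.Icc N₁ K, ∑ r ∈ Finset.range d, (1 / ((d : ℝ) * ((M : ℝ) + 1))) * g M := by
        refine Finset.sum_congr rfl fun M _ => ?_
        rw [Finset.sum_const, Finset.card_range, nsmul_eq_mul]
        have : (d : ℝ) ≠ 0 := by positivity
        field_simp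
    _ ≤ ∑ M ∈ Finset.Icc N₁ K, ∑ r ∈ Finset.range d,
          (1 / ((d * M + r : ℕ) : ℝ)) * g ((d * M + r) / d) := by
        refine Finset.sum_le_sum fun M hM => Finset.sum_le_sum fun r hr => ?_
        rw [Finset.mem_Icc] at hM
        rw [Finset.mem_range] at hr
        have e1 : (d * M + r) / d = M := by
          rw [Nat.mul_add_div (by omega), Nat.div_eq_of_lt hr, add_zero]
        rw [e1]
        refine mul_le_mul_of_nonneg_right ?_ (hg M)
        have hpos : (0 : ℝ) < ((d * M + r : ℕ) : ℝ) := by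
          have : 0 < d * M + r := by
            have : 0 < d * M := Nat.mul_pos (by omega) (by omega)
            omega
          exact_mod_cast this
        refine one_div_le_one_div_of_le hpos ?_
        have : d * M + r ≤ d * (M + 1) := by rw [mul_add, mul_one]; omega
        exact_mod_cast this
    _ = ∑ p ∈ Finset.Icc N₁ K ×ˢ Finset.range d,
          (1 / ((d * p.1 + p.2 : ℕ) : ℝ)) * g ((d * p.1 + p.2) / d) := by
        rw [Finset.sum_product]
    _ = ∑ N' ∈ (Finset.Icc N₁ K ×ˢ Finset.range d).image (fun p : ℕ × ℕ => d * p.1 + p.2),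
          (1 / (N' : ℝ)) * g (N' / d) := by
        rw [Finset.sum_image hinj]
    _ ≤ ∑ N' ∈ Finset.Icc N₁ N, (1 / (N' : ℝ)) * g (N' / d) := by
        refine Finset.sum_le_sum_of_subset_of_nonneg hsub fun n _ _ => ?_
        exact mul_nonneg (by positivity) (hg _)

/-- harmonic sums -/
lemma core_harm (N : ℕ) (hN : 1 ≤ N) (N₁ : ℕ) (hN₁ : 1 ≤ N₁) :
    ∑ N' ∈ Finset.Icc N₁ N, (1 / (N' : ℝ)) ≤ 1 + Real.log N := by
  have h1 : ∑ N' ∈ Finset.Icc N₁ N, (1 / (N' : ℝ)) ≤ ∑ N' ∈ Finset.Icc 1 N, (1 / (N' : ℝ)) :=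
    Finset.sum_le_sum_of_subset_of_nonneg (Finset.Icc_subset_Icc_left hN₁)
      fun n _ _ => by positivity
  refine h1.trans ?_
  have h2 := harmonic_le_one_add_log N
  rw [harmonic_eq_sum_Icc] at h2
  push_cast at h2
  simpa [one_div] using h2

/-- the splitting of the sum over all scales -/
lemma core_split (g : ℕ → ℝ) (hg : ∀ M, 0 ≤ g M) (hg1 : ∀ M, g M ≤ 1) (H N K N₁ : ℕ)
    (hH : 1 ≤ H) (hN₁ : 1 ≤ N₁) (hK : N < H * (K + 2)) (hN : 1 ≤ N) :
    ∑ M ∈ Finset.Icc 1 N, (1 / (M : ℝ)) * g M ≤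
      N₁ + 2 * ∑ M ∈ Finset.Icc N₁ K, g M / ((M : ℝ) + 1) + 2 * H := by
  classical
  have hNR : (0 : ℝ) < N := by exact_mod_cast hN
  have key : ∀ M ∈ Finset.Icc 1 N, (1 / (M : ℝ)) * g M ≤
      (if M ∈ Finset.range N₁ then (1 : ℝ) else 0) +
      (if M ∈ Finset.Icc N₁ K then 2 * (g M / ((M : ℝ) + 1)) else 0) + 2 * H / N := by
    intro M hM
    rw [Finset.mem_Icc] at hM
    have hM0 : (0 : ℝ) < M := by exact_mod_cast hM.1
    have hM1 : (1 : ℝ) ≤ M := by exact_mod_cast hM.1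
    have hc : (0 : ℝ) ≤ 2 * H / N := by positivity
    have hb : (0 : ℝ) ≤ if M ∈ Finset.Icc N₁ K then 2 * (g M / ((M : ℝ) + 1)) else 0 := by
      split_ifs
      · have := hg M
        positivity
      · exact le_rfl
    have ha : (0 : ℝ) ≤ if M ∈ Finset.range N₁ then (1 : ℝ) else 0 := by
      split_ifs <;> norm_num
    by_cases h1 : M ∈ Finset.range N₁
    · rw [if_pos h1]
      have h2 : 1 / (M : ℝ) * g M ≤ 1 := by
        have : 1 / (M : ℝ) ≤ 1 := by rw [div_le_one hM0]; exact hM1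
        calc 1 / (M : ℝ) * g M ≤ 1 * 1 := by
              apply mul_le_mul this (hg1 M) (hg M) (by norm_num)
          _ = 1 := one_mul 1
      linarith
    · by_cases h2 : M ∈ Finset.Icc N₁ K
      · rw [if_pos h2]
        have h3 : 1 / (M : ℝ) * g M ≤ 2 * (g M / ((M : ℝ) + 1)) := by
          have h4 : 1 / (M : ℝ) ≤ 2 / ((M : ℝ) + 1) := by
            rw [div_le_div_iff₀ hM0 (by positivity)]
            linarith
          calc 1 / (M : ℝ) * g M ≤ 2 / ((M : ℝ) + 1) * g M :=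
                mul_le_mul_of_nonneg_right h4 (hg M)
            _ = 2 * (g M / ((M : ℝ) + 1)) := by ring
        linarith
      · have h3 : K < M := by
          rw [Finset.mem_range] at h1
          rw [Finset.mem_Icc] at h2
          omega
        have h4 : 1 / (M : ℝ) * g M ≤ 2 * H / N := by
          have h5 : N ≤ 2 * H * M := by
            calc N ≤ H * (K + 2) := hK.le
              _ ≤ H * (2 * M) := Nat.mul_le_mul_left _ (by omega)
              _ = 2 * H * M := by ring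
          have h6 : 1 / (M : ℝ) ≤ 2 * H / N := by
            rw [div_le_div_iff₀ hM0 hNR, one_mul]
            exact_mod_cast h5
          calc 1 / (M : ℝ) * g M ≤ 2 * H / N * 1 :=
                mul_le_mul h6 (hg1 M) (hg M) hc
            _ = 2 * H / N := mul_one _
        linarith
  refine (Finset.sum_le_sum key).trans ?_
  rw [Finset.sum_add_distrib, Finset.sum_add_distrib]
  have e1 : ∑ M ∈ Finset.Icc 1 N, (if M ∈ Finset.range N₁ then (1 : ℝ) else 0) ≤ N₁ := by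
    rw [← Finset.sum_filter, Finset.sum_const, nsmul_eq_mul, mul_one]
    have : ((Finset.Icc 1 N).filter (fun M => M ∈ Finset.range N₁)).card ≤ (Finset.range N₁).card :=
      Finset.card_le_card fun x hx => (Finset.mem_filter.1 hx).2
    rw [Finset.card_range] at this
    exact_mod_cast this
  have e2 : ∑ M ∈ Finset.Icc 1 N,
      (if M ∈ Finset.Icc N₁ K then 2 * (g M / ((M : ℝ) + 1)) else 0) ≤
      2 * ∑ M ∈ Finset.Icc N₁ K, g M / ((M : ℝ) + 1) := by
    rw [← Finset.sum_filter, Finset.mul_sum]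
    refine Finset.sum_le_sum_of_subset_of_nonneg (fun x hx => (Finset.mem_filter.1 hx).2)
      fun M _ _ => ?_
    have := hg M
    positivity
  have e3 : ∑ M ∈ Finset.Icc 1 N, (2 * (H : ℝ) / N) ≤ 2 * H := by
    rw [Finset.sum_const, Nat.card_Icc, nsmul_eq_mul]
    have : ((N + 1 - 1 : ℕ) : ℝ) = N := by simp
    rw [this]
    have : (N : ℝ) * (2 * H / N) = 2 * H := by field_simp
    rw [this]
  linarith

theorem core (k : ℕ) (hk : 1 ≤ k) (ε : ℝ) (hε : 0 < ε) :
    ∃ δ : ℝ, 0 < δ ∧ ∃ N₀ : ℕ, ∀ N ≥ N₀, ∀ F : ℕ → (Fin k → ℕ) → ℝ, (∀ M ℓ, |F M ℓ| ≤ 1) →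
      (∀ M ∈ Finset.Icc 1 N, CutLe k M δ (F M)) →
        ∑ M ∈ Finset.Icc 1 N, (1 / (M : ℝ)) * |Em k M (F M)| ≤ ε * Real.log N := by
  obtain ⟨H, hH, hLL, δ, hδ, N₀, hW⟩ := windowIneq k hk (ε / 4) (by positivity)
  set N₁ : ℕ := max N₀ H with hN₁
  have hN₁H : H ≤ N₁ := le_max_right _ _
  have hN₁1 : 1 ≤ N₁ := hH.trans hN₁H
  obtain ⟨N₂, hN₂⟩ : ∃ N₂ : ℕ, (2 / ε) * (N₁ + 2 * H + ε / 2) ≤ Real.log N₂ ∧ 1 ≤ N₂ := by
    have h1 := (Real.tendsto_log_atTop.comp tendsto_natCast_atTop_atTop).eventually_ge_atTop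
      ((2 / ε) * ((N₁ : ℝ) + 2 * H + ε / 2))
    obtain ⟨n, hn⟩ := (h1.and (Filter.eventually_ge_atTop 1)).exists
    exact ⟨n, hn.1, hn.2⟩
  refine ⟨δ, hδ, max N₂ (2 * H), fun N hN F hF hcut => ?_⟩
  have hNN₂ : N₂ ≤ N := (le_max_left _ _).trans hN
  have hN2H : 2 * H ≤ N := (le_max_right _ _).trans hN
  have hN1 : 1 ≤ N := hN₂.2.trans hNN₂
  have hlog : Real.log N₂ ≤ Real.log N := by
    apply Real.log_le_log
    · have := hN₂.2
      exact_mod_cast this
    · exact_mod_cast hNN₂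
  set g : ℕ → ℝ := fun M => |Em k M (F M)| with hgdef
  have hg : ∀ M, 0 ≤ g M := fun M => abs_nonneg _
  have hg1 : ∀ M, g M ≤ 1 := fun M => core_abs_Em_le k M (F M) (hF M)
  -- the largest scale of the averaged part
  obtain ⟨K, hK1, hK2⟩ : ∃ K : ℕ, H * (K + 1) ≤ N ∧ N < H * (K + 2) := by
    have hq : 1 ≤ N / H := by
      rw [Nat.one_le_div_iff (by omega)]
      omega
    refine ⟨N / H - 1, ?_, ?_⟩
    · rw [Nat.sub_add_cancel hq]
      exact Nat.mul_div_le N H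
    · have : N / H - 1 + 2 = N / H + 1 := by omega
      rw [this]
      exact Nat.lt_mul_div_succ N (by omega)
  have hmain : LL k H * ∑ M ∈ Finset.Icc N₁ K, g M / ((M : ℝ) + 1) ≤
      ε / 4 * LL k H * (1 + Real.log N) := by
    calc LL k H * ∑ M ∈ Finset.Icc N₁ K, g M / ((M : ℝ) + 1)
        = ∑ d ∈ DD k H, (1 / (d : ℝ)) * ∑ M ∈ Finset.Icc N₁ K, g M / ((M : ℝ) + 1) := by
          unfold LL
          rw [Finset.sum_mul]
      _ ≤ ∑ d ∈ DD k H, (1 / (d : ℝ)) *
            ∑ N' ∈ Finset.Icc N₁ N, (1 / (N' : ℝ)) * g (N' / d) := by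
          refine Finset.sum_le_sum fun d hd => ?_
          unfold DD at hd
          rw [Finset.mem_filter, Finset.mem_Icc] at hd
          exact mul_le_mul_of_nonneg_left
            (core_inner g hg H N K N₁ d hd.1.1 hd.1.2 hN₁1 hK1) (by positivity)
      _ = ∑ N' ∈ Finset.Icc N₁ N, (1 / (N' : ℝ)) *
            ∑ d ∈ DD k H, (1 / (d : ℝ)) * g (N' / d) := by
          simp_rw [Finset.mul_sum]
          rw [Finset.sum_comm]
          refine Finset.sum_congr rfl fun N' _ => Finset.sum_congr rfl fun d _ => ?_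
          ring
      _ ≤ ∑ N' ∈ Finset.Icc N₁ N, (1 / (N' : ℝ)) * (ε / 4 * LL k H) := by
          refine Finset.sum_le_sum fun N' hN' => ?_
          rw [Finset.mem_Icc] at hN'
          refine mul_le_mul_of_nonneg_left ?_ (by positivity)
          refine hW N' ((le_max_left _ _).trans hN'.1) F hF fun d hd => ?_
          unfold DD at hd
          rw [Finset.mem_filter, Finset.mem_Icc] at hd
          refine hcut _ (Finset.mem_Icc.2 ⟨?_, (Nat.div_le_self _ _).trans hN'.2⟩)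
          rw [Nat.one_le_div_iff (by omega)]
          omega
      _ = ε / 4 * LL k H * ∑ N' ∈ Finset.Icc N₁ N, (1 / (N' : ℝ)) := by
          rw [← Finset.sum_mul]
          ring
      _ ≤ ε / 4 * LL k H * (1 + Real.log N) :=
          mul_le_mul_of_nonneg_left (core_harm N hN1 N₁ hN₁1) (by positivity)
  have hS : ∑ M ∈ Finset.Icc N₁ K, g M / ((M : ℝ) + 1) ≤ ε / 4 * (1 + Real.log N) := by
    refine le_of_mul_le_mul_left ?_ hLL
    calc LL k H * ∑ M ∈ Finset.Icc N₁ K, g M / ((M : ℝ) + 1)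
        ≤ ε / 4 * LL k H * (1 + Real.log N) := hmain
      _ = LL k H * (ε / 4 * (1 + Real.log N)) := by ring
  have hT := core_split g hg hg1 H N K N₁ hH hN₁1 hK2 hN1
  have h7 : (N₁ : ℝ) + 2 * H + ε / 2 ≤ ε / 2 * Real.log N := by
    have h8 := hN₂.1.trans hlog
    have h9 : ε / 2 * ((2 / ε) * ((N₁ : ℝ) + 2 * H + ε / 2)) ≤ ε / 2 * Real.log N :=
      mul_le_mul_of_nonneg_left h8 (by positivity)
    have h10 : ε / 2 * ((2 / ε) * ((N₁ : ℝ) + 2 * H + ε / 2)) = (N₁ : ℝ) + 2 * H + ε / 2 := by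
      field_simp
    rwa [h10] at h9
  show ∑ M ∈ Finset.Icc 1 N, (1 / (M : ℝ)) * g M ≤ ε * Real.log N
  linarith

end Helper11.QR
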