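import Mathlib
import Pool.Agent.Helper11.QR.LawBase

set_option autoImplicit false

/-! QR-15: the laws of `Ω` at the scales `M` and `N` are close when `log M ≥ η log N`.

Proof: `lawBase` with `h = 1`, `u = 1` at both scales; `PP 1 (Nat.log 2 M) ⊆ PP 1 (Nat.log 2 N)`
and the sum of `1 / q` over the difference is at most
`4 (log2 (Nat.log 2 N' / (Nat.log 2 M + 1) + 1) + 2)`, bounded in terms of `η` (`sum_large`);
`Es_subset` with `s` from `Es_smooth` at the scale `M` (`B = 1`). `M ≥ exp (η log N)` is large. -/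

namespace Helper11.QR

open Finset Helper13.Om

/-- the ratio of the binary logarithms -/
private lemma ls_ratio (η : ℝ) (hη : 0 < η) (M N : ℕ) (hM : 1 ≤ M) (hN : 1 ≤ N)
    (h : η * Real.log N ≤ Real.log M) :
    (Nat.log 2 N + 1) / (Nat.log 2 M + 1) ≤ ⌈1 / η⌉₊ + 1 := by
  have hl2 : 0 < Real.log 2 := Real.log_pos (by norm_num)
  have h1 : (Nat.log 2 N : ℝ) * Real.log 2 ≤ Real.log N := by
    have h2 : ((2 : ℕ) ^ Nat.log 2 N : ℕ) ≤ N := Nat.pow_log_le_self 2 (by omega)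
    have h3 : ((2 : ℝ) ^ Nat.log 2 N) ≤ N := by exact_mod_cast h2
    have h4 := Real.log_le_log (by positivity) h3
    rwa [Real.log_pow] at h4
  have h5 : Real.log M ≤ ((Nat.log 2 M : ℝ) + 1) * Real.log 2 := by
    have h2 : M < 2 ^ (Nat.log 2 M + 1) := Nat.lt_pow_succ_log_self (by norm_num) M
    have h3 : (M : ℝ) ≤ (2 : ℝ) ^ (Nat.log 2 M + 1) := by exact_mod_cast h2.le
    have h4 := Real.log_le_log (by exact_mod_cast hM) h3
    rw [Real.log_pow] at h4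
    push_cast at h4
    exact h4
  have h6 : η * (Nat.log 2 N : ℝ) ≤ (Nat.log 2 M : ℝ) + 1 := by
    have h7 : (η * (Nat.log 2 N : ℝ)) * Real.log 2 ≤ ((Nat.log 2 M : ℝ) + 1) * Real.log 2 := by
      calc (η * (Nat.log 2 N : ℝ)) * Real.log 2 = η * ((Nat.log 2 N : ℝ) * Real.log 2) := by ring
        _ ≤ η * Real.log N := by gcongr
        _ ≤ Real.log M := h
        _ ≤ _ := h5
    exact le_of_mul_le_mul_right h7 hl2
  have h8 : (Nat.log 2 N : ℝ) ≤ (⌈1 / η⌉₊ : ℝ) * ((Nat.log 2 M : ℝ) + 1) := by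
    have h9 : (Nat.log 2 N : ℝ) ≤ (1 / η) * ((Nat.log 2 M : ℝ) + 1) := by
      rw [div_mul_eq_mul_div, one_mul, le_div_iff₀ hη]
      linarith
    refine h9.trans ?_
    gcongr
    exact Nat.le_ceil _
  have h10 : Nat.log 2 N ≤ ⌈1 / η⌉₊ * (Nat.log 2 M + 1) := by exact_mod_cast h8
  have h11 : Nat.log 2 N + 1 ≤ (⌈1 / η⌉₊ + 1) * (Nat.log 2 M + 1) := by nlinarith
  exact Nat.div_le_of_le_mul (by linarith)

private lemma ls_sub (E E' : ℕ) (h : E ≤ E') : PP 1 E ⊆ PP 1 E' := by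
  intro q hq
  rw [mem_PP] at hq ⊢
  exact ⟨lt_of_lt_of_le hq.1 (Nat.pow_le_pow_right (by norm_num) (by omega)), hq.2⟩

private lemma ls_sum (E E' : ℕ) :
    ∑ q ∈ PP 1 E' \ PP 1 E, (1 : ℝ) / q ≤ 4 * ((Nat.log 2 ((E' + 1) / (E + 1) + 1) : ℝ) + 2) := by
  have h := sum_large (E + 1) (2 ^ (E' + 1)) (by omega)
  rw [Nat.log_pow (by norm_num)] at h
  refine le_trans ?_ h
  apply Finset.sum_le_sum_of_subset_of_nonneg
  · intro q hq
    rw [Finset.mem_sdiff, mem_PP, mem_PP] at hq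
    obtain ⟨⟨h1, h2, h3⟩, h4⟩ := hq
    rw [Finset.mem_filter, Finset.mem_Icc]
    refine ⟨⟨?_, h1.le⟩, h2⟩
    by_contra hcon
    exact h4 ⟨not_le.1 hcon, h2, h3⟩
  · intro q _ _
    positivity

theorem lawScale (η τ : ℝ) (hη : 0 < η) (hτ : 0 < τ) :
    ∃ N₀ : ℕ, ∀ N ≥ N₀, ∀ M ≤ N, η * Real.log N ≤ Real.log M → ∀ a : ℕ → ℝ,
      (∀ t, |a t| ≤ 1) →
      |1 / (M : ℝ) * ∑ n ∈ Finset.Icc 1 M, a (ArithmeticFunction.cardFactors n) -
        1 / (N : ℝ) * ∑ n ∈ Finset.Icc 1 N, a (ArithmeticFunction.cardFactors n)| ≤ τ := by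
  set S : ℝ := 4 * ((Nat.log 2 (⌈1 / η⌉₊ + 1 + 1) : ℝ) + 2) with hS
  have hS0 : 0 < S := by positivity
  obtain ⟨N₁, h1⟩ := lawBase 1 1 le_rfl (τ / 3) (by positivity)
  obtain ⟨N₂, h2⟩ := Es_smooth 1 1 1 le_rfl (τ / (3 * S)) (by positivity)
  set K : ℕ := max (max N₁ N₂) 2 with hK
  have hK2 : 2 ≤ K := le_max_right _ _
  have hKN₁ : N₁ ≤ K := (le_max_left _ _).trans (le_max_left _ _)
  have hKN₂ : N₂ ≤ K := (le_max_right _ _).trans (le_max_left _ _)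
  have htend : Filter.Tendsto (fun N : ℕ => η * Real.log N) Filter.atTop Filter.atTop :=
    (Real.tendsto_log_atTop.comp tendsto_natCast_atTop_atTop).const_mul_atTop hη
  obtain ⟨N₃, h3⟩ := Filter.eventually_atTop.1 (htend.eventually_gt_atTop (Real.log K))
  refine ⟨max N₃ K, fun N hN M hMN hlog a ha => ?_⟩
  have hN3 : N₃ ≤ N := (le_max_left _ _).trans hN
  have hNK : K ≤ N := (le_max_right _ _).trans hN
  have hMK : K ≤ M := by
    by_contra hcon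
    push Not at hcon
    have h4 : Real.log M ≤ Real.log K := by
      rcases Nat.eq_zero_or_pos M with h | h
      · subst h
        rw [Nat.cast_zero, Real.log_zero]
        exact Real.log_nonneg (by exact_mod_cast (by omega : 1 ≤ K))
      · exact Real.log_le_log (by exact_mod_cast h) (by exact_mod_cast hcon.le)
    have h5 := h3 N hN3
    linarith
  have e1 := h1 N (hKN₁.trans hNK) a ha
  have e2 := h1 M (hKN₁.trans hMK) a ha
  rw [Nat.div_one] at e1 e2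
  have hs : ∀ a : ℕ → ℝ, (∀ t, |a t| ≤ 1) →
      |Es (PP 1 (Nat.log 2 M)) (fun t => a (t + 1)) - Es (PP 1 (Nat.log 2 M)) a| ≤
        τ / (3 * S) := by
    intro a ha
    have := h2 M (hKN₂.trans hMK) 1 le_rfl a ha
    rwa [Nat.div_one] at this
  have e3 := Es_subset (PP 1 (Nat.log 2 N)) (PP 1 (Nat.log 2 M))
    (ls_sub _ _ (Nat.log_mono_right hMN)) (fun q hq => ((mem_PP _ _ _).1 hq).2.1)
    (τ / (3 * S)) hs a ha
  have e4 : ∑ q ∈ PP 1 (Nat.log 2 N) \ PP 1 (Nat.log 2 M), (1 : ℝ) / q ≤ S := by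
    refine (ls_sum _ _).trans ?_
    have h5 := ls_ratio η hη M N (by omega) (by omega) hlog
    have h6 : Nat.log 2 ((Nat.log 2 N + 1) / (Nat.log 2 M + 1) + 1) ≤
        Nat.log 2 (⌈1 / η⌉₊ + 1 + 1) := Nat.log_mono_right (by omega)
    have h7 : (Nat.log 2 ((Nat.log 2 N + 1) / (Nat.log 2 M + 1) + 1) : ℝ) ≤
        (Nat.log 2 (⌈1 / η⌉₊ + 1 + 1) : ℝ) := by exact_mod_cast h6
    rw [hS]
    linarith
  have e5 : |Es (PP 1 (Nat.log 2 N)) a - Es (PP 1 (Nat.log 2 M)) a| ≤ τ / 3 := by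
    refine e3.trans ?_
    calc τ / (3 * S) * ∑ q ∈ PP 1 (Nat.log 2 N) \ PP 1 (Nat.log 2 M), (1 : ℝ) / q
        ≤ τ / (3 * S) * S := by gcongr
      _ = τ / 3 := by field_simp
  rw [abs_le] at e1 e2 e5 ⊢
  constructor <;> linarith [e1.1, e1.2, e2.1, e2.2, e5.1, e5.2]

end Helper11.QR
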