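import Mathlib
import Pool.Agent.Helper11.QR.LawScale

set_option autoImplicit false

/-! QR-26: logarithmic means.

`log_abel`: `1 / M - 1 / (M + 1) = 1 / (M (M + 1))`; partial summation (induction on `N`).
`EmL_le`: `log_abel` with `g n = F (Ω(n + i))_i` and `|Em k N F| ≤ B`.
`lawLog`: by `log_abel` the logarithmic mean of `a(Ω n)` is
`(1 / h_N) [mean_N + ∑_{M < N} mean_M / (M + 1)]`, `h_N = ∑_{n ≤ N} 1 / n`,
`mean_M = 1 / M ∑_{n ≤ M} a(Ω n)`, and `∑_{M < N} 1 / (M + 1) + 1 = h_N`: a weighted average of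
the `mean_M`. The scales `M` with `log M < η' log N` have total weight at most
`(1 + η' log N + 1) / log N ≤ 2 η'` (for `N` large; choose `η' ≤ min η (τ / 16)`); for the others
`lawScale` (with `η'`, `τ / 4`) shows that `mean_M` is within `τ / 4` of `mean_N`. -/

namespace Helper11.QR

open Finset Helper13.Om

theorem log_abel (N : ℕ) (hN : 1 ≤ N) (g : ℕ → ℝ) :
    ∑ n ∈ Finset.Icc 1 N, (1 / (n : ℝ)) * g n =
      1 / (N : ℝ) * ∑ n ∈ Finset.Icc 1 N, g n +
        ∑ M ∈ Finset.Icc 1 (N - 1), (1 / ((M : ℝ) + 1)) *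
          (1 / (M : ℝ) * ∑ n ∈ Finset.Icc 1 M, g n) := by
  induction N, hN using Nat.le_induction with
  | base => simp
  | succ N hN ih =>
    have h1 : N + 1 - 1 = (N - 1) + 1 := by omega
    have h2 : N - 1 + 1 = N := by omega
    rw [Finset.sum_Icc_succ_top (by omega : 1 ≤ N + 1), ih, h1,
      Finset.sum_Icc_succ_top (by omega : 1 ≤ N + 1), Finset.sum_Icc_succ_top (by omega), h2]
    have hN0 : (N : ℝ) ≠ 0 := by
      have : N ≠ 0 := by omega
      exact_mod_cast this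
    have hN1 : ((N : ℝ) + 1) ≠ 0 := by positivity
    push_cast
    field_simp
    ring

theorem EmL_le (k N : ℕ) (hN : 1 ≤ N) (F : (Fin k → ℕ) → ℝ) (B : ℝ) (hF : ∀ ℓ, |F ℓ| ≤ B) :
    |EmL k N F| ≤ (B + ∑ M ∈ Finset.Icc 1 N, (1 / (M : ℝ)) * |Em k M F|) /
      ∑ n ∈ Finset.Icc 1 N, (1 / (n : ℝ)) := by
  have hh : (0 : ℝ) < ∑ n ∈ Finset.Icc 1 N, (1 / (n : ℝ)) := by
    refine Finset.sum_pos (fun n hn => ?_) ⟨1, Finset.mem_Icc.2 ⟨le_refl _, hN⟩⟩
    have : (0 : ℝ) < (n : ℝ) := by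
      have := (Finset.mem_Icc.1 hn).1
      exact_mod_cast this
    positivity
  unfold EmL
  rw [abs_div, abs_of_pos hh]
  refine div_le_div_of_nonneg_right ?_ hh.le
  rw [log_abel N hN (fun n => F (fun i => ArithmeticFunction.cardFactors (n + i)))]
  refine (abs_add_le _ _).trans (add_le_add ?_ ?_)
  · have hN0 : (0 : ℝ) < (N : ℝ) := by exact_mod_cast hN
    rw [abs_mul, abs_of_pos (by positivity : (0 : ℝ) < 1 / (N : ℝ))]
    have h1 : |∑ n ∈ Finset.Icc 1 N, F (fun i => ArithmeticFunction.cardFactors (n + i))| ≤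
        (N : ℝ) * B := by
      refine (Finset.abs_sum_le_sum_abs _ _).trans ?_
      refine (Finset.sum_le_sum (fun n _ => hF _)).trans ?_
      rw [Finset.sum_const, Nat.card_Icc, nsmul_eq_mul]
      simp
    calc 1 / (N : ℝ) * |∑ n ∈ Finset.Icc 1 N,
          F (fun i => ArithmeticFunction.cardFactors (n + i))| ≤ 1 / (N : ℝ) * ((N : ℝ) * B) :=
          mul_le_mul_of_nonneg_left h1 (by positivity)
      _ = B := by field_simp
  · refine (Finset.abs_sum_le_sum_abs _ _).trans ?_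
    have h2 : ∀ M ∈ Finset.Icc 1 (N - 1), |(1 / ((M : ℝ) + 1)) *
          (1 / (M : ℝ) * ∑ n ∈ Finset.Icc 1 M,
            F (fun i => ArithmeticFunction.cardFactors (n + i)))| ≤
        (1 / (M : ℝ)) * |Em k M F| := by
      intro M hM
      have hM1 := (Finset.mem_Icc.1 hM).1
      have hM0 : (0 : ℝ) < (M : ℝ) := by exact_mod_cast hM1
      have : (1 / (M : ℝ) * ∑ n ∈ Finset.Icc 1 M,
            F (fun i => ArithmeticFunction.cardFactors (n + i))) = Em k M F := rfl
      rw [this, abs_mul, abs_of_pos (by positivity : (0 : ℝ) < 1 / ((M : ℝ) + 1))]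
      refine mul_le_mul_of_nonneg_right ?_ (abs_nonneg _)
      exact one_div_le_one_div_of_le hM0 (by linarith)
    refine (Finset.sum_le_sum h2).trans ?_
    refine Finset.sum_le_sum_of_subset_of_nonneg ?_ ?_
    · intro M hM
      rw [Finset.mem_Icc] at hM ⊢
      omega
    · intro M _ _
      positivity

/-- the logarithmic weight of the small scales -/
theorem sum_small_scales (N : ℕ) (hN : 2 ≤ N) (η : ℝ) (hη : 0 < η) :
    ∑ M ∈ (Finset.Icc 1 (N - 1)).filter (fun M : ℕ => ¬ η * Real.log N ≤ Real.log M),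
      (1 / ((M : ℝ) + 1)) ≤ Real.log 2 + η * Real.log N := by
  set Y : ℝ := Real.exp (η * Real.log N) with hY
  have hY0 : 0 < Y := Real.exp_pos _
  have hlogN : 0 < Real.log N := by
    apply Real.log_pos
    have : (2 : ℝ) ≤ (N : ℝ) := by exact_mod_cast hN
    linarith
  have hY1 : 1 ≤ Y := by
    rw [hY]
    apply Real.one_le_exp
    positivity
  set K : ℕ := ⌊Y⌋₊ with hK
  have hsub : (Finset.Icc 1 (N - 1)).filter (fun M : ℕ => ¬ η * Real.log N ≤ Real.log M) ⊆
      Finset.Icc 1 K := by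
    intro M hM
    rw [Finset.mem_filter, Finset.mem_Icc] at hM
    obtain ⟨⟨h1, h2⟩, h3⟩ := hM
    rw [Finset.mem_Icc]
    refine ⟨h1, ?_⟩
    rw [hK]
    apply Nat.le_floor
    have hM0 : (0 : ℝ) < (M : ℝ) := by exact_mod_cast h1
    rw [not_le] at h3
    rw [hY, ← Real.exp_log hM0]
    exact Real.exp_le_exp.2 h3.le
  have h1 : ∀ K : ℕ, ∑ M ∈ Finset.Icc 1 K, (1 / ((M : ℝ) + 1)) ≤ Real.log ((K : ℝ) + 1) := by
    intro K
    induction K with
    | zero => simp
    | succ K ih =>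
      rw [Finset.sum_Icc_succ_top (by omega)]
      have hK1 : (0 : ℝ) < (K : ℝ) + 1 := by positivity
      have hK2 : (0 : ℝ) < (K : ℝ) + 1 + 1 := by positivity
      have h2 : 1 / ((K : ℝ) + 1 + 1) ≤ Real.log ((K : ℝ) + 1 + 1) - Real.log ((K : ℝ) + 1) := by
        rw [← Real.log_div hK2.ne' hK1.ne']
        have h3 := Real.one_sub_inv_le_log_of_pos (x := ((K : ℝ) + 1 + 1) / ((K : ℝ) + 1))
          (by positivity)
        have h4 : 1 - (((K : ℝ) + 1 + 1) / ((K : ℝ) + 1))⁻¹ = 1 / ((K : ℝ) + 1 + 1) := by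
          field_simp
          ring
        rw [h4] at h3
        exact h3
      push_cast
      linarith
  refine (Finset.sum_le_sum_of_subset_of_nonneg hsub (fun M _ _ => by positivity)).trans ?_
  refine (h1 K).trans ?_
  have h2 : (K : ℝ) ≤ Y := Nat.floor_le hY0.le
  have h3 : Real.log ((K : ℝ) + 1) ≤ Real.log (2 * Y) := by
    apply Real.log_le_log (by positivity)
    linarith
  refine h3.trans ?_
  rw [Real.log_mul (by norm_num) hY0.ne', hY, Real.log_exp]

theorem lawLog (η τ : ℝ) (hη : 0 < η) (hτ : 0 < τ) :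
    ∃ N₀ : ℕ, ∀ N ≥ N₀, ∀ M ≤ N, η * Real.log N ≤ Real.log M → ∀ a : ℕ → ℝ,
      (∀ t, |a t| ≤ 1) →
      |(∑ n ∈ Finset.Icc 1 N, (1 / (n : ℝ)) * a (ArithmeticFunction.cardFactors n)) /
          (∑ n ∈ Finset.Icc 1 N, (1 / (n : ℝ))) -
        1 / (M : ℝ) * ∑ n ∈ Finset.Icc 1 M, a (ArithmeticFunction.cardFactors n)| ≤ τ := by
  obtain ⟨N₁, hN₁⟩ := lawScale η (τ / 4) hη (by positivity)
  set η' : ℝ := τ / 16 with hη'
  have hη'0 : 0 < η' := by positivity
  obtain ⟨N₂, hN₂⟩ := lawScale η' (τ / 4) hη'0 (by positivity)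
  refine ⟨max (max N₁ N₂) (max 2 (⌈Real.exp (16 * Real.log 2 / τ)⌉₊)), ?_⟩
  intro N hN M hMN hM a ha
  have hNN₁ : N ≥ N₁ := (le_max_left _ _).trans ((le_max_left _ _).trans hN)
  have hNN₂ : N ≥ N₂ := (le_max_right _ _).trans ((le_max_left _ _).trans hN)
  have hN2 : 2 ≤ N := (le_max_left _ _).trans ((le_max_right _ _).trans hN)
  have hNe : ⌈Real.exp (16 * Real.log 2 / τ)⌉₊ ≤ N :=
    (le_max_right _ _).trans ((le_max_right _ _).trans hN)
  have hNe' : Real.exp (16 * Real.log 2 / τ) ≤ (N : ℝ) := Nat.ceil_le.1 hNe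
  have hN0 : (0 : ℝ) < (N : ℝ) := by
    have : 0 < N := by omega
    exact_mod_cast this
  have hlog : 16 * Real.log 2 / τ ≤ Real.log N := by
    rw [Real.le_log_iff_exp_le hN0]
    exact hNe'
  have hlog2 : 0 < Real.log 2 := Real.log_pos (by norm_num)
  have hlogN : 0 < Real.log N := lt_of_lt_of_le (by positivity) hlog
  set g : ℕ → ℝ := fun n => a (ArithmeticFunction.cardFactors n) with hg
  set mean : ℕ → ℝ := fun M => 1 / (M : ℝ) * ∑ n ∈ Finset.Icc 1 M, g n with hmean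
  set h : ℝ := ∑ n ∈ Finset.Icc 1 N, (1 / (n : ℝ)) with hh
  have hmean1 : ∀ M : ℕ, 1 ≤ M → |mean M| ≤ 1 := by
    intro M hM
    have hM0 : (0 : ℝ) < (M : ℝ) := by exact_mod_cast hM
    rw [hmean]
    simp only
    rw [abs_mul, abs_of_pos (by positivity : (0 : ℝ) < 1 / (M : ℝ))]
    have h1 : |∑ n ∈ Finset.Icc 1 M, g n| ≤ (M : ℝ) := by
      refine (Finset.abs_sum_le_sum_abs _ _).trans ?_
      refine (Finset.sum_le_sum (fun n _ => ha _)).trans ?_
      simp
    calc 1 / (M : ℝ) * |∑ n ∈ Finset.Icc 1 M, g n| ≤ 1 / (M : ℝ) * (M : ℝ) :=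
          mul_le_mul_of_nonneg_left h1 (by positivity)
      _ = 1 := by field_simp
  have hL := log_abel N (by omega) g
  have hh1 : h = 1 + ∑ M ∈ Finset.Icc 1 (N - 1), (1 / ((M : ℝ) + 1)) := by
    have h1 := log_abel N (by omega) (fun _ => (1 : ℝ))
    have h2 : ∑ n ∈ Finset.Icc 1 N, (1 / (n : ℝ)) * (1 : ℝ) = h := by
      rw [hh]
      refine Finset.sum_congr rfl fun n _ => mul_one _
    rw [h2] at h1
    rw [h1]
    congr 1
    · simp
      field_simp
    · refine Finset.sum_congr rfl fun M hM => ?_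
      have hM1 := (Finset.mem_Icc.1 hM).1
      have hM0 : (M : ℝ) ≠ 0 := by
        have : M ≠ 0 := by omega
        exact_mod_cast this
      simp
      field_simp
  have hlogh : Real.log N ≤ h := by
    have h1 := log_add_one_le_harmonic N
    have h2 : ((harmonic N : ℚ) : ℝ) = h := by
      rw [hh, harmonic_eq_sum_Icc]
      push_cast
      refine Finset.sum_congr rfl fun n _ => ?_
      rw [one_div]
    rw [h2] at h1
    refine le_trans ?_ h1
    apply Real.log_le_log hN0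
    push_cast
    linarith
  have hh0 : 0 < h := lt_of_lt_of_le hlogN hlogh
  have hdiff : (∑ n ∈ Finset.Icc 1 N, (1 / (n : ℝ)) * g n) - h * mean N =
      ∑ M ∈ Finset.Icc 1 (N - 1), (1 / ((M : ℝ) + 1)) * (mean M - mean N) := by
    have h1 : ∑ M ∈ Finset.Icc 1 (N - 1), (1 / ((M : ℝ) + 1)) * (mean M - mean N) =
        ∑ M ∈ Finset.Icc 1 (N - 1), (1 / ((M : ℝ) + 1)) * mean M -
          (∑ M ∈ Finset.Icc 1 (N - 1), (1 / ((M : ℝ) + 1))) * mean N := by
      rw [Finset.sum_mul, ← Finset.sum_sub_distrib]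
      refine Finset.sum_congr rfl fun M _ => by ring
    have h2 : ∑ n ∈ Finset.Icc 1 N, (1 / (n : ℝ)) * g n = mean N +
        ∑ M ∈ Finset.Icc 1 (N - 1), (1 / ((M : ℝ) + 1)) * mean M := hL
    rw [h1, h2, hh1]
    ring
  have hbound : |(∑ n ∈ Finset.Icc 1 N, (1 / (n : ℝ)) * g n) - h * mean N| ≤
      2 * (Real.log 2 + η' * Real.log N) + τ / 4 * h := by
    rw [hdiff, ← Finset.sum_filter_not_add_sum_filter (Finset.Icc 1 (N - 1))
      (fun M : ℕ => η' * Real.log N ≤ Real.log M)]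
    refine (abs_add_le _ _).trans (add_le_add ?_ ?_)
    · refine (Finset.abs_sum_le_sum_abs _ _).trans ?_
      have h1 : ∀ M ∈ (Finset.Icc 1 (N - 1)).filter
          (fun M : ℕ => ¬ η' * Real.log N ≤ Real.log M),
          |(1 / ((M : ℝ) + 1)) * (mean M - mean N)| ≤ 2 * (1 / ((M : ℝ) + 1)) := by
        intro M hM
        have hM1 := (Finset.mem_Icc.1 (Finset.mem_filter.1 hM).1).1
        rw [abs_mul, abs_of_pos (by positivity : (0 : ℝ) < 1 / ((M : ℝ) + 1)), mul_comm]
        refine mul_le_mul_of_nonneg_right ?_ (by positivity)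
        have h2 := hmean1 M hM1
        have h3 := hmean1 N (by omega)
        rw [abs_le] at h2 h3 ⊢
        constructor <;> linarith [h2.1, h2.2, h3.1, h3.2]
      refine (Finset.sum_le_sum h1).trans ?_
      rw [← Finset.mul_sum]
      exact mul_le_mul_of_nonneg_left (sum_small_scales N hN2 η' hη'0) (by norm_num)
    · refine (Finset.abs_sum_le_sum_abs _ _).trans ?_
      have h1 : ∀ M ∈ (Finset.Icc 1 (N - 1)).filter
          (fun M : ℕ => η' * Real.log N ≤ Real.log M),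
          |(1 / ((M : ℝ) + 1)) * (mean M - mean N)| ≤ τ / 4 * (1 / ((M : ℝ) + 1)) := by
        intro M hM
        have hM1 := (Finset.mem_Icc.1 (Finset.mem_filter.1 hM).1).2
        have hM2 := (Finset.mem_filter.1 hM).2
        rw [abs_mul, abs_of_pos (by positivity : (0 : ℝ) < 1 / ((M : ℝ) + 1)), mul_comm]
        refine mul_le_mul_of_nonneg_right ?_ (by positivity)
        exact hN₂ N hNN₂ M (by omega) hM2 a ha
      refine (Finset.sum_le_sum h1).trans ?_
      rw [← Finset.mul_sum]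
      refine mul_le_mul_of_nonneg_left ?_ (by positivity)
      rw [hh1]
      have h2 : ∑ M ∈ (Finset.Icc 1 (N - 1)).filter
          (fun M : ℕ => η' * Real.log N ≤ Real.log M), (1 / ((M : ℝ) + 1)) ≤
          ∑ M ∈ Finset.Icc 1 (N - 1), (1 / ((M : ℝ) + 1)) :=
        Finset.sum_le_sum_of_subset_of_nonneg (Finset.filter_subset _ _)
          (fun M _ _ => by positivity)
      linarith
  have hmain : |(∑ n ∈ Finset.Icc 1 N, (1 / (n : ℝ)) * g n) / h - mean N| ≤ τ / 2 := by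
    have h1 : (∑ n ∈ Finset.Icc 1 N, (1 / (n : ℝ)) * g n) / h - mean N =
        ((∑ n ∈ Finset.Icc 1 N, (1 / (n : ℝ)) * g n) - h * mean N) / h := by
      field_simp
    rw [h1, abs_div, abs_of_pos hh0, div_le_iff₀ hh0]
    refine hbound.trans ?_
    have h2 : 16 * Real.log 2 ≤ Real.log N * τ := by
      rw [div_le_iff₀ hτ] at hlog
      exact hlog
    have h3 : Real.log N * τ ≤ h * τ := mul_le_mul_of_nonneg_right hlogh hτ.le
    have h4 : 2 * (Real.log 2 + η' * Real.log N) ≤ τ / 4 * h := by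
      rw [hη']
      nlinarith
    linarith
  have hfin := hN₁ N hNN₁ M hMN hM a ha
  have h5 : |mean N - mean M| ≤ τ / 4 := by
    rw [abs_sub_comm]
    exact hfin
  have h6 : |(∑ n ∈ Finset.Icc 1 N, (1 / (n : ℝ)) * g n) / h - mean M| ≤ τ / 2 + τ / 4 := by
    have h7 : (∑ n ∈ Finset.Icc 1 N, (1 / (n : ℝ)) * g n) / h - mean M =
        ((∑ n ∈ Finset.Icc 1 N, (1 / (n : ℝ)) * g n) / h - mean N) + (mean N - mean M) := by ring
    rw [h7]
    exact (abs_add_le _ _).trans (add_le_add hmain h5)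
  exact h6.trans (by linarith)

end Helper11.QR
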