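import Mathlib
import Pool.Agent.Helper11.QR.LogMean

set_option autoImplicit false

/-! QR-27: from the logarithmic product law to the product laws at the scales `M ≥ N ^ η`.

Proof: replace the coordinates one at a time (hybrid argument), each step costs at most `τ'` by
`lawLog` (`τ' = τ / k`), because for fixed other coordinates `t ↦ Ψ (update ... i t)` is bounded
by `1`. The law `pL N` is the law of `Ω n` for the weights `1 / n`; the product law `∏ pL N (ℓ i)`
is supported on `ℓ i ≤ N`; write both sides as iterated one-variable means. -/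

namespace Helper11.QR

open Finset Helper13.Om

/-- Mean with respect to the product of the logarithmic laws of `Ω`. -/
noncomputable def EpL (k N : ℕ) (F : (Fin k → ℕ) → ℝ) : ℝ :=
  ∑ ℓ ∈ Fintype.piFinset (fun _ : Fin k => Finset.range (N + k + 1)), (∏ i, pL N (ℓ i)) * F ℓ

private lemma qr27_hsum_nonneg (N : ℕ) : 0 ≤ ∑ n ∈ Finset.Icc 1 N, (1 / (n : ℝ)) :=
  Finset.sum_nonneg fun n _ => by positivity

private lemma qr27_hsum_pos (N : ℕ) (hN : 1 ≤ N) : 0 < ∑ n ∈ Finset.Icc 1 N, (1 / (n : ℝ)) := by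
  apply Finset.sum_pos
  · intro n hn
    rw [Finset.mem_Icc] at hn
    have : (0 : ℝ) < n := by exact_mod_cast hn.1
    positivity
  · exact ⟨1, by rw [Finset.mem_Icc]; omega⟩

theorem pL_nonneg (N t : ℕ) : 0 ≤ pL N t := by
  unfold pL
  exact div_nonneg (Finset.sum_nonneg fun n _ => by positivity) (qr27_hsum_nonneg N)

private lemma qr27_pL_apply (N L : ℕ) (hL : N < L) (a : ℕ → ℝ) :
    ∑ t ∈ Finset.range L, pL N t * a t =
      (∑ n ∈ Finset.Icc 1 N, (1 / (n : ℝ)) * a (ArithmeticFunction.cardFactors n)) /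
        ∑ n ∈ Finset.Icc 1 N, (1 / (n : ℝ)) := by
  classical
  unfold pL
  have h1 : ∀ t ∈ Finset.range L,
      (∑ n ∈ (Finset.Icc 1 N).filter (fun n => ArithmeticFunction.cardFactors n = t),
        1 / (n : ℝ)) / (∑ n ∈ Finset.Icc 1 N, (1 / (n : ℝ))) * a t =
      (∑ n ∈ (Finset.Icc 1 N).filter (fun n => ArithmeticFunction.cardFactors n = t),
        (1 / (n : ℝ)) * a (ArithmeticFunction.cardFactors n)) /
          (∑ n ∈ Finset.Icc 1 N, (1 / (n : ℝ))) := by
    intro t _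
    rw [div_mul_eq_mul_div, Finset.sum_mul]
    congr 1
    refine Finset.sum_congr rfl fun n hn => ?_
    rw [Finset.mem_filter] at hn
    rw [hn.2]
  rw [Finset.sum_congr rfl h1, ← Finset.sum_div]
  congr 1
  apply Finset.sum_fiberwise_of_maps_to
  intro n hn
  rw [Finset.mem_Icc] at hn
  rw [Finset.mem_range]
  have := Omega_le n
  omega

theorem pL_sum (N L : ℕ) (hN : 1 ≤ N) (hL : N < L) : ∑ t ∈ Finset.range L, pL N t = 1 := by
  have h := qr27_pL_apply N L hL (fun _ => 1)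
  simp only [mul_one] at h
  rw [h, div_self (qr27_hsum_pos N hN).ne']

private lemma qr27_pO_nonneg (N t : ℕ) : 0 ≤ pO N t := by
  unfold pO
  positivity

private lemma qr27_pO_apply (N L : ℕ) (hL : N < L) (a : ℕ → ℝ) :
    ∑ t ∈ Finset.range L, pO N t * a t =
      1 / (N : ℝ) * ∑ n ∈ Finset.Icc 1 N, a (ArithmeticFunction.cardFactors n) := by
  classical
  unfold pO
  have h1 : ∀ t ∈ Finset.range L,
      1 / (N : ℝ) *
        (((Finset.Icc 1 N).filter (fun n => ArithmeticFunction.cardFactors n = t)).card : ℝ) *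
          a t =
      1 / (N : ℝ) *
        ∑ n ∈ (Finset.Icc 1 N).filter (fun n => ArithmeticFunction.cardFactors n = t),
          a (ArithmeticFunction.cardFactors n) := by
    intro t _
    have h2 : ∑ n ∈ (Finset.Icc 1 N).filter (fun n => ArithmeticFunction.cardFactors n = t),
          a (ArithmeticFunction.cardFactors n) =
        ∑ n ∈ (Finset.Icc 1 N).filter (fun n => ArithmeticFunction.cardFactors n = t), a t := by
      refine Finset.sum_congr rfl fun n hn => ?_
      rw [Finset.mem_filter] at hn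
      rw [hn.2]
    rw [h2, Finset.sum_const, nsmul_eq_mul]
    ring
  rw [Finset.sum_congr rfl h1, ← Finset.mul_sum]
  congr 1
  apply Finset.sum_fiberwise_of_maps_to
  intro n hn
  rw [Finset.mem_Icc] at hn
  rw [Finset.mem_range]
  have := Omega_le n
  omega

private lemma qr27_pO_sum (N L : ℕ) (hN : 1 ≤ N) (hL : N < L) :
    ∑ t ∈ Finset.range L, pO N t = 1 := by
  have h := qr27_pO_apply N L hL (fun _ => 1)
  simp only [mul_one] at h
  have hN0 : (N : ℝ) ≠ 0 := by
    have : N ≠ 0 := by omega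
    exact_mod_cast this
  rw [h]
  simp only [Finset.sum_const, Nat.card_Icc, nsmul_eq_mul, mul_one]
  rw [Nat.add_sub_cancel]
  field_simp

/-- product mean with one-dimensional weights `p` on `range L` -/
private noncomputable def qr27_W (k L : ℕ) (p : ℕ → ℝ) (F : (Fin k → ℕ) → ℝ) : ℝ :=
  ∑ ℓ ∈ Fintype.piFinset (fun _ : Fin k => Finset.range L), (∏ i, p (ℓ i)) * F ℓ

private lemma qr27_W_succ (k L : ℕ) (p : ℕ → ℝ) (F : (Fin (k + 1) → ℕ) → ℝ) :
    qr27_W (k + 1) L p F =
      ∑ t ∈ Finset.range L, p t * qr27_W k L p (fun ℓ => F (Fin.cons t ℓ)) := by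
  classical
  have h1 : qr27_W (k + 1) L p F =
      ∑ z ∈ (Finset.range L) ×ˢ Fintype.piFinset (fun _ : Fin k => Finset.range L),
        (p z.1 * ∏ i, p (z.2 i)) * F (Fin.cons z.1 z.2) := by
    unfold qr27_W
    refine Finset.sum_nbij' (fun ℓ => (ℓ 0, Fin.tail ℓ)) (fun z => Fin.cons z.1 z.2)
      ?_ ?_ ?_ ?_ ?_
    · intro ℓ hℓ
      rw [Fintype.mem_piFinset] at hℓ
      rw [Finset.mem_product, Fintype.mem_piFinset]
      exact ⟨hℓ 0, fun i => hℓ i.succ⟩
    · intro z hz
      rw [Finset.mem_product, Fintype.mem_piFinset] at hz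
      rw [Fintype.mem_piFinset]
      intro i
      refine Fin.cases ?_ (fun j => ?_) i
      · simpa using hz.1
      · simpa using hz.2 j
    · intro ℓ _
      simp
    · intro z _
      simp
    · intro ℓ _
      simp only [Fin.cons_self_tail]
      rw [Fin.prod_univ_succ]
      rfl
  rw [h1, Finset.sum_product]
  refine Finset.sum_congr rfl fun t _ => ?_
  unfold qr27_W
  rw [Finset.mul_sum]
  refine Finset.sum_congr rfl fun ℓ _ => ?_
  ring

private lemma qr27_W_abs (k L : ℕ) (p : ℕ → ℝ) (hp : ∀ t, 0 ≤ p t)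
    (hs : ∑ t ∈ Finset.range L, p t = 1) (F : (Fin k → ℕ) → ℝ) (hF : ∀ ℓ, |F ℓ| ≤ 1) :
    |qr27_W k L p F| ≤ 1 := by
  classical
  unfold qr27_W
  refine (Finset.abs_sum_le_sum_abs _ _).trans ?_
  have h1 : ∀ ℓ ∈ Fintype.piFinset (fun _ : Fin k => Finset.range L),
      |(∏ i, p (ℓ i)) * F ℓ| ≤ ∏ i, p (ℓ i) := by
    intro ℓ _
    have h0 : 0 ≤ ∏ i, p (ℓ i) := Finset.prod_nonneg fun i _ => hp _
    rw [abs_mul, abs_of_nonneg h0]
    have := mul_le_mul_of_nonneg_left (hF ℓ) h0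
    linarith
  refine (Finset.sum_le_sum h1).trans (le_of_eq ?_)
  have h2 := Finset.prod_univ_sum (fun _ : Fin k => Finset.range L) (fun _ t => p t)
  rw [← h2]
  simp [hs]

private lemma qr27_hybrid (L : ℕ) (p q : ℕ → ℝ) (hp : ∀ t, 0 ≤ p t) (hq : ∀ t, 0 ≤ q t)
    (hps : ∑ t ∈ Finset.range L, p t = 1) (hqs : ∑ t ∈ Finset.range L, q t = 1) (τ : ℝ)
    (h : ∀ a : ℕ → ℝ, (∀ t, |a t| ≤ 1) →
      |∑ t ∈ Finset.range L, p t * a t - ∑ t ∈ Finset.range L, q t * a t| ≤ τ) (k : ℕ) :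
    ∀ F : (Fin k → ℕ) → ℝ, (∀ ℓ, |F ℓ| ≤ 1) → |qr27_W k L p F - qr27_W k L q F| ≤ k * τ := by
  induction k with
  | zero =>
    intro F _
    unfold qr27_W
    simp
  | succ k ih =>
    intro F hF
    rw [qr27_W_succ, qr27_W_succ]
    have e1 : ∑ t ∈ Finset.range L, p t * qr27_W k L p (fun ℓ => F (Fin.cons t ℓ)) -
        ∑ t ∈ Finset.range L, q t * qr27_W k L q (fun ℓ => F (Fin.cons t ℓ)) =
        ∑ t ∈ Finset.range L, p t * (qr27_W k L p (fun ℓ => F (Fin.cons t ℓ)) -
          qr27_W k L q (fun ℓ => F (Fin.cons t ℓ))) +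
        (∑ t ∈ Finset.range L, p t * qr27_W k L q (fun ℓ => F (Fin.cons t ℓ)) -
          ∑ t ∈ Finset.range L, q t * qr27_W k L q (fun ℓ => F (Fin.cons t ℓ))) := by
      have : ∑ t ∈ Finset.range L, p t * (qr27_W k L p (fun ℓ => F (Fin.cons t ℓ)) -
          qr27_W k L q (fun ℓ => F (Fin.cons t ℓ))) =
          ∑ t ∈ Finset.range L, p t * qr27_W k L p (fun ℓ => F (Fin.cons t ℓ)) -
          ∑ t ∈ Finset.range L, p t * qr27_W k L q (fun ℓ => F (Fin.cons t ℓ)) := by
        rw [← Finset.sum_sub_distrib]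
        exact Finset.sum_congr rfl fun t _ => by ring
      rw [this]
      ring
    rw [e1]
    refine (abs_add_le _ _).trans ?_
    have h1 : |∑ t ∈ Finset.range L, p t * (qr27_W k L p (fun ℓ => F (Fin.cons t ℓ)) -
          qr27_W k L q (fun ℓ => F (Fin.cons t ℓ)))| ≤ k * τ := by
      refine (Finset.abs_sum_le_sum_abs _ _).trans ?_
      have h2 : ∀ t ∈ Finset.range L, |p t * (qr27_W k L p (fun ℓ => F (Fin.cons t ℓ)) -
          qr27_W k L q (fun ℓ => F (Fin.cons t ℓ)))| ≤ p t * (k * τ) := by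
        intro t _
        rw [abs_mul, abs_of_nonneg (hp t)]
        exact mul_le_mul_of_nonneg_left (ih _ (fun ℓ => hF _)) (hp t)
      refine (Finset.sum_le_sum h2).trans (le_of_eq ?_)
      rw [← Finset.sum_mul, hps, one_mul]
    have h3 := h (fun t => qr27_W k L q (fun ℓ => F (Fin.cons t ℓ)))
      (fun t => qr27_W_abs k L q hq hqs _ (fun ℓ => hF _))
    push_cast
    linarith

private lemma qr27_Ep (k M L : ℕ) (hL : M < L) (F : (Fin k → ℕ) → ℝ) :
    Ep k M F = qr27_W k L (pO M) F := by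
  classical
  unfold Ep qr27_W
  have e1 : ∀ ℓ : Fin k → ℕ, ∏ i, pO M (ℓ i) = 1 / (M : ℝ) ^ k *
      ∑ m ∈ Fintype.piFinset (fun i : Fin k => (Finset.Icc 1 M).filter
        (fun n => ArithmeticFunction.cardFactors n = ℓ i)), (1 : ℝ) := by
    intro ℓ
    unfold pO
    rw [Finset.prod_mul_distrib, Finset.prod_const, Finset.card_univ, Fintype.card_fin,
      one_div_pow]
    congr 1
    rw [Finset.sum_const, nsmul_eq_mul, mul_one, Fintype.card_piFinset]
    push_cast
    rfl
  have e2 : ∀ ℓ : Fin k → ℕ, (∏ i, pO M (ℓ i)) * F ℓ = 1 / (M : ℝ) ^ k *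
      ∑ m ∈ (Fintype.piFinset (fun _ : Fin k => Finset.Icc 1 M)).filter
        (fun m => (fun i => ArithmeticFunction.cardFactors (m i)) = ℓ),
          F (fun i => ArithmeticFunction.cardFactors (m i)) := by
    intro ℓ
    rw [e1 ℓ, mul_assoc, Finset.sum_mul]
    congr 1
    have e3 : Fintype.piFinset (fun i : Fin k => (Finset.Icc 1 M).filter
        (fun n => ArithmeticFunction.cardFactors n = ℓ i)) =
        (Fintype.piFinset (fun _ : Fin k => Finset.Icc 1 M)).filter
        (fun m => (fun i => ArithmeticFunction.cardFactors (m i)) = ℓ) := by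
      ext m
      simp only [Fintype.mem_piFinset, Finset.mem_filter]
      constructor
      · intro hm
        exact ⟨fun i => (hm i).1, funext fun i => (hm i).2⟩
      · rintro ⟨hm1, hm2⟩ i
        exact ⟨hm1 i, congrFun hm2 i⟩
    rw [e3]
    refine Finset.sum_congr rfl fun m hm => ?_
    rw [Finset.mem_filter] at hm
    rw [hm.2, one_mul]
  rw [Finset.sum_congr rfl fun ℓ _ => e2 ℓ, ← Finset.mul_sum]
  congr 1
  symm
  apply Finset.sum_fiberwise_of_maps_to
  intro m hm
  rw [Fintype.mem_piFinset] at hm ⊢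
  intro i
  have h1 := Finset.mem_Icc.mp (hm i)
  have h2 := Omega_le (m i)
  rw [Finset.mem_range]
  omega

theorem cutLog (k : ℕ) (η τ : ℝ) (hη : 0 < η) (hτ : 0 < τ) :
    ∃ N₀ : ℕ, ∀ N ≥ N₀, ∀ M ≤ N, η * Real.log N ≤ Real.log M → ∀ Ψ : (Fin k → ℕ) → ℝ,
      (∀ ℓ, |Ψ ℓ| ≤ 1) → |EpL k N Ψ - Ep k M Ψ| ≤ τ := by
  obtain ⟨N₁, hN₁⟩ := lawLog η (τ / (k + 1)) hη (by positivity)
  refine ⟨max N₁ 2, fun N hN M hM hlog Ψ hΨ => ?_⟩
  have hN1 : N₁ ≤ N := (le_max_left _ _).trans hN
  have hN2 : 2 ≤ N := (le_max_right _ _).trans hN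
  have hM1 : 1 ≤ M := by
    by_contra hcon
    have hM0 : M = 0 := by omega
    rw [hM0] at hlog
    have h1 : 0 < Real.log N := Real.log_pos (by exact_mod_cast hN2)
    have h2 : 0 < η * Real.log N := by positivity
    simp at hlog
    linarith
  have h1 := hN₁ N hN1 M hM hlog
  have hE : EpL k N Ψ = qr27_W k (N + k + 1) (pL N) Ψ := rfl
  rw [hE, qr27_Ep k M (N + k + 1) (by omega) Ψ]
  have h2 := qr27_hybrid (N + k + 1) (pL N) (pO M) (pL_nonneg N) (qr27_pO_nonneg M)
    (pL_sum N _ (by omega) (by omega)) (qr27_pO_sum M _ hM1 (by omega)) (τ / (k + 1))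
    (by
      intro a ha
      rw [qr27_pL_apply N _ (by omega), qr27_pO_apply M _ (by omega)]
      exact h1 a ha) k Ψ hΨ
  refine h2.trans ?_
  rw [← mul_div_assoc, div_le_iff₀ (by positivity)]
  nlinarith

end Helper11.QR
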