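import Mathlib
import Pool.Agent.Helper11.QR.Defs

set_option autoImplicit false

/-! QR-24: weak regularity (Frieze-Kannan) for a product weight.

Statement: for every `k`, `δ > 0` there is `C` such that every `F : (Fin k → ℕ) → [-1, 1]` is
`S + r` with `S = ∑_{j < J} c_j 1[ℓ i ∈ A j i for all i]`, `J ≤ C`, `|c_j| ≤ 1`, `|S| ≤ 1`
(the boxes are disjoint), and `r = F - S` is `δ`-small against products of bounded functions.

Proof. Let `Ω = piFinset (range L)`, `μ ℓ = ∏ p (ℓ i)` (a probability). For a finite family `𝒞` of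
cylinders `{ℓ : ℓ i ∈ A}` (`i : Fin k`, `A ⊆ range L`) let `E(F | 𝒞)` be the conditional
expectation on the partition generated by `𝒞`. Put `δ' = δ / 2 ^ k`. If some box
`X = {ℓ : ∀ i, ℓ i ∈ A i}` has `|∑ μ (F - E(F | 𝒞)) 1_X| > δ'`, add the `k` cylinders
`{ℓ i ∈ A i}` to get `𝒞'`. Then `1_X` is measurable for `𝒞'`, so
`δ' < |∑ μ (E(F|𝒞') - E(F|𝒞)) 1_X| ≤ ‖E(F|𝒞') - E(F|𝒞)‖₂` and by Pythagoras the energy
`‖E(F|𝒞)‖₂² ≤ 1` increases by at least `δ' ^ 2`. So after at most `1 / δ'^2` steps no such box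
exists; then `𝒞` has at most `k / δ'^2` cylinders, `E(F|𝒞)` is constant on at most
`2 ^ (k / δ'^2)` atoms, every atom is a box (the complement of a cylinder is a cylinder), and
`|E(F|𝒞)| ≤ 1`. Finally, for `f i : ℕ → [-1, 1]` the multilinear form
`∑ μ r ∏ f i (ℓ i)` is maximal in absolute value at functions with values `±1`,
`f i = 1_{A i} - 1_{(A i)ᶜ}`, and expands into `2 ^ k` boxes: `≤ 2 ^ k δ' = δ`. -/

namespace Helper11.QR

open Finset

namespace RegAux

lemma form_le {ι : Type*} [Fintype ι] [DecidableEq ι] (L : ℕ) (R : (ι → ℕ) → ℝ) {δ : ℝ}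
    (hbox : ∀ f : ι → ℕ → ℝ, (∀ i t, f i t = 0 ∨ f i t = 1) →
      |∑ ℓ ∈ Fintype.piFinset (fun _ : ι => Finset.range L), R ℓ * ∏ i, f i (ℓ i)| ≤ δ)
    (s : Finset ι) : ∀ f : ι → ℕ → ℝ, (∀ i t, |f i t| ≤ 1) →
      (∀ i, i ∉ s → ∀ t, f i t = 0 ∨ f i t = 1) →
      |∑ ℓ ∈ Fintype.piFinset (fun _ : ι => Finset.range L), R ℓ * ∏ i, f i (ℓ i)| ≤
        2 ^ s.card * δ := by
  classical
  induction s using Finset.induction_on with
  | empty =>
    intro f _ hf
    simpa using hbox f (fun i t => hf i (by simp) t)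
  | insert i s his ih =>
    intro f hf1 hf2
    set w : ℕ → ℝ := fun t => ∑ ℓ ∈ Fintype.piFinset (fun _ : ι => Finset.range L),
      if ℓ i = t then R ℓ * ∏ j ∈ Finset.univ.erase i, f j (ℓ j) else 0 with hw
    have key : ∀ u : ℕ → ℝ,
        ∑ ℓ ∈ Fintype.piFinset (fun _ : ι => Finset.range L),
          R ℓ * ∏ j, (Function.update f i u) j (ℓ j) = ∑ t ∈ Finset.range L, u t * w t := by
      intro u
      simp only [hw, Finset.mul_sum]
      rw [Finset.sum_comm]
      refine Finset.sum_congr rfl fun ℓ hℓ => ?_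
      have hℓi : ℓ i ∈ Finset.range L := (Fintype.mem_piFinset.1 hℓ) i
      rw [Finset.sum_eq_single (ℓ i)]
      · rw [if_pos rfl, ← Finset.mul_prod_erase Finset.univ _ (Finset.mem_univ i)]
        have : ∏ j ∈ Finset.univ.erase i, (Function.update f i u) j (ℓ j) =
            ∏ j ∈ Finset.univ.erase i, f j (ℓ j) := by
          refine Finset.prod_congr rfl fun j hj => ?_
          rw [Function.update_of_ne (Finset.ne_of_mem_erase hj)]
        rw [this, Function.update_self]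
        ring
      · intro t _ ht
        rw [if_neg (fun h => ht h.symm), mul_zero]
      · intro h
        exact absurd hℓi h
    set u1 : ℕ → ℝ := fun t => if 0 ≤ w t then 1 else 0 with hu1
    set u2 : ℕ → ℝ := fun t => if 0 ≤ w t then 0 else 1 with hu2
    have hcond : ∀ u : ℕ → ℝ, (∀ t, u t = 0 ∨ u t = 1) →
        |∑ t ∈ Finset.range L, u t * w t| ≤ 2 ^ s.card * δ := by
      intro u hu
      rw [← key u]
      refine ih _ ?_ ?_
      · intro j t
        rcases eq_or_ne j i with rfl | hj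
        · rw [Function.update_self]
          rcases hu t with h | h <;> simp [h]
        · rw [Function.update_of_ne hj]
          exact hf1 j t
      · intro j hj t
        rcases eq_or_ne j i with rfl | hji
        · rw [Function.update_self]
          exact hu t
        · rw [Function.update_of_ne hji]
          exact hf2 j (by simp [hji, hj]) t
    have h1 := hcond u1 (fun t => by simp only [hu1]; split_ifs <;> simp)
    have h2 := hcond u2 (fun t => by simp only [hu2]; split_ifs <;> simp)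
    have h0 : ∑ ℓ ∈ Fintype.piFinset (fun _ : ι => Finset.range L), R ℓ * ∏ j, f j (ℓ j) =
        ∑ t ∈ Finset.range L, f i t * w t := by
      have := key (f i)
      rwa [Function.update_eq_self] at this
    rw [h0, Finset.card_insert_of_notMem his, pow_succ]
    calc |∑ t ∈ Finset.range L, f i t * w t| ≤ ∑ t ∈ Finset.range L, |f i t * w t| :=
          Finset.abs_sum_le_sum_abs _ _
      _ ≤ ∑ t ∈ Finset.range L, (u1 t * w t - u2 t * w t) := by
          refine Finset.sum_le_sum fun t _ => ?_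
          rw [abs_mul]
          have hf := hf1 i t
          have h3 : |f i t| * |w t| ≤ 1 * |w t| := mul_le_mul_of_nonneg_right hf (abs_nonneg _)
          refine h3.trans ?_
          simp only [hu1, hu2]
          split_ifs with h
          · rw [abs_of_nonneg h]; simp
          · rw [abs_of_neg (not_le.1 h)]; simp
      _ = ∑ t ∈ Finset.range L, u1 t * w t - ∑ t ∈ Finset.range L, u2 t * w t := by
          rw [Finset.sum_sub_distrib]
      _ ≤ 2 ^ s.card * δ * 2 := by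
          have h3 := (abs_le.1 h1).2
          have h4 := (abs_le.1 h2).1
          linarith
      _ = 2 ^ s.card * 2 * δ := by ring

/-- conditional expectation on the fibres of `G` -/
noncomputable def ce {X β : Type*} [DecidableEq β] (Ω : Finset X) (μ F : X → ℝ) (G : X → β)
    (a : β) : ℝ :=
  (∑ x ∈ Ω.filter (fun x => G x = a), μ x * F x) / (∑ x ∈ Ω.filter (fun x => G x = a), μ x)

section

variable {X β γ : Type*} [DecidableEq β] [DecidableEq γ] {Ω : Finset X} {μ F : X → ℝ}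

lemma ce_orth (hμ : ∀ x, 0 ≤ μ x) (G : X → β) (h : β → ℝ) :
    ∑ x ∈ Ω, μ x * ((F x - ce Ω μ F G (G x)) * h (G x)) = 0 := by
  classical
  rw [← Finset.sum_fiberwise_of_maps_to (s := Ω) (t := Ω.image G) (g := G)
    (fun x hx => Finset.mem_image_of_mem G hx)]
  refine Finset.sum_eq_zero fun a _ => ?_
  have h1 : ∑ x ∈ Ω.filter (fun x => G x = a), μ x * ((F x - ce Ω μ F G (G x)) * h (G x)) =
      h a * (∑ x ∈ Ω.filter (fun x => G x = a), μ x * F x -
        ce Ω μ F G a * ∑ x ∈ Ω.filter (fun x => G x = a), μ x) := by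
    rw [mul_sub, Finset.mul_sum, Finset.mul_sum, Finset.mul_sum, ← Finset.sum_sub_distrib]
    refine Finset.sum_congr rfl fun x hx => ?_
    rw [(Finset.mem_filter.1 hx).2]
    ring
  rw [h1]
  by_cases h0 : ∑ x ∈ Ω.filter (fun x => G x = a), μ x = 0
  · have h2 : ∑ x ∈ Ω.filter (fun x => G x = a), μ x * F x = 0 := by
      refine Finset.sum_eq_zero fun x hx => ?_
      rw [(Finset.sum_eq_zero_iff_of_nonneg (fun y _ => hμ y)).1 h0 x hx, zero_mul]
    rw [h2, h0]
    ring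
  · rw [ce, div_mul_cancel₀ _ h0, sub_self, mul_zero]

lemma ce_abs (hμ : ∀ x, 0 ≤ μ x) (hF : ∀ x, |F x| ≤ 1) (G : X → β) (a : β) :
    |ce Ω μ F G a| ≤ 1 := by
  have h0 : 0 ≤ ∑ x ∈ Ω.filter (fun x => G x = a), μ x := Finset.sum_nonneg fun x _ => hμ x
  rw [ce, abs_div, abs_of_nonneg h0]
  refine div_le_one_of_le₀ ?_ h0
  refine (Finset.abs_sum_le_sum_abs _ _).trans (Finset.sum_le_sum fun x _ => ?_)
  rw [abs_mul, abs_of_nonneg (hμ x)]
  exact mul_le_of_le_one_right (hμ x) (hF x)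

lemma ce_incr (hμ : ∀ x, 0 ≤ μ x) (hμ1 : ∑ x ∈ Ω, μ x = 1) (G : X → β) (G' : X → γ)
    (φ : γ → β) (hφ : ∀ x, G x = φ (G' x)) (h : γ → ℝ) (hh : ∀ x, |h (G' x)| ≤ 1) :
    (∑ x ∈ Ω, μ x * ((F x - ce Ω μ F G (G x)) * h (G' x))) ^ 2 ≤
      ∑ x ∈ Ω, μ x * ce Ω μ F G' (G' x) ^ 2 - ∑ x ∈ Ω, μ x * ce Ω μ F G (G x) ^ 2 := by
  set s := ∑ x ∈ Ω, μ x * ((F x - ce Ω μ F G (G x)) * h (G' x)) with hs
  set C : X → ℝ := fun x => ce Ω μ F G (G x) with hC
  set C' : X → ℝ := fun x => ce Ω μ F G' (G' x) with hC'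
  have e1 : ∑ x ∈ Ω, μ x * ((F x - C x) * C x) = 0 := ce_orth hμ G (fun a => ce Ω μ F G a)
  have e2 : ∑ x ∈ Ω, μ x * ((F x - C' x) * C x) = 0 := by
    have := ce_orth (Ω := Ω) (F := F) hμ G' (fun a => ce Ω μ F G (φ a))
    simpa only [hC, hC', hφ] using this
  have e3 : ∑ x ∈ Ω, μ x * ((F x - C' x) * h (G' x)) = 0 := ce_orth hμ G' h
  have e4 : ∑ x ∈ Ω, μ x * ((C' x - C x) * h (G' x)) = s := by
    have : ∑ x ∈ Ω, μ x * ((C' x - C x) * h (G' x)) =
        s - ∑ x ∈ Ω, μ x * ((F x - C' x) * h (G' x)) := by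
      rw [hs, ← Finset.sum_sub_distrib]
      exact Finset.sum_congr rfl fun x _ => by ring
    rw [this, e3, sub_zero]
  have e5 : ∑ x ∈ Ω, μ x * (C' x - C x) ^ 2 =
      ∑ x ∈ Ω, μ x * C' x ^ 2 - ∑ x ∈ Ω, μ x * C x ^ 2 := by
    have : ∑ x ∈ Ω, μ x * (C' x - C x) ^ 2 =
        ∑ x ∈ Ω, μ x * C' x ^ 2 - ∑ x ∈ Ω, μ x * C x ^ 2 +
          2 * ∑ x ∈ Ω, μ x * ((F x - C' x) * C x) - 2 * ∑ x ∈ Ω, μ x * ((F x - C x) * C x) := by
      rw [Finset.mul_sum, Finset.mul_sum, ← Finset.sum_sub_distrib, ← Finset.sum_add_distrib,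
        ← Finset.sum_sub_distrib]
      exact Finset.sum_congr rfl fun x _ => by ring
    rw [this, e1, e2]
    ring
  have e6 : 0 ≤ ∑ x ∈ Ω, μ x * (C' x - C x - s * h (G' x)) ^ 2 :=
    Finset.sum_nonneg fun x _ => mul_nonneg (hμ x) (sq_nonneg _)
  have e7 : ∀ s : ℝ, ∑ x ∈ Ω, μ x * (C' x - C x - s * h (G' x)) ^ 2 =
      ∑ x ∈ Ω, μ x * (C' x - C x) ^ 2 - 2 * s * ∑ x ∈ Ω, μ x * ((C' x - C x) * h (G' x)) +
        s ^ 2 * ∑ x ∈ Ω, μ x * h (G' x) ^ 2 := by
    intro s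
    rw [Finset.mul_sum, Finset.mul_sum, ← Finset.sum_sub_distrib, ← Finset.sum_add_distrib]
    exact Finset.sum_congr rfl fun x _ => by ring
  have e8 : ∑ x ∈ Ω, μ x * h (G' x) ^ 2 ≤ 1 := by
    rw [← hμ1]
    refine Finset.sum_le_sum fun x _ => ?_
    refine mul_le_of_le_one_right (hμ x) ?_
    rw [← sq_abs]
    exact pow_le_one₀ (abs_nonneg _) (hh x)
  rw [e7 s, e4, e5] at e6
  have e9 : s ^ 2 * ∑ x ∈ Ω, μ x * h (G' x) ^ 2 ≤ s ^ 2 * 1 :=
    mul_le_mul_of_nonneg_left e8 (sq_nonneg _)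
  nlinarith

end

end RegAux

open RegAux

theorem regBox (k : ℕ) (δ : ℝ) (hδ : 0 < δ) : ∃ C : ℕ, ∀ (L : ℕ) (p : ℕ → ℝ),
    (∀ t, 0 ≤ p t) → (∑ t ∈ Finset.range L, p t = 1) →
    ∀ F : (Fin k → ℕ) → ℝ, (∀ ℓ, |F ℓ| ≤ 1) →
    ∃ (J : ℕ) (c : Fin J → ℝ) (A : Fin J → Fin k → Finset ℕ), J ≤ C ∧ (∀ j, |c j| ≤ 1) ∧
      (∀ ℓ : Fin k → ℕ, |∑ j, c j * (if ∀ i, ℓ i ∈ A j i then (1 : ℝ) else 0)| ≤ 1) ∧
      ∀ f : Fin k → ℕ → ℝ, (∀ i t, |f i t| ≤ 1) →
        |∑ ℓ ∈ Fintype.piFinset (fun _ : Fin k => Finset.range L), (∏ i, p (ℓ i)) *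
          ((F ℓ - ∑ j, c j * (if ∀ i, ℓ i ∈ A j i then (1 : ℝ) else 0)) *
            ∏ i, f i (ℓ i))| ≤ δ := by
  classical
  set δ' : ℝ := δ / 2 ^ k with hδ'
  have hδ'0 : 0 < δ' := by positivity
  obtain ⟨n, hn⟩ : ∃ n : ℕ, 1 / δ' ^ 2 < n := exists_nat_gt _
  refine ⟨(2 ^ n) ^ k, fun L p hp hp1 F hF => ?_⟩
  set Ω := Fintype.piFinset (fun _ : Fin k => Finset.range L) with hΩ
  set μ : (Fin k → ℕ) → ℝ := fun ℓ => ∏ i, p (ℓ i) with hμdef
  have hμ : ∀ ℓ, 0 ≤ μ ℓ := fun ℓ => Finset.prod_nonneg fun i _ => hp _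
  have hμ1 : ∑ ℓ ∈ Ω, μ ℓ = 1 := by
    have h := (Finset.prod_univ_sum (fun _ : Fin k => Finset.range L) (fun _ t => p t)).symm
    rw [hΩ, hμdef, h]
    simp [hp1]
  set GG : (Fin k → ℕ → ℕ) → (Fin k → ℕ) → (Fin k → ℕ) := fun g ℓ i => g i (ℓ i) with hGG
  set good : (Fin k → ℕ → ℕ) → Prop := fun g => ∀ u : Fin k → ℕ → ℝ,
    (∀ i t, u i t = 0 ∨ u i t = 1) →
    |∑ ℓ ∈ Ω, μ ℓ * ((F ℓ - ce Ω μ F (GG g) (GG g ℓ)) * ∏ i, u i (ℓ i))| ≤ δ' with hgood
  have hiter : ∀ n : ℕ, (∃ m ≤ n, ∃ g : Fin k → ℕ → ℕ, (∀ i t, g i t < 2 ^ m) ∧ good g) ∨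
      (∃ g : Fin k → ℕ → ℕ, (∀ i t, g i t < 2 ^ n) ∧
        n * δ' ^ 2 ≤ ∑ ℓ ∈ Ω, μ ℓ * ce Ω μ F (GG g) (GG g ℓ) ^ 2) := by
    intro n
    induction n with
    | zero =>
      right
      refine ⟨fun _ _ => 0, fun _ _ => by simp, ?_⟩
      simp only [Nat.cast_zero, zero_mul]
      exact Finset.sum_nonneg fun x _ => mul_nonneg (hμ x) (sq_nonneg _)
    | succ n ih =>
      rcases ih with ⟨m, hm, h⟩ | ⟨g, hg, hE⟩
      · exact Or.inl ⟨m, hm.trans (Nat.le_succ n), h⟩
      · by_cases hgg : good g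
        · exact Or.inl ⟨n, Nat.le_succ n, g, hg, hgg⟩
        · right
          simp only [hgood] at hgg
          push Not at hgg
          obtain ⟨u, hu, hlt⟩ := hgg
          set g' : Fin k → ℕ → ℕ := fun i t => 2 * g i t + (if u i t = 1 then 1 else 0) with hg'
          refine ⟨g', ?_, ?_⟩
          · intro i t
            have h1 := hg i t
            have h2 : (if u i t = 1 then 1 else 0 : ℕ) ≤ 1 := by split_ifs <;> simp
            have h3 : g' i t = 2 * g i t + (if u i t = 1 then 1 else 0 : ℕ) := rfl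
            rw [h3, pow_succ]
            omega
          · have hφ : ∀ ℓ, GG g ℓ = (fun a : Fin k → ℕ => fun i => a i / 2) (GG g' ℓ) := by
              intro ℓ
              funext i
              have h2 : (if u i (ℓ i) = 1 then 1 else 0 : ℕ) ≤ 1 := by split_ifs <;> simp
              have h3 : GG g' ℓ i = 2 * g i (ℓ i) + (if u i (ℓ i) = 1 then 1 else 0 : ℕ) := rfl
              have h4 : GG g ℓ i = g i (ℓ i) := rfl
              simp only []
              rw [h3, h4]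
              omega
            have hh : ∀ ℓ, ∏ i, u i (ℓ i) =
                (fun a : Fin k → ℕ => ∏ i, ((a i % 2 : ℕ) : ℝ)) (GG g' ℓ) := by
              intro ℓ
              refine Finset.prod_congr rfl fun i _ => ?_
              have h3 : GG g' ℓ i = 2 * g i (ℓ i) + (if u i (ℓ i) = 1 then 1 else 0 : ℕ) := rfl
              rw [h3]
              rcases hu i (ℓ i) with h | h
              · rw [h, if_neg (by norm_num), Nat.add_zero, Nat.mul_mod_right]
                simp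
              · rw [h, if_pos rfl, Nat.mul_add_mod]
                simp
            have hb : ∀ ℓ, |(fun a : Fin k → ℕ => ∏ i, ((a i % 2 : ℕ) : ℝ)) (GG g' ℓ)| ≤ 1 := by
              intro ℓ
              rw [← hh ℓ, Finset.abs_prod]
              refine Finset.prod_le_one (fun i _ => abs_nonneg _) (fun i _ => ?_)
              rcases hu i (ℓ i) with h | h <;> simp [h]
            have hinc := ce_incr (F := F) hμ hμ1 (GG g) (GG g')
              (fun a : Fin k → ℕ => fun i => a i / 2) hφ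
              (fun a : Fin k → ℕ => ∏ i, ((a i % 2 : ℕ) : ℝ)) hb
            have hs : ∑ ℓ ∈ Ω, μ ℓ * ((F ℓ - ce Ω μ F (GG g) (GG g ℓ)) *
                (fun a : Fin k → ℕ => ∏ i, ((a i % 2 : ℕ) : ℝ)) (GG g' ℓ)) =
                ∑ ℓ ∈ Ω, μ ℓ * ((F ℓ - ce Ω μ F (GG g) (GG g ℓ)) * ∏ i, u i (ℓ i)) :=
              Finset.sum_congr rfl fun ℓ _ => by rw [← hh ℓ]
            rw [hs] at hinc
            have h5 : δ' ^ 2 ≤ (∑ ℓ ∈ Ω, μ ℓ * ((F ℓ - ce Ω μ F (GG g) (GG g ℓ)) *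
                ∏ i, u i (ℓ i))) ^ 2 := by
              rw [← sq_abs (∑ ℓ ∈ Ω, _)]
              exact pow_le_pow_left₀ hδ'0.le hlt.le 2
            push_cast
            linarith
  have hfin : ∃ m ≤ n, ∃ g : Fin k → ℕ → ℕ, (∀ i t, g i t < 2 ^ m) ∧ good g := by
    rcases hiter n with h | ⟨g, _, hE⟩
    · exact h
    · exfalso
      have h1 : ∑ ℓ ∈ Ω, μ ℓ * ce Ω μ F (GG g) (GG g ℓ) ^ 2 ≤ 1 := by
        rw [← hμ1]
        refine Finset.sum_le_sum fun ℓ _ => mul_le_of_le_one_right (hμ ℓ) ?_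
        rw [← sq_abs]
        exact pow_le_one₀ (abs_nonneg _) (ce_abs hμ hF _ _)
      have h2 : 1 < n * δ' ^ 2 := by
        rw [div_lt_iff₀ (by positivity)] at hn
        exact hn
      linarith
  obtain ⟨m, hm, g, hg, hgg⟩ := hfin
  set a : Fin ((2 ^ m) ^ k) → Fin k → ℕ := fun j i => ((finFunctionFinEquiv.symm j) i : ℕ)
    with ha
  set A : Fin ((2 ^ m) ^ k) → Fin k → Finset ℕ := fun j i =>
    (Finset.range L).filter (fun t => g i t = a j i) with hA
  have hS : ∀ ℓ : Fin k → ℕ, ∑ j, ce Ω μ F (GG g) (a j) * (if ∀ i, ℓ i ∈ A j i then (1 : ℝ) else 0)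
      = if ℓ ∈ Ω then ce Ω μ F (GG g) (GG g ℓ) else 0 := by
    intro ℓ
    split_ifs with hℓ
    · have hℓ' : ∀ i, ℓ i ∈ Finset.range L := Fintype.mem_piFinset.1 hℓ
      rw [Finset.sum_eq_single (finFunctionFinEquiv (fun i => (⟨g i (ℓ i), hg i (ℓ i)⟩ : Fin (2 ^ m))))]
      · have haj : a (finFunctionFinEquiv (fun i => (⟨g i (ℓ i), hg i (ℓ i)⟩ : Fin (2 ^ m)))) =
            GG g ℓ := by
          funext i
          simp only [ha, Equiv.symm_apply_apply, hGG]
        rw [if_pos, haj, mul_one]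
        intro i
        simp only [hA, Finset.mem_filter]
        refine ⟨hℓ' i, ?_⟩
        rw [haj]
      · intro j _ hj
        rw [if_neg, mul_zero]
        intro hall
        apply hj
        rw [← Equiv.symm_apply_eq]
        funext i
        have := (Finset.mem_filter.1 (hall i)).2
        apply Fin.ext
        simp only
        rw [this]
      · intro h
        exact absurd (Finset.mem_univ _) h
    · refine Finset.sum_eq_zero fun j _ => ?_
      rw [if_neg, mul_zero]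
      intro hall
      exact hℓ (Fintype.mem_piFinset.2 fun i => (Finset.mem_filter.1 (hall i)).1)
  refine ⟨(2 ^ m) ^ k, fun j => ce Ω μ F (GG g) (a j), A, ?_, fun j => ce_abs hμ hF _ _, ?_, ?_⟩
  · exact Nat.pow_le_pow_left (Nat.pow_le_pow_right (by norm_num) hm) k
  · intro ℓ
    rw [hS ℓ]
    split_ifs
    · exact ce_abs hμ hF _ _
    · simp
  · intro f hf
    have h1 := form_le L (fun ℓ => μ ℓ * (F ℓ - ce Ω μ F (GG g) (GG g ℓ))) (δ := δ')
      (fun u hu => by
        have := hgg u hu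
        simpa only [mul_assoc] using this) Finset.univ f hf (fun i hi => absurd (Finset.mem_univ i) hi)
    rw [Finset.card_univ, Fintype.card_fin, hδ', mul_div_cancel₀ _ (by positivity)] at h1
    refine le_trans (le_of_eq ?_) h1
    congr 1
    refine Finset.sum_congr rfl fun ℓ hℓ => ?_
    rw [hS ℓ, if_pos hℓ]
    ring

end Helper11.QR
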