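import Mathlib
import Pool.Agent.Helper11.QR.Core
import Pool.Agent.Helper11.QR.Reg

set_option autoImplicit false

/-! QR-25: part B, almost all scales.

Proof. Let `δ₁, N₀` be given by `core` for `ε ρ / 16` and let `C` be given by `regBox` for `2 δ₁`
(min with `ε / 8`, say: `δ₂ = min (2 δ₁) (ε / 8)`); put `δ = ε / (8 (C + 1))`. For `M` with
`BoxLe k M δ` and `ε < DN k M` let `a` be given by `DN_eq_Lam` (Helper13/Om/Reduction.lean):
`|a| ≤ 1`, `ε < Lam k M a = Em k M a - Ep k M a`. By `regBox` with `p = pO M`, `L = M + k + 1`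
(`pi_apply`: `Ep k M G = ∑_{ℓ ∈ Bx k M} piN k M ℓ * G ℓ`, `piN k M ℓ = ∏ pO M (ℓ i)`; the sum of
`pO M` over `range L` is `1` for `M ≥ 1`), `a = S + r`. By `BoxLe`,
`|Em k M S - Ep k M S| ≤ C δ ≤ ε / 8` (`Em` of a box indicator is the density of
`{n : ∀ i, Ω(n + i) ∈ A i}`, `Ep` of it is the product of the densities); `|Ep k M r| ≤ δ₂ ≤ ε/8`
(`f = 1`). So `Em k M r ≥ ε - ε / 4 ≥ ε / 2`. `r / 2` is bounded by `1` and `CutLe k M δ₁ (r / 2)`.
Apply `core` to `F M = r_M / 2` for these `M` and `F M = 0` otherwise: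
`∑_{bad M ≤ N} (1 / M) (ε / 4) ≤ (ε ρ / 16) log N`. -/

namespace Helper11.QR

open Finset Helper13.Om

/-- `Ω(n), ..., Ω(n+k-1)` are independent on boxes up to `δ`, at scale `M`. -/
def BoxLe (k M : ℕ) (δ : ℝ) : Prop :=
  ∀ A : Fin k → Finset ℕ,
    |1 / (M : ℝ) * (((Finset.Icc 1 M).filter
        (fun n => ∀ i : Fin k, ArithmeticFunction.cardFactors (n + (i : ℕ)) ∈ A i)).card : ℝ) -
      ∏ i : Fin k, (1 / (M : ℝ) * (((Finset.Icc 1 M).filter
        (fun n => ArithmeticFunction.cardFactors n ∈ A i)).card : ℝ))| ≤ δ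

/-- the law of `Ω` is a probability -/
lemma partB_sum_pO (M L : ℕ) (hM : 1 ≤ M) (hL : M < L) : ∑ t ∈ Finset.range L, pO M t = 1 := by
  unfold pO
  rw [← Finset.mul_sum]
  have h1 : ∑ t ∈ Finset.range L, (((Finset.Icc 1 M).filter
      (fun n => ArithmeticFunction.cardFactors n = t)).card : ℝ) = M := by
    have h2 := Finset.card_eq_sum_card_fiberwise (s := Finset.Icc 1 M) (t := Finset.range L)
      (f := fun n => ArithmeticFunction.cardFactors n) (by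
        intro n hn
        rw [Finset.mem_coe, Finset.mem_Icc] at hn
        rw [Finset.mem_coe, Finset.mem_range]
        have := Omega_le n
        show ArithmeticFunction.cardFactors n < L
        omega)
    rw [Nat.card_Icc] at h2
    have h3 : M + 1 - 1 = M := by omega
    rw [h3] at h2
    exact_mod_cast h2.symm
  rw [h1]
  have : (M : ℝ) ≠ 0 := by
    have : M ≠ 0 := by omega
    exact_mod_cast this
  field_simp

lemma partB_Ep_eq (k M : ℕ) (G : (Fin k → ℕ) → ℝ) :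
    Ep k M G = ∑ ℓ ∈ Fintype.piFinset (fun _ : Fin k => Finset.range (M + k + 1)),
      (∏ i, pO M (ℓ i)) * G ℓ := by
  unfold Ep
  rw [pi_apply]
  rfl

lemma partB_Em_box (k M : ℕ) (A : Fin k → Finset ℕ) :
    Em k M (fun ℓ => if ∀ i, ℓ i ∈ A i then (1 : ℝ) else 0) =
      1 / (M : ℝ) * (((Finset.Icc 1 M).filter
        (fun n => ∀ i : Fin k, ArithmeticFunction.cardFactors (n + (i : ℕ)) ∈ A i)).card : ℝ) := by
  unfold Em
  rw [← Finset.sum_filter, Finset.sum_const, nsmul_eq_mul, mul_one]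

lemma partB_Ep_box (k M : ℕ) (A : Fin k → Finset ℕ) :
    Ep k M (fun ℓ => if ∀ i, ℓ i ∈ A i then (1 : ℝ) else 0) =
      ∏ i : Fin k, (1 / (M : ℝ) * (((Finset.Icc 1 M).filter
        (fun n => ArithmeticFunction.cardFactors n ∈ A i)).card : ℝ)) := by
  classical
  unfold Ep
  rw [Finset.prod_mul_distrib, Finset.prod_const, Finset.card_univ, Fintype.card_fin,
    one_div_pow]
  congr 1
  have h1 : ∀ i : Fin k, (((Finset.Icc 1 M).filter
      (fun n => ArithmeticFunction.cardFactors n ∈ A i)).card : ℝ) =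
      ∑ n ∈ Finset.Icc 1 M, if ArithmeticFunction.cardFactors n ∈ A i then (1 : ℝ) else 0 := by
    intro i
    rw [← Finset.sum_filter, Finset.sum_const, nsmul_eq_mul, mul_one]
  simp_rw [h1]
  rw [Finset.prod_univ_sum]
  refine Finset.sum_congr rfl fun m _ => ?_
  by_cases h : ∀ i, ArithmeticFunction.cardFactors (m i) ∈ A i
  · rw [if_pos h]
    symm
    exact Finset.prod_eq_one fun i _ => if_pos (h i)
  · rw [if_neg h]
    push Not at h
    obtain ⟨i, hi⟩ := h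
    symm
    exact Finset.prod_eq_zero (Finset.mem_univ i) (if_neg hi)

lemma partB_Em_sub (k M : ℕ) (a b : (Fin k → ℕ) → ℝ) :
    Em k M (fun ℓ => a ℓ - b ℓ) = Em k M a - Em k M b := by
  unfold Em
  rw [Finset.sum_sub_distrib, mul_sub]

lemma partB_Ep_sub (k M : ℕ) (a b : (Fin k → ℕ) → ℝ) :
    Ep k M (fun ℓ => a ℓ - b ℓ) = Ep k M a - Ep k M b := by
  unfold Ep
  rw [Finset.sum_sub_distrib, mul_sub]

lemma partB_Em_half (k M : ℕ) (a : (Fin k → ℕ) → ℝ) :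
    Em k M (fun ℓ => a ℓ / 2) = Em k M a / 2 := by
  unfold Em
  rw [← Finset.sum_div]
  ring

lemma partB_Em_sum (k M J : ℕ) (c : Fin J → ℝ) (a : Fin J → (Fin k → ℕ) → ℝ) :
    Em k M (fun ℓ => ∑ j, c j * a j ℓ) = ∑ j, c j * Em k M (a j) := by
  unfold Em
  rw [Finset.sum_comm, Finset.mul_sum]
  refine Finset.sum_congr rfl fun j _ => ?_
  rw [← Finset.mul_sum]
  ring

lemma partB_Ep_sum (k M J : ℕ) (c : Fin J → ℝ) (a : Fin J → (Fin k → ℕ) → ℝ) :
    Ep k M (fun ℓ => ∑ j, c j * a j ℓ) = ∑ j, c j * Ep k M (a j) := by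
  unfold Ep
  rw [Finset.sum_comm, Finset.mul_sum]
  refine Finset.sum_congr rfl fun j _ => ?_
  rw [← Finset.mul_sum]
  ring

/-- one bad scale -/
lemma partB_one (k M C : ℕ) (hM : 1 ≤ M) (ε δ δ₂ : ℝ) (hδ : 0 ≤ δ)
    (hreg : ∀ (L : ℕ) (p : ℕ → ℝ),
      (∀ t, 0 ≤ p t) → (∑ t ∈ Finset.range L, p t = 1) →
      ∀ F : (Fin k → ℕ) → ℝ, (∀ ℓ, |F ℓ| ≤ 1) →
      ∃ (J : ℕ) (c : Fin J → ℝ) (A : Fin J → Fin k → Finset ℕ), J ≤ C ∧ (∀ j, |c j| ≤ 1) ∧
        (∀ ℓ : Fin k → ℕ, |∑ j, c j * (if ∀ i, ℓ i ∈ A j i then (1 : ℝ) else 0)| ≤ 1) ∧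
        ∀ f : Fin k → ℕ → ℝ, (∀ i t, |f i t| ≤ 1) →
          |∑ ℓ ∈ Fintype.piFinset (fun _ : Fin k => Finset.range L), (∏ i, p (ℓ i)) *
            ((F ℓ - ∑ j, c j * (if ∀ i, ℓ i ∈ A j i then (1 : ℝ) else 0)) *
              ∏ i, f i (ℓ i))| ≤ δ₂)
    (hC : (C : ℝ) * δ ≤ ε / 8) (hδ₂ : δ₂ ≤ ε / 8) (hbox : BoxLe k M δ) (hD : ε < DN k M)
    (hε : 0 < ε) :
    ∃ F : (Fin k → ℕ) → ℝ, (∀ ℓ, |F ℓ| ≤ 1) ∧ CutLe k M (δ₂ / 2) F ∧ ε / 4 ≤ |Em k M F| := by
  classical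
  obtain ⟨a, ha, haL⟩ := DN_eq_Lam k M
  obtain ⟨J, c, A, hJ, hc, hS, hcut⟩ := hreg (M + k + 1) (pO M)
    (fun t => by unfold pO; positivity) (partB_sum_pO M _ hM (by omega)) a ha
  set S : (Fin k → ℕ) → ℝ := fun ℓ => ∑ j, c j * (if ∀ i, ℓ i ∈ A j i then (1 : ℝ) else 0)
    with hSdef
  have hbd : ∀ ℓ, |(a ℓ - S ℓ) / 2| ≤ 1 := by
    intro ℓ
    have h1 := abs_le.1 (ha ℓ)
    have h2 := abs_le.1 (hS ℓ)
    rw [abs_le]
    constructor <;> simp only [hSdef] <;> linarith [h1.1, h1.2, h2.1, h2.2]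
  refine ⟨fun ℓ => (a ℓ - S ℓ) / 2, hbd, ?_, ?_⟩
  · intro f hf
    have h1 := hcut f hf
    have h2 : Ep k M (fun ℓ => (a ℓ - S ℓ) / 2 * ∏ i, f i (ℓ i)) =
        (∑ ℓ ∈ Fintype.piFinset (fun _ : Fin k => Finset.range (M + k + 1)),
          (∏ i, pO M (ℓ i)) * ((a ℓ - ∑ j, c j * (if ∀ i, ℓ i ∈ A j i then (1 : ℝ) else 0)) *
            ∏ i, f i (ℓ i))) / 2 := by
      rw [partB_Ep_eq, Finset.sum_div]
      refine Finset.sum_congr rfl fun ℓ _ => ?_
      simp only [hSdef]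
      ring
    rw [h2, abs_div, abs_two]
    linarith
  · rw [partB_Em_half, partB_Em_sub]
    have hEpr : |Ep k M a - Ep k M S| ≤ δ₂ := by
      have h1 := hcut (fun _ _ => 1) (fun _ _ => by norm_num)
      rw [← partB_Ep_sub, partB_Ep_eq]
      simpa only [Finset.prod_const_one, mul_one, hSdef] using h1
    have hdiff : |Em k M S - Ep k M S| ≤ C * δ := by
      have e1 : Em k M S = ∑ j, c j * Em k M (fun ℓ => if ∀ i, ℓ i ∈ A j i then (1 : ℝ) else 0) :=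
        partB_Em_sum k M J c _
      have e2 : Ep k M S = ∑ j, c j * Ep k M (fun ℓ => if ∀ i, ℓ i ∈ A j i then (1 : ℝ) else 0) :=
        partB_Ep_sum k M J c _
      rw [e1, e2, ← Finset.sum_sub_distrib]
      calc |∑ j, (c j * Em k M (fun ℓ => if ∀ i, ℓ i ∈ A j i then (1 : ℝ) else 0) -
            c j * Ep k M (fun ℓ => if ∀ i, ℓ i ∈ A j i then (1 : ℝ) else 0))|
          ≤ ∑ j : Fin J, |c j * Em k M (fun ℓ => if ∀ i, ℓ i ∈ A j i then (1 : ℝ) else 0) -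
            c j * Ep k M (fun ℓ => if ∀ i, ℓ i ∈ A j i then (1 : ℝ) else 0)| :=
            Finset.abs_sum_le_sum_abs _ _
        _ ≤ ∑ _j : Fin J, δ := by
            refine Finset.sum_le_sum fun j _ => ?_
            rw [← mul_sub, abs_mul]
            have h3 := hbox (A j)
            rw [← partB_Em_box, ← partB_Ep_box] at h3
            calc |c j| * |Em k M (fun ℓ => if ∀ i, ℓ i ∈ A j i then (1 : ℝ) else 0) -
                  Ep k M (fun ℓ => if ∀ i, ℓ i ∈ A j i then (1 : ℝ) else 0)|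
                ≤ 1 * δ := mul_le_mul (hc j) h3 (abs_nonneg _) zero_le_one
              _ = δ := one_mul δ
        _ = J * δ := by
            rw [Finset.sum_const, Finset.card_univ, Fintype.card_fin, nsmul_eq_mul]
        _ ≤ C * δ := by
            have : (J : ℝ) ≤ C := by exact_mod_cast hJ
            exact mul_le_mul_of_nonneg_right this hδ
    have hLam : ε < Em k M a - Ep k M a := by
      rw [← Lam_eq]
      linarith
    have h4 := abs_le.1 hEpr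
    have h5 := abs_le.1 hdiff
    have h6 : ε / 2 ≤ Em k M a - Em k M S := by linarith [h4.1, h4.2, h5.1, h5.2]
    have h7 := le_abs_self ((Em k M a - Em k M S) / 2)
    linarith

open Classical in
theorem partB (k : ℕ) (hk : 1 ≤ k) (ε ρ : ℝ) (hε : 0 < ε) (hρ : 0 < ρ) :
    ∃ δ : ℝ, 0 < δ ∧ ∃ N₀ : ℕ, ∀ N ≥ N₀,
      ∑ M ∈ (Finset.Icc 1 N).filter (fun M => BoxLe k M δ ∧ ε < DN k M), (1 / (M : ℝ)) ≤
        ρ * Real.log N := by
  obtain ⟨δ₁, hδ₁, N₀, hcore⟩ := core k hk (ε * ρ / 4) (by positivity)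
  set δ₂ : ℝ := min (2 * δ₁) (ε / 8) with hδ₂
  have hδ₂pos : 0 < δ₂ := lt_min (by positivity) (by positivity)
  obtain ⟨C, hreg⟩ := regBox k δ₂ hδ₂pos
  have hC1 : (0 : ℝ) < 8 * ((C : ℝ) + 1) := by positivity
  refine ⟨ε / (8 * ((C : ℝ) + 1)), by positivity, N₀, fun N hN => ?_⟩
  set δ : ℝ := ε / (8 * ((C : ℝ) + 1)) with hδ
  have hδpos : 0 < δ := by positivity
  have hCδ : (C : ℝ) * δ ≤ ε / 8 := by
    rw [hδ, mul_div_assoc', div_le_div_iff₀ hC1 (by norm_num)]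
    nlinarith
  have hex : ∀ M, 1 ≤ M → BoxLe k M δ ∧ ε < DN k M →
      ∃ F : (Fin k → ℕ) → ℝ, (∀ ℓ, |F ℓ| ≤ 1) ∧ CutLe k M (δ₂ / 2) F ∧ ε / 4 ≤ |Em k M F| :=
    fun M hM h => partB_one k M C hM ε δ δ₂ hδpos.le hreg hCδ (min_le_right _ _) h.1 h.2 hε
  set F : ℕ → (Fin k → ℕ) → ℝ := fun M =>
    if h : 1 ≤ M ∧ BoxLe k M δ ∧ ε < DN k M then (hex M h.1 h.2).choose else fun _ => 0 with hF
  have hFb : ∀ M ℓ, |F M ℓ| ≤ 1 := by
    intro M ℓ
    by_cases h : 1 ≤ M ∧ BoxLe k M δ ∧ ε < DN k M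
    · simp only [hF, dif_pos h]
      exact (hex M h.1 h.2).choose_spec.1 ℓ
    · simp only [hF, dif_neg h]
      norm_num
  have hFc : ∀ M ∈ Finset.Icc 1 N, CutLe k M δ₁ (F M) := by
    intro M _
    by_cases h : 1 ≤ M ∧ BoxLe k M δ ∧ ε < DN k M
    · simp only [hF, dif_pos h]
      intro f hf
      refine ((hex M h.1 h.2).choose_spec.2.1 f hf).trans ?_
      have := min_le_left (2 * δ₁) (ε / 8)
      rw [← hδ₂] at this
      linarith
    · simp only [hF, dif_neg h]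
      intro f _
      have : Ep k M (fun ℓ => (0 : ℝ) * ∏ i, f i (ℓ i)) = 0 := by
        unfold Ep
        simp
      rw [this, abs_zero]
      exact hδ₁.le
  have hmain := hcore N hN F hFb hFc
  have hlow : ∑ M ∈ (Finset.Icc 1 N).filter (fun M => BoxLe k M δ ∧ ε < DN k M),
      (1 / (M : ℝ)) * (ε / 4) ≤ ∑ M ∈ Finset.Icc 1 N, (1 / (M : ℝ)) * |Em k M (F M)| := by
    calc ∑ M ∈ (Finset.Icc 1 N).filter (fun M => BoxLe k M δ ∧ ε < DN k M),
          (1 / (M : ℝ)) * (ε / 4)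
        ≤ ∑ M ∈ (Finset.Icc 1 N).filter (fun M => BoxLe k M δ ∧ ε < DN k M),
          (1 / (M : ℝ)) * |Em k M (F M)| := by
          refine Finset.sum_le_sum fun M hM => ?_
          rw [Finset.mem_filter, Finset.mem_Icc] at hM
          refine mul_le_mul_of_nonneg_left ?_ (by positivity)
          have h : 1 ≤ M ∧ BoxLe k M δ ∧ ε < DN k M := ⟨hM.1.1, hM.2⟩
          simp only [hF, dif_pos h]
          exact (hex M h.1 h.2).choose_spec.2.2
      _ ≤ ∑ M ∈ Finset.Icc 1 N, (1 / (M : ℝ)) * |Em k M (F M)| :=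
          Finset.sum_le_sum_of_subset_of_nonneg (Finset.filter_subset _ _)
            fun M _ _ => by positivity
  rw [← Finset.sum_mul] at hlow
  have h8 := hlow.trans hmain
  have h9 : (∑ M ∈ (Finset.Icc 1 N).filter (fun M => BoxLe k M δ ∧ ε < DN k M),
      (1 / (M : ℝ))) * (ε / 4) ≤ ρ * Real.log N * (ε / 4) := by
    calc _ ≤ ε * ρ / 4 * Real.log N := h8
      _ = ρ * Real.log N * (ε / 4) := by ring
  exact le_of_mul_le_mul_right h9 (by positivity)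

end Helper11.QR
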