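import Mathlib
import Pool.Agent.Helper11.QR.Core
import Pool.Agent.Helper11.QR.Reg
import Pool.Agent.Helper11.QR.CutLog

set_option autoImplicit false

/-! QR-28: part C, logarithmic averages.

Proof. Let `δ₁` be given by `core` for `ε / 16`, `C` by `regBox` for `δ₂ = min δ₁ (ε / 8)` and
`δ = ε / (8 (C + 1))`. Given `N` large and `F`, `regBox` with `p = pL N`, `L = N + k + 1`
(`pL_nonneg`, `pL_sum`) gives `F = S + r`. `BoxLeL` gives `|EmL S - EpL S| ≤ C δ ≤ ε / 8` (the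
means of box indicators), and `|EpL r| ≤ ε / 8`. By `EmL_le` (`B = 2`)
`|EmL r| ≤ (2 + ∑_{M ≤ N} (1 / M) |Em k M r|) / h_N`, `h_N ≥ log N`. The `M` with
`log M < η log N` (`η = ε / 64`) contribute at most `2 (1 + η log N)`; for the others
`CutLe k M δ₁ (r / 2)`: by `cutLog` (`τ = δ₁ / 2`)
`|Ep k M ((r / 2) ∏ f)| ≤ |EpL k N ((r / 2) ∏ f)| + δ₁ / 2 ≤ δ₂ / 2 + δ₁ / 2 ≤ δ₁`. So `core`
applied to `F M = r / 2` for these `M` and `0` for the others gives
`∑ (1 / M) |Em k M r| ≤ (ε / 8) log N` over these `M`. Total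
`|EmL r| ≤ (4 + 2 η log N + (ε / 8) log N) / log N ≤ ε / 4 + ...`; altogether `≤ ε`. -/

namespace Helper11.QR

open Finset Helper13.Om

/-- Independence on boxes up to `δ` for the logarithmic means at `N`. -/
def BoxLeL (k N : ℕ) (δ : ℝ) : Prop :=
  ∀ A : Fin k → Finset ℕ,
    |(∑ n ∈ (Finset.Icc 1 N).filter
        (fun n => ∀ i : Fin k, ArithmeticFunction.cardFactors (n + (i : ℕ)) ∈ A i),
          (1 / (n : ℝ))) / (∑ n ∈ Finset.Icc 1 N, (1 / (n : ℝ))) -
      ∏ i : Fin k, ((∑ n ∈ (Finset.Icc 1 N).filter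
        (fun n => ArithmeticFunction.cardFactors n ∈ A i), (1 / (n : ℝ))) /
          (∑ n ∈ Finset.Icc 1 N, (1 / (n : ℝ))))| ≤ δ

private lemma pc_h_ge (N : ℕ) (hN : 1 ≤ N) :
    Real.log N ≤ ∑ n ∈ Finset.Icc 1 N, (1 / (n : ℝ)) := by
  have h1 := log_add_one_le_harmonic N
  rw [harmonic_eq_sum_Icc, Rat.cast_sum] at h1
  simp only [Rat.cast_inv, Rat.cast_natCast] at h1
  simp only [one_div]
  refine le_trans ?_ h1
  have h0 : (0 : ℝ) < N := by exact_mod_cast hN
  apply Real.log_le_log h0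
  push_cast
  linarith

private lemma pc_small (N : ℕ) (hN : 1 ≤ N) (η : ℝ) (hη : 0 < η) :
    ∑ M ∈ (Finset.Icc 1 N).filter (fun M : ℕ => ¬ η * Real.log N ≤ Real.log M), (1 / (M : ℝ)) ≤
      1 + η * Real.log N := by
  have hlog : 0 ≤ Real.log N := Real.log_nonneg (by exact_mod_cast hN)
  set y : ℝ := Real.exp (η * Real.log N) with hy
  have hy1 : 1 ≤ y := Real.one_le_exp (mul_nonneg hη.le hlog)
  have h1 := harmonic_floor_le_one_add_log y hy1
  rw [harmonic_eq_sum_Icc, Rat.cast_sum] at h1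
  simp only [Rat.cast_inv, Rat.cast_natCast] at h1
  rw [hy, Real.log_exp] at h1
  simp only [one_div]
  refine le_trans ?_ h1
  apply Finset.sum_le_sum_of_subset_of_nonneg
  · intro M hM
    rw [Finset.mem_filter, Finset.mem_Icc, not_le] at hM
    rw [Finset.mem_Icc]
    refine ⟨hM.1.1, Nat.le_floor ?_⟩
    have hM0 : (0 : ℝ) < M := by exact_mod_cast hM.1.1
    have := (Real.log_lt_iff_lt_exp hM0).1 hM.2
    exact this.le
  · intro M _ _
    positivity

private lemma pc_EmL_add (k N : ℕ) (F G : (Fin k → ℕ) → ℝ) :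
    EmL k N (fun ℓ => F ℓ + G ℓ) = EmL k N F + EmL k N G := by
  unfold EmL
  rw [← add_div, ← Finset.sum_add_distrib]
  congr 1
  refine Finset.sum_congr rfl fun n _ => ?_
  ring

private lemma pc_EpL_add (k N : ℕ) (F G : (Fin k → ℕ) → ℝ) :
    EpL k N (fun ℓ => F ℓ + G ℓ) = EpL k N F + EpL k N G := by
  unfold EpL
  rw [← Finset.sum_add_distrib]
  refine Finset.sum_congr rfl fun n _ => ?_
  ring

private lemma pc_EmL_sum (k N J : ℕ) (c : Fin J → ℝ) (G : Fin J → (Fin k → ℕ) → ℝ) :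
    EmL k N (fun ℓ => ∑ j, c j * G j ℓ) = ∑ j, c j * EmL k N (G j) := by
  unfold EmL
  simp only [mul_div_assoc', Finset.mul_sum]
  rw [Finset.sum_comm, Finset.sum_div]
  refine Finset.sum_congr rfl fun j _ => ?_
  congr 1
  refine Finset.sum_congr rfl fun n _ => ?_
  ring

private lemma pc_EpL_sum (k N J : ℕ) (c : Fin J → ℝ) (G : Fin J → (Fin k → ℕ) → ℝ) :
    EpL k N (fun ℓ => ∑ j, c j * G j ℓ) = ∑ j, c j * EpL k N (G j) := by
  unfold EpL
  simp only [Finset.mul_sum]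
  rw [Finset.sum_comm]
  refine Finset.sum_congr rfl fun j _ => ?_
  refine Finset.sum_congr rfl fun n _ => ?_
  ring

private lemma pc_EpL_smul (k N : ℕ) (c : ℝ) (G : (Fin k → ℕ) → ℝ) :
    EpL k N (fun ℓ => c * G ℓ) = c * EpL k N G := by
  unfold EpL
  rw [Finset.mul_sum]
  refine Finset.sum_congr rfl fun n _ => ?_
  ring

private lemma pc_Em_smul (k N : ℕ) (c : ℝ) (G : (Fin k → ℕ) → ℝ) :
    Em k N (fun ℓ => c * G ℓ) = c * Em k N G := by
  unfold Em
  rw [← Finset.mul_sum]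
  ring

private lemma pc_EmL_box (k N : ℕ) (A : Fin k → Finset ℕ) :
    EmL k N (fun ℓ => if ∀ i, ℓ i ∈ A i then (1 : ℝ) else 0) =
      (∑ n ∈ (Finset.Icc 1 N).filter
        (fun n => ∀ i : Fin k, ArithmeticFunction.cardFactors (n + (i : ℕ)) ∈ A i),
          (1 / (n : ℝ))) / (∑ n ∈ Finset.Icc 1 N, (1 / (n : ℝ))) := by
  unfold EmL
  congr 1
  rw [Finset.sum_filter]
  refine Finset.sum_congr rfl fun n _ => ?_
  beta_reduce
  by_cases h : ∀ i : Fin k, ArithmeticFunction.cardFactors (n + (i : ℕ)) ∈ A i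
  · rw [if_pos h, if_pos h, mul_one]
  · rw [if_neg h, if_neg h, mul_zero]

private lemma pc_marg (k N : ℕ) (A : Finset ℕ) :
    ∑ t ∈ Finset.range (N + k + 1), pL N t * (if t ∈ A then (1 : ℝ) else 0) =
      (∑ n ∈ (Finset.Icc 1 N).filter
        (fun n => ArithmeticFunction.cardFactors n ∈ A), (1 / (n : ℝ))) /
          (∑ n ∈ Finset.Icc 1 N, (1 / (n : ℝ))) := by
  classical
  have hmaps : ∀ n ∈ Finset.Icc 1 N,
      ArithmeticFunction.cardFactors n ∈ Finset.range (N + k + 1) := by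
    intro n hn
    rw [Finset.mem_Icc] at hn
    rw [Finset.mem_range]
    have := Omega_le n
    omega
  rw [Finset.sum_filter, ← Finset.sum_fiberwise_of_maps_to hmaps, Finset.sum_div]
  refine Finset.sum_congr rfl fun t _ => ?_
  unfold pL
  rw [div_mul_eq_mul_div]
  congr 1
  rw [Finset.sum_mul]
  refine Finset.sum_congr rfl fun n hn => ?_
  rw [Finset.mem_filter] at hn
  rw [hn.2]
  by_cases h : t ∈ A
  · rw [if_pos h, if_pos h, mul_one]
  · rw [if_neg h, if_neg h, mul_zero]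

private lemma pc_EpL_box (k N : ℕ) (A : Fin k → Finset ℕ) :
    EpL k N (fun ℓ => if ∀ i, ℓ i ∈ A i then (1 : ℝ) else 0) =
      ∏ i : Fin k, ((∑ n ∈ (Finset.Icc 1 N).filter
        (fun n => ArithmeticFunction.cardFactors n ∈ A i), (1 / (n : ℝ))) /
          (∑ n ∈ Finset.Icc 1 N, (1 / (n : ℝ)))) := by
  classical
  unfold EpL
  have h1 : ∀ ℓ : Fin k → ℕ, (∏ i, pL N (ℓ i)) * (if ∀ i, ℓ i ∈ A i then (1 : ℝ) else 0) =
      ∏ i, (pL N (ℓ i) * (if ℓ i ∈ A i then (1 : ℝ) else 0)) := by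
    intro ℓ
    rw [Finset.prod_mul_distrib]
    congr 1
    by_cases h : ∀ i, ℓ i ∈ A i
    · rw [if_pos h]
      symm
      exact Finset.prod_eq_one fun i _ => if_pos (h i)
    · rw [if_neg h]
      push Not at h
      obtain ⟨i, hi⟩ := h
      symm
      exact Finset.prod_eq_zero (Finset.mem_univ i) (if_neg hi)
  rw [Finset.sum_congr rfl fun ℓ _ => h1 ℓ]
  have h2 := Finset.prod_univ_sum (fun _ : Fin k => Finset.range (N + k + 1))
    (fun (i : Fin k) (t : ℕ) => pL N t * (if t ∈ A i then (1 : ℝ) else 0))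
  rw [← h2]
  refine Finset.prod_congr rfl fun i _ => ?_
  exact pc_marg k N (A i)

theorem partC (k : ℕ) (hk : 1 ≤ k) (ε : ℝ) (hε : 0 < ε) :
    ∃ δ : ℝ, 0 < δ ∧ ∃ N₀ : ℕ, ∀ N ≥ N₀, BoxLeL k N δ →
      ∀ F : (Fin k → ℕ) → ℝ, (∀ ℓ, |F ℓ| ≤ 1) → |EmL k N F - EpL k N F| ≤ ε := by
  obtain ⟨δ₁, hδ₁, N₁, hcore⟩ := core k hk (ε / 16) (by positivity)
  obtain ⟨C, hC⟩ := regBox k (min δ₁ (ε / 8)) (lt_min hδ₁ (by positivity))
  obtain ⟨N₂, hcut⟩ := cutLog k (ε / 64) (δ₁ / 2) (by positivity) (by positivity)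
  refine ⟨ε / (8 * (C + 1)), by positivity,
    max (max N₁ N₂) (⌈Real.exp (32 / ε)⌉₊ + 1), fun N hN hbox F hF => ?_⟩
  have hN1 : N₁ ≤ N := (le_max_left _ _).trans ((le_max_left _ _).trans hN)
  have hN2 : N₂ ≤ N := (le_max_right _ _).trans ((le_max_left _ _).trans hN)
  have hN3 : ⌈Real.exp (32 / ε)⌉₊ + 1 ≤ N := (le_max_right _ _).trans hN
  have hN4 : 1 ≤ N := by omega
  have hlog : 32 / ε ≤ Real.log N := by
    rw [Real.le_log_iff_exp_le (by exact_mod_cast hN4)]
    calc Real.exp (32 / ε) ≤ (⌈Real.exp (32 / ε)⌉₊ : ℝ) := Nat.le_ceil _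
      _ ≤ (N : ℝ) := by exact_mod_cast (by omega : ⌈Real.exp (32 / ε)⌉₊ ≤ N)
  have hlog0 : 0 < Real.log N := lt_of_lt_of_le (by positivity) hlog
  obtain ⟨J, c, A, hJ, hc, hS, hcutF⟩ := hC (N + k + 1) (pL N) (pL_nonneg N)
    (pL_sum N (N + k + 1) hN4 (by omega)) F hF
  have hcutr : ∀ f : Fin k → ℕ → ℝ, (∀ i t, |f i t| ≤ 1) →
      |EpL k N (fun ℓ => (F ℓ - ∑ j, c j * (if ∀ i, ℓ i ∈ A j i then (1 : ℝ) else 0)) *
        ∏ i, f i (ℓ i))| ≤ min δ₁ (ε / 8) := hcutF
  have hbd : |EmL k N (fun ℓ => ∑ j, c j * (if ∀ i, ℓ i ∈ A j i then (1 : ℝ) else 0)) -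
      EpL k N (fun ℓ => ∑ j, c j * (if ∀ i, ℓ i ∈ A j i then (1 : ℝ) else 0))| ≤ ε / 8 := by
    rw [pc_EmL_sum k N J c (fun j ℓ => if ∀ i, ℓ i ∈ A j i then (1 : ℝ) else 0),
      pc_EpL_sum k N J c (fun j ℓ => if ∀ i, ℓ i ∈ A j i then (1 : ℝ) else 0),
      ← Finset.sum_sub_distrib]
    calc |∑ j, (c j * EmL k N (fun ℓ => if ∀ i, ℓ i ∈ A j i then (1 : ℝ) else 0) -
          c j * EpL k N (fun ℓ => if ∀ i, ℓ i ∈ A j i then (1 : ℝ) else 0))|
        ≤ ∑ j, |c j * EmL k N (fun ℓ => if ∀ i, ℓ i ∈ A j i then (1 : ℝ) else 0) -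
          c j * EpL k N (fun ℓ => if ∀ i, ℓ i ∈ A j i then (1 : ℝ) else 0)| :=
          Finset.abs_sum_le_sum_abs _ _
      _ ≤ ∑ _j : Fin J, ε / (8 * (C + 1)) := by
          refine Finset.sum_le_sum fun j _ => ?_
          rw [← mul_sub, abs_mul]
          have h1 : |EmL k N (fun ℓ => if ∀ i, ℓ i ∈ A j i then (1 : ℝ) else 0) -
              EpL k N (fun ℓ => if ∀ i, ℓ i ∈ A j i then (1 : ℝ) else 0)| ≤
              ε / (8 * (C + 1)) := by
            rw [pc_EmL_box, pc_EpL_box]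
            exact hbox (A j)
          calc |c j| * _ ≤ 1 * (ε / (8 * (C + 1))) :=
                mul_le_mul (hc j) h1 (abs_nonneg _) zero_le_one
            _ = ε / (8 * (C + 1)) := one_mul _
      _ = J * (ε / (8 * (C + 1))) := by
          rw [Finset.sum_const, Finset.card_univ, Fintype.card_fin, nsmul_eq_mul]
      _ ≤ (C + 1) * (ε / (8 * (C + 1))) := by
          have h2 : (J : ℝ) ≤ C := by exact_mod_cast hJ
          apply mul_le_mul_of_nonneg_right _ (by positivity)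
          linarith
      _ = ε / 8 := by
          field_simp
  set S : (Fin k → ℕ) → ℝ := fun ℓ => ∑ j, c j * (if ∀ i, ℓ i ∈ A j i then (1 : ℝ) else 0)
    with hSdef
  set r : (Fin k → ℕ) → ℝ := fun ℓ => F ℓ - S ℓ with hr
  have hcutr' : ∀ f : Fin k → ℕ → ℝ, (∀ i t, |f i t| ≤ 1) →
      |EpL k N (fun ℓ => r ℓ * ∏ i, f i (ℓ i))| ≤ min δ₁ (ε / 8) := hcutr
  have hr2 : ∀ ℓ, |r ℓ| ≤ 2 := by
    intro ℓ
    have h1 : |S ℓ| ≤ 1 := hS ℓ
    have h2 := abs_sub (F ℓ) (S ℓ)
    have h3 := hF ℓ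
    show |F ℓ - S ℓ| ≤ 2
    linarith
  have hFe : F = fun ℓ => S ℓ + r ℓ := by
    funext ℓ
    show F ℓ = S ℓ + (F ℓ - S ℓ)
    ring
  -- the product mean of `r`
  have hEpr : |EpL k N r| ≤ ε / 8 := by
    have h1 := hcutr' (fun _ _ => 1) (fun _ _ => by rw [abs_one])
    have h2 : (fun ℓ => r ℓ * ∏ i : Fin k, (fun (_ : Fin k) (_ : ℕ) => (1 : ℝ)) i (ℓ i)) = r := by
      funext ℓ
      rw [Finset.prod_const_one, mul_one]
    rw [h2] at h1
    exact h1.trans (min_le_right _ _)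
  -- the large scales
  have hlarge : ∑ M ∈ (Finset.Icc 1 N).filter
      (fun M : ℕ => ε / 64 * Real.log N ≤ Real.log M), (1 / (M : ℝ)) * |Em k M r| ≤
      ε / 8 * Real.log N := by
    classical
    have h1 := hcore N hN1 (fun M ℓ => if ε / 64 * Real.log N ≤ Real.log M then
      1 / 2 * r ℓ else 0) (fun M ℓ => by
        by_cases h : ε / 64 * Real.log N ≤ Real.log M
        · simp only [if_pos h]
          rw [abs_mul, abs_of_pos (by norm_num : (0 : ℝ) < 1 / 2)]
          linarith [hr2 ℓ]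
        · simp only [if_neg h]
          rw [abs_zero]
          exact zero_le_one) (fun M hM => by
        intro f hf
        by_cases h : ε / 64 * Real.log N ≤ Real.log M
        · simp only [if_pos h]
          have hMN : M ≤ N := (Finset.mem_Icc.1 hM).2
          have hprod : ∀ ℓ : Fin k → ℕ, |∏ i, f i (ℓ i)| ≤ 1 := by
            intro ℓ
            rw [Finset.abs_prod]
            exact Finset.prod_le_one (fun i _ => abs_nonneg _) fun i _ => hf i (ℓ i)
          have h2 := hcut N hN2 M hMN h (fun ℓ => 1 / 2 * r ℓ * ∏ i, f i (ℓ i)) (fun ℓ => by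
            rw [abs_mul, abs_mul, abs_of_pos (by norm_num : (0 : ℝ) < 1 / 2)]
            have h3 := hr2 ℓ
            have h4 := hprod ℓ
            have h5 := abs_nonneg (r ℓ)
            have h6 := abs_nonneg (∏ i, f i (ℓ i))
            nlinarith)
          have h3 : EpL k N (fun ℓ => 1 / 2 * r ℓ * ∏ i, f i (ℓ i)) =
              1 / 2 * EpL k N (fun ℓ => r ℓ * ∏ i, f i (ℓ i)) := by
            rw [← pc_EpL_smul]
            congr 1
            funext ℓ
            ring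
          rw [h3] at h2
          have h4 := (hcutr' f hf).trans (min_le_left _ _)
          have h5 := abs_le.1 h2
          have h6 := abs_le.1 h4
          rw [abs_le]
          constructor <;> linarith [h5.1, h5.2, h6.1, h6.2]
        · simp only [if_neg h]
          have h0 : Ep k M (fun ℓ => 0 * ∏ i, f i (ℓ i)) = 0 := by
            unfold Ep
            simp
          rw [h0, abs_zero]
          exact hδ₁.le)
    have h2 : ∑ M ∈ (Finset.Icc 1 N).filter
        (fun M : ℕ => ε / 64 * Real.log N ≤ Real.log M),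
          (1 / (M : ℝ)) * (1 / 2 * |Em k M r|) ≤ ε / 16 * Real.log N := by
      refine le_trans ?_ h1
      rw [Finset.sum_filter]
      refine Finset.sum_le_sum fun M _ => ?_
      by_cases h : ε / 64 * Real.log N ≤ Real.log M
      · simp only [if_pos h]
        rw [pc_Em_smul, abs_mul, abs_of_pos (by norm_num : (0 : ℝ) < 1 / 2)]
      · simp only [if_neg h]
        positivity
    have h3 : ∑ M ∈ (Finset.Icc 1 N).filter
        (fun M : ℕ => ε / 64 * Real.log N ≤ Real.log M),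
          (1 / (M : ℝ)) * (1 / 2 * |Em k M r|) = 1 / 2 * ∑ M ∈ (Finset.Icc 1 N).filter
      (fun M : ℕ => ε / 64 * Real.log N ≤ Real.log M), (1 / (M : ℝ)) * |Em k M r| := by
      rw [Finset.mul_sum]
      refine Finset.sum_congr rfl fun M _ => ?_
      ring
    rw [h3] at h2
    linarith
  -- the small scales
  have hsmall : ∑ M ∈ (Finset.Icc 1 N).filter
      (fun M : ℕ => ¬ ε / 64 * Real.log N ≤ Real.log M), (1 / (M : ℝ)) * |Em k M r| ≤
      2 * (1 + ε / 64 * Real.log N) := by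
    have h1 := pc_small N hN4 (ε / 64) (by positivity)
    calc _ ≤ ∑ M ∈ (Finset.Icc 1 N).filter
          (fun M : ℕ => ¬ ε / 64 * Real.log N ≤ Real.log M), 2 * (1 / (M : ℝ)) := by
          refine Finset.sum_le_sum fun M hM => ?_
          have hM1 : 1 ≤ M := (Finset.mem_Icc.1 (Finset.mem_filter.1 hM).1).1
          have hM0 : (0 : ℝ) < M := by exact_mod_cast hM1
          have h2 : |Em k M r| ≤ 2 := by
            unfold Em
            rw [abs_mul, abs_of_pos (by positivity)]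
            have h3 : |∑ n ∈ Finset.Icc 1 M,
                r (fun i => ArithmeticFunction.cardFactors (n + i))| ≤ 2 * M := by
              refine (Finset.abs_sum_le_sum_abs _ _).trans ?_
              calc _ ≤ ∑ _n ∈ Finset.Icc 1 M, (2 : ℝ) := Finset.sum_le_sum fun n _ => hr2 _
                _ = 2 * M := by
                  rw [Finset.sum_const, Nat.card_Icc, nsmul_eq_mul, Nat.add_sub_cancel, mul_comm]
            calc 1 / (M : ℝ) * _ ≤ 1 / (M : ℝ) * (2 * M) :=
                  mul_le_mul_of_nonneg_left h3 (by positivity)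
              _ = 2 := by field_simp
          rw [mul_comm]
          exact mul_le_mul_of_nonneg_right h2 (by positivity)
      _ = 2 * ∑ M ∈ (Finset.Icc 1 N).filter
          (fun M : ℕ => ¬ ε / 64 * Real.log N ≤ Real.log M), (1 / (M : ℝ)) := by
          rw [Finset.mul_sum]
      _ ≤ 2 * (1 + ε / 64 * Real.log N) := by linarith
  have hEmr : |EmL k N r| ≤ ε / 8 + ε / 8 + ε / 32 := by
    have h1 := EmL_le k N hN4 r 2 hr2
    have h2 := pc_h_ge N hN4
    have h3 : 0 < ∑ n ∈ Finset.Icc 1 N, (1 / (n : ℝ)) := hlog0.trans_le h2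
    have h4 : ∑ M ∈ Finset.Icc 1 N, (1 / (M : ℝ)) * |Em k M r| ≤
        ε / 8 * Real.log N + 2 * (1 + ε / 64 * Real.log N) := by
      rw [← Finset.sum_filter_add_sum_filter_not (Finset.Icc 1 N)
        (fun M : ℕ => ε / 64 * Real.log N ≤ Real.log M)]
      exact add_le_add hlarge hsmall
    refine h1.trans ?_
    rw [div_le_iff₀ h3]
    have h5 : 4 ≤ ε / 8 * Real.log N := by
      have h6 : ε / 8 * (32 / ε) ≤ ε / 8 * Real.log N :=
        mul_le_mul_of_nonneg_left hlog (by positivity)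
      have h7 : ε / 8 * (32 / ε) = 4 := by
        field_simp
        norm_num
      linarith
    have h8 : (ε / 8 + ε / 8 + ε / 32) * Real.log N ≤
        (ε / 8 + ε / 8 + ε / 32) * ∑ n ∈ Finset.Icc 1 N, (1 / (n : ℝ)) :=
      mul_le_mul_of_nonneg_left h2 (by positivity)
    nlinarith
  have e1 : EmL k N F = EmL k N S + EmL k N r := by
    conv_lhs => rw [hFe]
    exact pc_EmL_add k N S r
  have e2 : EpL k N F = EpL k N S + EpL k N r := by
    conv_lhs => rw [hFe]
    exact pc_EpL_add k N S r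
  rw [e1, e2]
  have g1 := abs_le.1 hbd
  have g2 := abs_le.1 hEmr
  have g3 := abs_le.1 hEpr
  rw [abs_le]
  constructor <;> linarith [g1.1, g1.2, g2.1, g2.2, g3.1, g3.2]

end Helper11.QR
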