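import Mathlib
import Pool.Agent.Helper11.QR.Core
import Pool.Agent.Helper11.QR.Reg

set_option autoImplicit false

/-! QR-29: the final form at almost all scales: a test function which either does not correlate
with products, or is arbitrary at a scale with independence on boxes. -/

namespace Helper11.QR

open Finset Helper13.Om

/-- `Ω(n), ..., Ω(n+k-1)` are independent on boxes up to `δ`, at scale `M`. -/
def BoxLeU (k M : ℕ) (δ : ℝ) : Prop :=
  ∀ A : Fin k → Finset ℕ,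
    |1 / (M : ℝ) * (((Finset.Icc 1 M).filter
        (fun n => ∀ i : Fin k, ArithmeticFunction.cardFactors (n + (i : ℕ)) ∈ A i)).card : ℝ) -
      ∏ i : Fin k, (1 / (M : ℝ) * (((Finset.Icc 1 M).filter
        (fun n => ArithmeticFunction.cardFactors n ∈ A i)).card : ℝ))| ≤ δ

lemma Em_box (k M : ℕ) (A : Fin k → Finset ℕ) :
    Em k M (fun ℓ => if ∀ i, ℓ i ∈ A i then (1 : ℝ) else 0) =
      1 / (M : ℝ) * (((Finset.Icc 1 M).filter
        (fun n => ∀ i : Fin k, ArithmeticFunction.cardFactors (n + (i : ℕ)) ∈ A i)).card : ℝ) := by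
  unfold Em
  rw [Finset.card_filter]
  push_cast
  rfl

lemma Ep_box (k M : ℕ) (A : Fin k → Finset ℕ) :
    Ep k M (fun ℓ => if ∀ i, ℓ i ∈ A i then (1 : ℝ) else 0) =
      ∏ i : Fin k, (1 / (M : ℝ) * (((Finset.Icc 1 M).filter
        (fun n => ArithmeticFunction.cardFactors n ∈ A i)).card : ℝ)) := by
  classical
  unfold Ep
  have h1 : ∑ m ∈ Fintype.piFinset (fun _ : Fin k => Finset.Icc 1 M),
      (if ∀ i, ArithmeticFunction.cardFactors (m i) ∈ A i then (1 : ℝ) else 0) =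
      ((Fintype.piFinset (fun i : Fin k => (Finset.Icc 1 M).filter
        (fun n => ArithmeticFunction.cardFactors n ∈ A i))).card : ℝ) := by
    rw [Finset.sum_ite, Finset.sum_const_zero, add_zero, Finset.sum_const, nsmul_eq_mul, mul_one]
    congr 2
    ext m
    simp only [Finset.mem_filter, Fintype.mem_piFinset]
    exact ⟨fun h i => ⟨h.1 i, h.2 i⟩, fun h => ⟨fun i => (h i).1, fun i => (h i).2⟩⟩
  rw [h1, Fintype.card_piFinset, Finset.prod_mul_distrib, Finset.prod_const, Finset.card_univ,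
    Fintype.card_fin]
  push_cast
  rw [one_div, one_div, inv_pow]

lemma Em_sub' (k M : ℕ) (F G : (Fin k → ℕ) → ℝ) :
    Em k M (fun ℓ => F ℓ - G ℓ) = Em k M F - Em k M G := by
  unfold Em
  rw [Finset.sum_sub_distrib, mul_sub]

lemma Ep_sub' (k M : ℕ) (F G : (Fin k → ℕ) → ℝ) :
    Ep k M (fun ℓ => F ℓ - G ℓ) = Ep k M F - Ep k M G := by
  unfold Ep
  rw [Finset.sum_sub_distrib, mul_sub]

lemma Em_smul' (k M : ℕ) (c : ℝ) (F : (Fin k → ℕ) → ℝ) :
    Em k M (fun ℓ => c * F ℓ) = c * Em k M F := by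
  unfold Em
  rw [← Finset.mul_sum]
  ring

lemma Ep_smul' (k M : ℕ) (c : ℝ) (F : (Fin k → ℕ) → ℝ) :
    Ep k M (fun ℓ => c * F ℓ) = c * Ep k M F := by
  unfold Ep
  rw [← Finset.mul_sum]
  ring

lemma Em_fsum (k M J : ℕ) (F : Fin J → (Fin k → ℕ) → ℝ) :
    Em k M (fun ℓ => ∑ j, F j ℓ) = ∑ j, Em k M (F j) := by
  unfold Em
  rw [Finset.sum_comm, Finset.mul_sum]

lemma Ep_fsum (k M J : ℕ) (F : Fin J → (Fin k → ℕ) → ℝ) :
    Ep k M (fun ℓ => ∑ j, F j ℓ) = ∑ j, Ep k M (F j) := by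
  unfold Ep
  rw [Finset.sum_comm, Finset.mul_sum]

/-- Linear combinations of boxes. -/
lemma box_comb (k M J : ℕ) (κ : ℝ) (hκ : BoxLeU k M κ) (c : Fin J → ℝ) (hc : ∀ j, |c j| ≤ 1)
    (A : Fin J → Fin k → Finset ℕ) :
    |Em k M (fun ℓ => ∑ j, c j * (if ∀ i, ℓ i ∈ A j i then (1 : ℝ) else 0)) -
      Ep k M (fun ℓ => ∑ j, c j * (if ∀ i, ℓ i ∈ A j i then (1 : ℝ) else 0))| ≤ J * κ := by
  rw [Em_fsum k M J (fun j ℓ => c j * (if ∀ i, ℓ i ∈ A j i then (1 : ℝ) else 0)),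
    Ep_fsum k M J (fun j ℓ => c j * (if ∀ i, ℓ i ∈ A j i then (1 : ℝ) else 0)),
    ← Finset.sum_sub_distrib]
  refine (Finset.abs_sum_le_sum_abs _ _).trans ?_
  have h1 : ∀ j ∈ (Finset.univ : Finset (Fin J)),
      |Em k M (fun ℓ => c j * (if ∀ i, ℓ i ∈ A j i then (1 : ℝ) else 0)) -
        Ep k M (fun ℓ => c j * (if ∀ i, ℓ i ∈ A j i then (1 : ℝ) else 0))| ≤ κ := by
    intro j _
    rw [Em_smul', Ep_smul', ← mul_sub, abs_mul, Em_box, Ep_box]
    have h2 := hκ (A j)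
    have h3 := mul_le_mul (hc j) h2 (abs_nonneg _) zero_le_one
    rw [one_mul] at h3
    exact h3
  refine (Finset.sum_le_card_nsmul _ _ _ h1).trans (le_of_eq ?_)
  rw [Finset.card_univ, Fintype.card_fin, nsmul_eq_mul]

lemma pO_nonneg (M t : ℕ) : 0 ≤ pO M t := by
  unfold pO
  positivity

lemma pO_sum (M L : ℕ) (hM : 1 ≤ M) (hL : M < L) : ∑ t ∈ Finset.range L, pO M t = 1 := by
  classical
  have hMR : (0 : ℝ) < M := by exact_mod_cast hM
  unfold pO
  rw [← Finset.mul_sum]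
  have h1 : ∑ t ∈ Finset.range L, ((Finset.Icc 1 M).filter
      (fun n => ArithmeticFunction.cardFactors n = t)).card = (Finset.Icc 1 M).card :=
    (Finset.card_eq_sum_card_fiberwise (fun n hn => by
      rw [Finset.mem_coe, Finset.mem_Icc] at hn
      rw [Finset.mem_coe, Finset.mem_range]
      have := Omega_le n
      omega)).symm
  rw [Nat.card_Icc, Nat.add_sub_cancel] at h1
  have h2 : ∑ t ∈ Finset.range L, (((Finset.Icc 1 M).filter
      (fun n => ArithmeticFunction.cardFactors n = t)).card : ℝ) = M := by exact_mod_cast h1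
  rw [h2, one_div_mul_cancel hMR.ne']

lemma Ep_eq_sum (k M : ℕ) (G : (Fin k → ℕ) → ℝ) :
    Ep k M G = ∑ ℓ ∈ Fintype.piFinset (fun _ : Fin k => Finset.range (M + k + 1)),
      (∏ i, pO M (ℓ i)) * G ℓ := by
  unfold Ep
  rw [pi_apply]
  rfl

/-- Structure at one scale. -/
lemma structure_scale (k : ℕ) (δ₂ : ℝ) (hδ₂ : 0 < δ₂) : ∃ C₀ : ℕ, ∀ M : ℕ, 1 ≤ M → ∀ κ : ℝ,
    BoxLeU k M κ → ∀ F : (Fin k → ℕ) → ℝ, (∀ ℓ, |F ℓ| ≤ 1) →
    ∃ r : (Fin k → ℕ) → ℝ, (∀ ℓ, |r ℓ| ≤ 2) ∧ CutLe k M δ₂ r ∧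
      |Em k M F - Ep k M F| ≤ C₀ * κ + δ₂ + |Em k M r| := by
  obtain ⟨C₀, hC₀⟩ := regBox k δ₂ hδ₂
  refine ⟨C₀, fun M hM κ hκ F hF => ?_⟩
  obtain ⟨J, c, A, hJ, hc, hS, hcut⟩ := hC₀ (M + k + 1) (pO M) (pO_nonneg M)
    (pO_sum M _ hM (by omega)) F hF
  set S : (Fin k → ℕ) → ℝ := fun ℓ => ∑ j, c j * (if ∀ i, ℓ i ∈ A j i then (1 : ℝ) else 0)
    with hSdef
  have hκ0 : 0 ≤ κ := le_trans (abs_nonneg _) (hκ (fun _ => ∅))
  have hcutr : CutLe k M δ₂ (fun ℓ => F ℓ - S ℓ) := by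
    intro f hf
    rw [Ep_eq_sum]
    exact hcut f hf
  refine ⟨fun ℓ => F ℓ - S ℓ, ?_, hcutr, ?_⟩
  · intro ℓ
    have h1 := hF ℓ
    have h2 : |S ℓ| ≤ 1 := hS ℓ
    have := abs_sub (F ℓ) (S ℓ)
    linarith
  · have h1 := box_comb k M J κ hκ c hc A
    have h2 : |Ep k M (fun ℓ => F ℓ - S ℓ)| ≤ δ₂ := by
      have := hcutr (fun _ _ => 1) (fun _ _ => by simp)
      simpa using this
    have h3 : Em k M F - Ep k M F = (Em k M S - Ep k M S) - Ep k M (fun ℓ => F ℓ - S ℓ) +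
        Em k M (fun ℓ => F ℓ - S ℓ) := by
      rw [Em_sub', Ep_sub']
      ring
    rw [h3]
    have h4 : (J : ℝ) * κ ≤ C₀ * κ := by
      apply mul_le_mul_of_nonneg_right _ hκ0
      exact_mod_cast hJ
    have h5 : |Em k M S - Ep k M S| ≤ J * κ := h1
    calc |(Em k M S - Ep k M S) - Ep k M (fun ℓ => F ℓ - S ℓ) +
        Em k M (fun ℓ => F ℓ - S ℓ)|
        ≤ |(Em k M S - Ep k M S) - Ep k M (fun ℓ => F ℓ - S ℓ)| +
          |Em k M (fun ℓ => F ℓ - S ℓ)| := abs_add_le _ _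
      _ ≤ |Em k M S - Ep k M S| + |Ep k M (fun ℓ => F ℓ - S ℓ)| +
          |Em k M (fun ℓ => F ℓ - S ℓ)| := by
          have := abs_sub (Em k M S - Ep k M S) (Ep k M (fun ℓ => F ℓ - S ℓ))
          linarith
      _ ≤ _ := by linarith

lemma Em_abs_le_of (k M : ℕ) (F : (Fin k → ℕ) → ℝ) (hF : ∀ ℓ, |F ℓ| ≤ 1) :
    |Em k M F| ≤ 1 := by
  unfold Em
  rcases Nat.eq_zero_or_pos M with h | h
  · subst h
    simp
  · have hM : (0 : ℝ) < M := by exact_mod_cast h
    rw [abs_mul, abs_of_pos (by positivity), one_div_mul_eq_div, div_le_one hM]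
    refine (Finset.abs_sum_le_sum_abs _ _).trans ?_
    refine (Finset.sum_le_card_nsmul _ _ 1 (fun n _ => hF _)).trans (le_of_eq ?_)
    rw [Nat.card_Icc, Nat.add_sub_cancel, nsmul_eq_mul, mul_one]

lemma Ep_abs_le_of (k M : ℕ) (F : (Fin k → ℕ) → ℝ) (hM : 1 ≤ M) (hF : ∀ ℓ, |F ℓ| ≤ 1) :
    |Ep k M F| ≤ 1 := by
  unfold Ep
  have hMR : (0 : ℝ) < M := by exact_mod_cast hM
  rw [abs_mul, abs_of_pos (by positivity), one_div_mul_eq_div, div_le_one (by positivity)]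
  refine (Finset.abs_sum_le_sum_abs _ _).trans ?_
  refine (Finset.sum_le_card_nsmul _ _ 1 (fun n _ => hF _)).trans (le_of_eq ?_)
  rw [Fintype.card_piFinset]
  simp

theorem partU (k : ℕ) (hk : 1 ≤ k) (ε : ℝ) (hε : 0 < ε) :
    ∃ C : ℝ, 0 ≤ C ∧ ∃ N₀ : ℕ, ∀ N ≥ N₀, ∀ F : ℕ → (Fin k → ℕ) → ℝ, (∀ M ℓ, |F M ℓ| ≤ 1) →
      ∀ κ : ℕ → ℝ, (∀ M ∈ Finset.Icc 1 N, BoxLeU k M (κ M) ∨ CutLe k M (κ M) (F M)) →
        ∑ M ∈ Finset.Icc 1 N, (1 / (M : ℝ)) * |Em k M (F M) - Ep k M (F M)| ≤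
          ε * Real.log N + C * ∑ M ∈ Finset.Icc 1 N, (1 / (M : ℝ)) * κ M := by
  classical
  obtain ⟨δ₁, hδ₁, N₁, hN₁⟩ := core k hk (ε / 16) (by positivity)
  set δ₂ := min (2 * δ₁) (ε / 8) with hδ₂def
  have hδ₂ : 0 < δ₂ := lt_min (by positivity) (by positivity)
  obtain ⟨C₀, hC₀⟩ := structure_scale k δ₂ hδ₂
  set δ := min (ε / (8 * (C₀ + 1))) (min δ₁ (ε / 8)) with hδdef
  have hδ : 0 < δ := lt_min (by positivity) (lt_min hδ₁ (by positivity))
  have hδa : δ ≤ ε / (8 * (C₀ + 1)) := min_le_left _ _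
  have hδb : δ ≤ δ₁ := (min_le_right _ _).trans (min_le_left _ _)
  have hδc : δ ≤ ε / 8 := (min_le_right _ _).trans (min_le_right _ _)
  refine ⟨2 / δ, by positivity, N₁ + 3, ?_⟩
  intro N hN F hF κ hκ
  -- the auxiliary functions
  have hκ0 : ∀ M ∈ Finset.Icc 1 N, 0 ≤ κ M := by
    intro M hM
    rcases hκ M hM with h | h
    · exact le_trans (abs_nonneg _) (h (fun _ => ∅))
    · exact le_trans (abs_nonneg _) (h (fun _ _ => 1) (fun _ _ => by simp))
  have hex : ∀ M : ℕ, ∃ r : (Fin k → ℕ) → ℝ, (∀ ℓ, |r ℓ| ≤ 1) ∧ (M ∈ Finset.Icc 1 N →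
      CutLe k M δ₁ r ∧ |Em k M (F M) - Ep k M (F M)| ≤
        ε / 4 + 2 * |Em k M r| + 2 / δ * κ M) := by
    intro M
    by_cases hM : M ∈ Finset.Icc 1 N
    · have hM1 : 1 ≤ M := (Finset.mem_Icc.mp hM).1
      have hcutzero : CutLe k M δ₁ (fun _ => (0 : ℝ)) := by
        intro f _
        have : Ep k M (fun ℓ => (0 : ℝ) * ∏ i, f i (ℓ i)) = 0 := by
          unfold Ep
          simp
        rw [this, abs_zero]
        exact hδ₁.le
      rcases lt_or_ge δ (κ M) with hbig | hsm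
      · refine ⟨fun _ => 0, fun _ => by simp, fun _ => ⟨hcutzero, ?_⟩⟩
        have h1 : |Em k M (F M) - Ep k M (F M)| ≤ 2 := by
          have h2 := Em_abs_le_of k M (F M) (hF M)
          have h3 := Ep_abs_le_of k M (F M) hM1 (hF M)
          have := abs_sub (Em k M (F M)) (Ep k M (F M))
          linarith
        have h4 : 2 ≤ 2 / δ * κ M := by
          rw [div_mul_eq_mul_div, le_div_iff₀ hδ]
          linarith
        have h5 : 0 ≤ 2 * |Em k M (fun _ => (0 : ℝ))| := by positivity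
        linarith
      · have hκM := hκ0 M hM
        have hCκ : 0 ≤ 2 / δ * κ M := by positivity
        rcases hκ M hM with h | h
        · obtain ⟨r, hr2, hrcut, hrle⟩ := hC₀ M hM1 (κ M) h (F M) (hF M)
          refine ⟨fun ℓ => (1 / 2) * r ℓ, ?_, fun _ => ⟨?_, ?_⟩⟩
          · intro ℓ
            rw [abs_mul, abs_of_pos (by norm_num : (0 : ℝ) < 1 / 2)]
            have := hr2 ℓ
            linarith
          · intro f hf
            have h1 := hrcut f hf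
            have h2 : Ep k M (fun ℓ => (1 / 2) * r ℓ * ∏ i, f i (ℓ i)) =
                (1 / 2) * Ep k M (fun ℓ => r ℓ * ∏ i, f i (ℓ i)) := by
              rw [← Ep_smul']
              congr 1
              funext ℓ
              ring
            rw [h2, abs_mul, abs_of_pos (by norm_num : (0 : ℝ) < 1 / 2)]
            have h3 : δ₂ ≤ 2 * δ₁ := min_le_left _ _
            linarith
          · rw [Em_smul', abs_mul, abs_of_pos (by norm_num : (0 : ℝ) < 1 / 2)]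
            have h3 : δ₂ ≤ ε / 8 := min_le_right _ _
            have h4 : (C₀ : ℝ) * κ M ≤ ε / 8 := by
              have h5 : (C₀ : ℝ) * κ M ≤ C₀ * (ε / (8 * (C₀ + 1))) :=
                mul_le_mul_of_nonneg_left (hsm.trans hδa) (Nat.cast_nonneg _)
              refine h5.trans ?_
              rw [mul_div_assoc', div_le_div_iff₀ (by positivity) (by positivity)]
              nlinarith [hε.le, Nat.cast_nonneg (α := ℝ) C₀]
            linarith
        · refine ⟨F M, hF M, fun _ => ⟨fun f hf => (h f hf).trans (hsm.trans hδb), ?_⟩⟩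
          have h1 : |Ep k M (F M)| ≤ ε / 8 := by
            have h2 := h (fun _ _ => 1) (fun _ _ => by simp)
            have h3 : |Ep k M (F M)| ≤ κ M := by simpa using h2
            linarith
          have h4 := abs_sub (Em k M (F M)) (Ep k M (F M))
          have h5 := abs_nonneg (Em k M (F M))
          linarith
    · exact ⟨fun _ => 0, fun _ => by simp, fun h => absurd h hM⟩
  choose R hR1 hR2 using hex
  have hmain := hN₁ N (by omega) R hR1 (fun M hM => (hR2 M hM).1)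
  have hN3 : (3 : ℝ) ≤ N := by
    have : 3 ≤ N := by omega
    exact_mod_cast this
  have hlog : 1 ≤ Real.log N := by
    rw [Real.le_log_iff_exp_le (by linarith)]
    have := Real.exp_one_lt_d9
    linarith
  have hharm : ∑ M ∈ Finset.Icc 1 N, (1 / (M : ℝ)) ≤ 1 + Real.log N := by
    have h1 := harmonic_le_one_add_log N
    rw [harmonic_eq_sum_Icc] at h1
    push_cast at h1
    simpa [one_div] using h1
  have hterm : ∀ M ∈ Finset.Icc 1 N, (1 / (M : ℝ)) * |Em k M (F M) - Ep k M (F M)| ≤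
      ε / 4 * (1 / (M : ℝ)) + 2 * ((1 / (M : ℝ)) * |Em k M (R M)|) +
        2 / δ * ((1 / (M : ℝ)) * κ M) := by
    intro M hM
    have h1 := (hR2 M hM).2
    have h2 := mul_le_mul_of_nonneg_left h1 (by positivity : (0 : ℝ) ≤ 1 / (M : ℝ))
    refine h2.trans (le_of_eq ?_)
    ring
  refine (Finset.sum_le_sum hterm).trans ?_
  rw [Finset.sum_add_distrib, Finset.sum_add_distrib, ← Finset.mul_sum, ← Finset.mul_sum,
    ← Finset.mul_sum]
  have h1 := mul_le_mul_of_nonneg_left hharm (by positivity : (0 : ℝ) ≤ ε / 4)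
  have h2 : ε / 4 * (1 + Real.log N) + 2 * (ε / 16 * Real.log N) ≤ ε * Real.log N := by
    nlinarith
  linarith

end Helper11.QR
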